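import Pool.Agent.H51K.KazGap

/-!
Almost invariant subsets of finite sets with an action of a Kazhdan group are close to invariant
subsets.
-/

set_option autoImplicit false
open Finset

namespace Pool.Agent.FS84

open Pool.Agent.H51K

variable {G : Type} [Group G]

theorem gapF (hG : IsKazhdan G) :
    ∃ (F : Finset G) (ε : ℝ), 0 < ε ∧ ∀ (H : Type) [NormedAddCommGroup H]
      [InnerProductSpace ℂ H] [CompleteSpace H] (ρ : G →* (H ≃ₗᵢ[ℂ] H)) (v : H),
      v ∈ (invS ρ)ᗮ → ε ^ 2 * ‖v‖ ^ 2 ≤ ∑ a ∈ F, ‖ρ a v - v‖ ^ 2 := by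
  obtain ⟨F, ε, hε, hT⟩ := hG
  refine ⟨F, ε, hε, ?_⟩
  intro H _ _ _ ρ v hv
  by_contra hcon
  have hcon' := not_le.1 hcon
  have hv0 : v ≠ 0 := by
    rintro rfl
    have : (0 : ℝ) ≤ ∑ a ∈ F, ‖ρ a (0 : H) - 0‖ ^ 2 := Finset.sum_nonneg fun _ _ => sq_nonneg _
    simp only [norm_zero, ne_eq, OfNat.ofNat_ne_zero, not_false_eq_true, zero_pow,
      mul_zero] at hcon'
    linarith
  have h1 : ∃ w : (invS ρ)ᗮ, w ≠ 0 ∧ ∀ a, orthRep ρ a w = w := by
    apply hT ((invS ρ)ᗮ : Submodule ℂ H) (orthRep ρ)
    refine ⟨⟨v, hv⟩, ?_, ?_⟩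
    · intro h
      exact hv0 (congrArg Subtype.val h)
    · intro a ha
      show ‖ρ a v - v‖ ≤ ε * ‖v‖
      have h2 : ‖ρ a v - v‖ ^ 2 ≤ ∑ a ∈ F, ‖ρ a v - v‖ ^ 2 :=
        Finset.single_le_sum (f := fun a => ‖ρ a v - v‖ ^ 2) (fun _ _ => sq_nonneg _) ha
      have h3 : ‖ρ a v - v‖ ^ 2 < (ε * ‖v‖) ^ 2 := by
        rw [mul_pow]
        linarith
      exact le_of_lt (lt_of_pow_lt_pow_left₀ 2 (by positivity) h3)
  obtain ⟨w, hw0, hw⟩ := h1
  apply hw0
  have h5 : (w : H) ∈ invS ρ := by
    intro a
    exact congrArg Subtype.val (hw a)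
  have h6 : inner ℂ (w : H) (w : H) = 0 := (Submodule.mem_orthogonal _ _).1 w.2 _ h5
  have h7 : (w : H) = 0 := inner_self_eq_zero.1 h6
  exact Subtype.ext h7

/-- the permutation representation -/
noncomputable def permRep {X : Type} [Fintype X] (ρ : G →* Equiv.Perm X) :
    G →* (EuclideanSpace ℂ X ≃ₗᵢ[ℂ] EuclideanSpace ℂ X) where
  toFun g := LinearIsometryEquiv.piLpCongrLeft 2 ℂ ℂ (ρ g)
  map_one' := by
    ext v x
    show v ((ρ 1).symm x) = v x
    rw [map_one]
    rfl
  map_mul' g h := by
    ext v x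
    show v ((ρ (g * h)).symm x) = v ((ρ h).symm ((ρ g).symm x))
    rw [map_mul]
    rfl

theorem permRep_apply {X : Type} [Fintype X] (ρ : G →* Equiv.Perm X) (g : G)
    (v : EuclideanSpace ℂ X) (x : X) : permRep ρ g v x = v ((ρ g).symm x) := rfl

/-- indicator vector -/
noncomputable def ind {X : Type} [Fintype X] [DecidableEq X] (A : Finset X) :
    EuclideanSpace ℂ X := WithLp.toLp 2 (fun x => if x ∈ A then (1 : ℂ) else 0)

theorem ind_apply {X : Type} [Fintype X] [DecidableEq X] (A : Finset X) (x : X) :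
    ind A x = if x ∈ A then (1 : ℂ) else 0 := rfl

theorem card_out_in {X : Type} [Fintype X] [DecidableEq X] (σ : Equiv.Perm X) (A : Finset X) :
    (univ.filter fun x => x ∉ A ∧ σ x ∈ A).card = (A.filter fun x => σ x ∉ A).card := by
  have h1 : (A.filter fun x => σ x ∉ A).card + (A.filter fun x => σ x ∈ A).card = A.card := by
    rw [add_comm]
    exact Finset.card_filter_add_card_filter_not (s := A) (fun x => σ x ∈ A)
  have h2 : (univ.filter fun x => σ x ∈ A).card = A.card := by
    apply Finset.card_bij (fun x _ => σ x)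
    · intro x hx
      exact (Finset.mem_filter.1 hx).2
    · intro x _ y _ h
      exact σ.injective h
    · intro y hy
      exact ⟨σ.symm y, by simp [hy], by simp⟩
  have h3 : (univ.filter fun x => x ∉ A ∧ σ x ∈ A).card + (A.filter fun x => σ x ∈ A).card
      = (univ.filter fun x => σ x ∈ A).card := by
    rw [← Finset.card_union_of_disjoint]
    · congr 1
      ext x
      simp only [mem_union, mem_filter, mem_univ, true_and]
      tauto
    · rw [Finset.disjoint_left]
      intro x hx hx'
      simp only [mem_filter, mem_univ, true_and] at hx hx'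
      exact hx.1 hx'.1
  omega

theorem norm_move {X : Type} [Fintype X] [DecidableEq X] (ρ : G →* Equiv.Perm X) (g : G)
    (A : Finset X) :
    ‖permRep ρ g (ind A) - ind A‖ ^ 2 = 2 * ((A.filter fun x => ρ g x ∉ A).card : ℝ) := by
  rw [EuclideanSpace.norm_sq_eq]
  have e : ∀ x, ‖(permRep ρ g (ind A) - ind A) x‖ ^ 2
      = (if (ρ g).symm x ∈ A ∧ x ∉ A then (1 : ℝ) else 0)
        + (if (ρ g).symm x ∉ A ∧ x ∈ A then (1 : ℝ) else 0) := by
    intro x
    have : (permRep ρ g (ind A) - ind A) x = ind A ((ρ g).symm x) - ind A x := rfl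
    rw [this, ind_apply, ind_apply]
    by_cases h1 : (ρ g).symm x ∈ A <;> by_cases h2 : x ∈ A <;> simp [h1, h2]
  rw [Finset.sum_congr rfl fun x _ => e x, Finset.sum_add_distrib, Finset.sum_boole,
    Finset.sum_boole]
  have h1 : (univ.filter fun x => (ρ g).symm x ∈ A ∧ x ∉ A).card
      = (A.filter fun x => ρ g x ∉ A).card := by
    symm
    apply Finset.card_bij (fun x _ => ρ g x)
    · intro x hx
      have := Finset.mem_filter.1 hx
      simp [this.1, this.2]
    · intro x _ y _ h
      exact (ρ g).injective h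
    · intro y hy
      have := (Finset.mem_filter.1 hy).2
      exact ⟨(ρ g).symm y, by simp [this.1, this.2], by simp⟩
  have h2 : (univ.filter fun x => (ρ g).symm x ∉ A ∧ x ∈ A).card
      = (A.filter fun x => ρ g x ∉ A).card := by
    rw [← card_out_in (ρ g) A]
    symm
    apply Finset.card_bij (fun x _ => ρ g x)
    · intro x hx
      have := (Finset.mem_filter.1 hx).2
      simp [this.1, this.2]
    · intro x _ y _ h
      exact (ρ g).injective h
    · intro y hy
      have := (Finset.mem_filter.1 hy).2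
      exact ⟨(ρ g).symm y, by simp [this.1, this.2], by simp⟩
  rw [h1, h2]
  ring

/-- a set of points is invariant -/
def Inv {X : Type} (ρ : G →* Equiv.Perm X) (B : Finset X) : Prop := ∀ g x, ρ g x ∈ B ↔ x ∈ B

/-- almost invariant sets are close to invariant sets, for all actions on finite sets -/
def HasNear (G : Type) [Group G] : Prop :=
    ∃ (F : Finset G) (C : ℝ), 0 < C ∧ ∀ (X : Type) [Fintype X] [DecidableEq X]
      (ρ : G →* Equiv.Perm X) (A : Finset X), ∃ B : Finset X, Inv ρ B ∧
        ((A \ B).card + (B \ A).card : ℝ) ≤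
          C * ∑ a ∈ F, ((A.filter fun x => ρ a x ∉ A).card : ℝ)

/-- LEMMA 1 -/
theorem near_invariant (hG : IsKazhdan G) : HasNear G := by
  classical
  obtain ⟨F, ε, hε, hgap⟩ := gapF hG
  refine ⟨F, 8 / ε ^ 2, by positivity, ?_⟩
  intro X _ _ ρ A
  obtain ⟨y, hy, z, hz, hvyz⟩ :=
    Submodule.exists_add_mem_mem_orthogonal (K := invS (permRep ρ)) (ind A)
  have hyx : ∀ g x, y (ρ g x) = y x := by
    intro g x
    have h1 := hy g
    have h2 : permRep ρ g y (ρ g x) = y (ρ g x) := by rw [h1]
    rw [permRep_apply] at h2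
    simpa using h2.symm
  have hmove : ∀ a, permRep ρ a z - z = permRep ρ a (ind A) - ind A := by
    intro a
    rw [hvyz, map_add, hy a]
    abel
  have h1 := hgap _ (permRep ρ) z hz
  rw [Finset.sum_congr rfl fun a _ => by rw [hmove a, norm_move]] at h1
  refine ⟨univ.filter fun x => (1 : ℝ) / 2 < (y x).re, ?_, ?_⟩
  · intro g x
    simp only [mem_filter, mem_univ, true_and, hyx]
  · set B := univ.filter fun x => (1 : ℝ) / 2 < (y x).re with hB
    have hzx : ∀ x, z x = ind A x - y x := by
      intro x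
      rw [hvyz]
      simp
    have h2 : ((A \ B).card + (B \ A).card : ℝ) * (1 / 4) ≤ ‖z‖ ^ 2 := by
      rw [EuclideanSpace.norm_sq_eq]
      have hdis : Disjoint (A \ B) (B \ A) := by
        rw [Finset.disjoint_left]
        intro x hx hx'
        exact (Finset.mem_sdiff.1 hx').2 (Finset.mem_sdiff.1 hx).1
      have h3 : ((A \ B).card + (B \ A).card : ℝ) * (1 / 4)
          = ∑ x ∈ (A \ B) ∪ (B \ A), (1 / 4 : ℝ) := by
        rw [Finset.sum_const, Finset.card_union_of_disjoint hdis]
        simp
      rw [h3]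
      calc ∑ x ∈ (A \ B) ∪ (B \ A), (1 / 4 : ℝ)
          ≤ ∑ x ∈ (A \ B) ∪ (B \ A), ‖z x‖ ^ 2 := by
            apply Finset.sum_le_sum
            intro x hx
            have hre : |(z x).re| ≤ ‖z x‖ := Complex.abs_re_le_norm _
            have h4 : 1 / 2 ≤ |(z x).re| := by
              rcases Finset.mem_union.1 hx with hx | hx
              · have h5 := Finset.mem_sdiff.1 hx
                have h6 : (y x).re ≤ 1 / 2 := by
                  by_contra hc
                  exact h5.2 (by simp only [hB, mem_filter, mem_univ, true_and]; linarith)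
                rw [hzx, ind_apply, if_pos h5.1]
                rw [Complex.sub_re, Complex.one_re]
                rw [le_abs]
                left
                linarith
              · have h5 := Finset.mem_sdiff.1 hx
                have h6 : 1 / 2 < (y x).re := by
                  have := h5.1
                  simpa only [hB, mem_filter, mem_univ, true_and] using this
                rw [hzx, ind_apply, if_neg h5.2]
                rw [Complex.sub_re, Complex.zero_re]
                rw [le_abs]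
                right
                linarith
            have h7 : 1 / 2 ≤ ‖z x‖ := h4.trans hre
            nlinarith
        _ ≤ ∑ x, ‖z x‖ ^ 2 :=
            Finset.sum_le_sum_of_subset_of_nonneg (Finset.subset_univ _)
              fun _ _ _ => sq_nonneg _
    have h3 : ε ^ 2 * (((A \ B).card + (B \ A).card : ℝ) * (1 / 4)) ≤
        2 * ∑ a ∈ F, ((A.filter fun x => ρ a x ∉ A).card : ℝ) := by
      rw [Finset.mul_sum]
      exact (mul_le_mul_of_nonneg_left h2 (by positivity)).trans h1
    rw [div_mul_eq_mul_div, le_div_iff₀ (by positivity)]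
    linarith

end Pool.Agent.FS84
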