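import Pool.Agent.FS84.FinalN
import Pool.Agent.IRS.Tits
import Pool.Agent.TAU.Has

/-!
The amalgam of two copies of `SL_k(ℤ)`: the amalgamated subgroup is dense modulo integers prime to
`p`, and the numbers of points moved by the powers of the elementary matrices.
-/

set_option autoImplicit false
open Finset

namespace Pool.Agent.FS84

open Pool.Agent.TAU

theorem tv_eq_el {k : ℕ} (i j : Fin k) (h : i ≠ j) (t : ℤ) : tv i j h t = el i j h t := rfl

theorem el_mem_conjA (n p : ℕ) [NeZero p] (i j : Fin (n + 3)) (h : i ≠ j) (t : ℤ) :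
    el i j h ((p : ℤ) ^ 2 * t) ∈ conjA n p := by
  obtain ⟨z, hz⟩ := dg_int n p (NeZero.ne p) i j
  change el i j h ((p : ℤ) ^ 2 * t) ∈ conjSub (slQ (n + 3)) (gEl n p)
  rw [mem_conjSub]
  refine ⟨el i j h (z * t), ?_⟩
  rw [← tv_eq_el, ← tv_eq_el, slQ_tv, slQ_tv, gEl_tv]
  congr 1
  push_cast
  rw [hz]
  ring

theorem el_mem_range (n p : ℕ) [NeZero p] (i j : Fin (n + 3)) (h : i ≠ j) (t : ℤ) :
    el i j h ((p : ℤ) ^ 2 * t) ∈ (conjHom n p).range := by
  obtain ⟨z, hz⟩ := dg_int n p (NeZero.ne p) j i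
  rw [conjHom_range, mem_conjSub]
  refine ⟨el i j h (z * t), ?_⟩
  rw [← tv_eq_el, ← tv_eq_el, slQ_tv, slQ_tv, gEl_inv_tv]
  congr 1
  push_cast
  rw [hz]
  ring

theorem el_add {k : ℕ} (i j : Fin k) (h : i ≠ j) (s t : ℤ) :
    el i j h (s + t) = el i j h s * el i j h t := by
  apply Subtype.ext
  exact (Matrix.transvection_mul_transvection_same i j h s t).symm

/-- a subgroup with the `e_ij(p² t)` and a normal subgroup with the `e_ij(m t)`, `m` prime to `p`,
generate the group -/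
theorem exists_coset (k p m : ℕ) (hk : 2 ≤ k) (hpm : Nat.Coprime p m) (C N : Subgroup (SL k))
    [N.Normal] (hC : ∀ (i j : Fin k) (h : i ≠ j) (t : ℤ), el i j h ((p : ℤ) ^ 2 * t) ∈ C)
    (hN : ∀ (i j : Fin k) (h : i ≠ j) (t : ℤ), el i j h ((m : ℤ) * t) ∈ N) (x : SL k) :
    ∃ c ∈ C, c⁻¹ * x ∈ N := by
  have htop : C ⊔ N = ⊤ := by
    rw [eq_top_iff, ← gen k hk, Subgroup.closure_le]
    rintro _ ⟨i, j, h, t, rfl⟩
    have hco : IsCoprime ((p : ℤ) ^ 2) (m : ℤ) :=
      IsCoprime.pow_left (Nat.isCoprime_iff_coprime.2 hpm)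
    obtain ⟨u, v, huv⟩ := hco
    have e : t = (p : ℤ) ^ 2 * (u * t) + (m : ℤ) * (v * t) := by
      have : t = (u * (p : ℤ) ^ 2 + v * (m : ℤ)) * t := by rw [huv, one_mul]
      linarith
    rw [e, el_add]
    exact mul_mem (Subgroup.mem_sup_left (hC i j h _)) (Subgroup.mem_sup_right (hN i j h _))
  have hx : x ∈ ((C ⊔ N : Subgroup (SL k)) : Set (SL k)) := by rw [htop]; trivial
  rw [Subgroup.mul_normal] at hx
  obtain ⟨c, hc, y, hy, rfl⟩ := Set.mem_mul.1 hx
  exact ⟨c, hc, by rw [inv_mul_cancel_left]; exact hy⟩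

theorem el_comm' {k : ℕ} (i j l : Fin k) (hij : i ≠ j) (hil : i ≠ l) (hlj : l ≠ j) (t : ℤ) :
    el i l hil 1 * el l j hlj t = el i j hij t * el l j hlj t * el i l hil 1 := by
  apply Subtype.ext
  rw [Matrix.SpecialLinearGroup.coe_mul, Matrix.SpecialLinearGroup.coe_mul,
    Matrix.SpecialLinearGroup.coe_mul]
  change Matrix.transvection i l (1 : ℤ) * Matrix.transvection l j t =
    Matrix.transvection i j t * Matrix.transvection l j t * Matrix.transvection i l 1
  unfold Matrix.transvection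
  simp only [mul_add, add_mul, one_mul, mul_one, Matrix.single_mul_single_same,
    Matrix.single_mul_single_of_ne _ _ _ _ hij.symm,
    Matrix.single_mul_single_of_ne _ _ _ _ hlj.symm, add_zero]
  abel

section Moved

variable {k : ℕ} {W : Type} [Fintype W] [DecidableEq W] (ρ : SL k →* Equiv.Perm W)
  (V : Finset W) (hV : Inv ρ V)

include hV

theorem moved_aux (x y z : SL k) (h : ∀ v, ρ x v = v → ρ x (ρ y⁻¹ v) = ρ y⁻¹ v → ρ z v = v) :
    (V.filter fun v => ρ z v ≠ v).card ≤ 2 * (V.filter fun v => ρ x v ≠ v).card := by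
  have h1 : (V.filter fun v => ρ z v ≠ v) ⊆ (V.filter fun v => ρ x v ≠ v) ∪
      (V.filter fun v => ρ x v ≠ v).image (ρ y) := by
    intro v hv
    rw [mem_filter] at hv
    rw [mem_union]
    by_contra hcon
    rw [not_or] at hcon
    apply hv.2
    apply h v
    · by_contra h2
      exact hcon.1 (mem_filter.2 ⟨hv.1, h2⟩)
    · by_contra h2
      apply hcon.2
      rw [mem_image]
      refine ⟨ρ y⁻¹ v, mem_filter.2 ⟨(hV _ _).2 hv.1, h2⟩, ?_⟩
      rw [← Equiv.Perm.mul_apply, ← map_mul, mul_inv_cancel, map_one]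
      rfl
  have h2 := (Finset.card_le_card h1).trans (Finset.card_union_le _ _)
  have h3 := Finset.card_image_le (s := V.filter fun v => ρ x v ≠ v) (f := ρ y)
  omega

theorem moved_row (i j l : Fin k) (hij : i ≠ j) (hil : i ≠ l) (hlj : l ≠ j) (t : ℤ) :
    (V.filter fun v => ρ (el i j hij t) v ≠ v).card ≤
      2 * (V.filter fun v => ρ (el i l hil t) v ≠ v).card := by
  apply moved_aux ρ V hV _ (el l j hlj 1)
  intro v h1 h2
  have h3 : el i j hij t * (el l j hlj 1 * el i l hil t) = el i l hil t * el l j hlj 1 := by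
    rw [← mul_assoc]
    exact (el_comm i j l hij hil hlj t).symm
  have e1 : ρ (el l j hlj 1 * el i l hil t) (ρ (el l j hlj 1)⁻¹ v) = v := by
    rw [map_mul, Equiv.Perm.mul_apply, h2, ← Equiv.Perm.mul_apply, ← map_mul, mul_inv_cancel,
      map_one]
    rfl
  have e2 : ρ (el i l hil t * el l j hlj 1) (ρ (el l j hlj 1)⁻¹ v) = v := by
    rw [map_mul, Equiv.Perm.mul_apply]
    have e3 : ρ (el l j hlj 1) (ρ (el l j hlj 1)⁻¹ v) = v := by
      rw [← Equiv.Perm.mul_apply, ← map_mul, mul_inv_cancel, map_one]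
      rfl
    rw [e3, h1]
  rw [← h3, map_mul, Equiv.Perm.mul_apply, e1] at e2
  exact e2

theorem moved_col (i j l : Fin k) (hij : i ≠ j) (hil : i ≠ l) (hlj : l ≠ j) (t : ℤ) :
    (V.filter fun v => ρ (el i j hij t) v ≠ v).card ≤
      2 * (V.filter fun v => ρ (el l j hlj t) v ≠ v).card := by
  apply moved_aux ρ V hV _ (el i l hil 1)
  intro v h1 h2
  have h3 : el i j hij t * (el l j hlj t * el i l hil 1) = el i l hil 1 * el l j hlj t := by
    rw [← mul_assoc]
    exact (el_comm' i j l hij hil hlj t).symm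
  have e0 : el i j hij t = el i l hil 1 * el l j hlj t * (el i l hil 1)⁻¹ * (el l j hlj t)⁻¹ := by
    rw [← h3]
    group
  have h4 : ρ (el l j hlj t)⁻¹ v = v := by
    rw [map_inv, Equiv.Perm.inv_eq_iff_eq]
    exact h1.symm
  rw [e0, map_mul, Equiv.Perm.mul_apply, h4, map_mul, Equiv.Perm.mul_apply, map_mul,
    Equiv.Perm.mul_apply, h2, ← Equiv.Perm.mul_apply, ← map_mul, mul_inv_cancel, map_one]
  rfl

/-- all elementary matrices `e_ab(t)` move at most `8` times as many points as one of them -/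
theorem moved_all (c d : Fin k) (hcd : c ≠ d) (hk : 3 ≤ k) (t : ℤ) (a b : Fin k) (hab : a ≠ b) :
    (V.filter fun v => ρ (el a b hab t) v ≠ v).card ≤
      8 * (V.filter fun v => ρ (el c d hcd t) v ≠ v).card := by
  have hrow : ∀ (b' : Fin k) (hcb : c ≠ b'), (V.filter fun v => ρ (el c b' hcb t) v ≠ v).card ≤
      2 * (V.filter fun v => ρ (el c d hcd t) v ≠ v).card := by
    intro b' hcb
    by_cases h : b' = d
    · subst h
      omega
    · exact moved_row ρ V hV c b' d hcb hcd (Ne.symm h) t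
  have hcol : ∀ (a' b' : Fin k) (h : a' ≠ b') (hcb : c ≠ b'),
      (V.filter fun v => ρ (el a' b' h t) v ≠ v).card ≤
      4 * (V.filter fun v => ρ (el c d hcd t) v ≠ v).card := by
    intro a' b' h hcb
    by_cases h1 : a' = c
    · subst h1
      have := hrow b' h
      omega
    · have h2 := moved_col ρ V hV a' b' c h h1 hcb t
      have h3 := hrow b' hcb
      omega
  by_cases hbc : c = b
  · subst hbc
    obtain ⟨l, hl1, hl2⟩ : ∃ l : Fin k, l ≠ a ∧ l ≠ c := by
      have hcard : ({a, c} : Finset (Fin k)).card < (univ : Finset (Fin k)).card := by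
        rw [Finset.card_univ, Fintype.card_fin]
        exact lt_of_le_of_lt Finset.card_le_two (by omega)
      obtain ⟨l, -, hl⟩ := Finset.exists_mem_notMem_of_card_lt_card hcard
      rw [mem_insert, mem_singleton, not_or] at hl
      exact ⟨l, hl.1, hl.2⟩
    have h1 := moved_row ρ V hV a c l hab (Ne.symm hl1) hl2 t
    have h2 := hcol a l (Ne.symm hl1) (Ne.symm hl2)
    omega
  · have := hcol a b hab hbc
    omega

/-- the points moved by some `e_ab(t)` -/
theorem moved_some (c d : Fin k) (hcd : c ≠ d) (hk : 3 ≤ k) (t : ℤ) :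
    (V.filter fun v => ∃ (a b : Fin k) (h : a ≠ b), ρ (el a b h t) v ≠ v).card ≤
      8 * k ^ 2 * (V.filter fun v => ρ (el c d hcd t) v ≠ v).card := by
  classical
  have h1 : (V.filter fun v => ∃ (a b : Fin k) (h : a ≠ b), ρ (el a b h t) v ≠ v) ⊆
      (univ : Finset (Fin k × Fin k)).biUnion fun q =>
        V.filter fun v => ∃ h : q.1 ≠ q.2, ρ (el q.1 q.2 h t) v ≠ v := by
    intro v hv
    rw [mem_filter] at hv
    obtain ⟨hvV, a, b, h, h2⟩ := hv
    rw [mem_biUnion]
    exact ⟨(a, b), mem_univ _, mem_filter.2 ⟨hvV, h, h2⟩⟩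
  have h2 : ∀ q ∈ (univ : Finset (Fin k × Fin k)),
      (V.filter fun v => ∃ h : q.1 ≠ q.2, ρ (el q.1 q.2 h t) v ≠ v).card ≤
        8 * (V.filter fun v => ρ (el c d hcd t) v ≠ v).card := by
    intro q _
    by_cases h : q.1 = q.2
    · have : (V.filter fun v => ∃ h : q.1 ≠ q.2, ρ (el q.1 q.2 h t) v ≠ v) = ∅ := by
        rw [Finset.filter_eq_empty_iff]
        rintro v _ ⟨h', _⟩
        exact h' h
      rw [this]
      simp
    · refine le_trans (Finset.card_le_card ?_) (moved_all ρ V hV c d hcd hk t q.1 q.2 h)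
      intro v hv
      rw [mem_filter] at hv ⊢
      exact ⟨hv.1, hv.2.2⟩
  have h3 := (Finset.card_le_card h1).trans (Finset.card_biUnion_le_card_mul _ _ _ h2)
  refine h3.trans (le_of_eq ?_)
  rw [Finset.card_univ, Fintype.card_prod, Fintype.card_fin]
  ring

end Moved

/-- the points fixed by all `e_ab(M)` are fixed by the normal subgroup generated by the
`e_ab(M² t)` -/
theorem fix_normal {k : ℕ} (hk : 3 ≤ k) {W : Type} (ρ : SL k →* Equiv.Perm W) (M : ℤ) (v : W)
    (hv : ∀ (a b : Fin k) (h : a ≠ b), ρ (el a b h M) v = v) (x : SL k)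
    (hx : x ∈ Subgroup.normalClosure {x : SL k | ∃ (i j : Fin k) (h : i ≠ j) (t : ℤ),
      x = el i j h (M * M * t)}) : ρ x v = v := by
  obtain ⟨K, hK⟩ : ∃ K : Subgroup (SL k), ∀ y, y ∈ K ↔ ρ y v = v :=
    ⟨(MulAction.stabilizer (Equiv.Perm W) v).comap ρ, fun y => Iff.rfl⟩
  have hle : Subgroup.normalClosure {x : SL k | ∃ (i j : Fin k) (h : i ≠ j) (t : ℤ),
      x = el i j h (M * M * t)} ≤ K := by
    unfold Subgroup.normalClosure
    rw [Subgroup.closure_le]
    intro y hy
    obtain ⟨z, ⟨i, j, h, t, rfl⟩, hzy⟩ := Group.mem_conjugatesOfSet_iff.1 hy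
    obtain ⟨g, rfl⟩ := isConj_iff.1 hzy
    exact Pool.Agent.IRS.tits k hk M K (fun a b h => (hK _).2 (hv a b h)) g i j h t
  exact (hK x).1 (hle hx)

end Pool.Agent.FS84
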