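import Pool.Agent.FS84.AmA

/-!
A partial bijection of two finite `SL_k(ℤ)`-sets, compatible with the amalgamated subgroup, on
which the `M`-th powers of the elementary matrices act trivially, `M` prime to `p`, carries an
action of the amalgam.
-/

set_option autoImplicit false
open Finset

namespace Pool.Agent.FS84

open Pool.Agent.TAU

/-- an action on the image of an injective map gives an action -/
theorem lift_action {G T W : Type} [Group G] (ρ : G →* Equiv.Perm W) (π : T → W)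
    (hπ : Function.Injective π) (h : ∀ g t, ∃ t', π t' = ρ g (π t)) :
    ∃ ρ' : G →* Equiv.Perm T, ∀ g t, π (ρ' g t) = ρ g (π t) := by
  choose s hs using h
  have hs1 : ∀ t, s 1 t = t := by
    intro t
    apply hπ
    rw [hs, map_one]
    rfl
  have hsm : ∀ g h t, s (g * h) t = s g (s h t) := by
    intro g h t
    apply hπ
    rw [hs, hs, hs, map_mul]
    rfl
  have hinv : ∀ g t, s g⁻¹ (s g t) = t := by
    intro g t
    rw [← hsm, inv_mul_cancel, hs1]
  have hinv' : ∀ g t, s g (s g⁻¹ t) = t := by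
    intro g t
    rw [← hsm, mul_inv_cancel, hs1]
  refine ⟨{ toFun := fun g => ⟨s g, s g⁻¹, hinv g, hinv' g⟩
            map_one' := by
              ext t
              exact hs1 t
            map_mul' := by
              intro g h
              ext t
              exact hsm g h t }, ?_⟩
  intro g t
  exact hs g t

/-- the universal property of the amalgam -/
theorem amalgam_lift (n p : ℕ) [NeZero p] {Q : Type} [Group Q]
    (f₁ f₂ : Matrix.SpecialLinearGroup (Fin (n + 3)) ℤ →* Q)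
    (h : ∀ c : conjA n p, f₁ c = f₂ (conjHom n p c)) :
    ∃ F : Amalgam n p →* Q, (∀ g, F (amalgIncl n p false g) = f₁ g) ∧
      ∀ g, F (amalgIncl n p true g) = f₂ g := by
  refine ⟨Monoid.PushoutI.lift (G := fun _ : Bool => Matrix.SpecialLinearGroup (Fin (n + 3)) ℤ)
    (fun i => match i with | false => f₁ | true => f₂) (f₁.comp (conjA n p).subtype) ?_, ?_, ?_⟩
  · intro i
    cases i
    · rfl
    · ext c
      exact (h c).symm
  · intro g
    exact Monoid.PushoutI.lift_of (G := fun _ : Bool => Matrix.SpecialLinearGroup (Fin (n + 3)) ℤ)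
      _ _ _ g
  · intro g
    exact Monoid.PushoutI.lift_of (G := fun _ : Bool => Matrix.SpecialLinearGroup (Fin (n + 3)) ℤ)
      _ _ _ g

theorem amalgIncl_eq (n p : ℕ) [NeZero p] (c : conjA n p) :
    amalgIncl n p false c = amalgIncl n p true (conjHom n p c) :=
  (Monoid.PushoutI.of_apply_eq_base
    (G := fun _ : Bool => Matrix.SpecialLinearGroup (Fin (n + 3)) ℤ) (twoMaps n p) false c).trans
    (Monoid.PushoutI.of_apply_eq_base
      (G := fun _ : Bool => Matrix.SpecialLinearGroup (Fin (n + 3)) ℤ) (twoMaps n p) true c).symm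

/-- the amalgam is generated by the two copies of `SL_k(ℤ)` -/
theorem amalgam_gen (n p : ℕ) [NeZero p] (S : Subgroup (Amalgam n p))
    (hS : ∀ i g, amalgIncl n p i g ∈ S) (x : Amalgam n p) : x ∈ S := by
  induction x using Monoid.PushoutI.induction_on with
  | of i g => exact hS i g
  | base c =>
    have h : Monoid.PushoutI.base (G := fun _ : Bool => Matrix.SpecialLinearGroup (Fin (n + 3)) ℤ)
        (twoMaps n p) c = amalgIncl n p false c :=
      (Monoid.PushoutI.of_apply_eq_base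
        (G := fun _ : Bool => Matrix.SpecialLinearGroup (Fin (n + 3)) ℤ) (twoMaps n p)
          false c).symm
    rw [h]
    exact hS false c
  | mul x y hx hy => exact mul_mem hx hy

/-- the normal subgroup generated by the `e_ij(M² t)` -/
abbrev nM (k : ℕ) (M : ℤ) : Subgroup (SL k) :=
  Subgroup.normalClosure {x : SL k | ∃ (i j : Fin k) (h : i ≠ j) (t : ℤ), x = el i j h (M * M * t)}

theorem coset_conjA (n p M : ℕ) [NeZero p] (hM : Nat.Coprime p M) (g : SL (n + 3)) :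
    ∃ c : conjA n p, (c : SL (n + 3))⁻¹ * g ∈ nM (n + 3) M := by
  obtain ⟨c, hc, h⟩ := exists_coset (n + 3) p (M * M) (by omega) (Nat.Coprime.mul_right hM hM)
    (conjA n p) (nM (n + 3) M) (el_mem_conjA n p) (by
      intro i j h t
      apply Subgroup.subset_normalClosure
      exact ⟨i, j, h, t, by push_cast; rfl⟩) g
  exact ⟨⟨c, hc⟩, h⟩

theorem coset_range (n p M : ℕ) [NeZero p] (hM : Nat.Coprime p M) (g : SL (n + 3)) :
    ∃ c : conjA n p, (conjHom n p c)⁻¹ * g ∈ nM (n + 3) M := by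
  obtain ⟨c, ⟨c', rfl⟩, h⟩ := exists_coset (n + 3) p (M * M) (by omega)
    (Nat.Coprime.mul_right hM hM) (conjHom n p).range (nM (n + 3) M) (el_mem_range n p) (by
      intro i j h t
      apply Subgroup.subset_normalClosure
      exact ⟨i, j, h, t, by push_cast; rfl⟩) g
  exact ⟨c', h⟩

/-- STEP GLUE -/
theorem glue (n p M : ℕ) [NeZero p] (hM : Nat.Coprime p M) {W₁ W₂ : Type}
    (ρ₁ : SL (n + 3) →* Equiv.Perm W₁) (ρ₂ : SL (n + 3) →* Equiv.Perm W₂) (D : Finset (W₁ × W₂))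
    (hD1 : ∀ d ∈ D, ∀ d' ∈ D, d.1 = d'.1 → d = d')
    (hD2 : ∀ d ∈ D, ∀ d' ∈ D, d.2 = d'.2 → d = d')
    (hDc : ∀ (c : conjA n p), ∀ d ∈ D, (ρ₁ c d.1, ρ₂ (conjHom n p c) d.2) ∈ D)
    (hf₁ : ∀ d ∈ D, ∀ x ∈ nM (n + 3) M, ρ₁ x d.1 = d.1)
    (hf₂ : ∀ d ∈ D, ∀ x ∈ nM (n + 3) M, ρ₂ x d.2 = d.2) :
    ∃ ρ : Amalgam n p →* Equiv.Perm {d // d ∈ D},
      (∀ g d, (ρ (amalgIncl n p false g) d).1.1 = ρ₁ g d.1.1) ∧
      ∀ g d, (ρ (amalgIncl n p true g) d).1.2 = ρ₂ g d.1.2 := by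
  have hinj1 : Function.Injective fun t : {d // d ∈ D} => t.1.1 := by
    intro t t' h
    exact Subtype.ext (hD1 t.1 t.2 t'.1 t'.2 h)
  have hinj2 : Function.Injective fun t : {d // d ∈ D} => t.1.2 := by
    intro t t' h
    exact Subtype.ext (hD2 t.1 t.2 t'.1 t'.2 h)
  obtain ⟨σ₁, hσ₁⟩ := lift_action ρ₁ (fun t : {d // d ∈ D} => t.1.1) hinj1 (by
    rintro g ⟨d, hd⟩
    obtain ⟨c, hc⟩ := coset_conjA n p M hM g
    refine ⟨⟨_, hDc c d hd⟩, ?_⟩
    change ρ₁ c d.1 = ρ₁ g d.1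
    have h1 := hf₁ d hd _ hc
    rw [map_mul, map_inv, Equiv.Perm.mul_apply, Equiv.Perm.inv_eq_iff_eq] at h1
    exact h1.symm)
  obtain ⟨σ₂, hσ₂⟩ := lift_action ρ₂ (fun t : {d // d ∈ D} => t.1.2) hinj2 (by
    rintro g ⟨d, hd⟩
    obtain ⟨c, hc⟩ := coset_range n p M hM g
    refine ⟨⟨_, hDc c d hd⟩, ?_⟩
    change ρ₂ (conjHom n p c) d.2 = ρ₂ g d.2
    have h1 := hf₂ d hd _ hc
    rw [map_mul, map_inv, Equiv.Perm.mul_apply, Equiv.Perm.inv_eq_iff_eq] at h1
    exact h1.symm)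
  have hcomp : ∀ c : conjA n p, σ₁ c = σ₂ (conjHom n p c) := by
    intro c
    ext1 t
    have h1 : σ₁ c t = ⟨_, hDc c t.1 t.2⟩ := hinj1 (hσ₁ c t)
    have h2 : σ₂ (conjHom n p c) t = ⟨_, hDc c t.1 t.2⟩ := hinj2 (hσ₂ _ t)
    rw [h1, h2]
  obtain ⟨F, hF1, hF2⟩ := amalgam_lift n p σ₁ σ₂ hcomp
  refine ⟨F, fun g d => ?_, fun g d => ?_⟩
  · rw [hF1]
    exact hσ₁ g d
  · rw [hF2]
    exact hσ₂ g d

end Pool.Agent.FS84
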