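import Pool.Agent.FS84.AmB

/-!
Finite sets with an action of the amalgam: the elementary matrices have orders prime to `p`, and
almost invariant sets are close to invariant sets.
-/

set_option autoImplicit false
open Finset

namespace Pool.Agent.FS84

open Pool.Agent.TAU

theorem sl_explicit (n p : ℕ) (hp : 2 ≤ p) [NeZero p] :
    (∃ a : conjA n p, (a : SL (n + 3)) = el 0 2 (ne02 n) 1 ∧
      conjHom n p a = (el 0 2 (ne02 n) 1) ^ p) ∧
    (∃ b : conjA n p, (b : SL (n + 3)) = (el 1 2 (ne12 n) 1) ^ p ∧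
      conjHom n p b = el 1 2 (ne12 n) 1) ∧
    (el 0 2 (ne02 n) 1 : SL (n + 3)) ∉ (conjHom n p).range ∧
    (el 1 2 (ne12 n) 1 : SL (n + 3)) ∉ conjA n p := by
  have hp0 : (p : ℚ) ≠ 0 := by exact_mod_cast (show p ≠ 0 by omega)
  have hal : slQ (n + 3) (tv 0 2 (ne02 n) (1 : ℤ) ^ p) =
      gEl n p * slQ (n + 3) (tv 0 2 (ne02 n) (1 : ℤ)) * (gEl n p)⁻¹ := by
    rw [tv_pow, slQ_tv, slQ_tv, gEl_tv, dg_zero, dg_two]
    congr 1
    push_cast
    ring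
  have hbe : slQ (n + 3) (tv 1 2 (ne12 n) (1 : ℤ)) =
      gEl n p * slQ (n + 3) (tv 1 2 (ne12 n) (1 : ℤ) ^ p) * (gEl n p)⁻¹ := by
    rw [tv_pow, slQ_tv, slQ_tv, gEl_tv, dg_one, dg_two]
    congr 1
    push_cast
    rw [mul_one, inv_mul_cancel₀ hp0, div_one]
  refine ⟨⟨⟨_, mem_conjSub.2 ⟨_, hal⟩⟩, rfl, ?_⟩, ⟨⟨_, mem_conjSub.2 ⟨_, hbe⟩⟩, rfl, ?_⟩, ?_, ?_⟩
  · apply slQ_injective
    change slQ (n + 3) (conjIso _ (slQ_injective (n + 3)) (gEl n p) _ :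
      Matrix.SpecialLinearGroup (Fin (n + 3)) ℤ) = _
    rw [conjIso_spec]
    exact hal.symm
  · apply slQ_injective
    change slQ (n + 3) (conjIso _ (slQ_injective (n + 3)) (gEl n p) _ :
      Matrix.SpecialLinearGroup (Fin (n + 3)) ℤ) = _
    rw [conjIso_spec]
    exact hbe.symm
  · intro h
    rw [conjHom_range] at h
    obtain ⟨d, hd⟩ := mem_conjSub.1 h
    rw [← tv_eq_el, slQ_tv, gEl_inv_tv, dg_zero, dg_two] at hd
    apply tv_not_int p 0 2 (ne02 n) hp d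
    rw [hd]
    congr 1
    push_cast
    rw [mul_one, one_div]
  · intro h
    obtain ⟨d, hd⟩ := mem_conjSub.1 h
    rw [← tv_eq_el, slQ_tv, gEl_tv, dg_one, dg_two] at hd
    apply tv_not_int p 1 2 (ne12 n) hp d
    rw [hd]
    congr 1
    push_cast
    rw [mul_one, div_one]

/-- the relations of the elementary matrices used in the counting lemma -/
theorem el_relations (n : ℕ) :
    (el 0 2 (ne02 n) 1 * el 1 2 (ne12 n) 1 : SL (n + 3)) = el 1 2 (ne12 n) 1 * el 0 2 (ne02 n) 1 ∧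
    (el 1 0 (ne01 n).symm 1 * el 0 2 (ne02 n) 1 : SL (n + 3)) =
      el 0 2 (ne02 n) 1 * el 1 2 (ne12 n) 1 * el 1 0 (ne01 n).symm 1 ∧
    (el 1 0 (ne01 n).symm 1 * el 1 2 (ne12 n) 1 : SL (n + 3)) =
      el 1 2 (ne12 n) 1 * el 1 0 (ne01 n).symm 1 ∧
    (el 0 1 (ne01 n) 1 * el 1 2 (ne12 n) 1 : SL (n + 3)) =
      el 0 2 (ne02 n) 1 * el 1 2 (ne12 n) 1 * el 0 1 (ne01 n) 1 ∧
    (el 0 1 (ne01 n) 1 * el 0 2 (ne02 n) 1 : SL (n + 3)) =
      el 0 2 (ne02 n) 1 * el 0 1 (ne01 n) 1 := by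
  simp only [← tv_eq_el]
  refine ⟨?_, ?_, ?_, ?_, ?_⟩
  · exact tv_comm_of _ _ _ _ _ _ (ne12 n).symm (ne02 n).symm _ _
  · rw [tv_twist 1 0 2 (ne01 n).symm (ne02 n) (ne12 n)]
    rw [tv_comm_of 0 2 1 2 (ne02 n) (ne12 n) (ne12 n).symm (ne02 n).symm]
  · exact tv_comm_of _ _ _ _ _ _ (ne01 n) (ne12 n).symm _ _
  · exact tv_twist 0 1 2 (ne01 n) (ne12 n) (ne02 n)
  · exact tv_comm_of _ _ _ _ _ _ (ne01 n).symm (ne02 n).symm _ _

theorem el_pow_nat {k : ℕ} (i j : Fin k) (h : i ≠ j) (m : ℕ) :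
    (el i j h 1 : SL k) ^ m = el i j h m := by
  rw [← tv_eq_el, tv_pow, mul_one, tv_eq_el]

/-- the counting lemma for two finite `SL_k(ℤ)`-sets -/
theorem count_moved (n p : ℕ) (hp : 2 ≤ p) [NeZero p] {W₁ W₂ : Type} [Fintype W₁]
    [DecidableEq W₁] [Fintype W₂] [DecidableEq W₂] (ρ₁ : SL (n + 3) →* Equiv.Perm W₁)
    (ρ₂ : SL (n + 3) →* Equiv.Perm W₂) (V₁ : Finset W₁) (hV₁ : Inv ρ₁ V₁) (V₂ : Finset W₂)
    (hV₂ : Inv ρ₂ V₂) (D : Finset (W₁ × W₂)) (hDV : ∀ d ∈ D, d.1 ∈ V₁ ∧ d.2 ∈ V₂)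
    (hD1 : ∀ d ∈ D, ∀ d' ∈ D, d.1 = d'.1 → d = d')
    (hD2 : ∀ d ∈ D, ∀ d' ∈ D, d.2 = d'.2 → d = d')
    (hDc : ∀ (c : conjA n p), ∀ d ∈ D, (ρ₁ c d.1, ρ₂ (conjHom n p c) d.2) ∈ D) :
    ∃ M : ℕ, Nat.Coprime p M ∧
      (V₁.filter fun v => ∃ (a b : Fin (n + 3)) (h : a ≠ b), ρ₁ (el a b h M) v ≠ v).card +
      (V₂.filter fun v => ∃ (a b : Fin (n + 3)) (h : a ≠ b), ρ₂ (el a b h M) v ≠ v).card +
      96 * (n + 3) ^ 2 * D.card ≤ 48 * (n + 3) ^ 2 * V₁.card + 48 * (n + 3) ^ 2 * V₂.card := by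
  classical
  obtain ⟨⟨a, ha, hφa⟩, ⟨b, hb, hφb⟩, -, -⟩ := sl_explicit n p hp
  obtain ⟨hab, h1a, h1b, h2b, h2a⟩ := el_relations n
  obtain ⟨e, M, hM, hM0, heM⟩ := prime_part p
    (Fintype.card (Equiv.Perm W₁) * Fintype.card (Equiv.Perm W₂))
    (mul_ne_zero Fintype.card_ne_zero Fintype.card_ne_zero)
  have hpow₁ : ∀ g : Equiv.Perm W₁, g ^ (p ^ e * M) = 1 := by
    intro g
    obtain ⟨c, hc⟩ := (Dvd.intro _ rfl : Fintype.card (Equiv.Perm W₁) ∣ _).trans heM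
    rw [hc, pow_mul, pow_card_eq_one, one_pow]
  have hpow₂ : ∀ g : Equiv.Perm W₂, g ^ (p ^ e * M) = 1 := by
    intro g
    obtain ⟨c, hc⟩ := (Dvd.intro_left _ rfl : Fintype.card (Equiv.Perm W₂) ∣ _).trans heM
    rw [hc, pow_mul, pow_card_eq_one, one_pow]
  obtain ⟨α, hα⟩ : ∃ α : SL (n + 3), α = el 0 2 (ne02 n) 1 := ⟨_, rfl⟩
  obtain ⟨β, hβ⟩ : ∃ β : SL (n + 3), β = el 1 2 (ne12 n) 1 := ⟨_, rfl⟩
  obtain ⟨k₁, hk₁⟩ : ∃ k₁ : SL (n + 3), k₁ = el 1 0 (ne01 n).symm 1 := ⟨_, rfl⟩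
  obtain ⟨k₂, hk₂⟩ : ∃ k₂ : SL (n + 3), k₂ = el 0 1 (ne01 n) 1 := ⟨_, rfl⟩
  rw [← hα, ← hβ] at hab
  rw [← hα, ← hβ, ← hk₁] at h1a
  rw [← hβ, ← hk₁] at h1b
  rw [← hα, ← hβ, ← hk₂] at h2b
  rw [← hα, ← hk₂] at h2a
  rw [← hα] at ha hφa
  rw [← hβ] at hb hφb
  have hcnt := hnn_count_both (ρ₁ α) (ρ₁ β) (ρ₁ k₁) (ρ₁ k₂) (ρ₂ α) (ρ₂ β) (ρ₂ k₁) (ρ₂ k₂)
    (by rw [← map_mul, ← map_mul, hab]) (by rw [← map_mul, ← map_mul, ← map_mul, h1a])
    (by rw [← map_mul, ← map_mul, h1b]) (by rw [← map_mul, ← map_mul, ← map_mul, h2b])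
    (by rw [← map_mul, ← map_mul, h2a])
    (by rw [← map_mul, ← map_mul, hab]) (by rw [← map_mul, ← map_mul, ← map_mul, h1a])
    (by rw [← map_mul, ← map_mul, h1b]) (by rw [← map_mul, ← map_mul, ← map_mul, h2b])
    (by rw [← map_mul, ← map_mul, h2a]) p M e (hpow₁ _) (hpow₁ _) (hpow₂ _) (hpow₂ _)
    V₁ (hV₁ k₁) (hV₁ k₂) V₂ (hV₂ k₁) (hV₂ k₂) D hDV hD1 hD2
    (by
      intro d hd
      have h1 := hDc a d hd
      rw [hφa, ha, map_pow] at h1
      exact h1)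
    (by
      intro d hd
      have h1 := hDc b d hd
      rw [hφb, hb, map_pow] at h1
      exact h1)
  refine ⟨M, hM, ?_⟩
  have hαM : α ^ M = el 0 2 (ne02 n) M := by rw [hα, el_pow_nat]
  have h1 : (V₁.filter fun v => ρ₁ (el 0 2 (ne02 n) M) v ≠ v).card ≤
      (V₁.filter fun v => ¬ (((ρ₁ α) ^ M) v = v ∧ ((ρ₁ β) ^ M) v = v)).card := by
    apply Finset.card_le_card
    intro v hv
    rw [mem_filter] at hv ⊢
    refine ⟨hv.1, fun h => hv.2 ?_⟩
    rw [← hαM, map_pow]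
    exact h.1
  have h2 : (V₂.filter fun v => ρ₂ (el 0 2 (ne02 n) M) v ≠ v).card ≤
      (V₂.filter fun v => ¬ (((ρ₂ α) ^ M) v = v ∧ ((ρ₂ β) ^ M) v = v)).card := by
    apply Finset.card_le_card
    intro v hv
    rw [mem_filter] at hv ⊢
    refine ⟨hv.1, fun h => hv.2 ?_⟩
    rw [← hαM, map_pow]
    exact h.1
  have h3 := moved_some ρ₁ V₁ hV₁ 0 2 (ne02 n) (by omega) M
  have h4 := moved_some ρ₂ V₂ hV₂ 0 2 (ne02 n) (by omega) M
  obtain ⟨K, hK⟩ : ∃ K : ℕ, K = (n + 3) ^ 2 := ⟨_, rfl⟩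
  rw [← hK] at h3 h4 ⊢
  have h5 : 8 * K * ((V₁.filter fun v => ρ₁ (el 0 2 (ne02 n) M) v ≠ v).card +
      (V₂.filter fun v => ρ₂ (el 0 2 (ne02 n) M) v ≠ v).card + 12 * D.card) ≤
      8 * K * (6 * V₁.card + 6 * V₂.card) := by
    apply Nat.mul_le_mul_left
    omega
  nlinarith

/-- in a finite set with an action of the amalgam -/
theorem amalgam_finite (n p : ℕ) (hp : 2 ≤ p) [NeZero p] {X : Type} [Fintype X] [DecidableEq X]
    (ρ : Amalgam n p →* Equiv.Perm X) : ∃ M : ℕ, Nat.Coprime p M ∧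
      (∀ (x : X) (a b : Fin (n + 3)) (h : a ≠ b),
        ρ (amalgIncl n p false (el a b h M)) x = x) ∧
      ∀ (x : X) (a b : Fin (n + 3)) (h : a ≠ b), ρ (amalgIncl n p true (el a b h M)) x = x := by
  classical
  obtain ⟨M, hM, h⟩ := count_moved n p hp (ρ.comp (amalgIncl n p false))
    (ρ.comp (amalgIncl n p true)) univ (fun _ _ => by simp) univ (fun _ _ => by simp)
    ((univ : Finset X).image fun x => (x, x)) (fun _ _ => ⟨mem_univ _, mem_univ _⟩)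
    (by
      intro d hd d' hd' h
      obtain ⟨x, -, rfl⟩ := mem_image.1 hd
      obtain ⟨x', -, rfl⟩ := mem_image.1 hd'
      change x = x' at h
      rw [h])
    (by
      intro d hd d' hd' h
      obtain ⟨x, -, rfl⟩ := mem_image.1 hd
      obtain ⟨x', -, rfl⟩ := mem_image.1 hd'
      change x = x' at h
      rw [h])
    (by
      intro c d hd
      obtain ⟨x, -, rfl⟩ := mem_image.1 hd
      rw [mem_image]
      refine ⟨ρ (amalgIncl n p false c) x, mem_univ _, ?_⟩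
      change (ρ (amalgIncl n p false c) x, ρ (amalgIncl n p false c) x) =
        (ρ (amalgIncl n p false c) x, ρ (amalgIncl n p true (conjHom n p c)) x)
      rw [← amalgIncl_eq])
  have hDc : ((univ : Finset X).image fun x => (x, x)).card = (univ : Finset X).card :=
    Finset.card_image_of_injective _ fun x y h => congrArg Prod.fst h
  rw [hDc] at h
  have h1 : (univ.filter fun v => ∃ (a b : Fin (n + 3)) (h : a ≠ b),
      (ρ.comp (amalgIncl n p false)) (el a b h M) v ≠ v).card = 0 := by nlinarith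
  have h2 : (univ.filter fun v => ∃ (a b : Fin (n + 3)) (h : a ≠ b),
      (ρ.comp (amalgIncl n p true)) (el a b h M) v ≠ v).card = 0 := by nlinarith
  rw [Finset.card_eq_zero, Finset.filter_eq_empty_iff] at h1 h2
  refine ⟨M, hM, ?_, ?_⟩
  · intro x a b hab
    by_contra hc
    exact h1 (mem_univ x) ⟨a, b, hab, hc⟩
  · intro x a b hab
    by_contra hc
    exact h2 (mem_univ x) ⟨a, b, hab, hc⟩

/-- in a finite set with an action of the amalgam, the second copy acts through the first -/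
theorem amalgam_true (n p : ℕ) (hp : 2 ≤ p) [NeZero p] {X : Type} [Fintype X] [DecidableEq X]
    (ρ : Amalgam n p →* Equiv.Perm X) (g : SL (n + 3)) :
    ∃ c : conjA n p, ∀ x, ρ (amalgIncl n p true g) x = ρ (amalgIncl n p false c) x := by
  obtain ⟨M, hM, -, h2⟩ := amalgam_finite n p hp ρ
  obtain ⟨c, hc⟩ := coset_range n p M hM g
  refine ⟨c, ?_⟩
  intro x
  have h3 := fix_normal (by omega) (ρ.comp (amalgIncl n p true)) M x (h2 x) _ hc
  rw [map_mul, map_inv, Equiv.Perm.mul_apply, Equiv.Perm.inv_eq_iff_eq] at h3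
  rw [amalgIncl_eq]
  exact h3

theorem amalgIncl_injective (n p : ℕ) [NeZero p] (i : Bool) :
    Function.Injective (amalgIncl n p i) := by
  apply Monoid.PushoutI.of_injective
  intro i
  cases i
  · exact Subgroup.subtype_injective _
  · exact conjHom_injective n p

/-- almost invariant sets of the amalgam are close to invariant sets -/
theorem hasNear_amalgam (n p : ℕ) (hp : 2 ≤ p) [NeZero p] : HasNear (Amalgam n p) := by
  classical
  obtain ⟨F, C, hC, h⟩ := hasNear (n + 3) (by omega)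
  refine ⟨F.image (amalgIncl n p false), C, hC, ?_⟩
  intro X _ _ ρ A
  obtain ⟨B, hB, hcard⟩ := h X (ρ.comp (amalgIncl n p false)) A
  refine ⟨B, ?_, ?_⟩
  · obtain ⟨S, hS⟩ : ∃ S : Subgroup (Amalgam n p), ∀ y, y ∈ S ↔ ∀ x, ρ y x ∈ B ↔ x ∈ B := by
      refine ⟨{ carrier := {y | ∀ x, ρ y x ∈ B ↔ x ∈ B}
                mul_mem' := ?_
                one_mem' := ?_
                inv_mem' := ?_ }, fun y => Iff.rfl⟩
      · intro y z hy hz x
        rw [map_mul, Equiv.Perm.mul_apply, hy, hz]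
      · intro x
        rw [map_one]
        rfl
      · intro y hy x
        have h1 := hy (ρ y⁻¹ x)
        rw [← Equiv.Perm.mul_apply, ← map_mul, mul_inv_cancel, map_one] at h1
        exact h1.symm
    intro y
    apply (hS y).1
    apply amalgam_gen n p S
    intro i g
    rw [hS]
    cases i
    · exact hB g
    · obtain ⟨c, hc⟩ := amalgam_true n p hp ρ g
      intro x
      rw [hc x]
      exact hB c x
  · rw [Finset.sum_image fun x _ y _ h => amalgIncl_injective n p false h]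
    exact hcard

end Pool.Agent.FS84
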