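import Pool.Agent.FS84.AmC

/-!
Almost-actions of the amalgam are close to actions on finite sets, if `SL_k(ℤ)` is flexibly stable.
-/

set_option autoImplicit false
open Finset Filter Topology

namespace Pool.Agent.FS84

open Pool.Agent.TAU

/-- the number of the good points where `j` is not equivariant for `g` -/
noncomputable def err {P T : Type} [Group P] {N : ℕ} (f : P → Equiv.Perm (Fin N))
    (ρ : P →* Equiv.Perm T) (j : Fin N → T) (Good : Fin N → Prop) (g : P) : ℝ :=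
  cP fun x => Good x ∧ (¬ Good (f g x) ∨ j (f g x) ≠ ρ g (j x))

theorem err_mul {P T : Type} [Group P] {N : ℕ} (f : P → Equiv.Perm (Fin N))
    (ρ : P →* Equiv.Perm T) (j : Fin N → T) (Good : Fin N → Prop) (g h : P) :
    err f ρ j Good (g * h) ≤ err f ρ j Good g + err f ρ j Good h +
      cP fun x => f g (f h x) ≠ f (g * h) x := by
  have h1 : err f ρ j Good (g * h) ≤
      cP (fun x => (Good (f h x) ∧ (¬ Good (f g (f h x)) ∨ j (f g (f h x)) ≠ ρ g (j (f h x)))) ∨
        (Good x ∧ (¬ Good (f h x) ∨ j (f h x) ≠ ρ h (j x)))) +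
      cP (fun x => f g (f h x) ≠ f (g * h) x) := by
    apply cP_or
    rintro x ⟨hx, hx2⟩
    by_cases h2 : f g (f h x) = f (g * h) x
    · left
      rw [← h2] at hx2
      by_cases h3 : Good (f h x) ∧ j (f h x) = ρ h (j x)
      · left
        refine ⟨h3.1, ?_⟩
        rcases hx2 with h4 | h4
        · exact Or.inl h4
        · right
          intro h5
          apply h4
          rw [h5, h3.2, map_mul]
          rfl
      · right
        refine ⟨hx, ?_⟩
        by_cases h4 : Good (f h x)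
        · right
          intro h5
          exact h3 ⟨h4, h5⟩
        · exact Or.inl h4
    · right
      exact h2
  have h2 : cP (fun x => (Good (f h x) ∧ (¬ Good (f g (f h x)) ∨
        j (f g (f h x)) ≠ ρ g (j (f h x)))) ∨
        (Good x ∧ (¬ Good (f h x) ∨ j (f h x) ≠ ρ h (j x)))) ≤
      cP (fun x => Good (f h x) ∧ (¬ Good (f g (f h x)) ∨
        j (f g (f h x)) ≠ ρ g (j (f h x)))) + err f ρ j Good h := cP_or fun _ h => h
  have h3 := cP_pull (f h) (fun x => Good x ∧ (¬ Good (f g x) ∨ j (f g x) ≠ ρ g (j x)))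
  have h4 : cP (fun x => Good (f h x) ∧ (¬ Good (f g (f h x)) ∨
        j (f g (f h x)) ≠ ρ g (j (f h x)))) = err f ρ j Good g := h3
  linarith

theorem amalgam_ind (n p : ℕ) [NeZero p] (motive : Amalgam n p → Prop)
    (hof : ∀ i g, motive (amalgIncl n p i g)) (hmul : ∀ x y, motive x → motive y → motive (x * y))
    (x : Amalgam n p) : motive x := by
  induction x using Monoid.PushoutI.induction_on with
  | of i g => exact hof i g
  | base c =>
    have h : Monoid.PushoutI.base (G := fun _ : Bool => Matrix.SpecialLinearGroup (Fin (n + 3)) ℤ)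
        (twoMaps n p) c = amalgIncl n p false c :=
      (Monoid.PushoutI.of_apply_eq_base
        (G := fun _ : Bool => Matrix.SpecialLinearGroup (Fin (n + 3)) ℤ) (twoMaps n p)
          false c).symm
    rw [h]
    exact hof false c
  | mul x y hx hy => exact hmul x y hx hy

/-- the error of `g` is small if the errors of finitely many letters are small -/
def NearG (n p : ℕ) [NeZero p] (g : Amalgam n p) : Prop :=
  ∀ ε : ℝ, 0 < ε → ∃ (F1 : Finset (SL (n + 3))) (K : Finset (Amalgam n p)) (δ : ℝ), 0 < δ ∧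
    ∀ (N : ℕ) (f : Amalgam n p → Equiv.Perm (Fin N)) (T : Type) (ρ : Amalgam n p →* Equiv.Perm T)
      (j : Fin N → T) (Good : Fin N → Prop),
      (∀ s ∈ K, ∀ t ∈ K, (cP fun x => f s (f t x) ≠ f (s * t) x) ≤ δ * N) →
      (∀ (i : Bool), ∀ a ∈ F1, err f ρ j Good (amalgIncl n p i a) ≤ δ * N) →
      err f ρ j Good g ≤ ε * N

theorem nearG (n p : ℕ) [NeZero p] (g : Amalgam n p) : NearG n p g := by
  classical
  apply amalgam_ind n p (NearG n p)
  · intro i g ε hε
    exact ⟨{g}, ∅, ε, hε, fun N f T ρ j Good _ h => h i g (mem_singleton_self g)⟩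
  · intro x y hx hy ε hε
    obtain ⟨F₁, K₁, δ₁, hδ₁, h₁⟩ := hx (ε / 3) (by positivity)
    obtain ⟨F₂, K₂, δ₂, hδ₂, h₂⟩ := hy (ε / 3) (by positivity)
    refine ⟨F₁ ∪ F₂, K₁ ∪ (K₂ ∪ {x, y}), min (min δ₁ δ₂) (ε / 3), by positivity, ?_⟩
    intro N f T ρ j Good hK hF
    have hN0 : (0 : ℝ) ≤ N := Nat.cast_nonneg N
    have e1 : min (min δ₁ δ₂) (ε / 3) * N ≤ δ₁ * N :=
      mul_le_mul_of_nonneg_right ((min_le_left _ _).trans (min_le_left _ _)) hN0
    have e2 : min (min δ₁ δ₂) (ε / 3) * N ≤ δ₂ * N :=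
      mul_le_mul_of_nonneg_right ((min_le_left _ _).trans (min_le_right _ _)) hN0
    have e3 : min (min δ₁ δ₂) (ε / 3) * N ≤ ε / 3 * N :=
      mul_le_mul_of_nonneg_right (min_le_right _ _) hN0
    have h3 := h₁ N f T ρ j Good
      (fun s hs t ht => (hK s (mem_union_left _ hs) t (mem_union_left _ ht)).trans e1)
      (fun i a ha => (hF i a (mem_union_left _ ha)).trans e1)
    have h4 := h₂ N f T ρ j Good
      (fun s hs t ht => (hK s (mem_union_right _ (mem_union_left _ hs)) t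
        (mem_union_right _ (mem_union_left _ ht))).trans e2)
      (fun i a ha => (hF i a (mem_union_right _ ha)).trans e2)
    have h5 := (hK x (by simp) y (by simp)).trans e3
    have h6 := err_mul f ρ j Good x y
    linarith

theorem nearG_all (n p : ℕ) [NeZero p] (E : Finset (Amalgam n p)) (ε : ℝ) (hε : 0 < ε) :
    ∃ (F1 : Finset (SL (n + 3))) (K : Finset (Amalgam n p)) (δ : ℝ), 0 < δ ∧
    ∀ (N : ℕ) (f : Amalgam n p → Equiv.Perm (Fin N)) (T : Type) (ρ : Amalgam n p →* Equiv.Perm T)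
      (j : Fin N → T) (Good : Fin N → Prop),
      (∀ s ∈ K, ∀ t ∈ K, (cP fun x => f s (f t x) ≠ f (s * t) x) ≤ δ * N) →
      (∀ (i : Bool), ∀ a ∈ F1, err f ρ j Good (amalgIncl n p i a) ≤ δ * N) →
      ∀ g ∈ E, err f ρ j Good g ≤ ε * N := by
  classical
  induction E using Finset.induction_on with
  | empty => exact ⟨∅, ∅, 1, one_pos, fun _ _ _ _ _ _ _ _ g hg => absurd hg (notMem_empty g)⟩
  | insert g E _ ih =>
    obtain ⟨F₁, K₁, δ₁, hδ₁, h₁⟩ := ih
    obtain ⟨F₂, K₂, δ₂, hδ₂, h₂⟩ := nearG n p g ε hε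
    refine ⟨F₁ ∪ F₂, K₁ ∪ K₂, min δ₁ δ₂, by positivity, ?_⟩
    intro N f T ρ j Good hK hF
    have hN0 : (0 : ℝ) ≤ N := Nat.cast_nonneg N
    have e1 : min δ₁ δ₂ * N ≤ δ₁ * N := mul_le_mul_of_nonneg_right (min_le_left _ _) hN0
    have e2 : min δ₁ δ₂ * N ≤ δ₂ * N := mul_le_mul_of_nonneg_right (min_le_right _ _) hN0
    intro g' hg'
    rcases mem_insert.1 hg' with rfl | hg'
    · exact h₂ N f T ρ j Good
        (fun s hs t ht => (hK s (mem_union_right _ hs) t (mem_union_right _ ht)).trans e2)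
        (fun i a ha => (hF i a (mem_union_right _ ha)).trans e2)
    · exact h₁ N f T ρ j Good
        (fun s hs t ht => (hK s (mem_union_left _ hs) t (mem_union_left _ ht)).trans e1)
        (fun i a ha => (hF i a (mem_union_left _ ha)).trans e1) g' hg'

/-- STEP MODEL -/
theorem amalgam_model (n p : ℕ) (hp : 2 ≤ p) [NeZero p] (hst : FlexStable (SL (n + 3)))
    (E : Finset (Amalgam n p)) (ε : ℝ) (hε : 0 < ε) :
    ∃ (K : Finset (Amalgam n p)) (δ : ℝ), 0 < δ ∧
      ∀ (N : ℕ) (f : Amalgam n p → Equiv.Perm (Fin N)), 0 < N →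
      (∀ s ∈ K, ∀ t ∈ K, (cP fun x => f s (f t x) ≠ f (s * t) x) ≤ δ * N) →
      ∃ (m : ℕ) (ρ : Amalgam n p →* Equiv.Perm (Fin m)) (j : Fin N → Fin m)
        (Good : Fin N → Prop), (cP fun x => ¬ Good x) ≤ ε * N ∧
        (∀ x y, Good x → Good y → j x = j y → x = y) ∧
        ∀ g ∈ E, err f ρ j Good g ≤ ε * N := by
  classical
  have hcount : Countable (SL (n + 3)) := by
    unfold SL Matrix.SpecialLinearGroup Matrix
    infer_instance
  have hfi : (conjA n p).FiniteIndex := conjSub_finiteIndex n p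
  obtain ⟨F1, K₀, δ₀, hδ₀, hall⟩ := nearG_all n p E ε hε
  obtain ⟨R, hR⟩ : ∃ R : ℝ, R = 2 + 192 * ((n : ℝ) + 3) ^ 2 := ⟨_, rfl⟩
  have hR0 : 0 < R := by rw [hR]; positivity
  have hR2 : 2 ≤ R := by rw [hR]; nlinarith [sq_nonneg ((n : ℝ) + 3)]
  obtain ⟨η, hη⟩ : ∃ η : ℝ, η = min (min (δ₀ / 2) (ε / 2)) (1 / 2) / R := ⟨_, rfl⟩
  have hη0 : 0 < η := by rw [hη]; positivity
  have hRη : R * η = min (min (δ₀ / 2) (ε / 2)) (1 / 2) := by
    rw [hη]
    field_simp
  have hRη1 : R * η ≤ δ₀ / 2 := by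
    rw [hRη]
    exact (min_le_left _ _).trans (min_le_left _ _)
  have hRη2 : R * η ≤ ε / 2 := by
    rw [hRη]
    exact (min_le_left _ _).trans (min_le_right _ _)
  have hRη3 : R * η ≤ 1 / 2 := by
    rw [hRη]
    exact min_le_right _ _
  have hηR : η ≤ R * η := by nlinarith
  obtain ⟨E', δ', hδ', hmod⟩ := hnn_model2 (hasNear (n + 3) (by omega)) hst
    (hasNear_subgroup (conjA n p) (hasNear (n + 3) (by omega))) (conjHom n p) F1 η hη0
  refine ⟨K₀ ∪ (E'.image (amalgIncl n p false) ∪ E'.image (amalgIncl n p true)), min δ₀ δ',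
    by positivity, ?_⟩
  intro N f hN hmul
  have hN0 : (0 : ℝ) < N := by exact_mod_cast hN
  have e1 : min δ₀ δ' * N ≤ δ₀ * N := mul_le_mul_of_nonneg_right (min_le_left _ _) hN0.le
  have e2 : min δ₀ δ' * N ≤ δ' * N := mul_le_mul_of_nonneg_right (min_le_right _ _) hN0.le
  have hK : ∀ (i : Bool), ∀ g ∈ E', amalgIncl n p i g ∈
      K₀ ∪ (E'.image (amalgIncl n p false) ∪ E'.image (amalgIncl n p true)) := by
    intro i g hg
    apply mem_union_right
    cases i
    · exact mem_union_left _ (mem_image_of_mem _ hg)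
    · exact mem_union_right _ (mem_image_of_mem _ hg)
  have hm : ∀ i : Bool, ∀ g ∈ E', ∀ h ∈ E', ((univ.filter fun x =>
      f (amalgIncl n p i g) (f (amalgIncl n p i h) x) ≠ f (amalgIncl n p i (g * h)) x).card : ℝ) ≤
        δ' * N := by
    intro i g hg h hh
    have h1 := (hmul _ (hK i g hg) _ (hK i h hh)).trans e2
    rw [← map_mul, cP_eq] at h1
    exact h1
  obtain ⟨m₁, m₂, ρ₁, ρ₂, ι₁, ι₂, V₁, V₂, D, hι₁, hι₂, hV₁, hV₂, hF₁, hF₂, hDV, hD1, hD2, hDc,
    hDx, hVc₁, hVc₂⟩ := hmod N (fun g => f (amalgIncl n p false g))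
      (fun g => f (amalgIncl n p true g)) hN (hm false) (hm true) (by
      intro c _
      have h1 : (univ.filter fun x => f (amalgIncl n p false c) x ≠
          f (amalgIncl n p true (conjHom n p c)) x) = ∅ := by
        rw [Finset.filter_eq_empty_iff]
        intro x _
        rw [amalgIncl_eq, not_not]
      rw [h1]
      simp only [card_empty, Nat.cast_zero]
      positivity)
  obtain ⟨M, hM, hcnt⟩ := count_moved n p hp ρ₁ ρ₂ V₁ hV₁ V₂ hV₂ D hDV hD1 hD2 hDc
  -- the pairs fixed by the normal subgroup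
  obtain ⟨D', hD'⟩ : ∃ D' : Finset (Fin m₁ × Fin m₂), ∀ d, d ∈ D' ↔ d ∈ D ∧
      (∀ x ∈ nM (n + 3) M, ρ₁ x d.1 = d.1) ∧ ∀ x ∈ nM (n + 3) M, ρ₂ x d.2 = d.2 :=
    ⟨D.filter fun d => (∀ x ∈ nM (n + 3) M, ρ₁ x d.1 = d.1) ∧
      ∀ x ∈ nM (n + 3) M, ρ₂ x d.2 = d.2, fun d => mem_filter⟩
  have hnorm : ∀ {W : Type} (ρ : SL (n + 3) →* Equiv.Perm W) (v : W),
      (∀ x ∈ nM (n + 3) M, ρ x v = v) → ∀ g, ∀ x ∈ nM (n + 3) M, ρ x (ρ g v) = ρ g v := by
    intro W ρ v hv g x hx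
    have h1 : g⁻¹ * x * g ∈ nM (n + 3) M := by
      have h2 := (Subgroup.normalClosure_normal (s := {x : SL (n + 3) |
        ∃ (i j : Fin (n + 3)) (h : i ≠ j) (t : ℤ), x = el i j h ((M : ℤ) * M * t)})).conj_mem
          x hx g⁻¹
      rw [inv_inv] at h2
      exact h2
    have h2 := hv _ h1
    have h3 : g * (g⁻¹ * x * g) = x * g := by group
    rw [← Equiv.Perm.mul_apply, ← map_mul, ← h3, map_mul, Equiv.Perm.mul_apply, h2]
  obtain ⟨ρ, hρ1, hρ2⟩ := glue n p M hM ρ₁ ρ₂ D'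
    (fun d hd d' hd' => hD1 d ((hD' d).1 hd).1 d' ((hD' d').1 hd').1)
    (fun d hd d' hd' => hD2 d ((hD' d).1 hd).1 d' ((hD' d').1 hd').1)
    (by
      intro c d hd
      rw [hD'] at hd ⊢
      exact ⟨hDc c d hd.1, hnorm ρ₁ _ hd.2.1 _, hnorm ρ₂ _ hd.2.2 _⟩)
    (fun d hd => ((hD' d).1 hd).2.1) (fun d hd => ((hD' d).1 hd).2.2)
  -- the number of points of `D`
  have hDx' : cP (fun x => (ι₁ x, ι₂ x) ∉ D) ≤ η * N := by
    rw [cP_eq]
    exact hDx
  have hDcard : (N : ℝ) ≤ D.card + η * N := by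
    have h1 := cP_compl (fun x => (ι₁ x, ι₂ x) ∉ D)
    have h2 : cP (fun x => ¬ (ι₁ x, ι₂ x) ∉ D) ≤ D.card := by
      rw [cP_eq]
      have h3 : (univ.filter fun x => ¬ (ι₁ x, ι₂ x) ∉ D).card ≤ D.card := by
        apply Finset.card_le_card_of_injOn (fun x => (ι₁ x, ι₂ x))
        · intro x hx
          have h4 := (mem_filter.1 (mem_coe.1 hx)).2
          exact mem_coe.2 (not_not.1 h4)
        · intro x _ y _ h
          exact hι₁ (congrArg Prod.fst h)
      exact_mod_cast h3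
    linarith
  obtain ⟨Good, hGood⟩ : ∃ Good : Fin N → Prop, ∀ x, Good x ↔ (ι₁ x, ι₂ x) ∈ D' :=
    ⟨_, fun _ => Iff.rfl⟩
  have hbad : cP (fun x => ¬ Good x) ≤ (R - 1) * η * N := by
    have h1 : cP (fun x => ¬ Good x) ≤ cP (fun x => (ι₁ x, ι₂ x) ∉ D) +
        cP (fun x => (ι₁ x ∈ V₁ ∧ ∃ (a b : Fin (n + 3)) (h : a ≠ b),
          ρ₁ (el a b h M) (ι₁ x) ≠ ι₁ x) ∨ (ι₂ x ∈ V₂ ∧ ∃ (a b : Fin (n + 3)) (h : a ≠ b),
          ρ₂ (el a b h M) (ι₂ x) ≠ ι₂ x)) := by
      apply cP_or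
      intro x hx
      by_cases h : (ι₁ x, ι₂ x) ∈ D
      · right
        by_contra hcon
        rw [not_or] at hcon
        apply hx
        rw [hGood, hD']
        refine ⟨h, ?_, ?_⟩
        · apply fix_normal (by omega) ρ₁ M (ι₁ x)
          intro a b hab
          by_contra hc
          exact hcon.1 ⟨(hDV _ h).1, a, b, hab, hc⟩
        · apply fix_normal (by omega) ρ₂ M (ι₂ x)
          intro a b hab
          by_contra hc
          exact hcon.2 ⟨(hDV _ h).2, a, b, hab, hc⟩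
      · left
        exact h
    have h2 : cP (fun x => (ι₁ x ∈ V₁ ∧ ∃ (a b : Fin (n + 3)) (h : a ≠ b),
          ρ₁ (el a b h M) (ι₁ x) ≠ ι₁ x) ∨ (ι₂ x ∈ V₂ ∧ ∃ (a b : Fin (n + 3)) (h : a ≠ b),
          ρ₂ (el a b h M) (ι₂ x) ≠ ι₂ x)) ≤
        cP (fun x => ι₁ x ∈ V₁ ∧ ∃ (a b : Fin (n + 3)) (h : a ≠ b),
          ρ₁ (el a b h M) (ι₁ x) ≠ ι₁ x) +
        cP (fun x => ι₂ x ∈ V₂ ∧ ∃ (a b : Fin (n + 3)) (h : a ≠ b),
          ρ₂ (el a b h M) (ι₂ x) ≠ ι₂ x) := cP_or fun _ h => h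
    have h3 : cP (fun x => ι₁ x ∈ V₁ ∧ ∃ (a b : Fin (n + 3)) (h : a ≠ b),
          ρ₁ (el a b h M) (ι₁ x) ≠ ι₁ x) ≤
        ((V₁.filter fun v => ∃ (a b : Fin (n + 3)) (h : a ≠ b),
          ρ₁ (el a b h M) v ≠ v).card : ℝ) := by
      rw [cP_eq]
      have h4 : (univ.filter fun x => ι₁ x ∈ V₁ ∧ ∃ (a b : Fin (n + 3)) (h : a ≠ b),
          ρ₁ (el a b h M) (ι₁ x) ≠ ι₁ x).card ≤
          (V₁.filter fun v => ∃ (a b : Fin (n + 3)) (h : a ≠ b),
            ρ₁ (el a b h M) v ≠ v).card := by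
        apply Finset.card_le_card_of_injOn (fun x => ι₁ x)
        · intro x hx
          have h4 := (mem_filter.1 (mem_coe.1 hx)).2
          exact mem_coe.2 (mem_filter.2 h4)
        · intro x _ y _ h
          exact hι₁ h
      exact_mod_cast h4
    have h5 : cP (fun x => ι₂ x ∈ V₂ ∧ ∃ (a b : Fin (n + 3)) (h : a ≠ b),
          ρ₂ (el a b h M) (ι₂ x) ≠ ι₂ x) ≤
        ((V₂.filter fun v => ∃ (a b : Fin (n + 3)) (h : a ≠ b),
          ρ₂ (el a b h M) v ≠ v).card : ℝ) := by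
      rw [cP_eq]
      have h4 : (univ.filter fun x => ι₂ x ∈ V₂ ∧ ∃ (a b : Fin (n + 3)) (h : a ≠ b),
          ρ₂ (el a b h M) (ι₂ x) ≠ ι₂ x).card ≤
          (V₂.filter fun v => ∃ (a b : Fin (n + 3)) (h : a ≠ b),
            ρ₂ (el a b h M) v ≠ v).card := by
        apply Finset.card_le_card_of_injOn (fun x => ι₂ x)
        · intro x hx
          have h4 := (mem_filter.1 (mem_coe.1 hx)).2
          exact mem_coe.2 (mem_filter.2 h4)
        · intro x _ y _ h
          exact hι₂ h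
      exact_mod_cast h4
    have h6 : ((V₁.filter fun v => ∃ (a b : Fin (n + 3)) (h : a ≠ b),
          ρ₁ (el a b h M) v ≠ v).card : ℝ) + ((V₂.filter fun v => ∃ (a b : Fin (n + 3))
          (h : a ≠ b), ρ₂ (el a b h M) v ≠ v).card : ℝ) + 96 * ((n : ℝ) + 3) ^ 2 * D.card ≤
        48 * ((n : ℝ) + 3) ^ 2 * V₁.card + 48 * ((n : ℝ) + 3) ^ 2 * V₂.card := by
      exact_mod_cast hcnt
    obtain ⟨Q, hQ⟩ : ∃ Q : ℝ, Q = ((n : ℝ) + 3) ^ 2 := ⟨_, rfl⟩
    have hQ0 : 0 ≤ Q := by rw [hQ]; positivity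
    rw [← hQ] at h6 hR
    have h7 : 48 * Q * (V₁.card : ℝ) ≤ 48 * Q * ((1 + η) * N) :=
      mul_le_mul_of_nonneg_left hVc₁ (by positivity)
    have h8 : 48 * Q * (V₂.card : ℝ) ≤ 48 * Q * ((1 + η) * N) :=
      mul_le_mul_of_nonneg_left hVc₂ (by positivity)
    have h9 : 96 * Q * (N : ℝ) ≤ 96 * Q * (D.card + η * N) :=
      mul_le_mul_of_nonneg_left hDcard (by positivity)
    rw [hR]
    nlinarith
  have hbad2 : cP (fun x => ¬ Good x) ≤ R * η * N := by
    refine hbad.trans (mul_le_mul_of_nonneg_right ?_ hN0.le)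
    nlinarith
  -- the map to the pairs
  obtain ⟨x0, hx0⟩ : ∃ x0, Good x0 := by
    by_contra hc
    push Not at hc
    have h1 := cP_compl (fun x => Good x)
    have h2 : cP (fun x => Good x) ≤ 0 := by
      rw [cP_eq, Finset.filter_false_of_mem fun x _ => hc x]
      simp
    nlinarith
  obtain ⟨j, hj⟩ : ∃ j : Fin N → {d // d ∈ D'}, ∀ x, Good x → (j x).1 = (ι₁ x, ι₂ x) := by
    refine ⟨fun x => if h : (ι₁ x, ι₂ x) ∈ D' then ⟨_, h⟩ else ⟨_, (hGood x0).1 hx0⟩, ?_⟩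
    intro x hx
    rw [hGood] at hx
    change (if h : (ι₁ x, ι₂ x) ∈ D' then (⟨_, h⟩ : {d // d ∈ D'}) else
      ⟨_, (hGood x0).1 hx0⟩).1 = (ι₁ x, ι₂ x)
    rw [dif_pos hx]
  have hlet : ∀ (i : Bool), ∀ a ∈ F1, err f ρ j Good (amalgIncl n p i a) ≤ δ₀ * N := by
    intro i a ha
    have hN1 : R * η * N ≤ δ₀ / 2 * N := mul_le_mul_of_nonneg_right hRη1 hN0.le
    cases i
    · have h1 : err f ρ j Good (amalgIncl n p false a) ≤
          cP (fun x => ¬ Good (f (amalgIncl n p false a) x)) +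
          cP (fun x => ρ₁ a (ι₁ x) ≠ ι₁ (f (amalgIncl n p false a) x)) := by
        apply cP_or
        rintro x ⟨hx, hx2⟩
        by_contra hcon
        rw [not_or, not_not, not_not] at hcon
        rcases hx2 with h2 | h2
        · exact h2 hcon.1
        · apply h2
          apply Subtype.ext
          apply hD1 _ ((hD' _).1 (j _).2).1 _ ((hD' _).1 (ρ _ _).2).1
          rw [hρ1, hj x hx, hj _ hcon.1]
          exact hcon.2.symm
      have h2 := cP_pull (f (amalgIncl n p false a)) (fun x => ¬ Good x)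
      have h3 : cP (fun x => ρ₁ a (ι₁ x) ≠ ι₁ (f (amalgIncl n p false a) x)) ≤ η * N := by
        rw [cP_eq]
        exact hF₁ a ha
      have h4 : η * N ≤ R * η * N := mul_le_mul_of_nonneg_right hηR hN0.le
      linarith
    · have h1 : err f ρ j Good (amalgIncl n p true a) ≤
          cP (fun x => ¬ Good (f (amalgIncl n p true a) x)) +
          cP (fun x => ρ₂ a (ι₂ x) ≠ ι₂ (f (amalgIncl n p true a) x)) := by
        apply cP_or
        rintro x ⟨hx, hx2⟩
        by_contra hcon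
        rw [not_or, not_not, not_not] at hcon
        rcases hx2 with h2 | h2
        · exact h2 hcon.1
        · apply h2
          apply Subtype.ext
          apply hD2 _ ((hD' _).1 (j _).2).1 _ ((hD' _).1 (ρ _ _).2).1
          rw [hρ2, hj x hx, hj _ hcon.1]
          exact hcon.2.symm
      have h2 := cP_pull (f (amalgIncl n p true a)) (fun x => ¬ Good x)
      have h3 : cP (fun x => ρ₂ a (ι₂ x) ≠ ι₂ (f (amalgIncl n p true a) x)) ≤ η * N := by
        rw [cP_eq]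
        exact hF₂ a ha
      have h4 : η * N ≤ R * η * N := mul_le_mul_of_nonneg_right hηR hN0.le
      linarith
  have hE := hall N f {d // d ∈ D'} ρ j Good
    (fun s hs t ht => (hmul s (mem_union_left _ hs) t (mem_union_left _ ht)).trans e1) hlet
  -- transport to `Fin m`
  obtain ⟨u⟩ : Nonempty ({d // d ∈ D'} ≃ Fin (Fintype.card {d // d ∈ D'})) :=
    ⟨Fintype.equivFin _⟩
  obtain ⟨σ, hσ⟩ := lift_action ρ (fun y => u.symm y) u.symm.injective
    (fun g y => ⟨u (ρ g (u.symm y)), u.symm_apply_apply _⟩)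
  refine ⟨Fintype.card {d // d ∈ D'}, σ, fun x => u (j x), Good, ?_, ?_, ?_⟩
  · refine hbad2.trans (mul_le_mul_of_nonneg_right ?_ hN0.le)
    linarith
  · intro x y hx hy h
    have h1 := congrArg Subtype.val (u.injective h)
    rw [hj x hx, hj y hy] at h1
    exact hι₁ (congrArg Prod.fst h1)
  · intro g hg
    refine le_trans ?_ (hE g hg)
    unfold err
    have h1 : cP (fun x => Good x ∧ (¬ Good (f g x) ∨ u (j (f g x)) ≠ σ g (u (j x)))) ≤
        cP (fun x => Good x ∧ (¬ Good (f g x) ∨ j (f g x) ≠ ρ g (j x))) +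
        cP (fun _ : Fin N => False) := by
      apply cP_or
      rintro x ⟨hx, hx2⟩
      left
      refine ⟨hx, ?_⟩
      rcases hx2 with h2 | h2
      · exact Or.inl h2
      · right
        intro h3
        apply h2
        apply u.symm.injective
        rw [hσ, u.symm_apply_apply, u.symm_apply_apply, h3]
    have h2 : cP (fun _ : Fin N => False) = 0 := by
      rw [cP_eq]
      simp
    linarith

end Pool.Agent.FS84
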