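import Pool.Agent.FS84.Model

/-!
Amplification: from a sequence of sizes to all sizes, by disjoint copies.
-/

set_option autoImplicit false
open Filter Topology Finset

namespace Pool.Agent.FS84

open Pool.Agent.H51K

variable {G : Type} [Group G]

/-- `n` points = `n / c` copies of `c` points and `n % c` more points -/
noncomputable def ampE (n c : ℕ) : (Fin (n / c) × Fin c) ⊕ Fin (n % c) ≃ Fin n :=
  Fintype.equivFinOfCardEq (by
    rw [Fintype.card_sum, Fintype.card_prod, Fintype.card_fin, Fintype.card_fin, Fintype.card_fin]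
    exact Nat.div_add_mod' n c)

noncomputable def amp (n c : ℕ) (π : Equiv.Perm (Fin c)) : Equiv.Perm (Fin n) :=
  ((ampE n c).symm.trans (Equiv.sumCongr (Equiv.prodCongr (Equiv.refl _) π) (Equiv.refl _))).trans
    (ampE n c)

theorem amp_inl (n c : ℕ) (π : Equiv.Perm (Fin c)) (p : Fin (n / c)) (z : Fin c) :
    amp n c π (ampE n c (Sum.inl (p, z))) = ampE n c (Sum.inl (p, π z)) := by
  show ampE n c (Equiv.sumCongr (Equiv.prodCongr (Equiv.refl _) π) (Equiv.refl _)
    ((ampE n c).symm (ampE n c (Sum.inl (p, z))))) = _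
  rw [Equiv.symm_apply_apply]
  rfl

theorem amp_inr (n c : ℕ) (π : Equiv.Perm (Fin c)) (y : Fin (n % c)) :
    amp n c π (ampE n c (Sum.inr y)) = ampE n c (Sum.inr y) := by
  show ampE n c (Equiv.sumCongr (Equiv.prodCongr (Equiv.refl _) π) (Equiv.refl _)
    ((ampE n c).symm (ampE n c (Sum.inr y)))) = _
  rw [Equiv.symm_apply_apply]
  rfl

theorem count_split (n c : ℕ) (P : Fin n → Prop) [DecidablePred P] :
    (univ.filter P).card =
      ∑ p : Fin (n / c), (univ.filter fun z : Fin c => P (ampE n c (Sum.inl (p, z)))).card +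
        (univ.filter fun y : Fin (n % c) => P (ampE n c (Sum.inr y))).card := by
  rw [Finset.card_filter, ← Equiv.sum_comp (ampE n c), Fintype.sum_sum_type,
    Fintype.sum_prod_type, Finset.card_filter]
  congr 1
  apply Finset.sum_congr rfl
  intro p _
  rw [Finset.card_filter]

theorem amp_mul_count (n c : ℕ) (π π' τ : Equiv.Perm (Fin c)) :
    (univ.filter fun x => (amp n c π * amp n c π') x ≠ amp n c τ x).card =
      n / c * (univ.filter fun z => (π * π') z ≠ τ z).card := by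
  classical
  rw [count_split n c]
  have h1 : (univ.filter fun y : Fin (n % c) => (amp n c π * amp n c π') (ampE n c (Sum.inr y)) ≠
      amp n c τ (ampE n c (Sum.inr y))).card = 0 := by
    rw [Finset.card_eq_zero, Finset.filter_eq_empty_iff]
    intro y _ h
    apply h
    rw [Equiv.Perm.mul_apply, amp_inr, amp_inr, amp_inr]
  have h2 : ∀ p : Fin (n / c), (univ.filter fun z : Fin c =>
      (amp n c π * amp n c π') (ampE n c (Sum.inl (p, z))) ≠
        amp n c τ (ampE n c (Sum.inl (p, z)))).card =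
      (univ.filter fun z => (π * π') z ≠ τ z).card := by
    intro p
    congr 1
    apply Finset.filter_congr
    intro z _
    rw [Equiv.Perm.mul_apply, amp_inl, amp_inl, amp_inl, Equiv.Perm.mul_apply]
    constructor
    · intro h h'
      exact h (by rw [h'])
    · intro h h'
      apply h
      have h3 := (ampE n c).injective h'
      exact congrArg Prod.snd (Sum.inl_injective h3)
  rw [h1, Finset.sum_congr rfl fun p _ => h2 p, Finset.sum_const, Finset.card_univ,
    Fintype.card_fin, smul_eq_mul, add_zero]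

theorem div_mul_le (n c : ℕ) : ((n / c : ℕ) : ℝ) * c ≤ n := by
  exact_mod_cast Nat.div_mul_le_self n c

theorem ham_amp (n c : ℕ) (hn : 0 < n) (hc : 0 < c) (π π' τ : Equiv.Perm (Fin c)) :
    ham (amp n c π * amp n c π') (amp n c τ) ≤ ham (π * π') τ := by
  have hn0 : (0 : ℝ) < n := by exact_mod_cast hn
  have hc0 : (0 : ℝ) < c := by exact_mod_cast hc
  rw [ham, amp_mul_count, ham, div_le_div_iff₀ hn0 hc0, Nat.cast_mul]
  have h1 := div_mul_le n c
  have h2 : (0 : ℝ) ≤ ((univ.filter fun z => (π * π') z ≠ τ z).card : ℝ) := by positivity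
  calc ((n / c : ℕ) : ℝ) * ((univ.filter fun z => (π * π') z ≠ τ z).card : ℝ) * c
      = ((univ.filter fun z => (π * π') z ≠ τ z).card : ℝ) * (((n / c : ℕ) : ℝ) * c) := by ring
    _ ≤ ((univ.filter fun z => (π * π') z ≠ τ z).card : ℝ) * n :=
        mul_le_mul_of_nonneg_left h1 h2

/-- no part of positive proportion is modelled -/
def Nowhere (f : (n : ℕ) → G → Equiv.Perm (Fin n)) : Prop :=
  ∀ δ : ℝ, 0 < δ → ∃ (E : Finset G) (η : ℝ), 0 < η ∧ ∀ᶠ n : ℕ in atTop,
    ∀ A : Finset (Fin n), Model (f n) E (η * n) A → (A.card : ℝ) < δ * n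

/-- the models of the copies -/
theorem amp_card (n c : ℕ) (F : G → Equiv.Perm (Fin c)) (E : Finset G)
    (η δ : ℝ) (hη : 0 < η) (hδ : 0 < δ)
    (hF : ∀ A : Finset (Fin c), Model F E (η * c) A → (A.card : ℝ) < δ * c)
    (A : Finset (Fin n)) (θ : ℝ) (hM : Model (fun g => amp n c (F g)) E θ A) :
    (A.card : ℝ) ≤ δ * n + 1 / η * (E.card * θ) + ((n % c : ℕ) : ℝ) := by
  classical
  obtain ⟨m, ρ, ι, hι, hbad⟩ := hM
  have hη' : 0 ≤ 1 / η := by positivity
  -- the parts in the copies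
  obtain ⟨Ap, hAp0⟩ : ∃ Ap : Fin (n / c) → Finset (Fin c), ∀ p, Ap p =
    univ.filter fun z => ampE n c (Sum.inl (p, z)) ∈ A := ⟨_, fun _ => rfl⟩
  obtain ⟨ιp, hιp⟩ : ∃ ιp : Fin (n / c) → Fin c → Fin m, ∀ p z,
    ιp p z = ι (ampE n c (Sum.inl (p, z))) := ⟨fun p z => ι (ampE n c (Sum.inl (p, z))),
      fun _ _ => rfl⟩
  have hmem : ∀ p z, z ∈ Ap p ↔ ampE n c (Sum.inl (p, z)) ∈ A := by
    intro p z
    rw [hAp0, mem_filter]
    exact ⟨fun h => h.2, fun h => ⟨mem_univ _, h⟩⟩
  obtain ⟨b, hb⟩ : ∃ b : G → Fin (n / c) → ℕ, ∀ g p, b g p =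
    (bad F ρ (Ap p) (ιp p) g).card := ⟨_, fun _ _ => rfl⟩
  have hAp : ∀ p, ((Ap p).card : ℝ) ≤ δ * c + 1 / η * ∑ g ∈ E, (b g p : ℝ) := by
    intro p
    have hs0 : 0 ≤ ∑ g ∈ E, (b g p : ℝ) := Finset.sum_nonneg fun _ _ => Nat.cast_nonneg _
    by_cases hall : ∀ g ∈ E, (b g p : ℝ) ≤ η * c
    · have hM : Model F E (η * c) (Ap p) := by
        refine ⟨m, ρ, ιp p, ?_, ?_⟩
        · intro x hx y hy hxy
          rw [hιp, hιp] at hxy
          have h5 := hι ((hmem p x).1 hx) ((hmem p y).1 hy) hxy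
          exact congrArg Prod.snd (Sum.inl_injective ((ampE n c).injective h5))
        · intro g hg
          rw [← hb]
          exact hall g hg
      have h5 := hF (Ap p) hM
      have h6 := mul_nonneg hη' hs0
      linarith
    · push Not at hall
      obtain ⟨g, hg, hgb⟩ := hall
      have h5 : (b g p : ℝ) ≤ ∑ g ∈ E, (b g p : ℝ) :=
        Finset.single_le_sum (f := fun g => (b g p : ℝ)) (fun _ _ => Nat.cast_nonneg _) hg
      have h6 : ((Ap p).card : ℝ) ≤ c := by
        have := Finset.card_le_univ (Ap p)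
        rw [Fintype.card_fin] at this
        exact_mod_cast this
      have h7 : η * c ≤ ∑ g ∈ E, (b g p : ℝ) := by linarith
      have h8 : 1 / η * (η * c) ≤ 1 / η * ∑ g ∈ E, (b g p : ℝ) :=
        mul_le_mul_of_nonneg_left h7 hη'
      have h9 : 1 / η * (η * c) = c := by
        rw [← mul_assoc, one_div_mul_cancel hη.ne', one_mul]
      have h10 : 0 ≤ δ * (c : ℝ) := by positivity
      linarith
  -- the wrong points in the copies
  have hsum : ∀ g ∈ E, ∑ p, (b g p : ℝ) ≤ θ := by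
    intro g hg
    refine le_trans ?_ (hbad g hg)
    have h5 : (bad (fun g => amp n c (F g)) ρ A ι g) = univ.filter fun x => x ∈ A ∧
        (amp n c (F g) x ∉ A ∨ ι (amp n c (F g) x) ≠ ρ g (ι x)) := by
      ext x
      rw [bad, mem_filter, mem_filter]
      exact ⟨fun h => ⟨mem_univ _, h⟩, fun h => h.2⟩
    have h6 : ∀ p, (univ.filter fun z : Fin c => ampE n c (Sum.inl (p, z)) ∈ A ∧
        (amp n c (F g) (ampE n c (Sum.inl (p, z))) ∉ A ∨
          ι (amp n c (F g) (ampE n c (Sum.inl (p, z)))) ≠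
            ρ g (ι (ampE n c (Sum.inl (p, z)))))).card = b g p := by
      intro p
      rw [hb]
      congr 1
      ext z
      rw [bad, mem_filter, mem_filter, hmem, hmem, amp_inl, hιp, hιp]
      exact ⟨fun h => h.2, fun h => ⟨mem_univ _, h⟩⟩
    have h7 : ∑ p, b g p ≤ (bad (fun g => amp n c (F g)) ρ A ι g).card := by
      rw [h5, count_split n c, Finset.sum_congr rfl fun p _ => h6 p]
      exact Nat.le_add_right _ _
    exact_mod_cast h7
  have hAtot : (A.card : ℝ) ≤ ∑ p, ((Ap p).card : ℝ) + ((n % c : ℕ) : ℝ) := by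
    have h5 : A = univ.filter fun x => x ∈ A := by
      ext x
      simp
    have h6 : A.card ≤ ∑ p, (Ap p).card + n % c := by
      conv_lhs => rw [h5]
      rw [count_split n c, Finset.sum_congr rfl fun p _ => congrArg Finset.card (hAp0 p).symm]
      apply Nat.add_le_add_left
      have := Finset.card_le_univ (univ.filter fun y : Fin (n % c) => ampE n c (Sum.inr y) ∈ A)
      rwa [Fintype.card_fin] at this
    exact_mod_cast h6
  have h5 : ∑ p, ((Ap p).card : ℝ) ≤ δ * n + 1 / η * (E.card * θ) := by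
    have h6 : ∑ p, ((Ap p).card : ℝ) ≤ ∑ p, (δ * c + 1 / η * ∑ g ∈ E, (b g p : ℝ)) :=
      Finset.sum_le_sum fun p _ => hAp p
    rw [Finset.sum_add_distrib, Finset.sum_const, Finset.card_univ, Fintype.card_fin,
      nsmul_eq_mul, ← Finset.mul_sum, Finset.sum_comm] at h6
    have h7 := div_mul_le n c
    have h8 : δ * (((n / c : ℕ) : ℝ) * c) ≤ δ * n := mul_le_mul_of_nonneg_left h7 hδ.le
    have h9 := Finset.sum_le_sum hsum
    rw [Finset.sum_const, nsmul_eq_mul] at h9
    have h10 := mul_le_mul_of_nonneg_left h9 hη'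
    linarith
  linarith

theorem amplify (F : (c : ℕ) → G → Equiv.Perm (Fin c)) (φ : ℕ → ℕ) (hF : AlmostHom F)
    (hφ : StrictMono φ) (hno : NowhereOn F φ) :
    ∃ f : (n : ℕ) → G → Equiv.Perm (Fin n), AlmostHom f ∧ Nowhere f := by
  classical
  obtain ⟨k, hk, hk0⟩ : ∃ k : ℕ → ℕ, (∀ K : ℕ, ∀ᶠ n : ℕ in atTop, K ≤ k n) ∧
      ∀ᶠ n : ℕ in atTop, (k n + 1) * φ (k n) ≤ n := by
    refine ⟨fun n => Nat.findGreatest (fun k => (k + 1) * φ k ≤ n) n, ?_, ?_⟩
    · intro K
      filter_upwards [eventually_ge_atTop K, eventually_ge_atTop ((K + 1) * φ K)] with n h1 h2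
      exact Nat.le_findGreatest h1 h2
    · filter_upwards [eventually_ge_atTop ((0 + 1) * φ 0)] with n h2
      exact Nat.findGreatest_spec (P := fun k => (k + 1) * φ k ≤ n) (Nat.zero_le n) h2
  refine ⟨fun n g => amp n (φ (k n)) (F (φ (k n)) g), ?_, ?_⟩
  · intro g h
    rw [Metric.tendsto_atTop]
    intro ε hε
    obtain ⟨N, hN⟩ := (Metric.tendsto_atTop.1 (hF g h)) ε hε
    obtain ⟨K, hK⟩ := eventually_atTop.1 (hk (max N 1))
    refine ⟨max K 1, ?_⟩
    intro n hn
    have h1 := hK n (le_trans (le_max_left _ _) hn)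
    have hn1 : 0 < n := le_trans (le_max_right _ _) hn
    have h2 : max N 1 ≤ φ (k n) := h1.trans (hφ.id_le _)
    have h3 := hN (φ (k n)) ((le_max_left _ _).trans h2)
    have hc : 0 < φ (k n) := lt_of_lt_of_le one_pos ((le_max_right _ _).trans h2)
    have h4 := ham_amp n (φ (k n)) hn1 hc (F (φ (k n)) g) (F (φ (k n)) h) (F (φ (k n)) (g * h))
    have h5 : 0 ≤ ham (amp n (φ (k n)) (F (φ (k n)) g) * amp n (φ (k n)) (F (φ (k n)) h))
        (amp n (φ (k n)) (F (φ (k n)) (g * h))) := by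
      unfold ham
      positivity
    have h6 : 0 ≤ ham (F (φ (k n)) g * F (φ (k n)) h) (F (φ (k n)) (g * h)) := by
      unfold ham
      positivity
    rw [Real.dist_eq, sub_zero, abs_of_nonneg h6] at h3
    rw [Real.dist_eq, sub_zero, abs_of_nonneg h5]
    exact lt_of_le_of_lt h4 h3
  · intro δ hδ
    obtain ⟨E, η, hη, hev⟩ := hno (δ / 2) (by positivity)
    obtain ⟨J, hJ⟩ := eventually_atTop.1 hev
    obtain ⟨K, hK⟩ := exists_nat_gt (4 / δ)
    refine ⟨E, η * δ / (8 * ((E.card : ℝ) + 1)), by positivity, ?_⟩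
    filter_upwards [hk J, hk K, hk 1, hk0, eventually_gt_atTop 0] with n h1 h2 h3 h4 hn
    intro A hM
    have hc : 0 < φ (k n) := lt_of_lt_of_le (lt_of_lt_of_le one_pos h3) (hφ.id_le _)
    have hmain := amp_card n (φ (k n)) (F (φ (k n))) E η (δ / 2) hη (by positivity)
      (hJ (k n) h1) A _ hM
    have hn0 : (0 : ℝ) < n := by exact_mod_cast hn
    have hc0 : (0 : ℝ) < φ (k n) := by exact_mod_cast hc
    -- the remainder
    have hr : ((n % φ (k n) : ℕ) : ℝ) ≤ δ / 4 * n := by
      have h5 : n % φ (k n) ≤ φ (k n) := (Nat.mod_lt n hc).le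
      have h6 : ((n % φ (k n) : ℕ) : ℝ) ≤ φ (k n) := by exact_mod_cast h5
      have h7 : (((k n : ℕ) : ℝ) + 1) * φ (k n) ≤ n := by exact_mod_cast h4
      have h8 : (4 / δ : ℝ) ≤ ((k n : ℕ) : ℝ) := hK.le.trans (by exact_mod_cast h2)
      have h9 : 4 / δ * (φ (k n) : ℝ) ≤ n := by nlinarith
      have h10 : δ / 4 * (4 / δ * (φ (k n) : ℝ)) ≤ δ / 4 * n :=
        mul_le_mul_of_nonneg_left h9 (by positivity)
      have h11 : δ / 4 * (4 / δ * (φ (k n) : ℝ)) = φ (k n) := by
        field_simp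
      linarith
    have h6 : 1 / η * ((E.card : ℝ) * (η * δ / (8 * ((E.card : ℝ) + 1)) * n)) ≤ δ / 8 * n := by
      have h7 : 1 / η * ((E.card : ℝ) * (η * δ / (8 * ((E.card : ℝ) + 1)) * n)) =
          (E.card : ℝ) / ((E.card : ℝ) + 1) * (δ / 8 * n) := by
        field_simp
      rw [h7]
      have h8 : (E.card : ℝ) / ((E.card : ℝ) + 1) ≤ 1 := by
        rw [div_le_one (by positivity)]
        linarith
      have h9 : 0 ≤ δ / 8 * (n : ℝ) := by positivity
      calc (E.card : ℝ) / ((E.card : ℝ) + 1) * (δ / 8 * n) ≤ 1 * (δ / 8 * n) :=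
            mul_le_mul_of_nonneg_right h8 h9
        _ = δ / 8 * n := one_mul _
    have h7 : 0 < δ * (n : ℝ) := by positivity
    linarith

end Pool.Agent.FS84
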