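import Pool.Agent.FS84.Amp

/-!
A nowhere modelled almost-homomorphism is aperiodic.
-/

set_option autoImplicit false
open Filter Topology Finset

namespace Pool.Agent.FS84

open Pool.Agent.H51K

/-- all but `o(n)` points have the property `P` -/
def Most (P : (n : ℕ) → Fin n → Prop) : Prop :=
  ∀ ε : ℝ, 0 < ε → ∀ᶠ n : ℕ in atTop, ∃ B : Finset (Fin n), (B.card : ℝ) ≤ ε * n ∧
    ∀ x, x ∉ B → P n x

theorem Most.mono {P Q : (n : ℕ) → Fin n → Prop} (h : Most P) (hPQ : ∀ n x, P n x → Q n x) :
    Most Q := by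
  intro ε hε
  filter_upwards [h ε hε] with n hn
  obtain ⟨B, hB, hB'⟩ := hn
  exact ⟨B, hB, fun x hx => hPQ n x (hB' x hx)⟩

theorem Most.of_all {P : (n : ℕ) → Fin n → Prop} (h : ∀ n x, P n x) : Most P := by
  intro ε hε
  filter_upwards with n
  exact ⟨∅, by rw [Finset.card_empty, Nat.cast_zero]; positivity, fun x _ => h n x⟩

theorem Most.and {P Q : (n : ℕ) → Fin n → Prop} (h : Most P) (h' : Most Q) :
    Most (fun n x => P n x ∧ Q n x) := by
  classical
  intro ε hε
  filter_upwards [h (ε / 2) (by positivity), h' (ε / 2) (by positivity)] with n hn hn'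
  obtain ⟨B, hB, hB'⟩ := hn
  obtain ⟨C, hC, hC'⟩ := hn'
  refine ⟨B ∪ C, ?_, ?_⟩
  · have h1 : ((B ∪ C).card : ℝ) ≤ B.card + C.card := by exact_mod_cast Finset.card_union_le B C
    linarith
  · intro x hx
    rw [Finset.mem_union] at hx
    push Not at hx
    exact ⟨hB' x hx.1, hC' x hx.2⟩

theorem Most.allFinset {α : Type} (s : Finset α) {P : α → (n : ℕ) → Fin n → Prop}
    (h : ∀ i ∈ s, Most (P i)) : Most (fun n x => ∀ i ∈ s, P i n x) := by
  classical
  induction s using Finset.induction_on with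
  | empty => exact Most.of_all fun n x i hi => absurd hi (Finset.notMem_empty i)
  | insert a s ha ih =>
    have h1 := (h a (Finset.mem_insert_self a s)).and
      (ih fun i hi => h i (Finset.mem_insert_of_mem hi))
    apply h1.mono
    intro n x hx i hi
    rcases Finset.mem_insert.1 hi with rfl | hi
    · exact hx.1
    · exact hx.2 i hi

theorem Most.all {α : Type} [Finite α] {P : α → (n : ℕ) → Fin n → Prop}
    (h : ∀ i, Most (P i)) : Most (fun n x => ∀ i, P i n x) := by
  classical
  have : Fintype α := Fintype.ofFinite α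
  exact (Most.allFinset (univ : Finset α) fun i _ => h i).mono fun n x hx i => hx i (mem_univ i)

theorem Most.perm {P : (n : ℕ) → Fin n → Prop} (h : Most P) (π : (n : ℕ) → Equiv.Perm (Fin n)) :
    Most (fun n x => P n (π n x)) := by
  classical
  intro ε hε
  filter_upwards [h ε hε] with n hn
  obtain ⟨B, hB, hB'⟩ := hn
  refine ⟨B.image (π n).symm, ?_, ?_⟩
  · refine le_trans ?_ hB
    exact_mod_cast Finset.card_image_le
  · intro x hx
    apply hB'
    intro hc
    apply hx
    rw [Finset.mem_image]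
    exact ⟨_, hc, by simp⟩

variable {G : Type} [Group G]

theorem AlmostHom.most {f : (n : ℕ) → G → Equiv.Perm (Fin n)} (hf : AlmostHom f) (g h : G) :
    Most (fun n x => f n g (f n h x) = f n (g * h) x) := by
  intro ε hε
  filter_upwards [(tendsto_order.1 (hf g h)).2 ε hε, eventually_gt_atTop 0] with n hn hn0
  refine ⟨univ.filter fun x => (f n g * f n h) x ≠ f n (g * h) x, ?_, ?_⟩
  · rw [ham, div_lt_iff₀ (by exact_mod_cast hn0)] at hn
    exact hn.le
  · intro x hx
    by_contra hc
    apply hx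
    rw [mem_filter]
    exact ⟨mem_univ _, hc⟩

theorem most_one {f : (n : ℕ) → G → Equiv.Perm (Fin n)} (hf : AlmostHom f) :
    Most (fun n x => f n 1 x = x) := by
  apply (hf.most 1 1).mono
  intro n x h
  rw [one_mul] at h
  exact (f n 1).injective h

/-- the common fixed points -/
def Fixed (f : (n : ℕ) → G → Equiv.Perm (Fin n)) (S : Finset G) (n : ℕ) (x : Fin n) : Prop :=
  ∀ s ∈ S, f n s x = x

theorem most_fixed {f : (n : ℕ) → G → Equiv.Perm (Fin n)} (hf : AlmostHom f) (S : Finset G)
    (γ : G) (hγ : γ ∈ Subgroup.closure (S : Set G)) :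
    Most (fun n x => Fixed f S n x → f n γ x = x) := by
  induction hγ using Subgroup.closure_induction with
  | mem s hs => exact Most.of_all fun n x h => h s hs
  | one => exact (most_one hf).mono fun n x h _ => h
  | mul a b _ _ iha ihb =>
    apply ((hf.most a b).and (iha.and ihb)).mono
    rintro n x ⟨h1, h2, h3⟩ hx
    rw [← h1, h3 hx, h2 hx]
  | inv a _ iha =>
    apply ((hf.most a⁻¹ a).and ((most_one hf).and iha)).mono
    rintro n x ⟨h1, h2, h3⟩ hx
    rw [h3 hx, inv_mul_cancel, h2] at h1
    exact h1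

theorem most_eq {f : (n : ℕ) → G → Equiv.Perm (Fin n)} (hf : AlmostHom f) (S : Finset G)
    (a b : G) (hab : a⁻¹ * b ∈ Subgroup.closure (S : Set G)) :
    Most (fun n x => Fixed f S n x → f n a x = f n b x) := by
  apply ((hf.most a (a⁻¹ * b)).and (most_fixed hf S _ hab)).mono
  rintro n x ⟨h1, h2⟩ hx
  rw [h2 hx, mul_inv_cancel_left] at h1
  exact h1

/-- the points on whose orbit `φ` is an action of the finite group `Q`; `σ` is a section and `π`
the projection -/
def Ok {Q : Type} [Group Q] (σ : Q → G) (π : G → Q) (E : Finset G) {n : ℕ}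
    (φ : G → Equiv.Perm (Fin n)) (x : Fin n) : Prop :=
  φ (σ 1) x = x ∧ (∀ p q r : Q, φ (σ p) (φ (σ q) (φ (σ r) x)) = φ (σ (p * q)) (φ (σ r) x)) ∧
    ∀ g ∈ E, ∀ r : Q, φ g (φ (σ r) x) = φ (σ (π g)) (φ (σ r) x)

omit [Group G] in
theorem Ok.move {Q : Type} [Group Q] {σ : Q → G} {π : G → Q} {E : Finset G} {n : ℕ}
    {φ : G → Equiv.Perm (Fin n)} {x : Fin n} (h : Ok σ π E φ x) (s : Q) :
    Ok σ π E φ (φ (σ s) x) := by
  obtain ⟨h1, h2, h3⟩ := h
  have h4 : ∀ r : Q, φ (σ r) (φ (σ s) x) = φ (σ (r * s)) x := by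
    intro r
    have := h2 r s 1
    rw [h1] at this
    exact this
  refine ⟨?_, ?_, ?_⟩
  · rw [h4, one_mul]
  · intro p q r
    rw [h4]
    exact h2 p q (r * s)
  · intro g hg r
    rw [h4]
    exact h3 g hg (r * s)

/-- the exact model on the points `Ok` -/
theorem Ok.model {Q : Type} [Group Q] (σ : Q → G) (π : G →* Q) (E : Finset G) {n : ℕ}
    (φ : G → Equiv.Perm (Fin n)) (A : Finset (Fin n)) (hA : ∀ x, x ∈ A ↔ Ok σ π E φ x) :
    Model φ E 0 A := by
  classical
  let act : MulAction Q (Fin n) :=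
    { smul := fun q x => if x ∈ A then φ (σ q) x else x
      one_smul := by
        intro x
        show (if x ∈ A then φ (σ 1) x else x) = x
        by_cases hx : x ∈ A
        · rw [if_pos hx]
          exact ((hA x).1 hx).1
        · rw [if_neg hx]
      mul_smul := by
        intro p q x
        show (if x ∈ A then φ (σ (p * q)) x else x) =
          (if (if x ∈ A then φ (σ q) x else x) ∈ A then φ (σ p) (if x ∈ A then φ (σ q) x else x)
            else (if x ∈ A then φ (σ q) x else x))
        by_cases hx : x ∈ A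
        · have h1 := (hA x).1 hx
          have h2 : φ (σ q) x ∈ A := (hA _).2 (h1.move q)
          rw [if_pos hx, if_pos hx, if_pos h2]
          have h3 := h1.2.1 p q 1
          rw [h1.1] at h3
          exact h3.symm
        · rw [if_neg hx, if_neg hx, if_neg hx] }
  have hact : ∀ q, ∀ x ∈ A, (@MulAction.toPermHom Q (Fin n) _ act q) x = φ (σ q) x := by
    intro q x hx
    show (if x ∈ A then φ (σ q) x else x) = _
    rw [if_pos hx]
  refine ⟨n, (@MulAction.toPermHom Q (Fin n) _ act).comp π, fun x => x, fun x _ y _ h => h, ?_⟩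
  intro g hg
  have h1 : bad φ ((@MulAction.toPermHom Q (Fin n) _ act).comp π) A (fun x => x) g = ∅ := by
    rw [bad, Finset.filter_eq_empty_iff]
    intro x hx
    have h2 := (hA x).1 hx
    have h3 : φ g x = φ (σ (π g)) x := by
      have := h2.2.2 g hg 1
      rw [h2.1] at this
      exact this
    have h4 : φ g x ∈ A := by
      rw [h3]
      exact (hA _).2 (h2.move (π g))
    rintro (h5 | h5)
    · exact h5 h4
    · apply h5
      show φ g x = @MulAction.toPermHom Q (Fin n) _ act (π g) x
      rw [hact _ x hx, h3]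
  rw [h1]
  simp

/-- THEOREM E -/
theorem aperiodic_of_nowhere (f : (n : ℕ) → G → Equiv.Perm (Fin n)) (hf : AlmostHom f)
    (hno : Nowhere f) : Aperiodic f := by
  classical
  intro S hS
  set N : Subgroup G := (Subgroup.closure (S : Set G)).normalCore with hN
  have hNfin : N.FiniteIndex := inferInstance
  have hNle : N ≤ Subgroup.closure (S : Set G) := Subgroup.normalCore_le _
  let Q := G ⧸ N
  have hQ : Finite Q := Subgroup.finite_quotient_of_finiteIndex
  let σ : Q → G := Quotient.out
  have hσ : ∀ q : Q, (QuotientGroup.mk' N) (σ q) = q := fun q => QuotientGroup.out_eq' q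
  have hmem : ∀ a b : G, (QuotientGroup.mk' N) a = (QuotientGroup.mk' N) b →
      a⁻¹ * b ∈ Subgroup.closure (S : Set G) := by
    intro a b h
    exact hNle (QuotientGroup.eq.1 h)
  rw [Metric.tendsto_atTop]
  intro ε hε
  obtain ⟨E, η, hη, hev⟩ := hno (ε / 2) (by positivity)
  have hmost : Most (fun n x => Fixed f S n x → Ok σ (QuotientGroup.mk' N) E (f n) x) := by
    have h1 : Most (fun n x => Fixed f S n x → f n (σ 1) x = x) := by
      apply most_fixed hf
      have := hmem 1 (σ 1) (by rw [hσ, map_one])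
      rwa [inv_one, one_mul] at this
    have h2 : ∀ p q r : Q, Most (fun n x => Fixed f S n x →
        f n (σ p) (f n (σ q) (f n (σ r) x)) = f n (σ (p * q)) (f n (σ r) x)) := by
      intro p q r
      apply ((hf.most (σ q) (σ r)).and ((hf.most (σ p) (σ q * σ r)).and
        ((hf.most (σ (p * q)) (σ r)).and (most_eq hf S (σ p * (σ q * σ r)) (σ (p * q) * σ r)
          (hmem _ _ (by simp only [map_mul, hσ, mul_assoc])))))).mono
      rintro n x ⟨e1, e2, e3, e4⟩ hx
      rw [e1, e2, e3]
      exact e4 hx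
    have h3 : ∀ g ∈ E, ∀ r : Q, Most (fun n x => Fixed f S n x →
        f n g (f n (σ r) x) = f n (σ ((QuotientGroup.mk' N) g)) (f n (σ r) x)) := by
      intro g _ r
      apply ((hf.most g (σ r)).and ((hf.most (σ ((QuotientGroup.mk' N) g)) (σ r)).and
        (most_eq hf S (g * σ r) (σ ((QuotientGroup.mk' N) g) * σ r)
          (hmem _ _ (by simp only [map_mul, hσ]))))).mono
      rintro n x ⟨e1, e2, e3⟩ hx
      rw [e1, e2]
      exact e3 hx
    have h4 := Most.all fun p : Q => Most.all fun q : Q => Most.all fun r : Q => h2 p q r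
    have h5 := Most.allFinset E fun g hg => Most.all fun r : Q => h3 g hg r
    apply (h1.and (h4.and h5)).mono
    rintro n x ⟨e1, e2, e3⟩ hx
    exact ⟨e1 hx, fun p q r => e2 p q r hx, fun g hg r => e3 g hg r hx⟩
  obtain ⟨K, hK⟩ := eventually_atTop.1 (hev.and ((hmost (ε / 4) (by positivity)).and
    (eventually_gt_atTop 0)))
  refine ⟨K, ?_⟩
  intro n hn
  obtain ⟨h1, ⟨B, hB, hB'⟩, hn0⟩ := hK n hn
  have hn1 : (0 : ℝ) < n := by exact_mod_cast hn0
  rw [Real.dist_eq, sub_zero, abs_of_nonneg (by positivity), div_lt_iff₀ hn1]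
  set A : Finset (Fin n) := univ.filter fun x => Ok σ (QuotientGroup.mk' N) E (f n) x with hA
  have hM : Model (f n) E (η * n) A := by
    apply (Ok.model σ (QuotientGroup.mk' N) E (f n) A (by
      intro x
      rw [hA, mem_filter]
      exact ⟨fun h => h.2, fun h => ⟨mem_univ _, h⟩⟩)).mono (Finset.Subset.refl _)
    positivity
  have h2 := h1 A hM
  have h3 : (univ.filter fun x : Fin n => ∀ s ∈ S, f n s x = x) ⊆ A ∪ B := by
    intro x hx
    rw [mem_filter] at hx
    rw [Finset.mem_union]
    by_cases hxB : x ∈ B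
    · exact Or.inr hxB
    · left
      rw [hA, mem_filter]
      exact ⟨mem_univ _, hB' x hxB hx.2⟩
  have h4 := (Finset.card_le_card h3).trans (Finset.card_union_le _ _)
  have h5 : ((univ.filter fun x : Fin n => ∀ s ∈ S, f n s x = x).card : ℝ) ≤
      (A.card : ℝ) + B.card := by exact_mod_cast h4
  have h6 : 0 < ε * (n : ℝ) := by positivity
  linarith

end Pool.Agent.FS84
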