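import Pool.Agent.FS84.Kaz

/-!
Cocycles with values in a finite abelian group over finite transitive `G`-sets: cocycles which are
trivial at most points are coboundaries, and almost-cocycles modelled by an action are close to
cocycles.
-/

set_option autoImplicit false
open Finset

namespace Pool.Agent.FS84

variable {G : Type} [Group G] {Y A : Type} [CommGroup A]

/-- the coboundary of a `1`-cochain -/
def dc (τ : G →* Equiv.Perm Y) (c : G → Y → A) (g h : G) (y : Y) : A :=
  c g (τ h y) * c h y * (c (g * h) y)⁻¹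

/-- `z` is a cocycle -/
def IsCoc (τ : G →* Equiv.Perm Y) (z : G → Y → A) : Prop :=
  ∀ g h y, z (g * h) y = z g (τ h y) * z h y

/-- the action is transitive -/
def Trans (τ : G →* Equiv.Perm Y) : Prop := ∀ x y, ∃ g, τ g x = y

/-- the fibres of an invariant set over a transitive action: if it differs from `P` at fewer than
`|Y|` points then it agrees with `P` over some point -/
theorem exists_good {W : Type} [DecidableEq W] [Fintype Y] (π : W → Y) (P B : Finset W)
    (h : (P \ B).card + (B \ P).card < Fintype.card Y) :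
    ∃ y, ∀ w, π w = y → (w ∈ B ↔ w ∈ P) := by
  classical
  by_contra hc
  push Not at hc
  have h1 : ∀ y : Y, ∃ w ∈ (P \ B) ∪ (B \ P), π w = y := by
    intro y
    obtain ⟨w, hw, hw'⟩ := hc y
    refine ⟨w, ?_, hw⟩
    rw [mem_union, mem_sdiff, mem_sdiff]
    tauto
  have h2 : (univ : Finset Y).card ≤ ((P \ B) ∪ (B \ P)).card := by
    refine le_trans (Finset.card_le_card ?_) (Finset.card_image_le (s := (P \ B) ∪ (B \ P)) (f := π))
    intro y _
    obtain ⟨w, hw, hw'⟩ := h1 y
    exact mem_image.2 ⟨w, hw, hw'⟩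
  have h3 := Finset.card_union_le (P \ B) (B \ P)
  rw [Finset.card_univ] at h2
  omega

/-- the number of points over which `B` and `P` differ -/
theorem card_notgood {W : Type} [DecidableEq W] [Fintype Y] (π : W → Y) (P B : Finset W)
    (S : Finset Y) (hS : ∀ y ∈ S, ¬ ∀ w, π w = y → (w ∈ B ↔ w ∈ P)) :
    S.card ≤ (P \ B).card + (B \ P).card := by
  classical
  refine le_trans ?_ (Finset.card_union_le (P \ B) (B \ P))
  refine le_trans (Finset.card_le_card ?_) (Finset.card_image_le (s := (P \ B) ∪ (B \ P)) (f := π))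
  intro y hy
  have h1 := hS y hy
  push Not at h1
  obtain ⟨w, hw, hw'⟩ := h1
  refine mem_image.2 ⟨w, ?_, hw⟩
  rw [mem_union, mem_sdiff, mem_sdiff]
  tauto

/-- the action on `Y × A` given by a cocycle -/
def twist (τ : G →* Equiv.Perm Y) (z : G → Y → A) (hz : IsCoc τ z) :
    G →* Equiv.Perm (Y × A) where
  toFun g :=
    { toFun := fun p => (τ g p.1, z g p.1 * p.2)
      invFun := fun p => ((τ g).symm p.1, (z g ((τ g).symm p.1))⁻¹ * p.2)
      left_inv := by
        intro p
        ext
        · simp
        · simp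
      right_inv := by
        intro p
        ext
        · simp
        · simp }
  map_one' := by
    have h1 : ∀ y, z 1 y = 1 := by
      intro y
      have h := hz 1 1 y
      rw [mul_one, map_one, Equiv.Perm.one_apply] at h
      exact left_eq_mul.1 h
    ext p
    · simp
    · simp [h1]
  map_mul' g h := by
    ext p
    · simp
    · simp [hz g h, mul_assoc]

theorem twist_apply (τ : G →* Equiv.Perm Y) (z : G → Y → A) (hz : IsCoc τ z) (g : G) (y : Y)
    (t : A) : twist τ z hz g (y, t) = (τ g y, z g y * t) := rfl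

/-- LEMMA 2: a cocycle which is trivial at most points is a coboundary, of a function which is
trivial at most points -/
theorem small_cob [Fintype Y] [Fintype A] (F : Finset G) (C : ℝ)
    (hnear : ∀ (X : Type) [Fintype X] [DecidableEq X]
      (ρ : G →* Equiv.Perm X) (A : Finset X), ∃ B : Finset X, Inv ρ B ∧
        ((A \ B).card + (B \ A).card : ℝ) ≤
          C * ∑ a ∈ F, ((A.filter fun x => ρ a x ∉ A).card : ℝ))
    [DecidableEq A]
    (τ : G →* Equiv.Perm Y) (hτ : Trans τ) (z : G → Y → A) (hz : IsCoc τ z)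
    (hsmall : 3 * (C * ∑ a ∈ F, ((univ.filter fun y => z a y ≠ 1).card : ℝ)) < Fintype.card Y) :
    ∃ b : Y → A, (∀ g y, z g y * b y = b (τ g y)) ∧
      3 * (univ.filter fun y => b y ≠ 1).card < Fintype.card Y := by
  classical
  set P : Finset (Y × A) := univ.filter fun p => p.2 = 1 with hP
  obtain ⟨B, hB, hcard⟩ := hnear (Y × A) (twist τ z hz) P
  have hPm : ∀ y t, (y, t) ∈ P ↔ t = 1 := by
    intro y t
    simp [hP]
  have hle : ∀ a, ((P.filter fun p => twist τ z hz a p ∉ P).card : ℝ) =
      ((univ.filter fun y => z a y ≠ 1).card : ℝ) := by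
    intro a
    congr 1
    apply Finset.card_bij (fun p _ => p.1)
    · rintro ⟨y, t⟩ hp
      rw [mem_filter, hPm, twist_apply, hPm] at hp
      rw [mem_filter]
      refine ⟨mem_univ _, ?_⟩
      intro h
      apply hp.2
      rw [hp.1, mul_one]
      exact h
    · rintro ⟨y, t⟩ hp ⟨y', t'⟩ hp' h
      rw [mem_filter, hPm] at hp hp'
      simp only at h
      rw [hp.1, hp'.1, h]
    · intro y hy
      rw [mem_filter] at hy
      refine ⟨(y, 1), ?_, rfl⟩
      rw [mem_filter, hPm, twist_apply, hPm, mul_one]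
      exact ⟨rfl, hy.2⟩
  rw [Finset.sum_congr rfl fun a _ => hle a] at hcard
  have hlt : 3 * ((P \ B).card + (B \ P).card) < Fintype.card Y := by
    have : (3 * ((P \ B).card + (B \ P).card) : ℝ) < Fintype.card Y := by linarith
    exact_mod_cast this
  obtain ⟨y0, hy0⟩ := exists_good (π := (Prod.fst : Y × A → Y)) P B (by omega)
  have h0 : ∀ s, (y0, s) ∈ B ↔ s = 1 := fun s => (hy0 (y0, s) rfl).trans (hPm y0 s)
  have h1 : ∀ y, ∃ b, ∀ t, (y, t) ∈ B ↔ t = b := by
    intro y
    obtain ⟨g, rfl⟩ := hτ y0 y
    refine ⟨z g y0, ?_⟩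
    intro t
    have h2 := hB g (y0, (z g y0)⁻¹ * t)
    rw [twist_apply, mul_inv_cancel_left, h0] at h2
    rw [h2, inv_mul_eq_one]
    exact eq_comm
  choose b hb using h1
  refine ⟨b, ?_, ?_⟩
  · intro g y
    have h2 := hB g (y, b y)
    rw [twist_apply, hb, hb] at h2
    exact h2.2 rfl
  · have h2 : (univ.filter fun y => b y ≠ 1).card ≤ (P \ B).card := by
      apply Finset.card_le_card_of_injOn (fun y => (y, (1 : A)))
      · intro y hy
        have hy := (mem_filter.1 hy).2
        rw [Finset.mem_coe, mem_sdiff, hPm, hb]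
        exact ⟨rfl, fun h => hy h.symm⟩
      · intro y _ y' _ h
        exact congrArg Prod.fst h
    omega

/-- the function of LEMMA 2 is unique -/
theorem cob_unique [Fintype Y] [DecidableEq A] (τ : G →* Equiv.Perm Y) (hτ : Trans τ)
    (z : G → Y → A) (b b' : Y → A) (hb : ∀ g y, z g y * b y = b (τ g y))
    (hb' : ∀ g y, z g y * b' y = b' (τ g y))
    (h : (univ.filter fun y => b y ≠ 1).card + (univ.filter fun y => b' y ≠ 1).card <
      Fintype.card Y) : b = b' := by
  classical
  obtain ⟨y0, h0, h0'⟩ : ∃ y0, b y0 = 1 ∧ b' y0 = 1 := by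
    by_contra hc
    push Not at hc
    have h1 : (univ : Finset Y) ⊆ (univ.filter fun y => b y ≠ 1) ∪
        (univ.filter fun y => b' y ≠ 1) := by
      intro y _
      rw [mem_union, mem_filter, mem_filter]
      by_cases hy : b y = 1
      · exact Or.inr ⟨mem_univ _, hc y hy⟩
      · exact Or.inl ⟨mem_univ _, hy⟩
    have h2 := (Finset.card_le_card h1).trans (Finset.card_union_le _ _)
    rw [Finset.card_univ] at h2
    omega
  funext y
  obtain ⟨g, rfl⟩ := hτ y0 y
  rw [← hb, ← hb', h0, h0']

end Pool.Agent.FS84
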