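import Pool.Agent.FS84.CocA

/-!
An almost-cocycle with values in a finite abelian group which is modelled by an action of the group
is close to a cocycle.
-/

set_option autoImplicit false
open Finset

namespace Pool.Agent.FS84

variable {G : Type} [Group G] {Y A Z : Type} [CommGroup A]

/-- the skew product map of a cochain -/
def skew (τ : G →* Equiv.Perm Y) (c : G → Y → A) (g : G) : Equiv.Perm (Y × A) where
  toFun p := (τ g p.1, c g p.1 * p.2)
  invFun p := ((τ g).symm p.1, (c g ((τ g).symm p.1))⁻¹ * p.2)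
  left_inv := by
    intro p
    ext
    · simp
    · simp
  right_inv := by
    intro p
    ext
    · simp
    · simp

theorem skew_apply (τ : G →* Equiv.Perm Y) (c : G → Y → A) (g : G) (y : Y) (t : A) :
    skew τ c g (y, t) = (τ g y, c g y * t) := rfl

theorem skew_mul_iff (τ : G →* Equiv.Perm Y) (c : G → Y → A) (g h : G) (y : Y) (t : A) :
    skew τ c g (skew τ c h (y, t)) ≠ skew τ c (g * h) (y, t) ↔ dc τ c g h y ≠ 1 := by
  rw [not_iff_not, skew_apply, skew_apply, skew_apply, Prod.mk.injEq, map_mul,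
    Equiv.Perm.mul_apply, ← mul_assoc, mul_left_inj, dc, mul_inv_eq_one]
  exact ⟨fun h => h.2, fun h => ⟨rfl, h⟩⟩

/-- the action on `(A → Z) × Y` -/
def wAct (A : Type) (τ : G →* Equiv.Perm Y) (ρ : G →* Equiv.Perm Z) :
    G →* Equiv.Perm ((A → Z) × Y) where
  toFun g :=
    { toFun := fun w => (fun s => ρ g (w.1 s), τ g w.2)
      invFun := fun w => (fun s => (ρ g).symm (w.1 s), (τ g).symm w.2)
      left_inv := by
        intro w
        ext
        · simp
        · simp
      right_inv := by
        intro w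
        ext
        · simp
        · simp }
  map_one' := by
    ext w
    · simp
    · simp
  map_mul' g h := by
    ext w
    · simp
    · simp

theorem wAct_apply (A : Type) (τ : G →* Equiv.Perm Y) (ρ : G →* Equiv.Perm Z) (g : G)
    (w : (A → Z) × Y) : wAct A τ ρ g w = (fun s => ρ g (w.1 s), τ g w.2) := rfl

/-- the shift -/
def sh (r : A) (w : (A → Z) × Y) : (A → Z) × Y := (fun s => w.1 (s * r), w.2)

theorem sh_snd (r : A) (w : (A → Z) × Y) : (sh r w).2 = w.2 := rfl

theorem sh_sh (r r' : A) (w : (A → Z) × Y) : sh r (sh r' w) = sh (r * r') w := by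
  simp only [sh, mul_assoc]

theorem sh_one (w : (A → Z) × Y) : sh (1 : A) w = w := by
  simp only [sh, mul_one]

theorem wAct_sh (τ : G →* Equiv.Perm Y) (ρ : G →* Equiv.Perm Z) (g : G) (r : A)
    (w : (A → Z) × Y) : wAct A τ ρ g (sh r w) = sh r (wAct A τ ρ g w) := rfl

/-- the orbit map of a point of `Y × A` -/
def orb (ι : Y × A → Z) (y : Y) (t : A) : (A → Z) × Y := (fun s => ι (y, t * s), y)

theorem sh_orb (ι : Y × A → Z) (y : Y) (t r : A) : sh r (orb ι y t) = orb ι y (t * r) := by
  simp only [sh, orb]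
  congr 1
  funext s
  rw [mul_comm s r, ← mul_assoc]

theorem orb_inj (ι : Y × A → Z) (hι : Function.Injective ι) (y y' : Y) (t t' : A)
    (h : orb ι y t = orb ι y' t') : y = y' ∧ t = t' := by
  have h1 := congrArg (fun w => w.1 1) h
  simp only [orb, mul_one] at h1
  have h2 := hι h1
  rw [Prod.mk.injEq] at h2
  exact h2

/-- LEMMA 1 -/
theorem coc_near [Fintype Y] [Fintype A] [DecidableEq A] [DecidableEq Y] [Fintype Z]
    [DecidableEq Z] (F : Finset G) (C : ℝ) (hC : 0 ≤ C)
    (hnear : ∀ (X : Type) [Fintype X] [DecidableEq X]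
      (ρ : G →* Equiv.Perm X) (A : Finset X), ∃ B : Finset X, Inv ρ B ∧
        ((A \ B).card + (B \ A).card : ℝ) ≤
          C * ∑ a ∈ F, ((A.filter fun x => ρ a x ∉ A).card : ℝ))
    (τ : G →* Equiv.Perm Y) (hτ : Trans τ) (c : G → Y → A)
    (ρ : G →* Equiv.Perm Z) (ι : Y × A → Z) (hι : Function.Injective ι)
    (hθ : C * (Fintype.card A *
      ∑ a ∈ F, ((univ.filter fun x => ρ a (ι x) ≠ ι (skew τ c a x)).card : ℝ)) <
        Fintype.card Y) :
    ∃ z : G → Y → A, IsCoc τ z ∧ ∀ g, ((univ.filter fun y => z g y ≠ c g y).card : ℝ) ≤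
      2 * (C * (Fintype.card A *
      ∑ a ∈ F, ((univ.filter fun x => ρ a (ι x) ≠ ι (skew τ c a x)).card : ℝ))) +
        ((univ.filter fun x => ρ g (ι x) ≠ ι (skew τ c g x)).card : ℝ) := by
  classical
  set σ := wAct A τ ρ with hσ
  set bad : G → Finset (Y × A) := fun g => univ.filter fun x => ρ g (ι x) ≠ ι (skew τ c g x)
    with hbad
  set P : Finset ((A → Z) × Y) := univ.image fun x : Y × A => orb ι x.1 x.2 with hP
  have hPm : ∀ w : (A → Z) × Y, w ∈ P ↔ ∃ t, w = orb ι w.2 t := by
    intro w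
    rw [hP, mem_image]
    constructor
    · rintro ⟨⟨y, t⟩, _, rfl⟩
      exact ⟨t, rfl⟩
    · rintro ⟨t, ht⟩
      exact ⟨(w.2, t), mem_univ _, ht.symm⟩
  have hmove : ∀ g y t, (∀ s, (y, t * s) ∉ bad g) →
      σ g (orb ι y t) = orb ι (τ g y) (c g y * t) := by
    intro g y t h
    rw [hσ, wAct_apply, orb, orb]
    congr 1
    funext s
    have h1 := h s
    rw [hbad, mem_filter, not_and, not_not] at h1
    rw [h1 (mem_univ _), skew_apply, mul_assoc]
  obtain ⟨B, hB, hcard⟩ := hnear ((A → Z) × Y) σ P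
  have hle : ∀ a, ((P.filter fun w => σ a w ∉ P).card : ℝ) ≤
      Fintype.card A * ((bad a).card : ℝ) := by
    intro a
    have h1 : (P.filter fun w => σ a w ∉ P).card ≤ (bad a ×ˢ (univ : Finset A)).card := by
      refine le_trans (Finset.card_le_card ?_)
        (Finset.card_image_le (s := bad a ×ˢ (univ : Finset A))
          (f := fun x => orb ι x.1.1 (x.1.2 * x.2⁻¹)))
      intro w hw
      rw [mem_filter] at hw
      obtain ⟨hw1, hw2⟩ := hw
      obtain ⟨t, ht⟩ := (hPm w).1 hw1
      by_contra hc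
      apply hw2
      rw [ht, hmove, hPm]
      · exact ⟨_, rfl⟩
      · intro s hs
        apply hc
        rw [mem_image]
        refine ⟨((w.2, t * s), s), ?_, ?_⟩
        · rw [mem_product]
          exact ⟨hs, mem_univ _⟩
        · simp only [mul_inv_cancel_right]
          exact ht.symm
    rw [card_product, Finset.card_univ] at h1
    have h2 : ((P.filter fun w => σ a w ∉ P).card : ℝ) ≤
        ((bad a).card * Fintype.card A : ℕ) := by exact_mod_cast h1
    rw [Nat.cast_mul] at h2
    linarith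
  have hsum : ((P \ B).card + (B \ P).card : ℝ) ≤
      C * (Fintype.card A * ∑ a ∈ F, ((bad a).card : ℝ)) := by
    refine hcard.trans (mul_le_mul_of_nonneg_left ?_ hC)
    rw [Finset.mul_sum]
    exact Finset.sum_le_sum fun a _ => hle a
  have hlt : (P \ B).card + (B \ P).card < Fintype.card Y := by
    have : ((P \ B).card + (B \ P).card : ℝ) < Fintype.card Y := lt_of_le_of_lt hsum hθ
    exact_mod_cast this
  obtain ⟨y0, hy0⟩ := exists_good (π := (Prod.snd : (A → Z) × Y → Y)) P B hlt
  set good : Y → Prop := fun y => ∀ w : (A → Z) × Y, w.2 = y → (w ∈ B ↔ w ∈ P) with hgood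
  set T : Y → (A → Z) × Y → Prop := fun y q => q.2 = y ∧
    (∀ w : (A → Z) × Y, w.2 = y → (w ∈ B ↔ ∃ r : A, w = sh r q)) ∧
      ∀ r : A, sh r q = q → r = 1 with hT
  have hgT : ∀ y, good y → T y (orb ι y 1) := by
    intro y hy
    refine ⟨rfl, ?_, ?_⟩
    · intro w hw
      rw [hy w hw, hPm, hw]
      constructor
      · rintro ⟨t, ht⟩
        refine ⟨t, ?_⟩
        rw [sh_orb, one_mul]
        exact ht
      · rintro ⟨t, ht⟩
        refine ⟨t, ?_⟩
        rw [sh_orb, one_mul] at ht
        exact ht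
    · intro r hr
      rw [sh_orb] at hr
      have := (orb_inj ι hι _ _ _ _ hr).2
      rw [one_mul] at this
      exact this
  have hinv : ∀ (g : G) (w : (A → Z) × Y), σ g (σ g⁻¹ w) = w := by
    intro g w
    rw [← Equiv.Perm.mul_apply, ← map_mul, mul_inv_cancel, map_one, Equiv.Perm.one_apply]
  have hinv' : ∀ (g : G) (w : (A → Z) × Y), σ g⁻¹ (σ g w) = w := by
    intro g w
    rw [← Equiv.Perm.mul_apply, ← map_mul, inv_mul_cancel, map_one, Equiv.Perm.one_apply]
  have htrans : ∀ g y q, T y q → T (τ g y) (σ g q) := by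
    rintro g y q ⟨h1, h2, h3⟩
    refine ⟨?_, ?_, ?_⟩
    · rw [hσ, wAct_apply, h1]
    · intro w hw
      have h4 : (σ g⁻¹ w).2 = y := by
        rw [hσ, wAct_apply, hw]
        simp
      rw [← hB g⁻¹ w, h2 _ h4]
      constructor
      · rintro ⟨r, hr⟩
        refine ⟨r, ?_⟩
        rw [hσ, ← wAct_sh, ← hσ, ← hr, hinv]
      · rintro ⟨r, hr⟩
        refine ⟨r, ?_⟩
        rw [hr, hσ, ← wAct_sh, ← hσ, hinv']
    · intro r hr
      apply h3 r
      rw [hσ, ← wAct_sh] at hr
      exact (wAct A τ ρ g).injective hr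
  have hex : ∀ y, ∃ q, T y q ∧ (good y → q = orb ι y 1) := by
    intro y
    by_cases hy : good y
    · exact ⟨orb ι y 1, hgT y hy, fun _ => rfl⟩
    · obtain ⟨g, rfl⟩ := hτ y0 y
      exact ⟨σ g (orb ι y0 1), htrans g y0 _ (hgT y0 hy0), fun h => absurd h hy⟩
  choose q hq hqg using hex
  have hqB : ∀ y, q y ∈ B := by
    intro y
    rw [(hq y).2.1 (q y) (hq y).1]
    exact ⟨1, (sh_one _).symm⟩
  have hzex : ∀ g y, ∃ r : A, σ g (q y) = sh r (q (τ g y)) := by
    intro g y
    have h1 : (σ g (q y)).2 = τ g y := by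
      rw [hσ, wAct_apply, (hq y).1]
    exact ((hq (τ g y)).2.1 _ h1).1 ((hB g (q y)).2 (hqB y))
  choose z hz using hzex
  have hfree : ∀ y (r r' : A), sh r (q y) = sh r' (q y) → r = r' := by
    intro y r r' h
    have h1 := congrArg (sh r'⁻¹) h
    rw [sh_sh, sh_sh, inv_mul_cancel, sh_one] at h1
    have h2 := (hq y).2.2 _ h1
    exact (inv_mul_eq_one.1 h2).symm
  refine ⟨z, ?_, ?_⟩
  · intro g h y
    have h1 : τ (g * h) y = τ g (τ h y) := by rw [map_mul, Equiv.Perm.mul_apply]
    apply hfree (τ g (τ h y))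
    rw [← h1, ← hz (g * h) y, map_mul, Equiv.Perm.mul_apply, hz h y, hσ, wAct_sh, ← hσ,
      hz g (τ h y), sh_sh, mul_comm, h1]
  · intro g
    have hsub : (univ.filter fun y => z g y ≠ c g y) ⊆
        ((univ.filter fun y => ¬ good y) ∪ (univ.filter fun y => ¬ good (τ g y))) ∪
          (bad g).image Prod.fst := by
      intro y hy
      rw [mem_filter] at hy
      by_contra hc
      rw [mem_union, mem_union, mem_filter, mem_filter, mem_image] at hc
      push Not at hc
      obtain ⟨⟨hc1, hc2⟩, hc3⟩ := hc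
      apply hy.2
      apply hfree (τ g y)
      rw [← hz g y, hqg y (hc1 (mem_univ _)), hqg (τ g y) (hc2 (mem_univ _)), hmove, sh_orb,
        mul_one, one_mul]
      intro s hs
      exact hc3 _ hs rfl
    have h1 := (Finset.card_le_card hsub).trans (Finset.card_union_le _ _)
    have h2 := Finset.card_union_le (univ.filter fun y => ¬ good y)
      (univ.filter fun y => ¬ good (τ g y))
    have h3 : (univ.filter fun y => ¬ good y).card ≤ (P \ B).card + (B \ P).card := by
      apply card_notgood (π := (Prod.snd : (A → Z) × Y → Y)) P B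
      intro y hy
      exact (mem_filter.1 hy).2
    have h4 : (univ.filter fun y => ¬ good (τ g y)).card ≤
        (univ.filter fun y => ¬ good y).card := by
      apply Finset.card_le_card_of_injOn (τ g)
      · intro y hy
        have := (mem_filter.1 hy).2
        exact Finset.mem_coe.2 (mem_filter.2 ⟨mem_univ _, this⟩)
      · exact (τ g).injective.injOn
    have h5 : ((bad g).image Prod.fst).card ≤ (bad g).card := Finset.card_image_le
    have h6 : (univ.filter fun y => z g y ≠ c g y).card ≤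
        2 * ((P \ B).card + (B \ P).card) + (bad g).card := by omega
    have h7 : ((univ.filter fun y => z g y ≠ c g y).card : ℝ) ≤
        2 * ((P \ B).card + (B \ P).card : ℝ) + (bad g).card := by exact_mod_cast h6
    linarith

end Pool.Agent.FS84
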