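import Pool.Agent.H51K.KazDefs

/-!
Flexible stability in permutations: the definitions of the problem.
-/

set_option autoImplicit false
open Filter Topology Finset

namespace Pool.Agent.FS84

/-- The normalised Hamming distance `d_n` of two permutations of `n` points. -/
noncomputable def ham {n : ℕ} (σ τ : Equiv.Perm (Fin n)) : ℝ :=
  ((univ.filter fun x => σ x ≠ τ x).card : ℝ) / n

/-- The flexible distance of `σ ∈ S_n` and `τ ∈ S_m`: the number of points `x < min n m` at which
`σ` and `τ` differ plus `|n - m|`, divided by `min n m`. -/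
noncomputable def flex {n m : ℕ} (σ : Equiv.Perm (Fin n)) (τ : Equiv.Perm (Fin m)) : ℝ :=
  (((univ.filter fun x : Fin (min n m) =>
      (σ ⟨x, lt_of_lt_of_le x.2 (min_le_left n m)⟩ : ℕ) ≠
        τ ⟨x, lt_of_lt_of_le x.2 (min_le_right n m)⟩).card : ℝ) + |(n : ℝ) - m|) / (min n m : ℕ)

/-- An almost-homomorphism of `G`. -/
def AlmostHom {G : Type} [Group G] (f : (n : ℕ) → G → Equiv.Perm (Fin n)) : Prop :=
  ∀ g h : G, Tendsto (fun n => ham (f n g * f n h) (f n (g * h))) atTop (𝓝 0)

/-- `G` is flexibly permutation stable. -/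
def FlexStable (G : Type) [Group G] : Prop :=
  ∀ f : (n : ℕ) → G → Equiv.Perm (Fin n), AlmostHom f →
    ∃ (m : ℕ → ℕ) (ρ : (n : ℕ) → G →* Equiv.Perm (Fin (m n))), (∀ n, n ≤ m n) ∧
      ∀ g, Tendsto (fun n => flex (f n g) (ρ n g)) atTop (𝓝 0)

/-- `f` is aperiodic: for every finite set `S` which generates a subgroup of finite index, only
`o(n)` points are fixed by all the `f n s`, `s ∈ S`. -/
def Aperiodic {G : Type} [Group G] (f : (n : ℕ) → G → Equiv.Perm (Fin n)) : Prop :=
  ∀ S : Finset G, (Subgroup.closure (S : Set G)).FiniteIndex →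
    Tendsto (fun n : ℕ => ((univ.filter fun x : Fin n => ∀ s ∈ S, f n s x = x).card : ℝ) / n)
      atTop (𝓝 0)

/-- A positive proportion of the family `f` is modelled by finite `G`-sets: there is `δ > 0` such
that for every finite `E ⊆ G` and `η > 0` and for infinitely many `n` there are a set `A` of at
least `δ n` points, a finite `G`-set (`Fin m` with the action `ρ`) and a map `ι`, injective on
`A`, so that for every `g ∈ E` at most `η n` points `x` of `A` have `f n g x` outside `A` or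
`ι (f n g x) ≠ g • ι x`. -/
def PartlyModelled {G : Type} [Group G] (f : (n : ℕ) → G → Equiv.Perm (Fin n)) : Prop :=
  ∃ δ : ℝ, 0 < δ ∧ ∀ (E : Finset G) (η : ℝ), 0 < η → ∃ᶠ n : ℕ in atTop,
    ∃ (m : ℕ) (ρ : G →* Equiv.Perm (Fin m)) (A : Finset (Fin n)) (ι : Fin n → Fin m),
      δ * n ≤ A.card ∧ Set.InjOn ι A ∧
      ∀ g ∈ E, ((A.filter fun x => f n g x ∉ A ∨ ι (f n g x) ≠ ρ g (ι x)).card : ℝ) ≤ η * n

theorem ext_inj {α β : Type} [Fintype α] [Fintype β] (hc : Fintype.card α = Fintype.card β)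
    (s : Set α) (f : α → β) (hf : Set.InjOn f s) : ∃ σ : α ≃ β, ∀ x ∈ s, σ x = f x := by
  classical
  have e0 : β ≃ α := Fintype.equivOfCardEq hc.symm
  have hinj : Set.InjOn (fun x => e0 (f x)) s := fun x hx y hy h => hf hx hy (e0.injective h)
  have e : {x // x ∈ s} ≃ {y // y ∈ (fun x => e0 (f x)) '' s} := hinj.bijOn_image.equiv _
  have he' : ∀ x : {x // x ∈ s}, ((hinj.bijOn_image.equiv _) x : α) = e0 (f x) := by
    intro x
    rfl
  refine ⟨(Equiv.extendSubtype (hinj.bijOn_image.equiv _ :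
    {x // x ∈ s} ≃ {y // y ∈ (fun x => e0 (f x)) '' s})).trans e0.symm, ?_⟩
  intro x hx
  rw [Equiv.trans_apply, Equiv.extendSubtype_apply_of_mem _ x hx, he' ⟨x, hx⟩]
  simp

/-- truncation of a permutation of `N` points to `n ≤ N` points -/
theorem trunc {n N : ℕ} (h : n ≤ N) (π : Equiv.Perm (Fin N)) :
    ∃ σ : Equiv.Perm (Fin n), ∀ x : Fin n, (π (Fin.castLE h x) : ℕ) < n →
      (σ x : ℕ) = π (Fin.castLE h x) := by
  by_cases hn : n = 0
  · subst hn
    exact ⟨1, fun x => x.elim0⟩
  · have hn' : 0 < n := Nat.pos_of_ne_zero hn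
    obtain ⟨σ, hσ⟩ := ext_inj (rfl : Fintype.card (Fin n) = Fintype.card (Fin n))
      {x : Fin n | (π (Fin.castLE h x) : ℕ) < n}
      (fun x => if hx : (π (Fin.castLE h x) : ℕ) < n then ⟨π (Fin.castLE h x), hx⟩ else ⟨0, hn'⟩)
      (by
        intro x hx y hy hxy
        simp only [Set.mem_ofPred_eq] at hx hy
        simp only [hx, hy, dite_true, Fin.mk.injEq] at hxy
        exact Fin.castLE_injective h (π.injective (Fin.ext hxy)))
    refine ⟨σ, ?_⟩
    intro x hx
    rw [hσ x hx]
    simp only [hx, dite_true]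

end Pool.Agent.FS84
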