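import Pool.Agent.FS84.Descend

/-!
Sofic groups, and `2`-cochains which are almost coboundaries over almost-actions or over finite
quotients of the group.
-/

set_option autoImplicit false
open Finset

namespace Pool.Agent.FS84

/-- The group `H` is sofic: for every finite `K ⊆ H` and `ε > 0` there are `n ≥ 1` and a map
`ψ : H → S_n` such that for `s, t ∈ K` at most `ε n` points `v` have `ψ s (ψ t v) ≠ ψ (s t) v`,
and for `1 ≠ s ∈ K` at most `ε n` points are fixed by `ψ s`. -/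
def Sofic (H : Type) [Group H] : Prop :=
  ∀ (K : Finset H) (ε : ℝ), 0 < ε → ∃ (n : ℕ) (ψ : H → Equiv.Perm (Fin n)), 0 < n ∧
    (∀ s ∈ K, ∀ t ∈ K,
      ((univ.filter fun v => ψ s (ψ t v) ≠ ψ (s * t) v).card : ℝ) ≤ ε * n) ∧
    ∀ s ∈ K, s ≠ 1 → ((univ.filter fun v => ψ s v = v).card : ℝ) ≤ ε * n

variable {G : Type} [Group G] {Y A : Type} [CommGroup A]

/-- almost a coboundary over almost-actions of `G` with a map to `Y` -/
def SofTriv (τ : G →* Equiv.Perm Y) (a : G → G → Y → A) : Prop :=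
  ∀ (E : Finset G) (ε : ℝ), 0 < ε → ∃ (N : ℕ) (φ : G → Equiv.Perm (Fin N)) (π : Fin N → Y)
    (c : G → Fin N → A), 0 < N ∧
      (∀ g ∈ E, ∀ h ∈ E, ({v | φ g (φ h v) ≠ φ (g * h) v}.ncard : ℝ) ≤ ε * N) ∧
      (∀ g ∈ E, ({v | π (φ g v) ≠ τ g (π v)}.ncard : ℝ) ≤ ε * N) ∧
      ∀ g ∈ E, ∀ h ∈ E,
        ({v | a g h (π v) ≠ c g (φ h v) * c h v * (c (g * h) v)⁻¹}.ncard : ℝ) ≤ ε * N

/-- almost a coboundary over finite quotients of `G` with a map to `Y` -/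
def QForm (τ : G →* Equiv.Perm Y) (a : G → G → Y → A) : Prop :=
  ∀ (E : Finset G) (ε : ℝ), 0 < ε → ∃ (Q : Type) (_ : Group Q) (_ : Finite Q) (q : G →* Q)
    (P : Q → Y) (c : G → Q → A), Function.Surjective q ∧ (∀ g x, P (q g * x) = τ g (P x)) ∧
      ∀ g ∈ E, ∀ h ∈ E,
        ({x | dc (lact q) c g h x ≠ a g h (P x)}.ncard : ℝ) ≤ ε * Nat.card Q

end Pool.Agent.FS84
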