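import Pool.Agent.FS84.Fin

/-!
The finite form of flexible stability for a countable group.
-/

set_option autoImplicit false
open Filter Topology Finset

namespace Pool.Agent.FS84

variable {G : Type} [Group G]

/-- the finite form of flexible stability -/
theorem finite_form [Countable G] (hst : FlexStable G) (F0 : Finset G) (η : ℝ) (hη : 0 < η) :
    ∃ (E : Finset G) (δ : ℝ), 0 < δ ∧ ∀ (N : ℕ) (f : G → Equiv.Perm (Fin N)), 0 < N →
      (∀ g ∈ E, ∀ h ∈ E, ((univ.filter fun x => f g (f h x) ≠ f (g * h) x).card : ℝ) ≤ δ * N) →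
      ∃ (m : ℕ) (ρ : G →* Equiv.Perm (Fin m)) (ι : Fin N → Fin m), Function.Injective ι ∧
        ∑ g ∈ F0, ((univ.filter fun x => ρ g (ι x) ≠ ι (f g x)).card : ℝ) ≤ η * N := by
  classical
  by_contra hno
  push Not at hno
  obtain ⟨E, hE, hEx, _⟩ := exhaustion (∅ : Finset G)
  have h0 := fun j : ℕ => hno (E j) (1 / ((j : ℝ) + 1)) (by positivity)
  choose N f hN hdef hbad using h0
  obtain ⟨k, hk, hk0⟩ : ∃ k : ℕ → ℕ, (∀ K : ℕ, ∀ᶠ n : ℕ in atTop, K ≤ k n) ∧
      ∀ᶠ n : ℕ in atTop, (k n + 1) * N (k n) ≤ n := by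
    refine ⟨fun n => Nat.findGreatest (fun k => (k + 1) * N k ≤ n) n, ?_, ?_⟩
    · intro K
      filter_upwards [eventually_ge_atTop K, eventually_ge_atTop ((K + 1) * N K)] with n h1 h2
      exact Nat.le_findGreatest h1 h2
    · filter_upwards [eventually_ge_atTop ((0 + 1) * N 0)] with n h2
      exact Nat.findGreatest_spec (P := fun k => (k + 1) * N k ≤ n) (Nat.zero_le n) h2
  obtain ⟨f', hf'⟩ : ∃ f' : (n : ℕ) → G → Equiv.Perm (Fin n), ∀ n g, f' n g =
    amp n (N (k n)) (f (k n) g) := ⟨_, fun _ _ => rfl⟩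
  have hah : AlmostHom f' := by
    intro g h
    rw [Metric.tendsto_atTop]
    intro ε hε
    obtain ⟨i1, hi1⟩ := hEx g
    obtain ⟨i2, hi2⟩ := hEx h
    obtain ⟨K, hK⟩ := exists_nat_gt (1 / ε)
    obtain ⟨M, hM⟩ := eventually_atTop.1 (hk (max (max i1 i2) K))
    refine ⟨max M 1, ?_⟩
    intro n hn
    have h1 := hM n (le_trans (le_max_left _ _) hn)
    have hn1 : 0 < n := le_trans (le_max_right _ _) hn
    have hg : g ∈ E (k n) := hE (le_trans (le_trans (le_max_left _ _) (le_max_left _ _)) h1) hi1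
    have hh : h ∈ E (k n) := hE (le_trans (le_trans (le_max_right _ _) (le_max_left _ _)) h1) hi2
    have hKn : (K : ℝ) ≤ (k n : ℝ) := by exact_mod_cast (le_trans (le_max_right _ _) h1)
    have h4 := ham_amp n (N (k n)) hn1 (hN _) (f (k n) g) (f (k n) h) (f (k n) (g * h))
    have hc0 : (0 : ℝ) < N (k n) := by exact_mod_cast hN (k n)
    have h5 : 0 ≤ ham (f' n g * f' n h) (f' n (g * h)) := by
      unfold ham
      positivity
    have h6 : ham (f (k n) g * f (k n) h) (f (k n) (g * h)) ≤ 1 / ((k n : ℝ) + 1) := by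
      unfold ham
      rw [div_le_iff₀ hc0]
      exact hdef (k n) g hg h hh
    rw [Real.dist_eq, sub_zero, abs_of_nonneg h5, hf', hf', hf']
    refine lt_of_le_of_lt (h4.trans h6) ?_
    rw [div_lt_iff₀ (by positivity)]
    rw [div_lt_iff₀ hε] at hK
    nlinarith
  obtain ⟨m, ρ, hm, hlim⟩ := hst f' hah
  obtain ⟨η', hη'⟩ : ∃ η' : ℝ, η' = η / (4 * ((F0.card : ℝ) + 1)) := ⟨_, rfl⟩
  have hη'0 : 0 < η' := by rw [hη']; positivity
  have h1 : ∀ᶠ n : ℕ in atTop, ∀ g ∈ F0, flex (f' n g) (ρ n g) < η' := by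
    rw [Filter.eventually_all_finset]
    intro g _
    exact (tendsto_order.1 (hlim g)).2 η' hη'0
  obtain ⟨n, hflex, hkn, hn0⟩ := (h1.and (hk0.and (eventually_gt_atTop 0))).exists
  obtain ⟨c, hc⟩ : ∃ c, c = N (k n) := ⟨_, rfl⟩
  obtain ⟨φ, hφ⟩ : ∃ φ : G → Equiv.Perm (Fin (N (k n))), φ = f (k n) := ⟨_, rfl⟩
  have hcpos : 0 < N (k n) := hN (k n)
  have hn1 : (0 : ℝ) < n := by exact_mod_cast hn0
  -- the wrong points
  have hwrong : ∀ g ∈ F0, ((univ.filter fun x : Fin n =>
      (f' n g x : ℕ) ≠ ρ n g (Fin.castLE (hm n) x)).card : ℝ) ≤ η' * n := by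
    intro g hg
    have h2 := hflex g hg
    rw [flex_eq _ _ (hm n), div_lt_iff₀ hn1] at h2
    have h5 : (n : ℝ) ≤ m n := by exact_mod_cast hm n
    linarith
  -- the embeddings of the copies
  obtain ⟨ι, hι⟩ : ∃ ι : Fin (n / N (k n)) → Fin (N (k n)) → Fin (m n), ∀ p z, ι p z =
    Fin.castLE (hm n) (ampE n (N (k n)) (Sum.inl (p, z))) := ⟨_, fun _ _ => rfl⟩
  have hιinj : ∀ p, Function.Injective (ι p) := by
    intro p z z' h
    rw [hι, hι] at h
    have h2 := (ampE n (N (k n))).injective (Fin.castLE_injective (hm n) h)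
    exact congrArg Prod.snd (Sum.inl_injective h2)
  have hcopy : ∀ g, ∑ p, (univ.filter fun z => ρ n g (ι p z) ≠ ι p (φ g z)).card ≤
      (univ.filter fun x : Fin n => (f' n g x : ℕ) ≠ ρ n g (Fin.castLE (hm n) x)).card := by
    intro g
    rw [count_split n (N (k n))]
    refine le_trans (le_of_eq ?_) (Nat.le_add_right _ _)
    apply Finset.sum_congr rfl
    intro p _
    congr 1
    apply Finset.filter_congr
    intro z _
    rw [hf', amp_inl, ← hφ, hι, hι]
    constructor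
    · intro h h'
      exact h (Fin.ext h'.symm)
    · intro h h'
      exact h (by rw [h']; rfl)
  -- averaging
  have hex : ∃ p, ∑ g ∈ F0, ((univ.filter fun z => ρ n g (ι p z) ≠ ι p (φ g z)).card : ℝ) ≤
      η * N (k n) := by
    by_contra hc
    push Not at hc
    have hge : N (k n) ≤ n := by
      have : N (k n) ≤ (k n + 1) * N (k n) := Nat.le_mul_of_pos_left _ (Nat.succ_pos _)
      omega
    have hdiv : 1 ≤ n / N (k n) := (Nat.one_le_div_iff hcpos).2 hge
    have hdm := Nat.div_add_mod n (N (k n))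
    have hmod := Nat.mod_lt n hcpos
    have h2 : n ≤ 2 * (n / N (k n) * N (k n)) := by
      have : N (k n) ≤ n / N (k n) * N (k n) := Nat.le_mul_of_pos_left _ hdiv
      have h3 : N (k n) * (n / N (k n)) = n / N (k n) * N (k n) := mul_comm _ _
      omega
    have h3 : (n : ℝ) ≤ 2 * (((n / N (k n) : ℕ) : ℝ) * N (k n)) := by exact_mod_cast h2
    have h4 : ∑ p : Fin (n / N (k n)), η * (N (k n) : ℝ) ≤ ∑ p : Fin (n / N (k n)),
        ∑ g ∈ F0, ((univ.filter fun z => ρ n g (ι p z) ≠ ι p (φ g z)).card : ℝ) :=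
      Finset.sum_le_sum fun p _ => (hc p).le
    rw [Finset.sum_const, Finset.card_univ, Fintype.card_fin, nsmul_eq_mul,
      Finset.sum_comm] at h4
    have h5 : ∀ g ∈ F0, ∑ p : Fin (n / N (k n)),
        ((univ.filter fun z => ρ n g (ι p z) ≠ ι p (φ g z)).card : ℝ) ≤ η' * n := by
      intro g hg
      refine le_trans ?_ (hwrong g hg)
      exact_mod_cast hcopy g
    have h6 := Finset.sum_le_sum h5
    rw [Finset.sum_const, nsmul_eq_mul] at h6
    have h7 : (F0.card : ℝ) * (η' * n) ≤ η / 4 * n := by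
      rw [hη']
      have h8 : (F0.card : ℝ) * (η / (4 * ((F0.card : ℝ) + 1)) * n) =
          (F0.card : ℝ) / ((F0.card : ℝ) + 1) * (η / 4 * n) := by
        field_simp
      rw [h8]
      have h9 : (F0.card : ℝ) / ((F0.card : ℝ) + 1) ≤ 1 := by
        rw [div_le_one (by positivity)]
        linarith
      have h10 : 0 ≤ η / 4 * (n : ℝ) := by positivity
      calc (F0.card : ℝ) / ((F0.card : ℝ) + 1) * (η / 4 * n) ≤ 1 * (η / 4 * n) :=
            mul_le_mul_of_nonneg_right h9 h10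
        _ = η / 4 * n := one_mul _
    have h8 : 0 < η * (n : ℝ) := by positivity
    nlinarith
  obtain ⟨p, hp⟩ := hex
  have hfin := hbad (k n) (m n) (ρ n) (ι p) (hιinj p)
  rw [hφ] at hp
  linarith

end Pool.Agent.FS84
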