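import Pool.Agent.FS84.Descend
import Pool.Agent.FS84.FinForm

/-!
Flexibly stable Kazhdan groups: small residually trivial `2`-cocycles are coboundaries.
-/

set_option autoImplicit false
open Finset

namespace Pool.Agent.FS84

section alg

variable {A : Type} [AddCommGroup A]

theorem alg6 (s t u s' t' : A) :
    (s + -s') + (t + -t') + -(u + -(s' + t')) = s + t + -u := by abel

end alg

variable {G : Type} [Group G] {Q A Y : Type} [Group Q] [CommGroup A]

/-- the `2`-cochain `a` on `Y` becomes a coboundary on a finite `G`-set over `Y` -/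
def ResTriv (τ : G →* Equiv.Perm Y) (a : G → G → Y → A) : Prop :=
  ∃ (Y' : Type) (_ : Finite Y') (_ : Nonempty Y') (τ' : G →* Equiv.Perm Y') (π : Y' → Y)
    (c' : G → Y' → A), (∀ g y, π (τ' g y) = τ g (π y)) ∧
      ∀ g h y, a g h (π y) = dc τ' c' g h y

/-- the model of the skew products of a cochain gives a cochain with the same coboundary which
descends -/
theorem descend_model [Fintype Q] [DecidableEq Q] [Fintype A] [DecidableEq A] {Z : Type}
    [Fintype Z] [DecidableEq Z] (F : Finset G) (C : ℝ) (hC : 0 ≤ C)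
    (hnear : ∀ (X : Type) [Fintype X] [DecidableEq X]
      (ρ : G →* Equiv.Perm X) (A : Finset X), ∃ B : Finset X, Inv ρ B ∧
        ((A \ B).card + (B \ A).card : ℝ) ≤
          C * ∑ a ∈ F, ((A.filter fun x => ρ a x ∉ A).card : ℝ))
    (q : G →* Q) (hq : Function.Surjective q) (D : Subgroup Q) (c : G → Q → A)
    (hD : ∀ g h x, ∀ d ∈ D, dc (lact q) c g h (x * d) = dc (lact q) c g h x)
    (ρ : G →* Equiv.Perm Z) (ι : Q × A → Z) (hι : Function.Injective ι) (θ : ℝ)
    (hθ : ∑ a ∈ F, ((univ.filter fun x => ρ a (ι x) ≠ ι (skew (lact q) c a x)).card : ℝ) ≤ θ)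
    (hθ1 : C * (Fintype.card A * θ) < Fintype.card Q)
    (hθ2 : 3 * (C * (2 * (F.card * (2 * (C * (Fintype.card A * θ))) + θ))) < Fintype.card Q) :
    ∃ c2 : G → Q → A, (∀ g x, ∀ d ∈ D, c2 g (x * d) = c2 g x) ∧
      ∀ g h x, dc (lact q) c2 g h x = dc (lact q) c g h x := by
  classical
  have hA0 : (0 : ℝ) ≤ Fintype.card A := Nat.cast_nonneg _
  have hmono : C * (Fintype.card A *
      ∑ a ∈ F, ((univ.filter fun x => ρ a (ι x) ≠ ι (skew (lact q) c a x)).card : ℝ)) ≤
        C * (Fintype.card A * θ) :=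
    mul_le_mul_of_nonneg_left (mul_le_mul_of_nonneg_left hθ hA0) hC
  obtain ⟨z, hz, hzc⟩ := coc_near F C hC hnear (lact q) (lact_trans q hq) c ρ ι hι
    (lt_of_le_of_lt hmono hθ1)
  have hdc : ∀ g h x, dc (lact q) (fun g x => c g x * (z g x)⁻¹) g h x =
      dc (lact q) c g h x := by
    intro g h x
    simp only [dc]
    rw [hz g h x]
    exact alg6 (A := Additive A) _ _ _ _ _
  obtain ⟨c2, h1, h2⟩ := descend F C hC hnear q hq D (fun g x => c g x * (z g x)⁻¹)
    (by
      intro g h x d hd
      rw [hdc, hdc]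
      exact hD g h x d hd)
    (by
      refine lt_of_le_of_lt ?_ hθ2
      apply mul_le_mul_of_nonneg_left _ (by norm_num)
      apply mul_le_mul_of_nonneg_left _ hC
      apply mul_le_mul_of_nonneg_left _ (by norm_num)
      have h3 : ∀ a ∈ F, ((univ.filter fun x => c a x * (z a x)⁻¹ ≠ 1).card : ℝ) ≤
          2 * (C * (Fintype.card A * θ)) +
            ((univ.filter fun x => ρ a (ι x) ≠ ι (skew (lact q) c a x)).card : ℝ) := by
        intro a _
        have h4 : (univ.filter fun x => c a x * (z a x)⁻¹ ≠ 1) =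
            univ.filter fun x => z a x ≠ c a x := by
          apply Finset.filter_congr
          intro x _
          rw [not_iff_not, mul_inv_eq_one]
          exact eq_comm
        rw [h4]
        have h5 := hzc a
        linarith
      have h6 := Finset.sum_le_sum h3
      rw [Finset.sum_add_distrib, Finset.sum_const, nsmul_eq_mul] at h6
      linarith)
  exact ⟨c2, h1, fun g h x => (h2 g h x).trans (hdc g h x)⟩

/-- the fibres of an equivariant map to a transitive set have the same size -/
theorem card_fibre [Fintype Q] [Fintype Y] (q : G →* Q) (τ : G →* Equiv.Perm Y) (hτ : Trans τ)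
    (P : Q → Y) (hP : ∀ g x, P (q g * x) = τ g (P x)) :
    ∃ k : ℕ, ∀ (R : Y → Prop) [DecidablePred R],
      (univ.filter fun x => R (P x)).card = k * (univ.filter R).card := by
  classical
  refine ⟨(univ.filter fun x => P x = P 1).card, ?_⟩
  intro R _
  have h1 : ∀ y, (univ.filter fun x => P x = y).card = (univ.filter fun x => P x = P 1).card := by
    intro y
    obtain ⟨g, rfl⟩ := hτ (P 1) y
    symm
    apply Finset.card_bij (fun x _ => q g * x)
    · intro x hx
      rw [mem_filter] at hx ⊢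
      exact ⟨mem_univ _, by rw [hP, hx.2]⟩
    · intro x _ y _ h
      exact mul_left_cancel h
    · intro y hy
      rw [mem_filter] at hy
      refine ⟨(q g)⁻¹ * y, ?_, mul_inv_cancel_left _ _⟩
      rw [mem_filter]
      refine ⟨mem_univ _, ?_⟩
      apply (τ g).injective
      rw [← hP, mul_inv_cancel_left]
      exact hy.2
  rw [Finset.card_eq_sum_card_fiberwise (f := P) (t := univ.filter R) (by
    intro x hx
    rw [Finset.mem_coe, mem_filter] at hx ⊢
    exact ⟨mem_univ _, hx.2⟩)]
  rw [Finset.sum_congr rfl (g := fun _ => (univ.filter fun x => P x = P 1).card), Finset.sum_const,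
    smul_eq_mul, mul_comm]
  intro y hy
  rw [← h1 y, Finset.filter_filter]
  congr 1
  apply Finset.filter_congr
  intro x _
  constructor
  · exact fun h => h.2
  · intro h
    refine ⟨?_, h⟩
    rw [h]
    exact (mem_filter.1 hy).2

/-- THEOREM -/
theorem small_cocycles [Countable G] (hG : HasNear G) (hst : FlexStable G) (A : Type)
    [CommGroup A] [Finite A] :
    ∃ (E : Finset G) (δ : ℝ), 0 < δ ∧ ∀ (Y : Type) [Fintype Y] (τ : G →* Equiv.Perm Y)
      (a : G → G → Y → A), Trans τ → ResTriv τ a →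
      (∀ g ∈ E, ∀ h ∈ E, ({y | a g h y ≠ 1}.ncard : ℝ) ≤ δ * Fintype.card Y) →
      ∃ c : G → Y → A, ∀ g h y, a g h y = dc τ c g h y := by
  classical
  have := Fintype.ofFinite A
  obtain ⟨F, C, hC, hnear⟩ := hG
  obtain ⟨α, hα⟩ : ∃ α : ℝ, α = Fintype.card A := ⟨_, rfl⟩
  have hα0 : 0 ≤ α := by rw [hα]; exact Nat.cast_nonneg _
  obtain ⟨K, hK⟩ : ∃ K : ℝ, K = C * α ^ 2 + 6 * C * α * (2 * F.card * C * α + 1) + 1 := ⟨_, rfl⟩
  have hK1 : 0 ≤ C * α ^ 2 := by positivity
  have hK2 : 0 ≤ 6 * C * α * (2 * F.card * C * α + 1) := by positivity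
  have hK0 : 0 < K := by rw [hK]; linarith
  obtain ⟨E, δ, hδ, hfin⟩ := finite_form hst F (1 / (2 * K)) (by positivity)
  refine ⟨E, δ, hδ, ?_⟩
  intro Y _ τ a hτ hres hsmall
  obtain ⟨Y', _, ⟨y0⟩, τ', π, c', hπ, hc'⟩ := hres
  have := Fintype.ofFinite Y'
  have : Fintype τ'.range := Fintype.ofFinite _
  -- the quotient group
  obtain ⟨q, hq0⟩ : ∃ q : G →* τ'.range, q = τ'.rangeRestrict := ⟨_, rfl⟩
  have hq : Function.Surjective q := by
    rw [hq0]
    exact τ'.rangeRestrict_surjective
  have hqv : ∀ g (x : τ'.range) y, ((q g * x : τ'.range) : Equiv.Perm Y') y =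
      τ' g ((x : Equiv.Perm Y') y) := by
    intro g x y
    rw [hq0]
    rfl
  obtain ⟨P, hPx⟩ : ∃ P : τ'.range → Y, ∀ x, P x = π ((x : Equiv.Perm Y') y0) := ⟨_, fun _ => rfl⟩
  have hP : ∀ g x, P (q g * x) = τ g (P x) := by
    intro g x
    rw [hPx, hPx, hqv, hπ]
  let D : Subgroup τ'.range :=
    { carrier := {d | ∀ x, P (x * d) = P x}
      mul_mem' := by
        intro d d' hd hd' x
        rw [← mul_assoc, hd', hd]
      one_mem' := by
        intro x
        rw [mul_one]
      inv_mem' := by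
        intro d hd x
        rw [← hd (x * d⁻¹), inv_mul_cancel_right] }
  have hDm : ∀ d, d ∈ D ↔ ∀ x, P (x * d) = P x := fun _ => Iff.rfl
  have hDe : ∀ x x', P x = P x' → x⁻¹ * x' ∈ D := by
    intro x x' h
    rw [hDm]
    intro w
    obtain ⟨g, hg⟩ := hq (w * x⁻¹)
    rw [← mul_assoc, ← hg, hP, ← h, ← hP, hg, inv_mul_cancel_right]
  -- the cochain
  obtain ⟨c, hc⟩ : ∃ c : G → τ'.range → A, ∀ g x, c g x = c' g ((x : Equiv.Perm Y') y0) :=
    ⟨_, fun _ _ => rfl⟩
  have hdc : ∀ g h x, dc (lact q) c g h x = a g h (P x) := by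
    intro g h x
    rw [hPx, hc', dc, dc, hc, hc, hc, lact_apply, hqv]
  obtain ⟨k, hk⟩ := card_fibre q τ hτ P hP
  have hkQ : (Fintype.card τ'.range : ℝ) = k * Fintype.card Y := by
    have h1 := hk (fun _ => True)
    simp only [Finset.filter_true, Finset.card_univ] at h1
    exact_mod_cast h1
  have hdefQ : ∀ g ∈ E, ∀ h ∈ E, ((univ.filter fun x => dc (lact q) c g h x ≠ 1).card : ℝ) ≤
      δ * Fintype.card τ'.range := by
    intro g hg h hh
    have h1 := hk (fun y => a g h y ≠ 1)
    have h2 := hsmall g hg h hh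
    have h3 : (univ.filter fun x => dc (lact q) c g h x ≠ 1) =
        univ.filter fun x => a g h (P x) ≠ 1 := by
      apply Finset.filter_congr
      intro x _
      rw [hdc]
    have h4 : {y | a g h y ≠ 1}.ncard = (univ.filter fun y => a g h y ≠ 1).card := by
      rw [← Set.ncard_coe_finset]
      congr 1
      ext y
      simp
    rw [h4] at h2
    rw [h3, h1, hkQ, Nat.cast_mul]
    have h5 : (0 : ℝ) ≤ k := Nat.cast_nonneg _
    nlinarith
  -- the family
  obtain ⟨N, hN⟩ : ∃ N, N = Fintype.card (τ'.range × A) := ⟨_, rfl⟩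
  have e : (τ'.range × A) ≃ Fin N := Fintype.equivFinOfCardEq hN.symm
  have hNr : (N : ℝ) = Fintype.card τ'.range * α := by
    rw [hN, Fintype.card_prod, hα]
    push_cast
    rfl
  have hNpos : 0 < N := by
    rw [hN]
    exact Fintype.card_pos
  obtain ⟨f, hf⟩ : ∃ f : G → Equiv.Perm (Fin N), ∀ g p, f g (e p) = e (skew (lact q) c g p) :=
    ⟨fun g => (e.symm.trans (skew (lact q) c g)).trans e, fun g p => by simp⟩
  have hdefN : ∀ g ∈ E, ∀ h ∈ E,
      ((univ.filter fun x => f g (f h x) ≠ f (g * h) x).card : ℝ) ≤ δ * N := by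
    intro g hg h hh
    have h1 : (univ.filter fun x => f g (f h x) ≠ f (g * h) x).card =
        ((univ.filter fun x => dc (lact q) c g h x ≠ 1) ×ˢ (univ : Finset A)).card := by
      symm
      apply Finset.card_bij (fun p _ => e p)
      · rintro ⟨x, t⟩ hp
        rw [mem_product, mem_filter] at hp
        rw [mem_filter, hf, hf, hf]
        refine ⟨mem_univ _, fun h' => ?_⟩
        exact (skew_mul_iff (lact q) c g h x t).2 hp.1.2 (e.injective h')
      · intro p _ p' _ h'
        exact e.injective h'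
      · intro y hy
        obtain ⟨⟨x, t⟩, rfl⟩ := e.surjective y
        refine ⟨(x, t), ?_, rfl⟩
        rw [mem_filter, hf, hf, hf] at hy
        rw [mem_product, mem_filter]
        refine ⟨⟨mem_univ _, ?_⟩, mem_univ _⟩
        apply (skew_mul_iff (lact q) c g h x t).1
        intro h'
        exact hy.2 (by rw [h'])
    rw [h1, card_product, Finset.card_univ, Nat.cast_mul, ← hα, hNr]
    have h2 := mul_le_mul_of_nonneg_right (hdefQ g hg h hh) hα0
    linarith
  obtain ⟨m, ρ, ι, hι, hbad⟩ := hfin N f hNpos hdefN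
  -- the model of the skew products
  have hbadQ : ∑ g ∈ F, ((univ.filter fun x =>
      ρ g ((ι ∘ e) x) ≠ (ι ∘ e) (skew (lact q) c g x)).card : ℝ) ≤ 1 / (2 * K) * N := by
    refine le_trans (le_of_eq ?_) hbad
    apply Finset.sum_congr rfl
    intro g _
    congr 1
    apply Finset.card_bij (fun p _ => e p)
    · intro p hp
      rw [mem_filter] at hp ⊢
      rw [hf]
      exact ⟨mem_univ _, hp.2⟩
    · intro p _ p' _ h'
      exact e.injective h'
    · intro y hy
      obtain ⟨p, rfl⟩ := e.surjective y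
      refine ⟨p, ?_, rfl⟩
      rw [mem_filter, hf] at hy
      rw [mem_filter]
      exact ⟨mem_univ _, hy.2⟩
  have hQpos : (0 : ℝ) < Fintype.card τ'.range := by
    have : 0 < Fintype.card τ'.range := Fintype.card_pos
    exact_mod_cast this
  obtain ⟨c2, hc2, hdc2⟩ := descend_model F C hC.le hnear q hq D c (by
      intro g h x d hd
      rw [hdc, hdc, (hDm d).1 hd])
    ρ (ι ∘ e) (hι.comp e.injective) (1 / (2 * K) * N) hbadQ (by
      rw [← hα, hNr]
      have h1 : C * (α * (1 / (2 * K) * (Fintype.card τ'.range * α))) =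
          C * α ^ 2 / (2 * K) * Fintype.card τ'.range := by
        field_simp
      have h2 : C * α ^ 2 / (2 * K) < 1 := by
        rw [div_lt_one (by positivity)]
        linarith
      rw [h1]
      nlinarith) (by
      rw [← hα, hNr]
      have h1 : 3 * (C * (2 * (F.card * (2 * (C * (α * (1 / (2 * K) *
          (Fintype.card τ'.range * α))))) + 1 / (2 * K) * (Fintype.card τ'.range * α)))) =
          6 * C * α * (2 * F.card * C * α + 1) / (2 * K) * Fintype.card τ'.range := by
        field_simp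
        ring
      have h2 : 6 * C * α * (2 * F.card * C * α + 1) / (2 * K) < 1 := by
        rw [div_lt_one (by positivity)]
        linarith
      rw [h1]
      nlinarith)
  -- descent to `Y`
  have hsurj : ∀ y, ∃ x, P x = y := by
    intro y
    obtain ⟨g, hg⟩ := hτ (P 1) y
    exact ⟨q g * 1, by rw [hP, hg]⟩
  choose s hs using hsurj
  have hcs : ∀ g x, c2 g (s (P x)) = c2 g x := by
    intro g x
    have h1 := hDe (s (P x)) x (hs (P x))
    have h2 := hc2 g (s (P x)) _ h1
    rw [mul_inv_cancel_left] at h2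
    exact h2.symm
  refine ⟨fun g y => c2 g (s y), ?_⟩
  intro g h y
  obtain ⟨x, rfl⟩ : ∃ x, P x = y := ⟨s y, hs y⟩
  rw [← hdc, ← hdc2]
  simp only [dc]
  rw [← hP, hcs, hcs, hcs, lact_apply]

end Pool.Agent.FS84
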