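import Pool.Agent.FS84.Major
import Pool.Agent.FS84.SmallCoc

/-!
Small `2`-cocycles over finite transitive `G`-sets which are almost coboundaries over finite
quotients of the group.
-/

set_option autoImplicit false
open Filter Topology Finset

namespace Pool.Agent.FS84

section alg

variable {A : Type} [AddCommGroup A]

theorem alg9 (p p' q q' r r' : A) :
    (p + -p') + (q + -q') + -(r + -r') = (p + q + -r) + -(p' + q' + -r') := by abel

end alg

variable {G : Type} [Group G] {Y A : Type} [CommGroup A]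

/-- compactness -/
theorem coc_compact [Finite A] (τ : G →* Equiv.Perm Y) (a : G → G → Y → A)
    (h : ∀ E0 : Finset G, ∃ c : G → Y → A, ∀ g ∈ E0, ∀ h ∈ E0, ∀ y, a g h y = dc τ c g h y) :
    ∃ c : G → Y → A, ∀ g h y, a g h y = dc τ c g h y := by
  classical
  choose cE hcE using h
  obtain ⟨U, hU⟩ : ∃ U : Ultrafilter (Finset G), (U : Filter (Finset G)) ≤ atTop :=
    ⟨Ultrafilter.of atTop, Ultrafilter.of_le atTop⟩
  have hex : ∀ g y, ∃ v, ∀ᶠ E in (U : Filter (Finset G)), cE E g y = v := by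
    intro g y
    by_contra hc
    push Not at hc
    have h1 : ∀ v, ∀ᶠ E in (U : Filter (Finset G)), ¬ cE E g y = v := by
      intro v
      exact hc v
    have h2 := (Filter.eventually_all (ι := A)).2 h1
    obtain ⟨E, hE⟩ := h2.exists
    exact hE _ rfl
  choose c hc using hex
  refine ⟨c, ?_⟩
  intro g h y
  have hm : ∀ k : G, ∀ᶠ E in (U : Filter (Finset G)), k ∈ E := by
    intro k
    apply hU
    filter_upwards [eventually_ge_atTop ({k} : Finset G)] with E hE
    exact hE (Finset.mem_singleton_self k)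
  obtain ⟨E, h1, h2, h3, h4, h5⟩ := ((hc g (τ h y)).and ((hc h y).and ((hc (g * h) y).and
    ((hm g).and (hm h))))).exists
  rw [hcE E g h4 h h5 y]
  simp only [dc]
  rw [h1, h2, h3]

/-- an almost-cocycle over a finite quotient is close to a cocycle -/
theorem coc_of_defect {Q : Type} [Group Q] [Fintype Q] [DecidableEq Q] [Fintype A] [DecidableEq A]
    (F : Finset G) (C : ℝ) (hC : 0 ≤ C)
    (hnear : ∀ (X : Type) [Fintype X] [DecidableEq X]
      (ρ : G →* Equiv.Perm X) (A : Finset X), ∃ B : Finset X, Inv ρ B ∧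
        ((A \ B).card + (B \ A).card : ℝ) ≤
          C * ∑ a ∈ F, ((A.filter fun x => ρ a x ∉ A).card : ℝ))
    (F0 : Finset G) (hF0 : F ⊆ F0) (η : ℝ) (E : Finset G) (δ : ℝ)
    (hfin : ∀ (N : ℕ) (f : G → Equiv.Perm (Fin N)), 0 < N →
      (∀ g ∈ E, ∀ h ∈ E, ((univ.filter fun x => f g (f h x) ≠ f (g * h) x).card : ℝ) ≤ δ * N) →
      ∃ (m : ℕ) (ρ : G →* Equiv.Perm (Fin m)) (ι : Fin N → Fin m), Function.Injective ι ∧
        ∑ g ∈ F0, ((univ.filter fun x => ρ g (ι x) ≠ ι (f g x)).card : ℝ) ≤ η * N)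
    (q : G →* Q) (hq : Function.Surjective q) (c : G → Q → A)
    (hdef : ∀ g ∈ E, ∀ h ∈ E,
      ((univ.filter fun x => dc (lact q) c g h x ≠ 1).card : ℝ) ≤ δ * Fintype.card Q)
    (hη : C * (Fintype.card A : ℝ) ^ 2 * η < 1) :
    ∃ z : G → Q → A, IsCoc (lact q) z ∧ ∀ g ∈ F0,
      ((univ.filter fun x => z g x ≠ c g x).card : ℝ) ≤
        (2 * C * Fintype.card A + 1) * Fintype.card A * η * Fintype.card Q := by
  classical
  obtain ⟨α, hα⟩ : ∃ α : ℝ, α = Fintype.card A := ⟨_, rfl⟩
  have hα0 : 0 ≤ α := by rw [hα]; exact Nat.cast_nonneg _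
  obtain ⟨N, hN⟩ : ∃ N, N = Fintype.card (Q × A) := ⟨_, rfl⟩
  have e : (Q × A) ≃ Fin N := Fintype.equivFinOfCardEq hN.symm
  have hNr : (N : ℝ) = Fintype.card Q * α := by
    rw [hN, Fintype.card_prod, hα]
    push_cast
    rfl
  have hNpos : 0 < N := by
    rw [hN]
    exact Fintype.card_pos
  obtain ⟨f, hf⟩ : ∃ f : G → Equiv.Perm (Fin N), ∀ g p, f g (e p) = e (skew (lact q) c g p) :=
    ⟨fun g => (e.symm.trans (skew (lact q) c g)).trans e, fun g p => by simp⟩
  have hdefN : ∀ g ∈ E, ∀ h ∈ E,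
      ((univ.filter fun x => f g (f h x) ≠ f (g * h) x).card : ℝ) ≤ δ * N := by
    intro g hg h hh
    have h1 : (univ.filter fun x => f g (f h x) ≠ f (g * h) x).card =
        ((univ.filter fun x => dc (lact q) c g h x ≠ 1) ×ˢ (univ : Finset A)).card := by
      symm
      apply Finset.card_bij (fun p _ => e p)
      · rintro ⟨x, t⟩ hp
        rw [mem_product, mem_filter] at hp
        rw [mem_filter, hf, hf, hf]
        refine ⟨mem_univ _, fun h' => ?_⟩
        exact (skew_mul_iff (lact q) c g h x t).2 hp.1.2 (e.injective h')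
      · intro p _ p' _ h'
        exact e.injective h'
      · intro y hy
        obtain ⟨⟨x, t⟩, rfl⟩ := e.surjective y
        refine ⟨(x, t), ?_, rfl⟩
        rw [mem_filter, hf, hf, hf] at hy
        rw [mem_product, mem_filter]
        refine ⟨⟨mem_univ _, ?_⟩, mem_univ _⟩
        apply (skew_mul_iff (lact q) c g h x t).1
        intro h'
        exact hy.2 (by rw [h'])
    rw [h1, card_product, Finset.card_univ, Nat.cast_mul, ← hα, hNr]
    have h2 := mul_le_mul_of_nonneg_right (hdef g hg h hh) hα0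
    linarith
  obtain ⟨m, ρ, ι, hι, hbad⟩ := hfin N f hNpos hdefN
  have hbadQ : ∀ g, ((univ.filter fun x =>
      ρ g ((ι ∘ e) x) ≠ (ι ∘ e) (skew (lact q) c g x)).card : ℝ) =
      ((univ.filter fun x => ρ g (ι x) ≠ ι (f g x)).card : ℝ) := by
    intro g
    congr 1
    apply Finset.card_bij (fun p _ => e p)
    · intro p hp
      rw [mem_filter] at hp ⊢
      rw [hf]
      exact ⟨mem_univ _, hp.2⟩
    · intro p _ p' _ h'
      exact e.injective h'
    · intro y hy
      obtain ⟨p, rfl⟩ := e.surjective y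
      refine ⟨p, ?_, rfl⟩
      rw [mem_filter, hf] at hy
      rw [mem_filter]
      exact ⟨mem_univ _, hy.2⟩
  have hQpos : (0 : ℝ) < Fintype.card Q := by
    have : 0 < Fintype.card Q := Fintype.card_pos
    exact_mod_cast this
  have hbF : ∑ g ∈ F, ((univ.filter fun x =>
      ρ g ((ι ∘ e) x) ≠ (ι ∘ e) (skew (lact q) c g x)).card : ℝ) ≤ η * N := by
    rw [Finset.sum_congr rfl fun g _ => hbadQ g]
    refine le_trans ?_ hbad
    exact Finset.sum_le_sum_of_subset_of_nonneg hF0 fun _ _ _ => Nat.cast_nonneg _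
  have hCα : 0 ≤ C * α := mul_nonneg hC hα0
  have hle : C * (α * ∑ g ∈ F, ((univ.filter fun x =>
      ρ g ((ι ∘ e) x) ≠ (ι ∘ e) (skew (lact q) c g x)).card : ℝ)) ≤ C * (α * (η * N)) :=
    mul_le_mul_of_nonneg_left (mul_le_mul_of_nonneg_left hbF hα0) hC
  have hval : C * (α * (η * N)) = C * α ^ 2 * η * Fintype.card Q := by
    rw [hNr]
    ring
  obtain ⟨z, hz, hzc⟩ := coc_near F C hC hnear (lact q) (lact_trans q hq) c ρ (ι ∘ e)
    (hι.comp e.injective) (by
      rw [← hα]
      refine lt_of_le_of_lt (hle.trans (le_of_eq hval)) ?_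
      rw [← hα] at hη
      nlinarith)
  refine ⟨z, hz, ?_⟩
  intro g hg
  have h1 := hzc g
  rw [← hα, hbadQ g] at h1
  have h2 : ((univ.filter fun x => ρ g (ι x) ≠ ι (f g x)).card : ℝ) ≤ η * N :=
    (Finset.single_le_sum (f := fun g => ((univ.filter fun x => ρ g (ι x) ≠ ι (f g x)).card : ℝ))
      (fun _ _ => Nat.cast_nonneg _) hg).trans hbad
  rw [← hα]
  have h3 : (2 * C * α + 1) * α * η * (Fintype.card Q : ℝ) =
      2 * (C * (α * (η * N))) + η * N := by
    rw [hNr]
    ring
  rw [h3]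
  linarith

end Pool.Agent.FS84
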