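import Pool.Agent.FS84.Exact
import Pool.Agent.FS84.StepC
import Pool.Agent.FS84.Sof

/-!
Flexibly stable Kazhdan groups: a `2`-cochain which is almost a coboundary over finite quotients
becomes a coboundary on a finite `G`-set.
-/

set_option autoImplicit false
open Finset

namespace Pool.Agent.FS84

variable {G : Type} [Group G] {Y A : Type} [CommGroup A]

theorem resTriv_dense [Countable G] (hG : HasNear G) (hst : FlexStable G) [Finite A] [Finite Y]
    (τ : G →* Equiv.Perm Y) (hτ : Trans τ) (a : G → G → Y → A) (hQ : QForm τ a)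
    (E0 : Finset G) :
    ∃ a' : G → G → Y → A, ResTriv τ a' ∧ ∀ g ∈ E0, ∀ h ∈ E0, ∀ y, a' g h y = a g h y := by
  classical
  have := Fintype.ofFinite A
  have := Fintype.ofFinite Y
  obtain ⟨F, C, hC, hnear⟩ := hG
  obtain ⟨α, hα⟩ : ∃ α : ℝ, α = Fintype.card A := ⟨_, rfl⟩
  have hα0 : 0 ≤ α := by rw [hα]; exact Nat.cast_nonneg _
  obtain ⟨y, hy⟩ : ∃ y : ℝ, y = Fintype.card Y := ⟨_, rfl⟩
  have hy1 : 1 ≤ y := by
    obtain ⟨Q, _, _, q, P, _⟩ := hQ ∅ 1 one_pos
    have : 0 < Fintype.card Y := Fintype.card_pos_iff.2 ⟨P 1⟩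
    rw [hy]
    exact_mod_cast this
  obtain ⟨K0, hK0⟩ : ∃ K0 : ℝ, K0 = (2 * C * α + 1) * α := ⟨_, rfl⟩
  have hK00 : 0 ≤ K0 := by rw [hK0]; positivity
  have hF0 : (0 : ℝ) ≤ F.card := Nat.cast_nonneg _
  obtain ⟨L, hL⟩ : ∃ L : ℝ, L = C * F.card * K0 + K0 + C * α ^ 2 + 1 := ⟨_, rfl⟩
  have hL1 : 0 ≤ C * F.card * K0 := by positivity
  have hL2 : 0 ≤ C * α ^ 2 := by positivity
  have hL0 : 0 < L := by rw [hL]; linarith
  obtain ⟨η, hη⟩ : ∃ η : ℝ, η = 1 / (100 * L * y) := ⟨_, rfl⟩
  have hη0 : 0 < η := by rw [hη]; positivity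
  have hηL : L * η * y = 1 / 100 := by
    rw [hη]
    field_simp
  -- the constants times `η`
  have hu1 : C * F.card * K0 * η * y ≤ 1 / 100 := by
    rw [← hηL]
    apply mul_le_mul_of_nonneg_right _ (by linarith)
    apply mul_le_mul_of_nonneg_right _ hη0.le
    linarith
  have hu2 : K0 * η * y ≤ 1 / 100 := by
    rw [← hηL]
    apply mul_le_mul_of_nonneg_right _ (by linarith)
    apply mul_le_mul_of_nonneg_right _ hη0.le
    linarith
  have hu3 : C * α ^ 2 * η < 1 := by
    have h1 : C * α ^ 2 * η * y ≤ 1 / 100 := by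
      rw [← hηL]
      apply mul_le_mul_of_nonneg_right _ (by linarith)
      apply mul_le_mul_of_nonneg_right _ hη0.le
      linarith
    have h2 : 0 ≤ C * α ^ 2 * η := by positivity
    nlinarith
  obtain ⟨E1, hE1⟩ : ∃ E1 : Finset G, E1 =
    (F ∪ E0) ∪ (E0 ×ˢ E0).image fun p => p.1 * p.2 := ⟨_, rfl⟩
  have hFE : F ⊆ E1 := by
    rw [hE1]
    exact (Finset.subset_union_left).trans Finset.subset_union_left
  have hE : ∀ g ∈ E0, ∀ h ∈ E0, g ∈ E1 ∧ h ∈ E1 ∧ g * h ∈ E1 := by
    intro g hg h hh
    rw [hE1]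
    refine ⟨mem_union_left _ (mem_union_right _ hg), mem_union_left _ (mem_union_right _ hh),
      mem_union_right _ ?_⟩
    exact mem_image.2 ⟨(g, h), mem_product.2 ⟨hg, hh⟩, rfl⟩
  obtain ⟨E2, δ2, hδ2, hfin⟩ := finite_form hst E1 η hη0
  obtain ⟨ε, hε⟩ : ∃ ε : ℝ, ε = min (δ2 / 2) (1 / (2 * y)) := ⟨_, rfl⟩
  have hε0 : 0 < ε := by
    rw [hε]
    apply lt_min (by linarith)
    positivity
  have hε1 : 2 * ε ≤ δ2 := by
    have := min_le_left (δ2 / 2) (1 / (2 * y))
    rw [← hε] at this
    linarith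
  have hε2 : ε * y ≤ 1 / 2 := by
    have h1 := min_le_right (δ2 / 2) (1 / (2 * y))
    rw [← hε] at h1
    have h2 := mul_le_mul_of_nonneg_right h1 (by linarith : (0 : ℝ) ≤ y)
    have h3 : 1 / (2 * y) * y = 1 / 2 := by field_simp
    linarith
  obtain ⟨Q, _, _, q, P, c, hq, hP, hdef⟩ := hQ (E2 ∪ E0) ε hε0
  have := Fintype.ofFinite Q
  -- the group of the fibres
  let D : Subgroup Q :=
    { carrier := {d | ∀ x, P (x * d) = P x}
      mul_mem' := by
        intro d d' hd hd' x
        rw [← mul_assoc, hd', hd]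
      one_mem' := by
        intro x
        rw [mul_one]
      inv_mem' := by
        intro d hd x
        rw [← hd (x * d⁻¹), inv_mul_cancel_right] }
  have hDm : ∀ d, d ∈ D ↔ ∀ x, P (x * d) = P x := fun _ => Iff.rfl
  have hPD : ∀ x, ∀ d ∈ D, P (x * d) = P x := fun x d hd => hd x
  have hDe : ∀ x x', P x = P x' → x⁻¹ * x' ∈ D := by
    intro x x' h
    rw [hDm]
    intro w
    obtain ⟨g, hg⟩ := hq (w * x⁻¹)
    rw [← mul_assoc, ← hg, hP, ← h, ← hP, hg, inv_mul_cancel_right]
  have hsurj : ∀ y, ∃ x, P x = y := by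
    intro y
    obtain ⟨g, hg⟩ := hτ (P 1) y
    exact ⟨q g * 1, by rw [hP, hg]⟩
  have hcardQ : (Fintype.card Q : ℝ) = Fintype.card D * y := by
    obtain ⟨k, hk⟩ := card_fibre q τ hτ P hP
    have h1 := hk (fun _ => True)
    simp only [Finset.filter_true, Finset.card_univ] at h1
    have h2 := hk (fun y => y = P 1)
    have h3 : (univ.filter fun y => y = P 1).card = 1 := by
      rw [Finset.card_eq_one]
      exact ⟨P 1, by ext; simp⟩
    rw [h3, mul_one] at h2
    have h4 : (univ.filter fun x => P x = P 1).card = Fintype.card D := by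
      rw [← Fintype.card_coe]
      apply Fintype.card_congr
      refine ⟨fun x => ⟨x.1, ?_⟩, fun d => ⟨d.1, ?_⟩, fun _ => rfl, fun _ => rfl⟩
      · have h5 := (mem_filter.1 x.2).2
        have h6 := hDe 1 x.1 h5.symm
        rwa [inv_one, one_mul] at h6
      · rw [mem_filter]
        refine ⟨mem_univ _, ?_⟩
        have := hPD 1 d.1 d.2
        rwa [one_mul] at this
    rw [h1, ← h2, h4, hy]
    push_cast
    rfl
  have hQpos : (0 : ℝ) < Fintype.card Q := by
    have : 0 < Fintype.card Q := Fintype.card_pos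
    exact_mod_cast this
  have hDpos : (0 : ℝ) < Fintype.card D := by
    have : 0 < Fintype.card D := Fintype.card_pos
    exact_mod_cast this
  have hdef' : ∀ g ∈ E2 ∪ E0, ∀ h ∈ E2 ∪ E0,
      ((univ.filter fun x => dc (lact q) c g h x ≠ a g h (P x)).card : ℝ) ≤
        ε * Fintype.card Q := by
    intro g hg h hh
    have h1 := hdef g hg h hh
    rw [Nat.card_eq_fintype_card] at h1
    refine le_trans (le_of_eq ?_) h1
    congr 1
    rw [← Set.ncard_coe_finset]
    congr 1
    ext x
    simp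
  -- the almost-cocycles of the translations
  have hzex : ∀ d : D, ∃ z : G → Q → A, IsCoc (lact q) z ∧ ∀ g ∈ E1,
      ((univ.filter fun x => z g x ≠ c g (x * d) * (c g x)⁻¹).card : ℝ) ≤
        K0 * η * Fintype.card Q := by
    intro d
    obtain ⟨z, h1, h2⟩ := coc_of_defect F C hC.le hnear E1 hFE η E2 δ2 hfin q hq
      (fun g x => c g (x * d) * (c g x)⁻¹) (by
        intro g hg h hh
        have h1 := hdef' g (mem_union_left _ hg) h (mem_union_left _ hh)
        have h2 := card_three
          (univ.filter fun x => dc (lact q) (fun g x => c g (x * d) * (c g x)⁻¹) g h x ≠ 1)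
          (univ.filter fun x => dc (lact q) c g h (x * d) ≠ a g h (P (x * d)))
          (univ.filter fun x => dc (lact q) c g h x ≠ a g h (P x)) (by
            intro x hx
            rw [mem_filter] at hx
            rw [mem_union, mem_filter, mem_filter]
            by_contra hc
            push Not at hc
            apply hx.2
            have h3 := hc.1 (mem_univ _)
            have h4 := hc.2 (mem_univ _)
            rw [hPD _ _ d.2, ← h4] at h3
            simp only [dc, lact_mul] at h3 ⊢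
            have h5 := alg9 (A := Additive A) (c g (lact q h x * d)) (c g (lact q h x))
              (c h (x * d)) (c h x) (c (g * h) (x * d)) (c (g * h) x)
            refine Eq.trans h5 ?_
            exact (mul_inv_eq_one.2 h3 : _ = (1 : A)))
        rw [card_shift (fun x => dc (lact q) c g h x ≠ a g h (P x)) (d : Q)] at h2
        have h3 : ((univ.filter fun x =>
            dc (lact q) (fun g x => c g (x * d) * (c g x)⁻¹) g h x ≠ 1).card : ℝ) ≤
            (univ.filter fun x => dc (lact q) c g h x ≠ a g h (P x)).card +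
              (univ.filter fun x => dc (lact q) c g h x ≠ a g h (P x)).card := by
          exact_mod_cast h2
        have h4 := mul_le_mul_of_nonneg_right hε1 hQpos.le
        linarith) (by rw [← hα]; exact hu3)
    refine ⟨z, h1, ?_⟩
    intro g hg
    have h3 := h2 g hg
    rw [← hα, ← hK0] at h3
    exact h3
  choose z hzc hz using hzex
  obtain ⟨T, hT⟩ : ∃ T : ℝ, T = C * (F.card * (3 * (K0 * η * Fintype.card Q))) := ⟨_, rfl⟩
  have hTv : T = 3 * (C * F.card * K0 * η * y) * Fintype.card D := by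
    rw [hT, hcardQ]
    ring
  have htv : K0 * η * (Fintype.card Q : ℝ) = (K0 * η * y) * Fintype.card D := by
    rw [hcardQ]
    ring
  obtain ⟨c', hinvD, hc'⟩ := exact_descent F C hC.le hnear q hq τ P hP D hPD hDe hsurj c z hzc E1
    hFE (K0 * η * Fintype.card Q) T hz hT (by
      rw [hTv, hcardQ]
      nlinarith) E0 hE a (ε * Fintype.card Q)
    (fun g hg h hh => hdef' g (mem_union_right _ hg) h (mem_union_right _ hh)) (by
      have h1 : ε * (Fintype.card Q : ℝ) = ε * y * Fintype.card D := by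
        rw [hcardQ]
        ring
      rw [hTv, htv, h1]
      nlinarith)
  choose s hs using hsurj
  have hds : ∀ g h x, dc (lact q) c' g h (s (P x)) = dc (lact q) c' g h x := by
    intro g h x
    have h1 := hDe (s (P x)) x (hs (P x))
    have h2 := hinvD g h (s (P x)) _ h1
    rw [mul_inv_cancel_left] at h2
    exact h2.symm
  refine ⟨fun g h y => dc (lact q) c' g h (s y), ⟨Q, inferInstance, inferInstance, lact q, P, c',
    fun g x => hP g x, fun g h x => hds g h x⟩, ?_⟩
  intro g hg h hh y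
  show dc (lact q) c' g h (s y) = a g h y
  rw [hc' g hg h hh (s y), hs]

end Pool.Agent.FS84
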