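import Pool.Agent.FS84.CocB

/-!
Descent of a small cochain along the right translations by a subgroup of a finite quotient.
-/

set_option autoImplicit false
open Finset

namespace Pool.Agent.FS84

section alg

variable {A : Type} [AddCommGroup A]

theorem alg1 (p q r s t u : A) (h : p + q + -r = s + t + -u) :
    r + -u = (p + -s) + (q + -t) := by
  have h1 : (p + -s) + (q + -t) + -(r + -u) = (p + q + -r) + -(s + t + -u) := by abel
  rw [h, add_neg_cancel] at h1
  exact (add_neg_eq_zero.1 h1).symm

theorem alg2 (u v w b b' : A) : u + -w + (b' + b) = (u + -v + b') + (v + -w + b) := by abel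

theorem alg3 (p s b b' β β' : A) (h : p + -s + b = b') :
    p + (b + β + -(b' + β')) = s + (β + -β') := by
  subst h
  abel

theorem alg4 (s t u β0 β1 β2 : A) :
    s + (β1 + -β2) + (t + (β0 + -β1)) + -(u + (β0 + -β2)) = s + t + -u := by abel

end alg

variable {G : Type} [Group G] {Q A Z : Type} [Group Q] [CommGroup A]

/-- the action of `G` on a quotient group by left translations -/
def lact (q : G →* Q) : G →* Equiv.Perm Q := (MulAction.toPermHom Q Q).comp q

theorem lact_apply (q : G →* Q) (g : G) (x : Q) : lact q g x = q g * x := rfl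

theorem lact_mul (q : G →* Q) (g : G) (x d : Q) : lact q g (x * d) = lact q g x * d := by
  rw [lact_apply, lact_apply, mul_assoc]

theorem lact_trans (q : G →* Q) (hq : Function.Surjective q) : Trans (lact q) := by
  intro x y
  obtain ⟨g, hg⟩ := hq (y * x⁻¹)
  exact ⟨g, by rw [lact_apply, hg, inv_mul_cancel_right]⟩

theorem card_three {α : Type} [DecidableEq α] (s t u : Finset α)
    (h : s ⊆ t ∪ u) : s.card ≤ t.card + u.card :=
  (Finset.card_le_card h).trans (Finset.card_union_le _ _)

theorem card_shift [Fintype Q] (P : Q → Prop) [DecidablePred P] (d : Q) :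
    (univ.filter fun x => P (x * d)).card = (univ.filter P).card := by
  apply Finset.card_bij (fun x _ => x * d)
  · intro x hx
    rw [mem_filter] at hx ⊢
    exact ⟨mem_univ _, hx.2⟩
  · intro x _ y _ h
    exact mul_right_cancel h
  · intro y hy
    refine ⟨y * d⁻¹, ?_, inv_mul_cancel_right y d⟩
    rw [mem_filter, inv_mul_cancel_right]
    exact ⟨mem_univ _, (mem_filter.1 hy).2⟩

/-- STEP 2, the descent -/
theorem descend [Fintype Q] [DecidableEq Q] [Fintype A] [DecidableEq A] (F : Finset G) (C : ℝ)
    (hC : 0 ≤ C)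
    (hnear : ∀ (X : Type) [Fintype X] [DecidableEq X]
      (ρ : G →* Equiv.Perm X) (A : Finset X), ∃ B : Finset X, Inv ρ B ∧
        ((A \ B).card + (B \ A).card : ℝ) ≤
          C * ∑ a ∈ F, ((A.filter fun x => ρ a x ∉ A).card : ℝ))
    (q : G →* Q) (hq : Function.Surjective q) (D : Subgroup Q) (c : G → Q → A)
    (hD : ∀ g h x, ∀ d ∈ D, dc (lact q) c g h (x * d) = dc (lact q) c g h x)
    (hsmall : 3 * (C * (2 * ∑ a ∈ F, ((univ.filter fun x => c a x ≠ 1).card : ℝ))) <
      Fintype.card Q) :
    ∃ c2 : G → Q → A, (∀ g x, ∀ d ∈ D, c2 g (x * d) = c2 g x) ∧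
      ∀ g h x, dc (lact q) c2 g h x = dc (lact q) c g h x := by
  classical
  have htr := lact_trans q hq
  -- the cocycles of the translations
  have hzex : ∀ d : D, ∃ b : Q → A, (∀ g x, c g (x * d) * (c g x)⁻¹ * b x = b (lact q g x)) ∧
      3 * (univ.filter fun x => b x ≠ 1).card < Fintype.card Q := by
    intro d
    apply small_cob F C hnear (lact q) htr (fun g x => c g (x * d) * (c g x)⁻¹)
    · intro g h x
      have h1 := hD g h x d d.2
      simp only [dc, lact_mul] at h1
      exact alg1 (A := Additive A) _ _ _ _ _ _ h1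
    · refine lt_of_le_of_lt ?_ hsmall
      apply mul_le_mul_of_nonneg_left _ (by norm_num)
      apply mul_le_mul_of_nonneg_left _ hC
      rw [Finset.mul_sum]
      apply Finset.sum_le_sum
      intro a _
      have h1 := card_three (univ.filter fun x => c a (x * d) * (c a x)⁻¹ ≠ 1)
        (univ.filter fun x => c a (x * d) ≠ 1) (univ.filter fun x => c a x ≠ 1) (by
          intro x hx
          rw [mem_filter] at hx
          rw [mem_union, mem_filter, mem_filter]
          by_contra hc
          push Not at hc
          apply hx.2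
          rw [hc.1 (mem_univ _), hc.2 (mem_univ _), inv_one, mul_one])
      rw [card_shift (fun x => c a x ≠ 1) (d : Q)] at h1
      have h2 : ((univ.filter fun x => c a (x * d) * (c a x)⁻¹ ≠ 1).card : ℝ) ≤
          (univ.filter fun x => c a x ≠ 1).card + (univ.filter fun x => c a x ≠ 1).card := by
        exact_mod_cast h1
      linarith
  choose b hb hbs using hzex
  -- the cocycle identity of the `b`
  have hbb : ∀ (d d' : D) (x : Q), b (d * d') x = b d' (x * d) * b d x := by
    intro d d' x
    have h1 : b (d * d') = fun x => b d' (x * d) * b d x := by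
      apply cob_unique (lact q) htr (fun g x => c g (x * (d * d' : D)) * (c g x)⁻¹)
      · exact hb (d * d')
      · intro g x
        show c g (x * (d * d' : D)) * (c g x)⁻¹ * (b d' (x * d) * b d x) =
          b d' (lact q g x * d) * b d (lact q g x)
        rw [← lact_mul, ← hb d' g (x * d), ← hb d g x, Subgroup.coe_mul, ← mul_assoc x]
        exact alg2 (A := Additive A) _ _ _ _ _
      · have h2 := card_three (univ.filter fun x => b d' (x * d) * b d x ≠ 1)
          (univ.filter fun x => b d' (x * d) ≠ 1) (univ.filter fun x => b d x ≠ 1) (by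
            intro x hx
            rw [mem_filter] at hx
            rw [mem_union, mem_filter, mem_filter]
            by_contra hc
            push Not at hc
            apply hx.2
            rw [hc.1 (mem_univ _), hc.2 (mem_univ _), mul_one])
        rw [card_shift (fun x => b d' x ≠ 1) (d : Q)] at h2
        have h3 := hbs d
        have h4 := hbs d'
        have h5 := hbs (d * d')
        omega
    rw [h1]
  -- the section
  obtain ⟨r, hr⟩ : ∃ r : Q → Q, ∀ x, r x = ((x : Q ⧸ D)).out := ⟨_, fun _ => rfl⟩
  have hrx : ∀ x, (r x)⁻¹ * x ∈ D := by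
    intro x
    rw [← QuotientGroup.eq, hr, QuotientGroup.out_eq']
  have hrd : ∀ x, ∀ d ∈ D, r (x * d) = r x := by
    intro x d hd
    rw [hr, hr, QuotientGroup.mk_mul_of_mem x hd]
  obtain ⟨β, hβ⟩ : ∃ β : Q → A, ∀ x, β x = b ⟨(r x)⁻¹ * x, hrx x⟩ (r x) := ⟨_, fun _ => rfl⟩
  have hβd : ∀ x, ∀ d : D, β (x * d) = b d x * β x := by
    intro x d
    have h1 : β (x * d) = b (⟨(r x)⁻¹ * x, hrx x⟩ * d) (r x) := by
      rw [hβ]
      have h2 := hrd x d d.2
      congr 1
      · congr 1
        show (r (x * d))⁻¹ * (x * d) = (r x)⁻¹ * x * d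
        rw [h2, mul_assoc]
    rw [h1, hbb, hβ]
    show b d (r x * ((r x)⁻¹ * x)) * _ = _
    rw [mul_inv_cancel_left]
  refine ⟨fun g x => c g x * (β x * (β (lact q g x))⁻¹), ?_, ?_⟩
  · intro g x d hd
    show c g (x * d) * (β (x * d) * (β (lact q g (x * d)))⁻¹) =
      c g x * (β x * (β (lact q g x))⁻¹)
    rw [lact_mul]
    have h1 := hβd x ⟨d, hd⟩
    have h2 := hβd (lact q g x) ⟨d, hd⟩
    have h3 := hb ⟨d, hd⟩ g x
    simp only at h1 h2 h3
    rw [h1, h2]
    exact alg3 (A := Additive A) _ _ _ _ _ _ h3
  · intro g h x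
    simp only [dc]
    rw [map_mul, Equiv.Perm.mul_apply]
    exact alg4 (A := Additive A) _ _ _ _ _ _

end Pool.Agent.FS84
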