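import Pool.Agent.FS84.Major

/-!
The almost-cocycles of the right translations made exact: a cochain on a finite quotient whose
coboundary almost descends is close to a cochain whose coboundary descends.
-/

set_option autoImplicit false
open Finset

namespace Pool.Agent.FS84

section alg

variable {A : Type} [AddCommGroup A]

theorem alg10 (w v u s r : A) :
    (w + -(v + u)) + (v + -(s + r)) = (w + -(s + (r + u))) := by abel

theorem alg11 (w v u s r : A) :
    (w + -(s + v)) + (v + -(r + u)) = (w + -(s + (r + u))) := by abel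

theorem alg12 (u b v w b' : A) (h : u + -(v + w) + b = b') : u + b = b' + (v + w) := by
  rw [← h]
  abel

theorem alg13 (x y z w : A) (h : x + y = z + w) : y = -x + -(-z + -w) := by
  have : y = -x + (x + y) := by abel
  rw [this, h]
  abel

theorem alg14 (zz z1 z2 B B' b0 b1 b2 c0 c1 c2 : A) (h : zz + B = B' + (z1 + z2))
    (hB : B = b0 + -(b1 + b2)) (hB' : B' = c0 + -(c1 + c2)) :
    zz + (b0 + -c0) = (z1 + (b1 + -c1)) + (z2 + (b2 + -c2)) := by
  have h1 : zz = B' + (z1 + z2) + -B := by rw [← h]; abel
  rw [h1, hB, hB']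
  abel

theorem alg15 (z1 z2 b0 b1 b2 : A) :
    (z1 + z2) + (b0 + -b2) = (z1 + (b1 + -b2)) + (z2 + (b0 + -b1)) := by abel

theorem alg16 (p q r u v w : A) (h : r = p + q) :
    (p + u) + (q + v) + -(r + w) = u + v + -w := by
  rw [h]
  abel

theorem alg17 (c z : A) : z + (c + -z) = c := by abel

end alg

variable {G : Type} [Group G] {Y Q A : Type} [Group Q] [CommGroup A]

theorem exact_descent [Fintype Q] [DecidableEq Q] [Fintype A] [DecidableEq A] (F : Finset G)
    (C : ℝ) (hC : 0 ≤ C)
    (hnear : ∀ (X : Type) [Fintype X] [DecidableEq X]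
      (ρ : G →* Equiv.Perm X) (A : Finset X), ∃ B : Finset X, Inv ρ B ∧
        ((A \ B).card + (B \ A).card : ℝ) ≤
          C * ∑ a ∈ F, ((A.filter fun x => ρ a x ∉ A).card : ℝ))
    (q : G →* Q) (hq : Function.Surjective q) (τ : G →* Equiv.Perm Y) (P : Q → Y)
    (hP : ∀ g x, P (q g * x) = τ g (P x))
    (D : Subgroup Q) [Fintype D] (hPD : ∀ x, ∀ d ∈ D, P (x * d) = P x)
    (hDe : ∀ x x', P x = P x' → x⁻¹ * x' ∈ D) (hsurj : ∀ y, ∃ x, P x = y)
    (c : G → Q → A) (z : D → G → Q → A) (hzc : ∀ d, IsCoc (lact q) (z d)) (E1 : Finset G)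
    (hF : F ⊆ E1) (t T : ℝ)
    (hz : ∀ d : D, ∀ g ∈ E1,
      ((univ.filter fun x => z d g x ≠ c g (x * d) * (c g x)⁻¹).card : ℝ) ≤ t)
    (hT : T = C * (F.card * (3 * t))) (hT4 : 4 * T < Fintype.card Q)
    (E0 : Finset G) (hE : ∀ g ∈ E0, ∀ h ∈ E0, g ∈ E1 ∧ h ∈ E1 ∧ g * h ∈ E1)
    (a : G → G → Y → A) (t' : ℝ)
    (hdc : ∀ g ∈ E0, ∀ h ∈ E0,
      ((univ.filter fun x => dc (lact q) c g h x ≠ a g h (P x)).card : ℝ) ≤ t')
    (hfin : 3 * (2 * T + t) + t' < Fintype.card D) :
    ∃ c' : G → Q → A,
      (∀ g h x, ∀ d ∈ D, dc (lact q) c' g h (x * d) = dc (lact q) c' g h x) ∧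
      ∀ g ∈ E0, ∀ h ∈ E0, ∀ x, dc (lact q) c' g h x = a g h (P x) := by
  classical
  have htr := lact_trans q hq
  have hD0 : (0 : ℝ) ≤ Fintype.card D := Nat.cast_nonneg _
  have hinj : ∀ s : Q, Function.Injective fun f : D => s * (f : Q) := by
    intro s f f' h
    exact Subtype.ext (mul_left_cancel h)
  -- the defects
  obtain ⟨ζ, hζ⟩ : ∃ ζ : D → D → G → Q → A, ∀ d d' g x, ζ d d' g x =
    z (d * d') g x * (z d' g (x * d) * z d g x)⁻¹ := ⟨_, fun _ _ _ _ => rfl⟩
  have hζc : ∀ d d', IsCoc (lact q) (ζ d d') := by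
    intro d d' g h x
    rw [hζ, hζ, hζ, hzc (d * d') g h x, hzc d' g h (x * d), hzc d g h x, lact_mul]
    have := fun (p q r s u v : Additive A) => (by abel :
      (p + q) + -((r + s) + (u + v)) = (p + -(r + u)) + (q + -(s + v)))
    exact this _ _ _ _ _ _
  have hζs : ∀ d d', ∀ a ∈ F, ((univ.filter fun x => ζ d d' a x ≠ 1).card : ℝ) ≤ 3 * t := by
    intro d d' a ha
    have e1 : (univ.filter fun x => ζ d d' a x ≠ 1) ⊆
        ((univ.filter fun x => z (d * d') a x ≠ c a (x * (d * d' : D)) * (c a x)⁻¹) ∪
          (univ.filter fun x => z d' a (x * d) ≠ c a (x * d * d') * (c a (x * d))⁻¹)) ∪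
          (univ.filter fun x => z d a x ≠ c a (x * d) * (c a x)⁻¹) := by
      intro x hx
      rw [mem_filter] at hx
      rw [mem_union, mem_union, mem_filter, mem_filter, mem_filter]
      by_contra hc
      push Not at hc
      apply hx.2
      rw [hζ, hc.1.1 (mem_univ _), hc.1.2 (mem_univ _), hc.2 (mem_univ _), Subgroup.coe_mul D,
        ← mul_assoc x, mul_inv_eq_one]
      exact alg8 (A := Additive A) _ _ _
    have e2 := (Finset.card_le_card e1).trans (Finset.card_union_le _ _)
    have e3 := Finset.card_union_le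
      (univ.filter fun x => z (d * d') a x ≠ c a (x * (d * d' : D)) * (c a x)⁻¹)
      (univ.filter fun x => z d' a (x * d) ≠ c a (x * d * d') * (c a (x * d))⁻¹)
    have e4 := card_shift (fun x => z d' a x ≠ c a (x * d') * (c a x)⁻¹) (d : Q)
    have e5 : (univ.filter fun x => ζ d d' a x ≠ 1).card ≤
        (univ.filter fun x => z (d * d') a x ≠ c a (x * (d * d' : D)) * (c a x)⁻¹).card +
          (univ.filter fun x => z d' a x ≠ c a (x * d') * (c a x)⁻¹).card +
          (univ.filter fun x => z d a x ≠ c a (x * d) * (c a x)⁻¹).card := by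
      rw [← e4]
      omega
    have e6 : ((univ.filter fun x => ζ d d' a x ≠ 1).card : ℝ) ≤
        (univ.filter fun x => z (d * d') a x ≠ c a (x * (d * d' : D)) * (c a x)⁻¹).card +
          (univ.filter fun x => z d' a x ≠ c a (x * d') * (c a x)⁻¹).card +
          (univ.filter fun x => z d a x ≠ c a (x * d) * (c a x)⁻¹).card := by exact_mod_cast e5
    have := hz (d * d') a (hF ha)
    have := hz d' a (hF ha)
    have := hz d a (hF ha)
    linarith
  have hsum : ∀ d d', C * ∑ a ∈ F, ((univ.filter fun x => ζ d d' a x ≠ 1).card : ℝ) ≤ T := by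
    intro d d'
    rw [hT]
    apply mul_le_mul_of_nonneg_left _ hC
    have := Finset.sum_le_sum (hζs d d')
    rwa [Finset.sum_const, nsmul_eq_mul] at this
  have hT0 : 0 ≤ T := by
    refine le_trans ?_ (hsum 1 1)
    exact mul_nonneg hC (Finset.sum_nonneg fun _ _ => Nat.cast_nonneg _)
  have hbex : ∀ d d', ∃ b : Q → A, (∀ g x, ζ d d' g x * b x = b (lact q g x)) ∧
      ((univ.filter fun x => b x ≠ 1).card : ℝ) ≤ T := by
    intro d d'
    obtain ⟨b, h1, h2⟩ := small_cob2 F C hnear (lact q) htr (ζ d d') (hζc d d')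
      (by linarith [hsum d d'])
    exact ⟨b, h1, h2.trans (hsum d d')⟩
  choose b hb hbT using hbex
  -- the exact identity of the `b`
  have hbb : ∀ (d d' d'' : D) (x : Q),
      b d (d' * d'') x * b d' d'' (x * d) = b (d * d') d'' x * b d d' x := by
    intro d d' d'' x
    have h1 : (fun x => b d (d' * d'') x * b d' d'' (x * d)) =
        fun x => b (d * d') d'' x * b d d' x := by
      apply cob_unique (lact q) htr (fun g x => ζ d (d' * d'') g x * ζ d' d'' g (x * d))
      · intro g x
        show ζ d (d' * d'') g x * ζ d' d'' g (x * d) * (b d (d' * d'') x * b d' d'' (x * d)) =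
          b d (d' * d'') (lact q g x) * b d' d'' (lact q g x * d)
        rw [← hb, ← lact_mul, ← hb]
        exact mul_mul_mul_comm _ _ _ _
      · intro g x
        show ζ d (d' * d'') g x * ζ d' d'' g (x * d) * (b (d * d') d'' x * b d d' x) =
          b (d * d') d'' (lact q g x) * b d d' (lact q g x)
        have h2 : ζ d (d' * d'') g x * ζ d' d'' g (x * d) =
            ζ (d * d') d'' g x * ζ d d' g x := by
          rw [hζ, hζ, hζ, hζ, mul_assoc d d' d'', Subgroup.coe_mul D d d', ← mul_assoc x]
          exact (alg10 (A := Additive A) _ _ _ _ _).trans (alg11 (A := Additive A) _ _ _ _ _).symm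
        rw [h2, ← hb, ← hb]
        exact mul_mul_mul_comm _ _ _ _
      · have e1 := card_three (univ.filter fun x => b d (d' * d'') x * b d' d'' (x * d) ≠ 1)
          (univ.filter fun x => b d (d' * d'') x ≠ 1) (univ.filter fun x => b d' d'' (x * d) ≠ 1)
          (by
            intro x hx
            rw [mem_filter] at hx
            rw [mem_union, mem_filter, mem_filter]
            by_contra hc
            push Not at hc
            apply hx.2
            rw [hc.1 (mem_univ _), hc.2 (mem_univ _), mul_one])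
        rw [card_shift (fun x => b d' d'' x ≠ 1) (d : Q)] at e1
        have e2 := card_three (univ.filter fun x => b (d * d') d'' x * b d d' x ≠ 1)
          (univ.filter fun x => b (d * d') d'' x ≠ 1) (univ.filter fun x => b d d' x ≠ 1)
          (by
            intro x hx
            rw [mem_filter] at hx
            rw [mem_union, mem_filter, mem_filter]
            by_contra hc
            push Not at hc
            apply hx.2
            rw [hc.1 (mem_univ _), hc.2 (mem_univ _), mul_one])
        have e3 := hbT d (d' * d'')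
        have e4 := hbT d' d''
        have e5 := hbT (d * d') d''
        have e6 := hbT d d'
        have e7 : ((univ.filter fun x => b d (d' * d'') x * b d' d'' (x * d) ≠ 1).card : ℝ) +
            (univ.filter fun x => b (d * d') d'' x * b d d' x ≠ 1).card < Fintype.card Q := by
          have e8 : ((univ.filter fun x => b d (d' * d'') x * b d' d'' (x * d) ≠ 1).card : ℝ) ≤
              (univ.filter fun x => b d (d' * d'') x ≠ 1).card +
                (univ.filter fun x => b d' d'' x ≠ 1).card := by exact_mod_cast e1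
          have e9 : ((univ.filter fun x => b (d * d') d'' x * b d d' x ≠ 1).card : ℝ) ≤
              (univ.filter fun x => b (d * d') d'' x ≠ 1).card +
                (univ.filter fun x => b d d' x ≠ 1).card := by exact_mod_cast e2
          linarith
        exact_mod_cast e7
    exact congrFun h1 x
  -- the section
  have hr : ∀ y, ∃ r, P r = y ∧ ((univ.filter fun p : D × D => b p.1 p.2 r ≠ 1).card : ℝ) ≤
      Fintype.card D * T := by
    intro y
    obtain ⟨s, hs⟩ := hsurj y
    obtain ⟨f, hf⟩ := exists_le_avg (α := D) (fun f => ((univ.filter fun p : D × D =>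
      b p.1 p.2 (s * f) ≠ 1).card : ℝ)) (Fintype.card D * T) (by
        rw [double_count (fun (f : D) (p : D × D) => b p.1 p.2 (s * f) ≠ 1)]
        have h1 : ∀ p ∈ (univ : Finset (D × D)), ((univ.filter fun f : D =>
            b p.1 p.2 (s * f) ≠ 1).card : ℝ) ≤ T := by
          intro p _
          exact (count_inj (fun f : D => s * (f : Q)) (hinj s)
            (fun x => b p.1 p.2 x ≠ 1)).trans (hbT p.1 p.2)
        have h2 := Finset.sum_le_sum h1
        rw [Finset.sum_const, Finset.card_univ, Fintype.card_prod, nsmul_eq_mul, Nat.cast_mul,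
          mul_assoc] at h2
        exact h2)
    exact ⟨s * f, by rw [hPD _ _ f.2, hs], hf⟩
  choose r hrP hrb using hr
  obtain ⟨ε, hε⟩ : ∃ ε : Q → D, ∀ x, x = r (P x) * ε x :=
    ⟨fun x => ⟨(r (P x))⁻¹ * x, hDe _ _ (hrP (P x))⟩, fun x => (mul_inv_cancel_left _ _).symm⟩
  have hPr : ∀ y (e : D), P (r y * e) = y := by
    intro y e
    rw [hPD _ _ e.2, hrP]
  have hεr : ∀ y (e : D), ε (r y * e) = e := by
    intro y e
    have h1 := hε (r y * e)
    rw [hPr] at h1
    exact (Subtype.ext (mul_left_cancel h1)).symm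
  obtain ⟨κ, hκ⟩ : ∃ κ : G → Y → D, ∀ g y, q g * r y = r (τ g y) * κ g y := by
    refine ⟨fun g y => ⟨(r (τ g y))⁻¹ * (q g * r y), hDe _ _ ?_⟩, ?_⟩
    · rw [hP, hrP, hrP]
    · intro g y
      exact (mul_inv_cancel_left _ _).symm
  have hlact : ∀ g y (e : D), lact q g (r y * e) = r (τ g y) * ((κ g y * e : D) : Q) := by
    intro g y e
    rw [lact_apply, ← mul_assoc, hκ, Subgroup.coe_mul, mul_assoc]
  obtain ⟨β, hβ⟩ : ∃ β : D → Q → A, ∀ d x, β d x = (b (ε x) d (r (P x)))⁻¹ :=
    ⟨_, fun _ _ => rfl⟩
  have hβr : ∀ d y (e : D), β d (r y * e) = (b e d (r y))⁻¹ := by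
    intro d y e
    rw [hβ, hPr, hεr]
  have hβb : ∀ d d' x, b d d' x = β (d * d') x * (β d' (x * d) * β d x)⁻¹ := by
    intro d d' x
    obtain ⟨y, hy⟩ : ∃ y, y = P x := ⟨_, rfl⟩
    obtain ⟨e, he⟩ : ∃ e, e = ε x := ⟨_, rfl⟩
    have hx : x = r y * e := by rw [hy, he]; exact hε x
    have h1 := hbb e d d' (r y)
    rw [← hx] at h1
    have h2 : x * d = r y * ((e * d : D) : Q) := by rw [Subgroup.coe_mul, ← mul_assoc, ← hx]
    rw [h2, hβr]
    have h3 : β (d * d') x = (b e (d * d') (r y))⁻¹ := by rw [hx, hβr]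
    have h4 : β d x = (b e d (r y))⁻¹ := by rw [hx, hβr]
    rw [h3, h4]
    exact alg13 (A := Additive A) _ _ _ _ h1
  -- the exact cocycles
  obtain ⟨w, hw⟩ : ∃ w : D → G → Q → A, ∀ d g x, w d g x =
    z d g x * (β d x * (β d (lact q g x))⁻¹) := ⟨_, fun _ _ _ => rfl⟩
  have hwc : ∀ d, IsCoc (lact q) (w d) := by
    intro d g h x
    rw [hw, hw, hw, hzc d g h x, map_mul, Equiv.Perm.mul_apply]
    exact alg15 (A := Additive A) _ _ _ _ _
  have hww : ∀ (d d' : D) g x, w (d * d') g x = w d' g (x * d) * w d g x := by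
    intro d d' g x
    have h1 := hb d d' g x
    rw [hζ] at h1
    have h2 := alg12 (A := Additive A) _ _ _ _ _ h1
    rw [hw, hw, hw, lact_mul]
    exact alg14 (A := Additive A) _ _ _ _ _ _ _ _ _ _ _ h2 (hβb d d' x)
      (hβb d d' (lact q g x))
  -- the constants
  have hkex : ∀ g y, ∃ k : A, g ∈ E1 → ((univ.filter fun e : D =>
      w e g (r y) * k ≠ c g (r y * e)).card : ℝ) ≤ 2 * T + t := by
    intro g y
    by_cases hg : g ∈ E1
    · obtain ⟨e0, he0⟩ := exists_le_avg (α := D) (fun e => ((univ.filter fun d : D =>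
        w d g (r y * e) ≠ c g (r y * e * d) * (c g (r y * e))⁻¹).card : ℝ)) (2 * T + t) (by
          rw [← count_prod (fun (e d : D) =>
            w d g (r y * e) ≠ c g (r y * e * d) * (c g (r y * e))⁻¹)]
          have h1 : (univ.filter fun p : D × D =>
              w p.2 g (r y * p.1) ≠ c g (r y * p.1 * p.2) * (c g (r y * p.1))⁻¹) ⊆
              ((univ.filter fun p : D × D => b p.1 p.2 (r y) ≠ 1) ∪
              (univ.filter fun p : D × D => b (κ g y * p.1) p.2 (r (τ g y)) ≠ 1)) ∪
              (univ.filter fun p : D × D =>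
                z p.2 g (r y * p.1) ≠ c g (r y * p.1 * p.2) * (c g (r y * p.1))⁻¹) := by
            rintro ⟨e, d⟩ hp
            rw [mem_filter] at hp
            rw [mem_union, mem_union, mem_filter, mem_filter, mem_filter]
            by_contra hc
            push Not at hc
            apply hp.2
            have h2 := hc.1.1 (mem_univ _)
            have h3 := hc.1.2 (mem_univ _)
            have h4 := hc.2 (mem_univ _)
            simp only at h2 h3 h4 ⊢
            rw [hw, hlact, hβr, hβr, h2, h3, h4]
            simp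
          have h2 := (Finset.card_le_card h1).trans (Finset.card_union_le _ _)
          have h3 := Finset.card_union_le (univ.filter fun p : D × D => b p.1 p.2 (r y) ≠ 1)
              (univ.filter fun p : D × D => b (κ g y * p.1) p.2 (r (τ g y)) ≠ 1)
          have h4 : ((univ.filter fun p : D × D =>
              b (κ g y * p.1) p.2 (r (τ g y)) ≠ 1).card : ℝ) ≤ Fintype.card D * T := by
            refine le_trans (count_inj (fun p : D × D => (κ g y * p.1, p.2)) ?_
              (fun p : D × D => b p.1 p.2 (r (τ g y)) ≠ 1)) (hrb (τ g y))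
            rintro ⟨e, d⟩ ⟨e', d'⟩ h
            rw [Prod.mk.injEq] at h ⊢
            exact ⟨mul_left_cancel h.1, h.2⟩
          have h5 : ((univ.filter fun p : D × D =>
                z p.2 g (r y * p.1) ≠ c g (r y * p.1 * p.2) * (c g (r y * p.1))⁻¹).card : ℝ) ≤
              Fintype.card D * t := by
            rw [count_prod (fun (e d : D) =>
              z d g (r y * e) ≠ c g (r y * e * d) * (c g (r y * e))⁻¹), double_count]
            have h6 : ∀ d ∈ (univ : Finset D), ((univ.filter fun e : D =>
                z d g (r y * e) ≠ c g (r y * e * d) * (c g (r y * e))⁻¹).card : ℝ) ≤ t := by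
              intro d _
              exact (count_inj (fun e : D => r y * (e : Q)) (hinj (r y))
                (fun x => z d g x ≠ c g (x * d) * (c g x)⁻¹)).trans (hz d g hg)
            have h7 := Finset.sum_le_sum h6
            rwa [Finset.sum_const, Finset.card_univ, nsmul_eq_mul] at h7
          have h6n : (univ.filter fun p : D × D =>
              w p.2 g (r y * p.1) ≠ c g (r y * p.1 * p.2) * (c g (r y * p.1))⁻¹).card ≤
              (univ.filter fun p : D × D => b p.1 p.2 (r y) ≠ 1).card +
              (univ.filter fun p : D × D => b (κ g y * p.1) p.2 (r (τ g y)) ≠ 1).card +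
              (univ.filter fun p : D × D =>
                z p.2 g (r y * p.1) ≠ c g (r y * p.1 * p.2) * (c g (r y * p.1))⁻¹).card := by
            omega
          have h6 : ((univ.filter fun p : D × D =>
              w p.2 g (r y * p.1) ≠ c g (r y * p.1 * p.2) * (c g (r y * p.1))⁻¹).card : ℝ) ≤
              (univ.filter fun p : D × D => b p.1 p.2 (r y) ≠ 1).card +
              (univ.filter fun p : D × D => b (κ g y * p.1) p.2 (r (τ g y)) ≠ 1).card +
              (univ.filter fun p : D × D =>
                z p.2 g (r y * p.1) ≠ c g (r y * p.1 * p.2) * (c g (r y * p.1))⁻¹).card := by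
            exact_mod_cast h6n
          have h7 := hrb y
          linarith)
      refine ⟨c g (r y * e0) * (w e0 g (r y))⁻¹, fun _ => ?_⟩
      refine le_trans (le_of_eq ?_) he0
      congr 1
      symm
      apply Finset.card_bij (fun d _ => e0 * d)
      · intro d hd
        rw [mem_filter] at hd ⊢
        refine ⟨mem_univ _, fun h => hd.2 ?_⟩
        rw [hww e0 d g (r y), Subgroup.coe_mul, ← mul_assoc (r y)] at h
        rw [← h, mul_assoc (w d g (r y * e0)), mul_assoc (w d g (r y * e0)),
          show w e0 g (r y) * (c g (r y * e0) * (w e0 g (r y))⁻¹) = c g (r y * e0) from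
            alg17 (A := Additive A) _ _, mul_inv_cancel, mul_one]
      · intro d _ d' _ h
        exact mul_left_cancel h
      · intro e he
        rw [mem_filter] at he
        refine ⟨e0⁻¹ * e, ?_, mul_inv_cancel_left _ _⟩
        rw [mem_filter]
        refine ⟨mem_univ _, fun h => he.2 ?_⟩
        have h8 := hww e0 (e0⁻¹ * e) g (r y)
        rw [mul_inv_cancel_left] at h8
        rw [h8, h, mul_assoc _ (w e0 g (r y)),
          show w e0 g (r y) * (c g (r y * e0) * (w e0 g (r y))⁻¹) = c g (r y * e0) from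
            alg17 (A := Additive A) _ _, inv_mul_cancel_right, Subgroup.coe_mul, mul_assoc (r y),
          Subgroup.coe_inv, mul_inv_cancel_left]
    · exact ⟨1, fun h => absurd h hg⟩
  choose k hk using hkex
  obtain ⟨c', hc'⟩ : ∃ c' : G → Q → A, ∀ g x, c' g x = w (ε x) g (r (P x)) * k g (P x) :=
    ⟨_, fun _ _ => rfl⟩
  have hc'd : ∀ g x (d : D), c' g (x * d) = w d g x * c' g x := by
    intro g x d
    obtain ⟨y, hy⟩ : ∃ y, y = P x := ⟨_, rfl⟩
    obtain ⟨e, he⟩ : ∃ e, e = ε x := ⟨_, rfl⟩
    have hx : x = r y * e := by rw [hy, he]; exact hε x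
    have h1 : x * d = r y * ((e * d : D) : Q) := by rw [Subgroup.coe_mul, ← mul_assoc, ← hx]
    rw [hc', hc', h1, hPr, hεr, ← hy, ← he, hww e d g (r y), ← hx, mul_assoc]
  have hinvD : ∀ g h x, ∀ d ∈ D, dc (lact q) c' g h (x * d) = dc (lact q) c' g h x := by
    intro g h x d hd
    have h1 := hc'd g (lact q h x) ⟨d, hd⟩
    have h2 := hc'd h x ⟨d, hd⟩
    have h3 := hc'd (g * h) x ⟨d, hd⟩
    have h4 := hwc ⟨d, hd⟩ g h x
    simp only at h1 h2 h3
    simp only [dc]
    rw [lact_mul, h1, h2, h3]
    exact alg16 (A := Additive A) _ _ _ _ _ _ h4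
  refine ⟨c', hinvD, ?_⟩
  have hgood : ∀ g ∈ E1, ∀ y, ((univ.filter fun e : D => c' g (r y * e) ≠ c g (r y * e)).card : ℝ)
      ≤ 2 * T + t := by
    intro g hg y
    refine le_trans (le_of_eq ?_) (hk g y hg)
    congr 2
    apply Finset.filter_congr
    intro e _
    rw [hc', hPr, hεr]
  intro g hg h hh x
  obtain ⟨hg1, hh1, hgh1⟩ := hE g hg h hh
  obtain ⟨y, hy⟩ : ∃ y, y = P x := ⟨_, rfl⟩
  have hex : ∃ e : D, c' h (r y * e) = c h (r y * e) ∧
      c' (g * h) (r y * e) = c (g * h) (r y * e) ∧
      c' g (r (τ h y) * (κ h y * e : D)) = c g (r (τ h y) * (κ h y * e : D)) ∧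
      dc (lact q) c g h (r y * e) = a g h (P (r y * e)) := by
    by_contra hno
    push Not at hno
    have h1 : (univ : Finset D) ⊆ (((univ.filter fun e : D =>
          c' h (r y * e) ≠ c h (r y * e)) ∪
        (univ.filter fun e : D => c' (g * h) (r y * e) ≠ c (g * h) (r y * e))) ∪
        (univ.filter fun e : D => c' g (r (τ h y) * (κ h y * e : D)) ≠
          c g (r (τ h y) * (κ h y * e : D)))) ∪
        (univ.filter fun e : D => dc (lact q) c g h (r y * e) ≠ a g h (P (r y * e))) := by
      intro e _
      rw [mem_union, mem_union, mem_union, mem_filter, mem_filter, mem_filter, mem_filter]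
      by_contra hc
      push Not at hc
      exact hno e (hc.1.1.1 (mem_univ _)) (hc.1.1.2 (mem_univ _)) (hc.1.2 (mem_univ _))
        (hc.2 (mem_univ _))
    have h2 := (Finset.card_le_card h1).trans (Finset.card_union_le _ _)
    have h3 := Finset.card_union_le ((univ.filter fun e : D =>
          c' h (r y * e) ≠ c h (r y * e)) ∪
        (univ.filter fun e : D => c' (g * h) (r y * e) ≠ c (g * h) (r y * e)))
        (univ.filter fun e : D => c' g (r (τ h y) * (κ h y * e : D)) ≠
          c g (r (τ h y) * (κ h y * e : D)))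
    have h4 := Finset.card_union_le (univ.filter fun e : D => c' h (r y * e) ≠ c h (r y * e))
        (univ.filter fun e : D => c' (g * h) (r y * e) ≠ c (g * h) (r y * e))
    rw [Finset.card_univ] at h2
    have h5n : Fintype.card D ≤
        (univ.filter fun e : D => c' h (r y * e) ≠ c h (r y * e)).card +
        (univ.filter fun e : D => c' (g * h) (r y * e) ≠ c (g * h) (r y * e)).card +
        (univ.filter fun e : D => c' g (r (τ h y) * (κ h y * e : D)) ≠
          c g (r (τ h y) * (κ h y * e : D))).card +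
        (univ.filter fun e : D => dc (lact q) c g h (r y * e) ≠ a g h (P (r y * e))).card := by
      omega
    have h5 : (Fintype.card D : ℝ) ≤
        (univ.filter fun e : D => c' h (r y * e) ≠ c h (r y * e)).card +
        (univ.filter fun e : D => c' (g * h) (r y * e) ≠ c (g * h) (r y * e)).card +
        (univ.filter fun e : D => c' g (r (τ h y) * (κ h y * e : D)) ≠
          c g (r (τ h y) * (κ h y * e : D))).card +
        (univ.filter fun e : D => dc (lact q) c g h (r y * e) ≠ a g h (P (r y * e))).card := by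
      exact_mod_cast h5n
    have h6 := hgood h hh1 y
    have h7 := hgood (g * h) hgh1 y
    have h8 : ((univ.filter fun e : D =>
        c' g (r (τ h y) * (κ h y * e : D)) ≠ c g (r (τ h y) * (κ h y * e : D))).card : ℝ) ≤
          2 * T + t :=
      (count_inj (fun e : D => κ h y * e) (mul_right_injective _)
        (fun e : D => c' g (r (τ h y) * e) ≠ c g (r (τ h y) * e))).trans (hgood g hg1 (τ h y))
    have h9 : ((univ.filter fun e : D =>
        dc (lact q) c g h (r y * e) ≠ a g h (P (r y * e))).card : ℝ) ≤ t' :=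
      (count_inj (fun e : D => r y * (e : Q)) (hinj (r y))
        (fun x => dc (lact q) c g h x ≠ a g h (P x))).trans (hdc g hg h hh)
    linarith
  obtain ⟨e, h1, h2, h3, h4⟩ := hex
  have h5 : dc (lact q) c' g h (r y * e) = a g h y := by
    rw [hPr] at h4
    rw [← h4]
    simp only [dc]
    rw [hlact, h1, h2, h3]
  have h6 : x = r y * e * ((e⁻¹ * ε x : D) : Q) := by
    rw [mul_assoc, ← Subgroup.coe_mul, mul_inv_cancel_left, hy]
    exact hε x
  rw [← hy, ← h5]
  conv_lhs => rw [h6]
  exact hinvD _ _ _ _ (e⁻¹ * ε x).2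

end Pool.Agent.FS84
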