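import Pool.Agent.FS84.Aper

/-!
From models of almost everything to nearby actions on slightly more points; THEOREM C.
-/

set_option autoImplicit false
open Filter Topology Finset

namespace Pool.Agent.FS84

open Pool.Agent.H51K

variable {G : Type} [Group G]

theorem flex_aux {n m q : ℕ} (σ : Equiv.Perm (Fin n)) (τ : Equiv.Perm (Fin m)) (h : n ≤ m)
    (h1 : q ≤ n) (h2 : q ≤ m) (hq : q = n) :
    (univ.filter fun x : Fin q => (σ ⟨x, lt_of_lt_of_le x.2 h1⟩ : ℕ) ≠
      τ ⟨x, lt_of_lt_of_le x.2 h2⟩).card =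
    (univ.filter fun x : Fin n => (σ x : ℕ) ≠ τ (Fin.castLE h x)).card := by
  subst hq
  rfl

theorem flex_eq {n m : ℕ} (σ : Equiv.Perm (Fin n)) (τ : Equiv.Perm (Fin m)) (h : n ≤ m) :
    flex σ τ = (((univ.filter fun x : Fin n => (σ x : ℕ) ≠ τ (Fin.castLE h x)).card : ℝ) +
      ((m : ℝ) - n)) / n := by
  unfold flex
  rw [flex_aux σ τ h (min_le_left n m) (min_le_right n m) (min_eq_left h)]
  have h1 : |(n : ℝ) - m| = (m : ℝ) - n := by
    rw [abs_sub_comm, abs_of_nonneg]
    have : (n : ℝ) ≤ m := by exact_mod_cast h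
    linarith
  rw [h1, min_eq_left h]

/-- the action on an invariant set `B` and some fixed points, transported to `Fin m` -/
theorem transport {m0 m : ℕ} (ρ0 : G →* Equiv.Perm (Fin m0)) (B : Finset (Fin m0))
    (hB : Inv ρ0 B) (hm : B.card ≤ m) (s : Set (Fin m)) (f : Fin m → Fin m0)
    (hf : Set.InjOn f s) (hfB : ∀ x ∈ s, f x ∈ B) :
    ∃ ρ : G →* Equiv.Perm (Fin m), ∀ g, ∀ x ∈ s, ∀ y ∈ s, f y = ρ0 g (f x) → ρ g x = y := by
  classical
  let T := {y // y ∈ B} ⊕ Fin (m - B.card)
  have hcard : Fintype.card (Fin m) = Fintype.card T := by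
    simp only [T, Fintype.card_sum, Fintype.card_coe, Fintype.card_fin]
    omega
  have hP : ∀ g, ∀ y, ρ0 g y ∈ B ↔ y ∈ B := fun g y => hB g y
  let act : G →* Equiv.Perm T :=
    { toFun := fun g => Equiv.sumCongr ((ρ0 g).subtypePerm (hP g)) (Equiv.refl _)
      map_one' := by
        ext t
        rcases t with y | y
        · simp
        · simp
      map_mul' := by
        intro g h
        apply Equiv.ext
        intro t
        rcases t with y | y
        · show Sum.inl _ = Sum.inl _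
          congr 1
          apply Subtype.ext
          show ρ0 (g * h) y = ρ0 g (ρ0 h y)
          rw [map_mul]
          rfl
        · rfl }
  by_cases hne : s.Nonempty
  · obtain ⟨x0, hx0⟩ := hne
    obtain ⟨σ, hσ⟩ := ext_inj hcard s
      (fun x => if hx : f x ∈ B then Sum.inl ⟨f x, hx⟩ else Sum.inl ⟨f x0, hfB x0 hx0⟩) (by
        intro x hx y hy hxy
        simp only [hfB x hx, hfB y hy, dite_true] at hxy
        exact hf hx hy (congrArg Subtype.val (Sum.inl_injective hxy)))
    have hσ' : ∀ x (hx : x ∈ s), σ x = Sum.inl ⟨f x, hfB x hx⟩ := by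
      intro x hx
      rw [hσ x hx]
      simp only [hfB x hx, dite_true]
    refine ⟨{ toFun := fun g => (σ.trans (act g)).trans σ.symm
              map_one' := by
                ext x
                simp
              map_mul' := by
                intro g h
                apply Equiv.ext
                intro x
                simp }, ?_⟩
    intro g x hx y hy hxy
    show σ.symm (act g (σ x)) = y
    rw [Equiv.symm_apply_eq, hσ' x hx, hσ' y hy]
    show Sum.inl _ = Sum.inl _
    congr 1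
    apply Subtype.ext
    exact hxy.symm
  · refine ⟨1, ?_⟩
    intro g x hx
    exact absurd ⟨x, hx⟩ hne

/-- a good model gives a nearby action -/
theorem close_of_model (hG : HasNear G) :
    ∃ (F : Finset G) (C : ℝ), 0 < C ∧ ∀ (n : ℕ) (φ : G → Equiv.Perm (Fin n)) (E : Finset G),
      F ⊆ E → ∀ (η : ℝ) (A : Finset (Fin n)), Model φ E η A →
        ∃ (m : ℕ) (ρ : G →* Equiv.Perm (Fin m)) (hm : n ≤ m), ∀ g ∈ E,
          ((univ.filter fun x : Fin n => (φ g x : ℕ) ≠ ρ g (Fin.castLE hm x)).card : ℝ) +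
            ((m : ℝ) - n) ≤ ((n : ℝ) - A.card) + C * η := by
  classical
  obtain ⟨F, C, hC, hinv⟩ := hG
  refine ⟨F, C * F.card + 1, by positivity, ?_⟩
  intro n φ E hFE η A hM
  obtain ⟨m0, ρ0, ι, hι, hbad⟩ := hM
  set D : Finset (Fin m0) := A.image ι with hD
  have hDcard : D.card = A.card := Finset.card_image_of_injOn hι
  obtain ⟨B, hB, hcard⟩ := hinv (Fin m0) ρ0 D
  have hAn : A.card ≤ n := by
    have := Finset.card_le_univ A
    rwa [Fintype.card_fin] at this
  have h1 : ∀ a ∈ F, ((D.filter fun y => ρ0 a y ∉ D).card : ℝ) ≤ η := by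
    intro a ha
    refine le_trans ?_ (hbad a (hFE ha))
    have h2 : (D.filter fun y => ρ0 a y ∉ D) ⊆ (bad φ ρ0 A ι a).image ι := by
      intro y hy
      rw [mem_filter] at hy
      obtain ⟨hy1, hy2⟩ := hy
      obtain ⟨x, hx, rfl⟩ := Finset.mem_image.1 hy1
      rw [mem_image]
      refine ⟨x, ?_, rfl⟩
      rw [bad, mem_filter]
      refine ⟨hx, ?_⟩
      by_contra hc
      push Not at hc
      apply hy2
      rw [← hc.2]
      exact Finset.mem_image_of_mem ι hc.1
    have h3 := (Finset.card_le_card h2).trans Finset.card_image_le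
    exact_mod_cast h3
  have h2 : ∑ a ∈ F, ((D.filter fun y => ρ0 a y ∉ D).card : ℝ) ≤ F.card * η := by
    have := Finset.sum_le_sum h1
    rwa [Finset.sum_const, nsmul_eq_mul] at this
  have h3 : ((D \ B).card + (B \ D).card : ℝ) ≤ C * (F.card * η) :=
    hcard.trans (mul_le_mul_of_nonneg_left h2 hC.le)
  -- the size
  set m : ℕ := max n B.card with hm
  have hnm : n ≤ m := le_max_left _ _
  have hBm : B.card ≤ m := le_max_right _ _
  set s : Set (Fin m) := {x | ∃ h : (x : ℕ) < n, (⟨x, h⟩ : Fin n) ∈ A ∧ ι ⟨x, h⟩ ∈ B} with hs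
  by_cases hn : n = 0
  · -- no points at all
    have hm0B : (B.card : ℝ) ≤ C * (F.card * η) := by
      have h4 : D.card = 0 := by omega
      have h5 : D = ∅ := Finset.card_eq_zero.1 h4
      rw [h5] at h3
      simpa using h3
    have hη : ∀ g ∈ E, (0 : ℝ) ≤ η := fun g hg => le_trans (Nat.cast_nonneg _) (hbad g hg)
    refine ⟨0, 1, by omega, ?_⟩
    intro g hg
    subst hn
    have h6 := hη g hg
    have h7 : A.card = 0 := by omega
    rw [h7]
    simp only [univ_eq_empty, filter_empty, card_empty, Nat.cast_zero, sub_self, add_zero, zero_add]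
    positivity
  · have hn0 : 0 < n := Nat.pos_of_ne_zero hn
    let f : Fin m → Fin m0 := fun x => if h : (x : ℕ) < n then ι ⟨x, h⟩ else ι ⟨0, hn0⟩
    have hfx : ∀ (x : Fin m) (h : (x : ℕ) < n), f x = ι ⟨x, h⟩ := by
      intro x h
      simp only [f, h, dite_true]
    obtain ⟨ρ, hρ⟩ := transport ρ0 B hB hBm s f (by
      rintro x ⟨hx1, hx2, hx3⟩ y ⟨hy1, hy2, hy3⟩ hxy
      rw [hfx x hx1, hfx y hy1] at hxy
      have := hι hx2 hy2 hxy
      apply Fin.ext
      have h4 := congrArg Fin.val this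
      exact h4) (by
      rintro x ⟨hx1, hx2, hx3⟩
      rw [hfx x hx1]
      exact hx3)
    refine ⟨m, ρ, hnm, ?_⟩
    intro g hg
    have h4 : (univ.filter fun x : Fin n => (φ g x : ℕ) ≠ ρ g (Fin.castLE hnm x)) ⊆
        (univ \ A) ∪ ((A.filter fun x => ι x ∉ B) ∪ bad φ ρ0 A ι g) := by
      intro x hx
      rw [mem_filter] at hx
      rw [Finset.mem_union, Finset.mem_union, Finset.mem_sdiff, mem_filter]
      by_contra hcon
      push Not at hcon
      obtain ⟨hc1, hc2, hc3⟩ := hcon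
      have hxA : x ∈ A := hc1 (mem_univ _)
      have hxB : ι x ∈ B := hc2 hxA
      rw [bad, mem_filter] at hc3
      push Not at hc3
      obtain ⟨hc4, hc5⟩ := hc3 hxA
      apply hx.2
      have h5 := hρ g (Fin.castLE hnm x) ⟨x.2, hxA, hxB⟩ (Fin.castLE hnm (φ g x))
        ⟨(φ g x).2, hc4, by
          show ι (φ g x) ∈ B
          rw [hc5]
          exact (hB g (ι x)).2 hxB⟩ (by
          rw [hfx _ (by exact (φ g x).2), hfx _ (by exact x.2)]
          exact hc5)
      rw [h5]
      rfl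
    have h5 : (A.filter fun x => ι x ∉ B).card ≤ (D \ B).card := by
      apply Finset.card_le_card_of_injOn ι
      · intro x hx
        have hx' := Finset.mem_filter.1 hx
        rw [mem_coe, Finset.mem_sdiff]
        exact ⟨Finset.mem_image_of_mem ι hx'.1, hx'.2⟩
      · intro x hx y hy hxy
        exact hι (Finset.mem_filter.1 hx).1 (Finset.mem_filter.1 hy).1 hxy
    have h6 := (Finset.card_le_card h4).trans (Finset.card_union_le _ _)
    have h7 := Finset.card_union_le (A.filter fun x => ι x ∉ B) (bad φ ρ0 A ι g)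
    have h8 : (univ \ A : Finset (Fin n)).card = n - A.card := by
      rw [Finset.card_sdiff_of_subset (Finset.subset_univ _), Finset.card_univ, Fintype.card_fin]
    have h9 : m - n ≤ (B \ D).card := by
      have h10 : B.card ≤ D.card + (B \ D).card := by
        have h11 : B ⊆ D ∪ (B \ D) := by
          intro y hy
          by_cases hyD : y ∈ D
          · exact Finset.mem_union_left _ hyD
          · exact Finset.mem_union_right _ (Finset.mem_sdiff.2 ⟨hy, hyD⟩)
        exact (Finset.card_le_card h11).trans (Finset.card_union_le _ _)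
      omega
    have h10 : (univ.filter fun x : Fin n => (φ g x : ℕ) ≠ ρ g (Fin.castLE hnm x)).card + (m - n) ≤
        (n - A.card) + ((D \ B).card + (B \ D).card) + (bad φ ρ0 A ι g).card := by omega
    have h11 : ((univ.filter fun x : Fin n => (φ g x : ℕ) ≠ ρ g (Fin.castLE hnm x)).card : ℝ) +
        ((m - n : ℕ) : ℝ) ≤ ((n - A.card : ℕ) : ℝ) + ((D \ B).card + (B \ D).card) +
          (bad φ ρ0 A ι g).card := by exact_mod_cast h10
    rw [Nat.cast_sub hnm, Nat.cast_sub hAn] at h11
    have h12 := hbad g hg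
    have h13 : C * (F.card * η) + η = (C * F.card + 1) * η := by ring
    linarith

/-- `f` is modelled on almost everything, so it is close to actions -/
theorem flex_of_allParts (F : Finset G) (C : ℝ) (hC : 0 < C)
    (hcl : ∀ (n : ℕ) (φ : G → Equiv.Perm (Fin n)) (E : Finset G),
      F ⊆ E → ∀ (η : ℝ) (A : Finset (Fin n)), Model φ E η A →
        ∃ (m : ℕ) (ρ : G →* Equiv.Perm (Fin m)) (hm : n ≤ m), ∀ g ∈ E,
          ((univ.filter fun x : Fin n => (φ g x : ℕ) ≠ ρ g (Fin.castLE hm x)).card : ℝ) +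
            ((m : ℝ) - n) ≤ ((n : ℝ) - A.card) + C * η)
    (f : (n : ℕ) → G → Equiv.Perm (Fin n)) (E : ℕ → Finset G) (hE : Monotone E)
    (hEx : ∀ g, ∃ i, g ∈ E i) (hEF : ∀ i, F ⊆ E i) (hall : ∀ β < 1, AllParts f E β) :
    ∃ (m : ℕ → ℕ) (ρ : (n : ℕ) → G →* Equiv.Perm (Fin (m n))), (∀ n, n ≤ m n) ∧
      ∀ g, Tendsto (fun n => flex (f n g) (ρ n g)) atTop (𝓝 0) := by
  classical
  let R : ℕ → ℕ → Prop := fun i n => ∃ (m : ℕ) (ρ : G →* Equiv.Perm (Fin m)) (_ : n ≤ m),
    ∀ g ∈ E i, flex (f n g) (ρ g) ≤ (1 + C) / ((i : ℝ) + 1)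
  have hR : ∀ i, ∀ᶠ n : ℕ in atTop, R i n := by
    intro i
    have h1 : (1 : ℝ) - 1 / ((i : ℝ) + 1) < 1 := by
      have : (0 : ℝ) < 1 / ((i : ℝ) + 1) := by positivity
      linarith
    filter_upwards [hall _ h1 i, eventually_gt_atTop 0] with n hn hn0
    obtain ⟨A, hA, hA'⟩ := hn
    obtain ⟨m, ρ, hm, hρ⟩ := hcl n (f n) (E i) (hEF i) _ A hA
    refine ⟨m, ρ, hm, ?_⟩
    intro g hg
    have hn1 : (0 : ℝ) < n := by exact_mod_cast hn0
    rw [flex_eq _ _ hm, div_le_iff₀ hn1]
    have h2 := hρ g hg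
    have h3 : (1 + C) / ((i : ℝ) + 1) * n = 1 / ((i : ℝ) + 1) * n + C * ((n : ℝ) / (i + 1)) := by
      ring
    rw [h3]
    linarith
  obtain ⟨k, hk, hk0⟩ : ∃ k : ℕ → ℕ, (∀ K : ℕ, ∀ᶠ n : ℕ in atTop, K ≤ k n) ∧
      ∀ᶠ n : ℕ in atTop, R (k n) n := by
    refine ⟨fun n => Nat.findGreatest (fun k => R k n) n, ?_, ?_⟩
    · intro K
      filter_upwards [eventually_ge_atTop K, hR K] with n h1 h2
      exact Nat.le_findGreatest h1 h2
    · filter_upwards [hR 0] with n h2
      exact Nat.findGreatest_spec (P := fun k => R k n) (Nat.zero_le n) h2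
  have hex : ∀ n, ∃ (m : ℕ) (ρ : G →* Equiv.Perm (Fin m)), n ≤ m ∧
      (R (k n) n → ∀ g ∈ E (k n), flex (f n g) (ρ g) ≤ (1 + C) / ((k n : ℝ) + 1)) := by
    intro n
    by_cases h : R (k n) n
    · obtain ⟨m, ρ, hm, hρ⟩ := h
      exact ⟨m, ρ, hm, fun _ => hρ⟩
    · exact ⟨n, 1, le_rfl, fun h' => absurd h' h⟩
  choose m ρ hm hρ using hex
  refine ⟨m, ρ, hm, ?_⟩
  intro g
  rw [Metric.tendsto_atTop]
  intro ε hε
  obtain ⟨i0, hi0⟩ := hEx g
  obtain ⟨K, hK⟩ := exists_nat_gt ((1 + C) / ε)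
  obtain ⟨N, hN⟩ := eventually_atTop.1 ((hk (max i0 K)).and hk0)
  refine ⟨N, ?_⟩
  intro n hn
  obtain ⟨h1, h2⟩ := hN n hn
  have h3 := hρ n h2 g (hE ((le_max_left _ _).trans h1) hi0)
  have h4 : 0 ≤ flex (f n g) (ρ n g) := by
    unfold flex
    positivity
  rw [Real.dist_eq, sub_zero, abs_of_nonneg h4]
  refine lt_of_le_of_lt h3 ?_
  have h5 : (K : ℝ) ≤ k n := by exact_mod_cast (le_max_right _ _).trans h1
  rw [div_lt_iff₀ (by positivity)]
  rw [div_lt_iff₀ hε] at hK
  nlinarith

/-- an exhaustion of a countable group -/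
theorem exhaustion [Countable G] (F : Finset G) : ∃ E : ℕ → Finset G, Monotone E ∧
    (∀ g, ∃ i, g ∈ E i) ∧ ∀ i, F ⊆ E i := by
  classical
  obtain ⟨u, hu⟩ := exists_surjective_nat G
  refine ⟨fun i => (range (i + 1)).image u ∪ F, ?_, ?_, fun i => Finset.subset_union_right⟩
  · intro i j hij
    apply Finset.union_subset_union_left
    apply Finset.image_subset_image
    intro x hx
    rw [Finset.mem_range] at hx ⊢
    omega
  · intro g
    obtain ⟨i, rfl⟩ := hu g
    exact ⟨i, Finset.mem_union_left _ (Finset.mem_image_of_mem u (Finset.self_mem_range_succ i))⟩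

/-- THEOREM C: the one per cent theorem -/
theorem flexStable_iff [Countable G] (hG : HasNear G) :
    FlexStable G ↔
      ∀ f : (n : ℕ) → G → Equiv.Perm (Fin n), AlmostHom f → Aperiodic f → PartlyModelled f := by
  classical
  constructor
  · intro h f hf _
    obtain ⟨m, ρ, hm, hlim⟩ := h f hf
    refine ⟨1, one_pos, ?_⟩
    intro E η hη
    have h1 : ∀ᶠ n : ℕ in atTop, ∀ g ∈ E, flex (f n g) (ρ n g) < η := by
      rw [Filter.eventually_all_finset]
      intro g _
      exact (tendsto_order.1 (hlim g)).2 η hη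
    apply Filter.Eventually.frequently
    filter_upwards [h1, eventually_gt_atTop 0] with n hn hn0
    refine ⟨m n, ρ n, univ, Fin.castLE (hm n), by simp, ?_, ?_⟩
    · intro x _ y _ hxy
      exact Fin.castLE_injective (hm n) hxy
    · intro g hg
      have h2 := hn g hg
      have hn1 : (0 : ℝ) < n := by exact_mod_cast hn0
      rw [flex_eq _ _ (hm n), div_lt_iff₀ hn1] at h2
      have h3 : (univ.filter fun x => f n g x ∉ (univ : Finset (Fin n)) ∨
          Fin.castLE (hm n) (f n g x) ≠ ρ n g (Fin.castLE (hm n) x)).card ≤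
          (univ.filter fun x : Fin n => (f n g x : ℕ) ≠ ρ n g (Fin.castLE (hm n) x)).card := by
        apply Finset.card_le_card
        intro x hx
        rw [mem_filter] at hx ⊢
        refine ⟨hx.1, ?_⟩
        intro heq
        rcases hx.2 with h4 | h4
        · exact h4 (mem_univ _)
        · exact h4 (Fin.ext heq)
      have h4 : ((univ.filter fun x => f n g x ∉ (univ : Finset (Fin n)) ∨
          Fin.castLE (hm n) (f n g x) ≠ ρ n g (Fin.castLE (hm n) x)).card : ℝ) ≤
          (univ.filter fun x : Fin n => (f n g x : ℕ) ≠ ρ n g (Fin.castLE (hm n) x)).card := by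
        exact_mod_cast h3
      have h5 : (n : ℝ) ≤ m n := by exact_mod_cast hm n
      linarith
  · intro h f hf
    obtain ⟨F, C, hC, hcl⟩ := close_of_model hG
    obtain ⟨E, hE, hEx, hEF⟩ := exhaustion F
    apply flex_of_allParts F C hC hcl f E hE hEx hEF
    intro β hβ
    by_contra hno
    obtain ⟨F', φ, hF', hφ, hno'⟩ := nowhere_of_not_all f hf E hE hEx β hβ hno
    obtain ⟨f', hf', hno2⟩ := amplify F' φ hF' hφ hno'
    obtain ⟨δ, hδ, hmod⟩ := h f' hf' (aperiodic_of_nowhere f' hf' hno2)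
    obtain ⟨E', η, hη, hev⟩ := hno2 δ hδ
    obtain ⟨n, ⟨m, ρ, A, ι, h1, h2, h3⟩, h4⟩ := ((hmod E' η hη).and_eventually hev).exists
    have h5 := h4 A ⟨m, ρ, ι, h2, h3⟩
    linarith

end Pool.Agent.FS84
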