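import Pool.Agent.FS84.AmD

/-!
The amalgam of two copies of `SL_k(ℤ)`: it is not residually finite; if `SL_k(ℤ)` is flexibly
stable, then so is the amalgam, and an element which is trivial in all finite quotients is trivial
in all sofic quotients.
-/

set_option autoImplicit false
open Finset Filter Topology

namespace Pool.Agent.FS84

open Pool.Agent.TAU

theorem amalgam_countable (n p : ℕ) [NeZero p] : Countable (Amalgam n p) := by
  have hcount : Countable (SL (n + 3)) := by
    unfold SL Matrix.SpecialLinearGroup Matrix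
    infer_instance
  have hsurj : Function.Surjective fun l : List (Bool × SL (n + 3)) =>
      (l.map fun q => amalgIncl n p q.1 q.2).prod := by
    intro x
    apply amalgam_ind n p (fun x => ∃ l : List (Bool × SL (n + 3)),
      (l.map fun q => amalgIncl n p q.1 q.2).prod = x)
    · intro i g
      exact ⟨[(i, g)], by simp⟩
    · rintro x y ⟨l, rfl⟩ ⟨l', rfl⟩
      exact ⟨l ++ l', by simp⟩
  exact hsurj.countable

/-- a commutator which is trivial in all finite quotients of the amalgam -/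
theorem exists_finite_residual (n p : ℕ) (hp : 2 ≤ p) [NeZero p] :
    ∃ x : Amalgam n p, x ≠ 1 ∧
      ∀ (Q : Type) [Group Q] [Finite Q] (π : Amalgam n p →* Q), π x = 1 := by
  classical
  obtain ⟨⟨a, ha, hφa⟩, ⟨b, hb, hφb⟩, hal, hbe⟩ := sl_explicit n p hp
  obtain ⟨hab, -, -, -, -⟩ := el_relations n
  obtain ⟨α, hα⟩ : ∃ α : SL (n + 3), α = el 0 2 (ne02 n) 1 := ⟨_, rfl⟩
  obtain ⟨β, hβ⟩ : ∃ β : SL (n + 3), β = el 1 2 (ne12 n) 1 := ⟨_, rfl⟩
  rw [← hα] at ha hφa hal
  rw [← hβ] at hbe
  rw [← hα, ← hβ] at hab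
  obtain ⟨u, hu⟩ : ∃ u, u = amalgIncl n p true α := ⟨_, rfl⟩
  obtain ⟨w, hw⟩ : ∃ w, w = amalgIncl n p false β := ⟨_, rfl⟩
  have hne : u * w ≠ w * u := by
    rw [hu, hw]
    refine amalgam_ne (twoMaps n p) ?_ ?_ ?_
    · intro i
      cases i
      · exact Subgroup.subtype_injective _
      · exact conjHom_injective n p
    · exact hal
    · change β ∉ (conjA n p).subtype.range
      rw [Subgroup.range_subtype]
      exact hbe
  refine ⟨u * w * (w * u)⁻¹, fun h => hne (mul_inv_eq_one.1 h), ?_⟩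
  intro Q _ _ π
  have : Fintype Q := Fintype.ofFinite Q
  obtain ⟨M, hM, -, h2⟩ := amalgam_finite n p hp ((MulAction.toPermHom Q Q).comp π)
  have h3 : π (amalgIncl n p true (α ^ M)) = 1 := by
    have h4 := h2 1 0 2 (ne02 n)
    rw [hα, el_pow_nat]
    have h5 : π (amalgIncl n p true (el 0 2 (ne02 n) M)) * 1 = 1 := h4
    rwa [mul_one] at h5
  have hM0 : M ≠ 0 ∨ M = 0 := by omega
  have hkey : ∃ j : ℕ, π u = π (amalgIncl n p false (α ^ j)) := by
    by_cases hM0 : M = 0
    · exfalso
      rw [hM0, Nat.coprime_zero_right] at hM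
      omega
    · obtain ⟨j, q, hjq⟩ := inv_mod hp hM hM0
      refine ⟨j, ?_⟩
      have e1 : α ^ (p * j) = α ^ (M * q) * α := by rw [hjq, pow_succ]
      have e2 : π (amalgIncl n p true (α ^ (p * j))) = π u := by
        rw [e1, map_mul, map_mul, pow_mul, map_pow, map_pow, h3, one_pow, one_mul, hu]
      have e3 : amalgIncl n p false (α ^ j) = amalgIncl n p true (α ^ (p * j)) := by
        have e4 := amalgIncl_eq n p (a ^ j)
        have e5 : conjHom n p (a ^ j) = α ^ (p * j) := by rw [map_pow, hφa, ← pow_mul]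
        rw [Subgroup.coe_pow, ha, e5] at e4
        exact e4
      rw [e3, e2]
  obtain ⟨j, hj⟩ := hkey
  have hcomm : π u * π w = π w * π u := by
    have h5 : Commute (α ^ j) β := (show Commute α β from hab).pow_left j
    rw [hj, hw, ← map_mul, ← map_mul, ← map_mul, ← map_mul, h5.eq]
  rw [map_mul, map_inv, map_mul, map_mul, hcomm, mul_inv_cancel]

/-- an element of the finite residual is trivial in all sofic quotients -/
theorem sofic_residual (n p : ℕ) (hp : 2 ≤ p) [NeZero p] (hst : FlexStable (SL (n + 3)))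
    (x : Amalgam n p)
    (hx : ∀ (Q : Type) [Group Q] [Finite Q] (π : Amalgam n p →* Q), π x = 1)
    (Q : Type) [Group Q] (hQ : Sofic Q) (π : Amalgam n p →* Q) : π x = 1 := by
  classical
  by_contra hne
  obtain ⟨K, δ, hδ, hmod⟩ := amalgam_model n p hp hst {x} (1 / 10) (by norm_num)
  obtain ⟨N, ψ, hN, hψ, hfix⟩ := hQ (K.image π ∪ {π x}) (min δ (1 / 10)) (by positivity)
  have hN0 : (0 : ℝ) < N := by exact_mod_cast hN
  have e1 : min δ (1 / 10) * N ≤ δ * N := mul_le_mul_of_nonneg_right (min_le_left _ _) hN0.le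
  have e2 : min δ (1 / 10) * N ≤ 1 / 10 * N :=
    mul_le_mul_of_nonneg_right (min_le_right _ _) hN0.le
  obtain ⟨m, ρ, j, Good, h1, h2, h3⟩ := hmod N (fun g => ψ (π g)) hN (by
    intro s hs t ht
    have h4 := hψ (π s) (mem_union_left _ (mem_image_of_mem _ hs)) (π t)
      (mem_union_left _ (mem_image_of_mem _ ht))
    rw [cP_eq]
    change ((univ.filter fun x => ψ (π s) (ψ (π t) x) ≠ ψ (π (s * t)) x).card : ℝ) ≤ δ * N
    rw [map_mul]
    exact h4.trans e1)
  have h4 := h3 x (mem_singleton_self x)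
  have hρ : ρ x = 1 := hx (Equiv.Perm (Fin m)) ρ
  have h5 : cP (fun y => ψ (π x) y ≠ y) ≤ cP (fun y => ¬ Good y) +
      cP (fun y => Good y ∧ (¬ Good (ψ (π x) y) ∨ j (ψ (π x) y) ≠ ρ x (j y))) := by
    apply cP_or
    intro y hy
    by_cases hg : Good y
    · right
      refine ⟨hg, ?_⟩
      by_cases hg2 : Good (ψ (π x) y)
      · right
        intro h6
        rw [hρ] at h6
        exact hy (h2 _ _ hg2 hg h6)
      · exact Or.inl hg2
    · exact Or.inl hg
  have h6 : cP (fun y => ψ (π x) y = y) ≤ 1 / 10 * N := by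
    rw [cP_eq]
    exact (hfix (π x) (by simp) hne).trans e2
  have h7 := cP_compl (fun y => ψ (π x) y = y)
  have h8 : cP (fun y => Good y ∧ (¬ Good (ψ (π x) y) ∨ j (ψ (π x) y) ≠ ρ x (j y))) ≤
      1 / 10 * N := h4
  have h9 : cP (fun y => ¬ ψ (π x) y = y) ≤ cP (fun y => ¬ Good y) +
      cP (fun y => Good y ∧ (¬ Good (ψ (π x) y) ∨ j (ψ (π x) y) ≠ ρ x (j y))) := h5
  linarith

/-- the amalgam is flexibly stable -/
theorem amalgam_flexStable (n p : ℕ) (hp : 2 ≤ p) [NeZero p] (hst : FlexStable (SL (n + 3))) :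
    FlexStable (Amalgam n p) := by
  classical
  have := amalgam_countable n p
  rw [flexStable_iff (hasNear_amalgam n p hp)]
  intro f hf _
  refine ⟨1 / 2, by norm_num, ?_⟩
  intro E η hη
  obtain ⟨K, δ, hδ, hmod⟩ := amalgam_model n p hp hst E (min η (1 / 2)) (by positivity)
  have hev : ∀ᶠ N : ℕ in atTop, ∀ s ∈ K, ∀ t ∈ K, ham (f N s * f N t) (f N (s * t)) < δ := by
    rw [Filter.eventually_all_finset]
    intro s _
    rw [Filter.eventually_all_finset]
    intro t _
    exact (tendsto_order.1 (hf s t)).2 δ hδ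
  apply Filter.Eventually.frequently
  filter_upwards [hev, eventually_gt_atTop 0] with N h1 hN
  have hN0 : (0 : ℝ) < N := by exact_mod_cast hN
  obtain ⟨m, ρ, j, Good, h2, h3, h4⟩ := hmod N (f N) hN (by
    intro s hs t ht
    have h5 := (h1 s hs t ht).le
    unfold ham at h5
    rw [div_le_iff₀ hN0] at h5
    rw [cP_eq]
    exact h5)
  have e1 : min η (1 / 2) * N ≤ η * N := mul_le_mul_of_nonneg_right (min_le_left _ _) hN0.le
  have e2 : min η (1 / 2) * N ≤ 1 / 2 * N := mul_le_mul_of_nonneg_right (min_le_right _ _) hN0.le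
  refine ⟨m, ρ, univ.filter Good, j, ?_, ?_, ?_⟩
  · have h5 := cP_compl Good
    have h6 : cP Good = ((univ.filter Good).card : ℝ) := cP_eq Good
    linarith
  · intro x hx y hy h
    rw [mem_coe, mem_filter] at hx hy
    exact h3 x y hx.2 hy.2 h
  · intro g hg
    have h5 := (h4 g hg).trans e1
    unfold err at h5
    rw [cP_eq] at h5
    refine le_trans ?_ h5
    have h6 : ((univ.filter Good).filter fun x => f N g x ∉ univ.filter Good ∨
        j (f N g x) ≠ ρ g (j x)) ⊆
        univ.filter fun x => Good x ∧ (¬ Good (f N g x) ∨ j (f N g x) ≠ ρ g (j x)) := by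
      intro x hx
      rw [mem_filter, mem_filter] at hx
      rw [mem_filter]
      refine ⟨mem_univ _, hx.1.2, ?_⟩
      rcases hx.2 with h7 | h7
      · left
        intro h8
        exact h7 (mem_filter.2 ⟨mem_univ _, h8⟩)
      · exact Or.inr h7
    exact_mod_cast Finset.card_le_card h6

end Pool.Agent.FS84
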