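import Pool.Agent.FS84.FinalA
import Pool.Agent.K89.ToQ

/-!
If `SL_k(ℤ)` is flexibly stable, then every homomorphism from the amalgam `P` to a sofic group
factors through the image of `P` in `SL_k(ℚ)`, and this image is flexibly stable: the consequences
of the theorem that the finite quotients of `P` factor through `P → SL_k(ℚ)`.
-/

set_option autoImplicit false
open Finset Filter Topology

namespace Pool.Agent.FS84

open Pool.Agent.TAU
open Pool.Agent.K89 (toQ)

/-- every homomorphism from the amalgam to a finite group kills the kernel of `P → SL_k(ℚ)` -/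
def KillKer (n p : ℕ) [NeZero p] : Prop :=
  ∀ (Q : Type) [Group Q] [Finite Q] (q : Amalgam n p →* Q) (w : Amalgam n p),
    toQ n p w = 1 → q w = 1

theorem sofic_kills (n p : ℕ) (hp : 2 ≤ p) [NeZero p] (hk : KillKer n p)
    (hst : FlexStable (SL (n + 3))) (H : Type) [Group H] (hH : Sofic H) (f : Amalgam n p →* H)
    (w : Amalgam n p) (hw : toQ n p w = 1) : f w = 1 :=
  sofic_residual n p hp hst w (fun Q _ _ π => hk Q π w hw) H hH f

/-- a quotient by a normal subgroup which dies in all finite quotients is flexibly stable -/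
theorem flexStable_quotient {P Γ : Type} [Group P] [Group Γ] (r : P →* Γ)
    (hr : Function.Surjective r) (hP : FlexStable P)
    (hk : ∀ (m : ℕ) (q : P →* Equiv.Perm (Fin m)) (w : P), r w = 1 → q w = 1) :
    FlexStable Γ := by
  intro f hf
  obtain ⟨m, ρ, h1, h2⟩ := hP (fun N w => f N (r w)) (by
    intro g h
    have h3 := hf (r g) (r h)
    simp only [map_mul]
    exact h3)
  refine ⟨m, fun N => MonoidHom.liftOfSurjective r hr ⟨ρ N, ?_⟩, h1, ?_⟩
  · intro w hw
    exact hk (m N) (ρ N) w hw
  · intro g
    obtain ⟨w, rfl⟩ := hr g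
    refine (h2 w).congr fun N => ?_
    have e : MonoidHom.liftOfSurjective r hr ⟨ρ N, fun w hw => hk (m N) (ρ N) w hw⟩ (r w) = ρ N w :=
      MonoidHom.liftOfRightInverse_comp_apply r _ (Function.rightInverse_surjInv hr)
        ⟨ρ N, fun w hw => hk (m N) (ρ N) w hw⟩ w
    rw [e]

theorem range_flexStable (n p : ℕ) (hp : 2 ≤ p) [NeZero p] (hk : KillKer n p)
    (hst : FlexStable (SL (n + 3))) : FlexStable (toQ n p).range := by
  refine flexStable_quotient (toQ n p).rangeRestrict (MonoidHom.rangeRestrict_surjective _)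
    (amalgam_flexStable n p hp hst) ?_
  intro m q w hw
  refine hk _ q w ?_
  have h1 := congrArg (fun x : (toQ n p).range => (x : Matrix.SpecialLinearGroup (Fin (n + 3)) ℚ)) hw
  exact h1

theorem amalgam_not_sofic' (n p : ℕ) (hp : 2 ≤ p) [NeZero p] (hst : FlexStable (SL (n + 3))) :
    ¬ Sofic (Amalgam n p) := by
  obtain ⟨x, hx, hx1⟩ := exists_finite_residual n p hp
  exact fun hs => hx (sofic_residual n p hp hst x hx1 (Amalgam n p) hs (MonoidHom.id _))

end Pool.Agent.FS84
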