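import Pool.Agent.FS84.Wr
import Pool.Agent.FS84.FinalC
import Pool.Agent.K89.ToQ
import Pool.Agent.K89.EGen

/-!
The homomorphism from the amalgam `P = SL_k(ℤ) *_A SL_k(ℤ)` onto `SL_k(ℤ[1/p])`.
-/

set_option autoImplicit false

namespace Pool.Agent.FS84

open Pool.Agent.K89 (toQ toQ_false toQ_true)

/-- the two homomorphisms `c ↦ c` and `d ↦ g⁻¹ d g` to `SL_k(ℤ[1/p])` -/
noncomputable def twoI (n p : ℕ) [NeZero p] :
    Bool → (Matrix.SpecialLinearGroup (Fin (n + 3)) ℤ →*
      Matrix.SpecialLinearGroup (Fin (n + 3)) (ZI p))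
  | false => slI (n + 3) p
  | true => (MulAut.conj (gI n p)⁻¹).toMonoidHom.comp (slI (n + 3) p)

theorem gI_conj (n p : ℕ) [NeZero p] (c : conjA n p) :
    gI n p * slI (n + 3) p (c : Matrix.SpecialLinearGroup (Fin (n + 3)) ℤ) * (gI n p)⁻¹ =
      slI (n + 3) p (conjHom n p c) := by
  apply slIQ_injective
  rw [map_mul, map_mul, map_inv, slIQ_slI, slIQ_slI, slIQ_gI]
  exact (conjIso_spec (slQ (n + 3)) (slQ_injective (n + 3)) (gEl n p) c).symm

/-- the homomorphism from the amalgam `P` to `SL_k(ℤ[1/p])`, `c ↦ c` on the first copy of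
`SL_k(ℤ)` and `d ↦ g⁻¹ d g` on the second -/
noncomputable def toI (n p : ℕ) [NeZero p] :
    Amalgam n p →* Matrix.SpecialLinearGroup (Fin (n + 3)) (ZI p) :=
  Monoid.PushoutI.lift (G := fun _ : Bool => Matrix.SpecialLinearGroup (Fin (n + 3)) ℤ)
    (twoI n p) ((slI (n + 3) p).comp (conjA n p).subtype) (by
      intro b
      cases b
      · rfl
      · ext1 c
        change (gI n p)⁻¹ * slI (n + 3) p (conjHom n p c) * (gI n p)⁻¹⁻¹ =
          slI (n + 3) p (c : Matrix.SpecialLinearGroup (Fin (n + 3)) ℤ)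
        rw [← gI_conj]
        group)

variable (n p : ℕ) [NeZero p]

theorem toI_false (c : Matrix.SpecialLinearGroup (Fin (n + 3)) ℤ) :
    toI n p (amalgIncl n p false c) = slI (n + 3) p c := by
  unfold toI amalgIncl
  rw [Monoid.PushoutI.lift_of]
  rfl

theorem toI_true (c : Matrix.SpecialLinearGroup (Fin (n + 3)) ℤ) :
    toI n p (amalgIncl n p true c) = (gI n p)⁻¹ * slI (n + 3) p c * gI n p := by
  unfold toI amalgIncl
  rw [Monoid.PushoutI.lift_of]
  change (gI n p)⁻¹ * slI (n + 3) p c * (gI n p)⁻¹⁻¹ = _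
  rw [inv_inv]

theorem slIQ_toI (w : Amalgam n p) : slIQ (n + 3) p (toI n p w) = toQ n p w := by
  apply amalgam_ind n p (fun w => slIQ (n + 3) p (toI n p w) = toQ n p w)
  · intro b c
    cases b
    · rw [toI_false, toQ_false, slIQ_slI]
    · rw [toI_true, toQ_true, map_mul, map_mul, map_inv, slIQ_slI, slIQ_gI]
  · intro x y hx hy
    rw [map_mul, map_mul, map_mul, hx, hy]

theorem toI_eq_one (w : Amalgam n p) : toI n p w = 1 ↔ toQ n p w = 1 := by
  rw [← slIQ_toI]
  constructor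
  · intro h
    rw [h, map_one]
  · intro h
    apply slIQ_injective
    rw [h, map_one]

/-! ### surjectivity -/

theorem tvm_add {R : Type} [CommRing R] {k : ℕ} (i j : Fin k) (h : i ≠ j) (c d : R) :
    tv i j h c * tv i j h d = tv i j h (c + d) := by
  apply Subtype.ext
  rw [Matrix.SpecialLinearGroup.coe_mul]
  change Matrix.transvection i j c * Matrix.transvection i j d = Matrix.transvection i j (c + d)
  rw [Matrix.transvection_mul_transvection_same _ _ h]

theorem tvm_zero {R : Type} [CommRing R] {k : ℕ} (i j : Fin k) (h : i ≠ j) :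
    tv i j h (0 : R) = 1 := by
  apply Subtype.ext
  change Matrix.transvection i j (0 : R) = 1
  rw [Matrix.transvection_zero]

theorem tvm_inv {R : Type} [CommRing R] {k : ℕ} (i j : Fin k) (h : i ≠ j) (c : R) :
    (tv i j h c)⁻¹ = tv i j h (-c) := by
  rw [inv_eq_iff_mul_eq_one, tvm_add, add_neg_cancel, tvm_zero]

theorem tvm_rel {R : Type} [CommRing R] {k : ℕ} (i j l : Fin k) (hij : i ≠ j) (hjl : j ≠ l)
    (hil : i ≠ l) (s t : R) :
    tv i j hij s * tv j l hjl t = tv i l hil (s * t) * tv j l hjl t * tv i j hij s := by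
  apply Subtype.ext
  rw [Matrix.SpecialLinearGroup.coe_mul, Matrix.SpecialLinearGroup.coe_mul,
    Matrix.SpecialLinearGroup.coe_mul]
  change Matrix.transvection i j s * Matrix.transvection j l t
    = Matrix.transvection i l (s * t) * Matrix.transvection j l t * Matrix.transvection i j s
  simp only [Matrix.transvection, mul_add, add_mul, one_mul, mul_one]
  rw [Matrix.single_mul_single_same, Matrix.single_mul_single_of_ne _ _ _ _ hjl.symm,
    Matrix.single_mul_single_of_ne _ _ _ _ hil.symm, Matrix.single_mul_single_of_ne _ _ _ _ hil.symm]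
  simp only [zero_mul]
  abel

theorem tvm_comm_mem {R : Type} [CommRing R] {k : ℕ}
    (H : Subgroup (Matrix.SpecialLinearGroup (Fin k) R)) (i j l : Fin k) (hij : i ≠ j)
    (hjl : j ≠ l) (hil : i ≠ l) (s t : R) (h1 : tv i j hij s ∈ H) (h2 : tv j l hjl t ∈ H) :
    tv i l hil (s * t) ∈ H := by
  have h3 := tvm_rel i j l hij hjl hil s t
  have e : tv i l hil (s * t) = tv i j hij s * tv j l hjl t * (tv i j hij s)⁻¹ *
      (tv j l hjl t)⁻¹ := by
    rw [h3]
    group
  rw [e]
  exact H.mul_mem (H.mul_mem (H.mul_mem h1 h2) (H.inv_mem h1)) (H.inv_mem h2)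

theorem exists_third (i j : Fin (n + 3)) : ∃ l : Fin (n + 3), l ≠ i ∧ l ≠ j := by
  obtain ⟨l, hl⟩ : ∃ l : Fin (n + 3), l ∉ ({i, j} : Finset (Fin (n + 3))) := by
    by_contra hc
    push Not at hc
    have h1 : (Finset.univ : Finset (Fin (n + 3))) ⊆ {i, j} := fun x _ => hc x
    have h2 := Finset.card_le_card h1
    rw [Finset.card_univ, Fintype.card_fin] at h2
    have h3 := Finset.card_le_two (a := i) (b := j)
    omega
  rw [Finset.mem_insert, Finset.mem_singleton, not_or] at hl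
  exact ⟨l, hl.1, hl.2⟩

theorem slI_tv (i j : Fin (n + 3)) (h : i ≠ j) (c : ℤ) :
    slI (n + 3) p (tv i j h c) = tv i j h (c : ZI p) := by
  apply slIQ_injective
  rw [slIQ_slI, slQ_tv]
  apply Subtype.ext
  ext a b
  change Matrix.transvection i j (c : ℚ) a b = ((Matrix.transvection i j (c : ZI p) a b : ZI p) : ℚ)
  unfold Matrix.transvection
  rw [Matrix.add_apply, Matrix.add_apply, Matrix.one_apply, Matrix.one_apply, Matrix.single_apply,
    Matrix.single_apply]
  split_ifs <;> simp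

theorem slIQ_tv (i j : Fin (n + 3)) (h : i ≠ j) (c : ZI p) :
    slIQ (n + 3) p (tv i j h c) = tv i j h (c : ℚ) := by
  apply Subtype.ext
  ext a b
  change ((Matrix.transvection i j c a b : ZI p) : ℚ) = Matrix.transvection i j (c : ℚ) a b
  unfold Matrix.transvection
  rw [Matrix.add_apply, Matrix.add_apply, Matrix.one_apply, Matrix.one_apply, Matrix.single_apply,
    Matrix.single_apply]
  split_ifs <;> simp

/-- `1/p` -/
def pI (p : ℕ) : ZI p := ⟨(p : ℚ)⁻¹, Subring.subset_closure rfl⟩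

theorem mem_int (i j : Fin (n + 3)) (h : i ≠ j) (c : ℤ) :
    tv i j h (c : ZI p) ∈ (toI n p).range :=
  ⟨amalgIncl n p false (tv i j h c), by rw [toI_false, slI_tv]⟩

theorem mem_pI_02 : tv 0 2 (ne02 n) (pI p) ∈ (toI n p).range := by
  refine ⟨amalgIncl n p true (tv 0 2 (ne02 n) 1), ?_⟩
  apply slIQ_injective
  rw [slIQ_toI, toQ_true, slIQ_tv, slQ_tv]
  have h1 := gEl_inv_tv n p 0 2 (ne02 n) ((1 : ℤ) : ℚ)
  rw [inv_inv] at h1
  rw [h1, dg_zero, dg_two]
  congr 1
  change (1 : ℚ) * ((1 : ℤ) : ℚ) / (p : ℚ) = (p : ℚ)⁻¹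
  push_cast
  rw [one_mul, one_div]

theorem mem_pI (i j : Fin (n + 3)) (h : i ≠ j) : tv i j h (pI p) ∈ (toI n p).range := by
  have one' : ∀ (i j : Fin (n + 3)) (h : i ≠ j), tv i j h (1 : ZI p) ∈ (toI n p).range := by
    intro i j h
    have h1 := mem_int n p i j h 1
    rwa [Int.cast_one] at h1
  have hrow : ∀ (j : Fin (n + 3)) (h : 0 ≠ j), tv 0 j h (pI p) ∈ (toI n p).range := by
    intro j h
    by_cases h2 : 2 = j
    · subst h2
      exact mem_pI_02 n p
    · have h3 := tvm_comm_mem (toI n p).range 0 2 j (ne02 n) h2 h (pI p) 1 (mem_pI_02 n p)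
        (one' 2 j h2)
      rwa [mul_one] at h3
  have hcol : ∀ (i j : Fin (n + 3)) (h : i ≠ j), j ≠ 0 → tv i j h (pI p) ∈ (toI n p).range := by
    intro i j h hj
    by_cases hi : i = 0
    · subst hi
      exact hrow j h
    · have h3 := tvm_comm_mem (toI n p).range i 0 j hi hj.symm h 1 (pI p) (one' i 0 hi)
        (hrow j hj.symm)
      rwa [one_mul] at h3
  by_cases hj : j = 0
  · subst hj
    obtain ⟨l, hl1, hl2⟩ := exists_third n i 0
    have h3 := tvm_comm_mem (toI n p).range i l 0 hl1.symm hl2 h (pI p) 1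
      (hcol i l hl1.symm hl2) (one' l 0 hl2)
    rwa [mul_one] at h3
  · exact hcol i j h hj

theorem mem_all (c : ZI p) : ∀ (i j : Fin (n + 3)) (h : i ≠ j),
    tv i j h c ∈ (toI n p).range := by
  obtain ⟨c, hc⟩ := c
  refine Subring.closure_induction (p := fun c hc => ∀ (i j : Fin (n + 3)) (h : i ≠ j),
    tv i j h (⟨c, hc⟩ : ZI p) ∈ (toI n p).range) ?_ ?_ ?_ ?_ ?_ ?_ hc
  · intro x hx i j h
    have hx' : x = (p : ℚ)⁻¹ := hx
    subst hx'
    exact mem_pI n p i j h
  · intro i j h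
    have e : (⟨0, (ZI p).zero_mem⟩ : ZI p) = 0 := rfl
    rw [e, tvm_zero]
    exact (toI n p).range.one_mem
  · intro i j h
    have h1 := mem_int n p i j h 1
    rwa [Int.cast_one] at h1
  · intro x y hx hy h1 h2 i j h
    have e : (⟨x + y, (ZI p).add_mem hx hy⟩ : ZI p) = ⟨x, hx⟩ + ⟨y, hy⟩ := rfl
    rw [e, ← tvm_add]
    exact (toI n p).range.mul_mem (h1 i j h) (h2 i j h)
  · intro x hx h1 i j h
    have e : (⟨-x, (ZI p).neg_mem hx⟩ : ZI p) = -⟨x, hx⟩ := rfl
    rw [e, ← tvm_inv]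
    exact (toI n p).range.inv_mem (h1 i j h)
  · intro x y hx hy h1 h2 i j h
    have e : (⟨x * y, (ZI p).mul_mem hx hy⟩ : ZI p) = ⟨x, hx⟩ * ⟨y, hy⟩ := rfl
    rw [e]
    obtain ⟨l, hl1, hl2⟩ := exists_third n i j
    exact tvm_comm_mem (toI n p).range i l j hl1.symm hl2 h _ _ (h1 i l hl1.symm) (h2 l j hl2)

theorem ZI_frac (r : ZI p) : ∃ (m : ℕ) (z : ℤ), m ≠ 0 ∧ (m : ZI p) * r = z := by
  refine ⟨(r : ℚ).den, (r : ℚ).num, (r : ℚ).den_ne_zero, ?_⟩
  apply Subtype.ext
  push_cast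
  exact Rat.den_mul_eq_num _

/-- the homomorphism from the amalgam to `SL_k(ℤ[1/p])` is surjective -/
theorem toI_surjective : Function.Surjective (toI n p) := by
  rw [← MonoidHom.range_eq_top]
  exact Pool.Agent.K89.EG.eq_top (toI n p).range (ZI_frac p) (by omega)
    (fun i j h c => mem_all n p c i j h)

end Pool.Agent.FS84
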