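import Pool.Agent.FS84.FinalC
import Pool.Agent.FS84.ToI
import Pool.Agent.K89.Ker

/-!
If `SL_k(ℤ)` is flexibly stable, then so is `SL_k(ℤ[1/p])`, and every homomorphism from the amalgam
`P = SL_k(ℤ) *_A SL_k(ℤ)` to a sofic group factors through `SL_k(ℤ[1/p])`.
-/

set_option autoImplicit false

namespace Pool.Agent.FS84

open Pool.Agent.K89 (toQ)

theorem killKer (n p : ℕ) [NeZero p] : KillKer n p :=
  fun _ _ _ q w hw => Pool.Agent.K89.kill_ker n p q w hw

theorem factor_of {P Γ H : Type} [Group P] [Group Γ] [Group H] (r : P →* Γ)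
    (hr : Function.Surjective r) (f : P →* H) (hk : ∀ w, r w = 1 → f w = 1) :
    ∃ f' : Γ →* H, f = f'.comp r := by
  refine ⟨MonoidHom.liftOfSurjective r hr ⟨f, fun w hw => hk w hw⟩, ?_⟩
  ext w
  exact (MonoidHom.liftOfRightInverse_comp_apply r _ (Function.rightInverse_surjInv hr)
    ⟨f, fun w hw => hk w hw⟩ w).symm

theorem sofic_factor (n p : ℕ) (hp : 2 ≤ p) [NeZero p]
    (hst : FlexStable (Matrix.SpecialLinearGroup (Fin (n + 3)) ℤ)) (H : Type) [Group H]
    (hH : Sofic H) (f : Amalgam n p →* H) :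
    ∃ f' : Matrix.SpecialLinearGroup (Fin (n + 3)) (ZI p) →* H, f = f'.comp (toI n p) := by
  refine factor_of (toI n p) (toI_surjective n p) f ?_
  intro w hw
  exact sofic_kills n p hp (killKer n p) hst H hH f w ((toI_eq_one n p w).1 hw)

theorem finite_factor (n p : ℕ) [NeZero p] (H : Type) [Group H] [Finite H]
    (f : Amalgam n p →* H) :
    ∃ f' : Matrix.SpecialLinearGroup (Fin (n + 3)) (ZI p) →* H, f = f'.comp (toI n p) := by
  refine factor_of (toI n p) (toI_surjective n p) f ?_
  intro w hw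
  exact killKer n p H f w ((toI_eq_one n p w).1 hw)

theorem slI_flexStable (n p : ℕ) (hp : 2 ≤ p) [NeZero p]
    (hst : FlexStable (Matrix.SpecialLinearGroup (Fin (n + 3)) ℤ)) :
    FlexStable (Matrix.SpecialLinearGroup (Fin (n + 3)) (ZI p)) := by
  refine flexStable_quotient (toI n p) (toI_surjective n p) (amalgam_flexStable n p hp hst) ?_
  intro m q w hw
  exact killKer n p _ q w ((toI_eq_one n p w).1 hw)

end Pool.Agent.FS84
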