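import Pool.Agent.FS84.Fin

/-!
Flexible stability of Kazhdan groups is invariant under commensurability.
-/

set_option autoImplicit false
open Filter Topology Finset

namespace Pool.Agent.FS84

open Pool.Agent.H51K

variable {G : Type} [Group G]

section coc

variable (H : Subgroup G)

/-- the cocycle `(a • q).out⁻¹ * a * q.out` of the coset representatives -/
noncomputable def coc (a : G) (q : G ⧸ H) : H :=
  ⟨(a • q).out⁻¹ * (a * q.out), QuotientGroup.eq.1 (by
    rw [QuotientGroup.out_eq']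
    exact (MulAction.Quotient.mk_smul_out H a q).symm)⟩

theorem coc_coe (a : G) (q : G ⧸ H) : (coc H a q : G) = (a • q).out⁻¹ * (a * q.out) := rfl

theorem coc_mul (a b : G) (q : G ⧸ H) : coc H (a * b) q = coc H a (b • q) * coc H b q := by
  apply Subtype.ext
  rw [Subgroup.coe_mul, coc_coe, coc_coe, coc_coe, mul_smul]
  group

theorem coc_one (q : G ⧸ H) : coc H 1 q = 1 := by
  apply Subtype.ext
  rw [coc_coe, one_smul]
  simp

/-- the element of `G` which acts as `h` on the fibre over the coset `1` -/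
noncomputable def conjH : H →* G where
  toFun h := ((1 : G) : G ⧸ H).out * h * ((1 : G) : G ⧸ H).out⁻¹
  map_one' := by simp
  map_mul' h h' := by
    rw [Subgroup.coe_mul]
    group

theorem conjH_smul (h : H) : conjH H h • ((1 : G) : G ⧸ H) = ((1 : G) : G ⧸ H) := by
  have h1 : ((1 : G) : G ⧸ H) = ((((1 : G) : G ⧸ H).out : G) : G ⧸ H) :=
    (QuotientGroup.out_eq' _).symm
  have h2 : conjH H h • ((1 : G) : G ⧸ H) =
      ((conjH H h * ((1 : G) : G ⧸ H).out : G) : G ⧸ H) := by
    conv_lhs => rw [h1]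
    rfl
  rw [h2]
  conv_rhs => rw [h1]
  rw [QuotientGroup.eq]
  have h3 : (conjH H h * ((1 : G) : G ⧸ H).out)⁻¹ * ((1 : G) : G ⧸ H).out = (h : G)⁻¹ := by
    show (((1 : G) : G ⧸ H).out * h * ((1 : G) : G ⧸ H).out⁻¹ * ((1 : G) : G ⧸ H).out)⁻¹ *
      ((1 : G) : G ⧸ H).out = (h : G)⁻¹
    group
  rw [h3]
  exact H.inv_mem h.2

theorem coc_conjH (h : H) : coc H (conjH H h) ((1 : G) : G ⧸ H) = h := by
  apply Subtype.ext
  rw [coc_coe, conjH_smul]
  show ((1 : G) : G ⧸ H).out⁻¹ * (((1 : G) : G ⧸ H).out * h * ((1 : G) : G ⧸ H).out⁻¹ *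
    ((1 : G) : G ⧸ H).out) = h
  group

/-- induced permutations -/
noncomputable def indPerm {Y : Type} (φ : H → Equiv.Perm Y) (a : G) :
    Equiv.Perm ((G ⧸ H) × Y) :=
  Equiv.prodShear (MulAction.toPerm a) (fun q => φ (coc H a q))

theorem indPerm_apply {Y : Type} (φ : H → Equiv.Perm Y) (a : G) (q : G ⧸ H) (y : Y) :
    indPerm H φ a (q, y) = (a • q, φ (coc H a q) y) := rfl

/-- the induced action -/
noncomputable def indAct {Y : Type} (ρ : H →* Equiv.Perm Y) : G →* Equiv.Perm ((G ⧸ H) × Y) where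
  toFun := indPerm H ρ
  map_one' := by
    apply Equiv.ext
    rintro ⟨q, y⟩
    rw [indPerm_apply, coc_one, map_one, one_smul]
    rfl
  map_mul' a b := by
    apply Equiv.ext
    rintro ⟨q, y⟩
    rw [Equiv.Perm.mul_apply, indPerm_apply, indPerm_apply, indPerm_apply, coc_mul, map_mul,
      mul_smul]
    rfl

theorem indAct_apply {Y : Type} (ρ : H →* Equiv.Perm Y) (a : G) (q : G ⧸ H) (y : Y) :
    indAct H ρ a (q, y) = (a • q, ρ (coc H a q) y) := rfl

end coc

/-- LEMMA 1 passes to subgroups of finite index -/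
theorem hasNear_subgroup (H : Subgroup G) [H.FiniteIndex] (hG : HasNear G) : HasNear H := by
  classical
  obtain ⟨F, C, hC, h⟩ := hG
  have hfin : Finite (G ⧸ H) := Subgroup.finite_quotient_of_finiteIndex
  have : Fintype (G ⧸ H) := Fintype.ofFinite _
  refine ⟨(F ×ˢ (univ : Finset (G ⧸ H))).image fun p => coc H p.1 p.2,
    C * (F.card * Fintype.card (G ⧸ H) + 1), by positivity, ?_⟩
  intro X _ _ ρ A
  obtain ⟨B, hB, hcard⟩ := h ((G ⧸ H) × X) (indAct H ρ) ((univ : Finset (G ⧸ H)) ×ˢ A)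
  let q1 : G ⧸ H := ((1 : G) : G ⧸ H)
  refine ⟨univ.filter fun y => (q1, y) ∈ B, ?_, ?_⟩
  · intro g x
    rw [mem_filter, mem_filter]
    have h1 := hB (conjH H g) (q1, x)
    rw [indAct_apply, conjH_smul, coc_conjH] at h1
    exact ⟨fun h2 => ⟨mem_univ _, h1.1 h2.2⟩, fun h2 => ⟨mem_univ _, h1.2 h2.2⟩⟩
  · have hinj : Function.Injective (fun y : X => (q1, y)) := fun y y' hy => congrArg Prod.snd hy
    have h1 : (A \ (univ.filter fun y => (q1, y) ∈ B)).card ≤
        (((univ : Finset (G ⧸ H)) ×ˢ A) \ B).card := by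
      apply Finset.card_le_card_of_injOn (fun y => (q1, y)) _ hinj.injOn
      intro y hy
      rw [mem_coe, Finset.mem_sdiff, mem_filter] at hy
      rw [mem_coe, Finset.mem_sdiff, Finset.mem_product]
      exact ⟨⟨mem_univ _, hy.1⟩, fun h2 => hy.2 ⟨mem_univ _, h2⟩⟩
    have h2 : ((univ.filter fun y => (q1, y) ∈ B) \ A).card ≤
        (B \ ((univ : Finset (G ⧸ H)) ×ˢ A)).card := by
      apply Finset.card_le_card_of_injOn (fun y => (q1, y)) _ hinj.injOn
      intro y hy
      rw [mem_coe, Finset.mem_sdiff, mem_filter] at hy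
      rw [mem_coe, Finset.mem_sdiff, Finset.mem_product]
      exact ⟨hy.1.2, fun h2 => hy.2 h2.2⟩
    set S : ℝ := ∑ a ∈ (F ×ˢ (univ : Finset (G ⧸ H))).image (fun p => coc H p.1 p.2),
      ((A.filter fun x => ρ a x ∉ A).card : ℝ) with hS
    have hS0 : 0 ≤ S := Finset.sum_nonneg fun _ _ => Nat.cast_nonneg _
    have h3 : ∀ a ∈ F, ((((univ : Finset (G ⧸ H)) ×ˢ A).filter fun p =>
        indAct H ρ a p ∉ (univ : Finset (G ⧸ H)) ×ˢ A).card : ℝ) ≤ Fintype.card (G ⧸ H) * S := by
      intro a ha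
      have h4 : (((univ : Finset (G ⧸ H)) ×ˢ A).filter fun p =>
          indAct H ρ a p ∉ (univ : Finset (G ⧸ H)) ×ˢ A) ⊆
          (univ : Finset (G ⧸ H)).biUnion fun q =>
            (A.filter fun x => ρ (coc H a q) x ∉ A).image fun x => (q, x) := by
        rintro ⟨q, x⟩ hp
        rw [mem_filter, indAct_apply, Finset.mem_product, Finset.mem_product] at hp
        rw [Finset.mem_biUnion]
        refine ⟨q, mem_univ _, ?_⟩
        rw [mem_image]
        refine ⟨x, ?_, rfl⟩
        rw [mem_filter]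
        exact ⟨hp.1.2, fun h5 => hp.2 ⟨mem_univ _, h5⟩⟩
      have h5 := (Finset.card_le_card h4).trans Finset.card_biUnion_le
      have h6 : ((((univ : Finset (G ⧸ H)) ×ˢ A).filter fun p =>
          indAct H ρ a p ∉ (univ : Finset (G ⧸ H)) ×ˢ A).card : ℝ) ≤
          ∑ q : G ⧸ H, (((A.filter fun x => ρ (coc H a q) x ∉ A).image fun x => (q, x)).card : ℝ) := by
        exact_mod_cast h5
      refine h6.trans ?_
      have h7 : ∀ q ∈ (univ : Finset (G ⧸ H)),
          (((A.filter fun x => ρ (coc H a q) x ∉ A).image fun x => (q, x)).card : ℝ) ≤ S := by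
        intro q _
        have h8 : (((A.filter fun x => ρ (coc H a q) x ∉ A).image fun x => (q, x)).card : ℝ) ≤
            ((A.filter fun x => ρ (coc H a q) x ∉ A).card : ℝ) := by
          exact_mod_cast Finset.card_image_le
        refine h8.trans ?_
        exact Finset.single_le_sum (f := fun a : H => ((A.filter fun x => ρ a x ∉ A).card : ℝ))
          (fun _ _ => Nat.cast_nonneg _)
          (Finset.mem_image.2 ⟨(a, q), Finset.mem_product.2 ⟨ha, mem_univ q⟩, rfl⟩)
      have h9 := Finset.sum_le_sum h7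
      rw [Finset.sum_const, nsmul_eq_mul, Finset.card_univ] at h9
      exact h9
    have h4 := Finset.sum_le_sum h3
    rw [Finset.sum_const, nsmul_eq_mul] at h4
    have h5 := mul_le_mul_of_nonneg_left h4 hC.le
    have h6 : ((A \ (univ.filter fun y => (q1, y) ∈ B)).card : ℝ) +
        (((univ.filter fun y => (q1, y) ∈ B) \ A).card : ℝ) ≤
        ((((univ : Finset (G ⧸ H)) ×ˢ A) \ B).card : ℝ) +
        ((B \ ((univ : Finset (G ⧸ H)) ×ˢ A)).card : ℝ) := by exact_mod_cast Nat.add_le_add h1 h2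
    have h7 : C * (F.card * (Fintype.card (G ⧸ H) * S)) ≤
        C * (F.card * Fintype.card (G ⧸ H) + 1) * S := by
      have : 0 ≤ C * S := mul_nonneg hC.le hS0
      nlinarith
    linarith

/-- LEMMA 1 passes to overgroups of finite index -/
theorem hasNear_of_subgroup (K : Subgroup G) [K.FiniteIndex] (hK : HasNear K) : HasNear G := by
  classical
  obtain ⟨F, C, hC, h⟩ := hK
  have hfin : Finite (G ⧸ K) := Subgroup.finite_quotient_of_finiteIndex
  have : Fintype (G ⧸ K) := Fintype.ofFinite _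
  set F' : Finset G := F.image (fun k : K => (k : G)) ∪
    ((univ : Finset (G ⧸ K)).image (fun q => q.out) ∪
      (univ : Finset (G ⧸ K)).image (fun q => (q.out)⁻¹)) with hF'
  refine ⟨F', (Fintype.card (G ⧸ K) + 1) * (C + 1), by positivity, ?_⟩
  intro X _ _ ρ A
  obtain ⟨B, hB, hcard⟩ := h X (ρ.comp K.subtype) A
  have hBK : ∀ (k : K) x, ρ (k : G) x ∈ B ↔ x ∈ B := fun k x => hB k x
  set S : ℝ := ∑ a ∈ F', ((A.filter fun x => ρ a x ∉ A).card : ℝ) with hS
  have hS0 : 0 ≤ S := Finset.sum_nonneg fun _ _ => Nat.cast_nonneg _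
  have hone : ∀ a ∈ F', ((A.filter fun x => ρ a x ∉ A).card : ℝ) ≤ S := fun a ha =>
    Finset.single_le_sum (f := fun a : G => ((A.filter fun x => ρ a x ∉ A).card : ℝ))
      (fun _ _ => Nat.cast_nonneg _) ha
  have hAB : ((A \ B).card + (B \ A).card : ℝ) ≤ C * S := by
    refine hcard.trans (mul_le_mul_of_nonneg_left ?_ hC.le)
    have h1 : ∑ a ∈ F.image (fun k : K => (k : G)), ((A.filter fun x => ρ a x ∉ A).card : ℝ) =
        ∑ k ∈ F, ((A.filter fun x => ρ.comp K.subtype k x ∉ A).card : ℝ) :=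
      Finset.sum_image fun a _ b _ hab => Subtype.ext hab
    rw [← h1]
    exact Finset.sum_le_sum_of_subset_of_nonneg Finset.subset_union_left
      fun _ _ _ => Nat.cast_nonneg _
  let q1 : G ⧸ K := ((1 : G) : G ⧸ K)
  refine ⟨univ.filter fun x => ∀ q : G ⧸ K, ρ (q.out)⁻¹ x ∈ B, ?_, ?_⟩
  · have hdir : ∀ (g : G) x, (∀ q : G ⧸ K, ρ (q.out)⁻¹ x ∈ B) →
        ∀ q : G ⧸ K, ρ (q.out)⁻¹ (ρ g x) ∈ B := by
      intro g x hx q
      have h1 : (q.out)⁻¹ * g = ((coc K g⁻¹ q)⁻¹ : K) * ((g⁻¹ • q).out)⁻¹ := by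
        rw [Subgroup.coe_inv, coc_coe]
        group
      have h2 : ρ (q.out)⁻¹ (ρ g x) = ρ ((q.out)⁻¹ * g) x := by
        rw [map_mul]
        rfl
      rw [h2, h1, map_mul, Equiv.Perm.mul_apply, hBK]
      exact hx _
    intro g x
    rw [mem_filter, mem_filter]
    constructor
    · rintro ⟨-, h1⟩
      refine ⟨mem_univ _, ?_⟩
      have := hdir g⁻¹ (ρ g x) h1
      have h2 : ρ g⁻¹ (ρ g x) = x := by
        rw [← Equiv.Perm.mul_apply, ← map_mul, inv_mul_cancel, map_one]
        rfl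
      rwa [h2] at this
    · rintro ⟨-, h1⟩
      exact ⟨mem_univ _, hdir g x h1⟩
  · have hsub1 : A \ (univ.filter fun x => ∀ q : G ⧸ K, ρ (q.out)⁻¹ x ∈ B) ⊆
        (univ : Finset (G ⧸ K)).biUnion fun q => (A.filter fun x => ρ (q.out)⁻¹ x ∉ A) ∪
          (A \ B).image (ρ (q.out)) := by
      intro x hx
      rw [Finset.mem_sdiff, mem_filter] at hx
      obtain ⟨hxA, hx⟩ := hx
      push Not at hx
      obtain ⟨q, hq⟩ := hx (mem_univ _)
      rw [Finset.mem_biUnion]
      refine ⟨q, mem_univ _, ?_⟩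
      rw [Finset.mem_union, mem_filter, mem_image]
      by_cases h1 : ρ (q.out)⁻¹ x ∈ A
      · right
        refine ⟨ρ (q.out)⁻¹ x, Finset.mem_sdiff.2 ⟨h1, hq⟩, ?_⟩
        rw [← Equiv.Perm.mul_apply, ← map_mul, mul_inv_cancel, map_one]
        rfl
      · exact Or.inl ⟨hxA, h1⟩
    have hsub2 : (univ.filter fun x => ∀ q : G ⧸ K, ρ (q.out)⁻¹ x ∈ B) \ A ⊆
        ((B \ A) ∪ (A.filter fun x => ρ q1.out x ∉ A)).image (ρ q1.out) := by
      intro x hx
      rw [Finset.mem_sdiff, mem_filter] at hx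
      obtain ⟨⟨-, hx⟩, hxA⟩ := hx
      have h2 : ρ q1.out (ρ (q1.out)⁻¹ x) = x := by
        rw [← Equiv.Perm.mul_apply, ← map_mul, mul_inv_cancel, map_one]
        rfl
      rw [mem_image]
      refine ⟨ρ (q1.out)⁻¹ x, ?_, h2⟩
      rw [Finset.mem_union, Finset.mem_sdiff, mem_filter]
      by_cases h1 : ρ (q1.out)⁻¹ x ∈ A
      · right
        exact ⟨h1, by rw [h2]; exact hxA⟩
      · exact Or.inl ⟨hx q1, h1⟩
    have h1 := (Finset.card_le_card hsub1).trans Finset.card_biUnion_le
    have h2 : ((A \ (univ.filter fun x => ∀ q : G ⧸ K, ρ (q.out)⁻¹ x ∈ B)).card : ℝ) ≤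
        ∑ q : G ⧸ K, (((A.filter fun x => ρ (q.out)⁻¹ x ∉ A) ∪
          (A \ B).image (ρ (q.out))).card : ℝ) := by exact_mod_cast h1
    have h3 : ∀ q ∈ (univ : Finset (G ⧸ K)), (((A.filter fun x => ρ (q.out)⁻¹ x ∉ A) ∪
          (A \ B).image (ρ (q.out))).card : ℝ) ≤ S + (A \ B).card := by
      intro q _
      have h4 : (((A.filter fun x => ρ (q.out)⁻¹ x ∉ A) ∪
          (A \ B).image (ρ (q.out))).card : ℝ) ≤
          ((A.filter fun x => ρ (q.out)⁻¹ x ∉ A).card : ℝ) + (A \ B).card := by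
        have h5 := Finset.card_union_le (A.filter fun x => ρ (q.out)⁻¹ x ∉ A)
          ((A \ B).image (ρ (q.out)))
        have h6 : ((A \ B).image (ρ (q.out))).card ≤ (A \ B).card := Finset.card_image_le
        exact_mod_cast h5.trans (Nat.add_le_add_left h6 _)
      have h5 := hone (q.out)⁻¹ (Finset.mem_union_right _ (Finset.mem_union_right _
        (Finset.mem_image_of_mem (fun q : G ⧸ K => (q.out)⁻¹) (mem_univ q))))
      linarith
    have h4 := Finset.sum_le_sum h3
    rw [Finset.sum_const, nsmul_eq_mul, Finset.card_univ] at h4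
    have h5 : (((univ.filter fun x => ∀ q : G ⧸ K, ρ (q.out)⁻¹ x ∈ B) \ A).card : ℝ) ≤
        (B \ A).card + S := by
      have h6 := (Finset.card_le_card hsub2).trans (Finset.card_image_le.trans
        (Finset.card_union_le _ _))
      have h7 : (((univ.filter fun x => ∀ q : G ⧸ K, ρ (q.out)⁻¹ x ∈ B) \ A).card : ℝ) ≤
          (B \ A).card + (A.filter fun x => ρ q1.out x ∉ A).card := by exact_mod_cast h6
      have h8 := hone q1.out (Finset.mem_union_right _ (Finset.mem_union_left _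
        (Finset.mem_image_of_mem (fun q : G ⧸ K => q.out) (mem_univ q1))))
      linarith
    have hd : (0 : ℝ) ≤ Fintype.card (G ⧸ K) := Nat.cast_nonneg _
    have h6 : ((A \ B).card : ℝ) ≤ C * S := by
      have : (0 : ℝ) ≤ (B \ A).card := Nat.cast_nonneg _
      linarith
    have h7 : ((B \ A).card : ℝ) ≤ C * S := by
      have : (0 : ℝ) ≤ (A \ B).card := Nat.cast_nonneg _
      linarith
    have h8 : (Fintype.card (G ⧸ K) : ℝ) * (S + (A \ B).card) ≤
        Fintype.card (G ⧸ K) * (S + C * S) := mul_le_mul_of_nonneg_left (by linarith) hd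
    have h9 : (Fintype.card (G ⧸ K) : ℝ) * (S + C * S) + (C * S + S) =
        (Fintype.card (G ⧸ K) + 1) * (C + 1) * S := by ring
    linarith

theorem hasNear_congr {K₁ K₂ : Type} [Group K₁] [Group K₂] (e : K₁ ≃* K₂)
    (h : HasNear K₁) : HasNear K₂ := by
  classical
  obtain ⟨F, C, hC, h⟩ := h
  refine ⟨F.image e, C, hC, ?_⟩
  intro X _ _ ρ A
  obtain ⟨B, hB, hcard⟩ := h X (ρ.comp (e : K₁ →* K₂)) A
  refine ⟨B, ?_, ?_⟩
  · intro g x
    have := hB (e.symm g) x
    have h1 : (ρ.comp (e : K₁ →* K₂)) (e.symm g) = ρ g := by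
      show ρ (e (e.symm g)) = ρ g
      rw [MulEquiv.apply_symm_apply]
    rwa [h1] at this
  · refine hcard.trans (le_of_eq ?_)
    rw [Finset.sum_image fun a _ b _ hab => e.injective hab]
    rfl

/-- a model by a finite type -/
theorem Model.ofType {X U : Type} [DecidableEq X] [Finite U] {φ : G → Equiv.Perm X}
    {E : Finset G} {η : ℝ} {A : Finset X} (ρ : G →* Equiv.Perm U) (ι : X → U)
    (hι : Set.InjOn ι A) (B : G → Finset X) (hB : ∀ g ∈ E, ((B g).card : ℝ) ≤ η)
    (hbad : ∀ g ∈ E, ∀ x ∈ A, x ∉ B g → φ g x ∈ A ∧ ι (φ g x) = ρ g (ι x)) :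
    Model φ E η A := by
  classical
  have e : U ≃ Fin (Nat.card U) := Finite.equivFin U
  refine ⟨Nat.card U, ((Equiv.permCongrHom e : _ ≃* _) : _ →* _).comp ρ, fun x => e (ι x), ?_, ?_⟩
  · intro x hx y hy hxy
    exact hι hx hy (e.injective hxy)
  · intro g hg
    refine le_trans ?_ (hB g hg)
    have h1 : bad φ (((Equiv.permCongrHom e : _ ≃* _) : _ →* _).comp ρ) A
        (fun x => e (ι x)) g ⊆ B g := by
      intro x hx
      rw [bad, mem_filter] at hx
      by_contra hxB
      obtain ⟨h2, h3⟩ := hbad g hg x hx.1 hxB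
      rcases hx.2 with h4 | h4
      · exact h4 h2
      · apply h4
        show e (ι (φ g x)) = e (ρ g (e.symm (e (ι x))))
        rw [h3, Equiv.symm_apply_apply]
    exact_mod_cast Finset.card_le_card h1

/-- models of everything suffice -/
theorem flexStable_of_models [Countable G] (hG : HasNear G)
    (h : ∀ f : (n : ℕ) → G → Equiv.Perm (Fin n), AlmostHom f → ∀ (E : Finset G) (η : ℝ), 0 < η →
      ∀ᶠ n : ℕ in atTop, Model (f n) E (η * n) univ) : FlexStable G := by
  classical
  intro f hf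
  obtain ⟨F, C, hC, hcl⟩ := close_of_model hG
  obtain ⟨E, hE, hEx, hEF⟩ := exhaustion F
  apply flex_of_allParts F C hC hcl f E hE hEx hEF
  intro β hβ i
  filter_upwards [h f hf (E i) (1 / ((i : ℝ) + 1)) (by positivity)] with n hn
  refine ⟨univ, hn.mono (Finset.Subset.refl _) ?_, ?_⟩
  · have : 1 / ((i : ℝ) + 1) * n = (n : ℝ) / (i + 1) := by ring
    exact this.le
  · rw [Finset.card_univ, Fintype.card_fin]
    have : (0 : ℝ) ≤ n := Nat.cast_nonneg n
    nlinarith

theorem flex_most {f : (n : ℕ) → G → Equiv.Perm (Fin n)} {m : ℕ → ℕ}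
    {ρ : (n : ℕ) → G →* Equiv.Perm (Fin (m n))} (hm : ∀ n, n ≤ m n)
    (hlim : ∀ g, Tendsto (fun n => flex (f n g) (ρ n g)) atTop (𝓝 0)) (g : G) :
    Most (fun n x => Fin.castLE (hm n) (f n g x) = ρ n g (Fin.castLE (hm n) x)) := by
  intro ε hε
  filter_upwards [(tendsto_order.1 (hlim g)).2 ε hε, eventually_gt_atTop 0] with n hn hn0
  refine ⟨univ.filter fun x : Fin n => (f n g x : ℕ) ≠ ρ n g (Fin.castLE (hm n) x), ?_, ?_⟩
  · rw [flex_eq _ _ (hm n), div_lt_iff₀ (by exact_mod_cast hn0)] at hn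
    have h5 : (n : ℝ) ≤ m n := by exact_mod_cast hm n
    linarith
  · intro x hx
    by_contra hc
    apply hx
    rw [mem_filter]
    exact ⟨mem_univ _, fun h => hc (Fin.ext h)⟩

/-- THEOREM D, from the subgroup to the group (coinduction) -/
theorem flexStable_of_subgroup [Countable G] (hG : HasNear G) (H : Subgroup G) [H.FiniteIndex]
    (hH : FlexStable H) : FlexStable G := by
  classical
  apply flexStable_of_models hG
  intro f hf E η hη
  have hfin : Finite (G ⧸ H) := Subgroup.finite_quotient_of_finiteIndex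
  have : Fintype (G ⧸ H) := Fintype.ofFinite _
  have hfH : AlmostHom (fun n (h : H) => f n (h : G)) := fun g h => hf g h
  obtain ⟨m, ρ, hm, hlim⟩ := hH _ hfH
  -- the coinduced action
  let act : (n : ℕ) → MulAction G ((G ⧸ H) → Fin (m n)) := fun n =>
    { smul := fun a u q => ρ n (coc H a (a⁻¹ • q)) (u (a⁻¹ • q))
      one_smul := by
        intro u
        funext q
        show ρ n (coc H 1 ((1 : G)⁻¹ • q)) (u ((1 : G)⁻¹ • q)) = u q
        rw [coc_one, map_one, inv_one, one_smul]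
        rfl
      mul_smul := by
        intro a b u
        funext q
        show ρ n (coc H (a * b) ((a * b)⁻¹ • q)) (u ((a * b)⁻¹ • q)) =
          ρ n (coc H a (a⁻¹ • q)) (ρ n (coc H b (b⁻¹ • a⁻¹ • q)) (u (b⁻¹ • a⁻¹ • q)))
        rw [mul_inv_rev, mul_smul, coc_mul, map_mul, smul_inv_smul]
        rfl }
  have hact : ∀ n a u q, (@MulAction.toPermHom G ((G ⧸ H) → Fin (m n)) _ (act n) a) u (a • q) =
      ρ n (coc H a q) (u q) := by
    intro n a u q
    show ρ n (coc H a (a⁻¹ • a • q)) (u (a⁻¹ • a • q)) = _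
    rw [inv_smul_smul]
  have hmost : ∀ a : G, Most (fun n x => ∀ q : G ⧸ H,
      Fin.castLE (hm n) (f n ((a • q).out⁻¹) (f n a x)) =
        ρ n (coc H a q) (Fin.castLE (hm n) (f n (q.out⁻¹) x))) := by
    intro a
    apply Most.all
    intro q
    have h1 := hf.most ((a • q).out⁻¹) a
    have h2 := hf.most (coc H a q : G) (q.out⁻¹)
    have h3 := (flex_most hm hlim (coc H a q)).perm (fun n => f n (q.out⁻¹))
    apply (h1.and (h2.and h3)).mono
    rintro n x ⟨e1, e2, e3⟩
    rw [e1, ← e3, e2]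
    congr 2
    rw [coc_coe]
    group
  have h4 : ∀ᶠ n : ℕ in atTop, ∀ a ∈ E, ∃ B : Finset (Fin n), (B.card : ℝ) ≤ η * n ∧
      ∀ x, x ∉ B → ∀ q : G ⧸ H, Fin.castLE (hm n) (f n ((a • q).out⁻¹) (f n a x)) =
        ρ n (coc H a q) (Fin.castLE (hm n) (f n (q.out⁻¹) x)) := by
    rw [Filter.eventually_all_finset]
    intro a _
    exact hmost a η hη
  filter_upwards [h4] with n hn
  choose! B hB hB' using hn
  apply Model.ofType (@MulAction.toPermHom G ((G ⧸ H) → Fin (m n)) _ (act n))
    (fun x q => Fin.castLE (hm n) (f n (q.out⁻¹) x)) _ B hB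
  · intro a ha x _ hx
    refine ⟨mem_univ _, ?_⟩
    funext q
    have h5 := hB' a ha x hx (a⁻¹ • q)
    have h6 := hact n a (fun q => Fin.castLE (hm n) (f n (q.out⁻¹) x)) (a⁻¹ • q)
    rw [smul_inv_smul] at h5 h6
    rw [h6]
    exact h5
  · intro x _ y _ hxy
    have h5 := congrFun hxy ((1 : G) : G ⧸ H)
    exact (f n _).injective (Fin.castLE_injective (hm n) h5)

/-- the induced almost-homomorphism -/
theorem exists_induced (H : Subgroup G) [H.FiniteIndex] (f : (n : ℕ) → H → Equiv.Perm (Fin n)) :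
    ∃ F : (N : ℕ) → G → Equiv.Perm (Fin N), ∀ N n, N / Nat.card (G ⧸ H) = n →
      ∃ e : (G ⧸ H) × Fin n → Fin N, Function.Injective e ∧
        (∀ a q y, F N a (e (q, y)) = e (a • q, f n (coc H a q) y)) ∧
        ∀ a x, (∀ p, e p ≠ x) → F N a x = x := by
  classical
  have hfin : Finite (G ⧸ H) := Subgroup.finite_quotient_of_finiteIndex
  have : Fintype (G ⧸ H) := Fintype.ofFinite _
  have h : ∀ N : ℕ, ∃ F : G → Equiv.Perm (Fin N), ∀ n, N / Nat.card (G ⧸ H) = n →
      ∃ e : (G ⧸ H) × Fin n → Fin N, Function.Injective e ∧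
        (∀ a q y, F a (e (q, y)) = e (a • q, f n (coc H a q) y)) ∧
        ∀ a x, (∀ p, e p ≠ x) → F a x = x := by
    intro N
    have hcard : Fintype.card (((G ⧸ H) × Fin (N / Nat.card (G ⧸ H))) ⊕
        Fin (N % Nat.card (G ⧸ H))) = N := by
      rw [Fintype.card_sum, Fintype.card_prod, Fintype.card_fin, Fintype.card_fin,
        ← Nat.card_eq_fintype_card]
      exact Nat.div_add_mod N _
    let e := Fintype.equivFinOfCardEq hcard
    refine ⟨fun a => (e.symm.trans (Equiv.sumCongr (indPerm H (f _) a) (Equiv.refl _))).trans e,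
      ?_⟩
    rintro n rfl
    refine ⟨fun p => e (Sum.inl p), ?_, ?_, ?_⟩
    · intro p p' hp
      exact Sum.inl_injective (e.injective hp)
    · intro a q y
      show e (Equiv.sumCongr (indPerm H (f _) a) (Equiv.refl _) (e.symm (e (Sum.inl (q, y))))) = _
      rw [Equiv.symm_apply_apply]
      rfl
    · intro a x hx
      show e (Equiv.sumCongr (indPerm H (f _) a) (Equiv.refl _) (e.symm x)) = x
      rcases hex : e.symm x with p | y
      · exact absurd (show e (Sum.inl p) = x by rw [← hex, Equiv.apply_symm_apply]) (hx p)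
      · show e (Sum.inr y) = x
        rw [← hex, Equiv.apply_symm_apply]
  choose F hF using h
  exact ⟨F, hF⟩

/-- THEOREM D, from the group to the subgroup (induction) -/
theorem flexStable_subgroup [Countable G] (hG : HasNear G) (H : Subgroup G) [H.FiniteIndex]
    (hst : FlexStable G) : FlexStable H := by
  classical
  have hfin : Finite (G ⧸ H) := Subgroup.finite_quotient_of_finiteIndex
  have : Fintype (G ⧸ H) := Fintype.ofFinite _
  apply flexStable_of_models (hasNear_subgroup H hG)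
  intro f hf E η hη
  obtain ⟨F, hF⟩ := exists_induced H f
  set d : ℕ := Nat.card (G ⧸ H) with hd
  have hd0 : 0 < d := Nat.card_pos
  have hd1 : (0 : ℝ) < d := by exact_mod_cast hd0
  have hdcard : d = Fintype.card (G ⧸ H) := Nat.card_eq_fintype_card
  have hdiv : Tendsto (fun N : ℕ => N / d) atTop atTop := by
    rw [tendsto_atTop]
    intro b
    filter_upwards [eventually_ge_atTop (b * d)] with N hN
    exact (Nat.le_div_iff_mul_le hd0).2 hN
  have halm : AlmostHom F := by
    intro a b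
    rw [Metric.tendsto_atTop]
    intro ε hε
    have h1 : ∀ᶠ n : ℕ in atTop, ∀ q : G ⧸ H, ∃ B : Finset (Fin n),
        (B.card : ℝ) ≤ ε / 2 * n ∧ ∀ y, y ∉ B →
          f n (coc H a (b • q)) (f n (coc H b q) y) = f n (coc H a (b • q) * coc H b q) y := by
      rw [Filter.eventually_all]
      intro q
      exact hf.most (coc H a (b • q)) (coc H b q) (ε / 2) (by positivity)
    obtain ⟨K, hK⟩ := eventually_atTop.1 (hdiv.eventually h1)
    refine ⟨max K 1, ?_⟩
    intro N hN
    obtain ⟨e, he, he1, he2⟩ := hF N (N / d) rfl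
    have h2 := hK N ((le_max_left _ _).trans hN)
    choose B hB hB' using h2
    have hN0 : (0 : ℝ) < N := by
      have : 1 ≤ N := (le_max_right _ _).trans hN
      exact_mod_cast this
    have h0 : 0 ≤ ham (F N a * F N b) (F N (a * b)) := by
      unfold ham
      positivity
    rw [Real.dist_eq, sub_zero, abs_of_nonneg h0, ham, div_lt_iff₀ hN0]
    have hsub : (univ.filter fun x => (F N a * F N b) x ≠ F N (a * b) x) ⊆
        (univ : Finset (G ⧸ H)).biUnion fun q => (B q).image fun y => e (q, y) := by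
      intro x hx
      rw [mem_filter] at hx
      by_contra hc
      apply hx.2
      by_cases hex : ∃ p, e p = x
      · obtain ⟨⟨q, y⟩, rfl⟩ := hex
        have hy : y ∉ B q := by
          intro hy
          apply hc
          rw [Finset.mem_biUnion]
          exact ⟨q, mem_univ _, Finset.mem_image_of_mem (fun y => e (q, y)) hy⟩
        rw [Equiv.Perm.mul_apply, he1, he1, he1, hB' q y hy, coc_mul, mul_smul]
      · push Not at hex
        rw [Equiv.Perm.mul_apply, he2 b x hex, he2 a x hex, he2 (a * b) x hex]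
    have h3 := (Finset.card_le_card hsub).trans Finset.card_biUnion_le
    have h4 : ((univ.filter fun x => (F N a * F N b) x ≠ F N (a * b) x).card : ℝ) ≤
        ∑ q : G ⧸ H, (((B q).image fun y => e (q, y)).card : ℝ) := by exact_mod_cast h3
    have h5 : ∀ q ∈ (univ : Finset (G ⧸ H)), (((B q).image fun y => e (q, y)).card : ℝ) ≤
        ε / 2 * ((N / d : ℕ) : ℝ) := by
      intro q _
      refine le_trans ?_ (hB q)
      exact_mod_cast Finset.card_image_le
    have h6 := Finset.sum_le_sum h5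
    rw [Finset.sum_const, nsmul_eq_mul, Finset.card_univ, ← hdcard] at h6
    have h7 : ((N / d : ℕ) : ℝ) * d ≤ N := div_mul_le N d
    have h8 : (d : ℝ) * (ε / 2 * ((N / d : ℕ) : ℝ)) = ε / 2 * (((N / d : ℕ) : ℝ) * d) := by ring
    have h9 : ε / 2 * (((N / d : ℕ) : ℝ) * d) ≤ ε / 2 * N :=
      mul_le_mul_of_nonneg_left h7 (by positivity)
    have h10 : 0 < ε / 2 * (N : ℝ) := by positivity
    linarith
  obtain ⟨m, ρ, hm, hlim⟩ := hst F halm
  have h1 : ∀ᶠ N : ℕ in atTop, ∀ h ∈ E, ∃ B : Finset (Fin N), (B.card : ℝ) ≤ η / d * N ∧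
      ∀ x, x ∉ B → Fin.castLE (hm N) (F N (conjH H h) x) =
        ρ N (conjH H h) (Fin.castLE (hm N) x) := by
    rw [Filter.eventually_all_finset]
    intro h _
    exact flex_most hm hlim (conjH H h) (η / d) (by positivity)
  have hmul : Tendsto (fun n : ℕ => d * n) atTop atTop := by
    rw [tendsto_atTop]
    intro b
    filter_upwards [eventually_ge_atTop b] with n hn
    exact hn.trans (Nat.le_mul_of_pos_left n hd0)
  filter_upwards [hmul.eventually h1] with n hn
  obtain ⟨e, he, he1, -⟩ := hF (d * n) n (Nat.mul_div_cancel_left n hd0)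
  choose! B hB hB' using hn
  have hinj : Function.Injective (fun y : Fin n => e (((1 : G) : G ⧸ H), y)) :=
    fun y y' h => congrArg Prod.snd (he h)
  apply Model.ofType ((ρ (d * n)).comp (conjH H))
    (fun y => Fin.castLE (hm (d * n)) (e (((1 : G) : G ⧸ H), y))) _
    (fun h => univ.filter fun y => e (((1 : G) : G ⧸ H), y) ∈ B h)
  · intro h hh
    have h2 : (univ.filter fun y => e (((1 : G) : G ⧸ H), y) ∈ B h).card ≤ (B h).card := by
      apply Finset.card_le_card_of_injOn (fun y => e (((1 : G) : G ⧸ H), y)) _ hinj.injOn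
      intro y hy
      exact (Finset.mem_filter.1 hy).2
    have h3 : ((univ.filter fun y => e (((1 : G) : G ⧸ H), y) ∈ B h).card : ℝ) ≤ (B h).card := by
      exact_mod_cast h2
    have h4 := hB h hh
    have h5 : η / d * ((d * n : ℕ) : ℝ) = η * n := by
      push_cast
      field_simp
    linarith
  · intro h hh y _ hy
    refine ⟨mem_univ _, ?_⟩
    have h2 : e (((1 : G) : G ⧸ H), y) ∉ B h := by
      intro hc
      exact hy (Finset.mem_filter.2 ⟨mem_univ _, hc⟩)
    have h3 := hB' h hh _ h2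
    rw [he1, conjH_smul, coc_conjH] at h3
    exact h3
  · intro y _ y' _ hyy
    exact hinj (Fin.castLE_injective (hm (d * n)) hyy)

/-- flexible stability is invariant under isomorphism -/
theorem flexStable_congr {K₁ K₂ : Type} [Group K₁] [Group K₂] (e : K₁ ≃* K₂)
    (h : FlexStable K₁) : FlexStable K₂ := by
  intro f hf
  obtain ⟨m, ρ, hm, hlim⟩ := h (fun n g => f n (e g)) (by
    intro g g'
    have := hf (e g) (e g')
    rw [← map_mul] at this
    exact this)
  refine ⟨m, fun n => (ρ n).comp (e.symm : K₂ →* K₁), hm, ?_⟩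
  intro g
  have := hlim (e.symm g)
  rw [MulEquiv.apply_symm_apply] at this
  exact this

/-- THEOREM D -/
theorem flexStable_commensurable {G₁ G₂ : Type} [Group G₁] [Group G₂] [Countable G₁]
    [Countable G₂] (h₁ : HasNear G₁) (K₁ : Subgroup G₁) (K₂ : Subgroup G₂)
    [K₁.FiniteIndex] [K₂.FiniteIndex] (e : K₁ ≃* K₂) : FlexStable G₁ ↔ FlexStable G₂ := by
  have h₂ : HasNear G₂ := hasNear_of_subgroup K₂ (hasNear_congr e (hasNear_subgroup K₁ h₁))
  constructor
  · intro h
    exact flexStable_of_subgroup h₂ K₂ (flexStable_congr e (flexStable_subgroup h₁ K₁ h))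
  · intro h
    exact flexStable_of_subgroup h₁ K₁ (flexStable_congr e.symm (flexStable_subgroup h₂ K₂ h))

end Pool.Agent.FS84
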