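import Pool.Agent.FS84.Sof
import Pool.Agent.FS84.Defs

/-!
Central extensions which are sofic groups give almost-coboundaries over almost-actions.
-/

set_option autoImplicit false
open Finset

namespace Pool.Agent.FS84

/-- representatives of the orbits of an almost-action which is an honest free action on `V1` -/
theorem fund_dom {V0 A : Type} [Fintype V0] [Group A] [Finite A] (α : A → Equiv.Perm V0)
    (V1 : Set V0) (h1 : ∀ v ∈ V1, ∀ s t, α s (α t v) = α (s * t) v)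
    (h2 : ∀ v ∈ V1, ∀ s, s ≠ 1 → α s v ≠ v) :
    ∃ (Ω : Type) (_ : Fintype Ω) (r : Ω → V0), (∀ w, r w ∈ V1) ∧
      (∀ v ∈ V1, ∃ w t, v = α t (r w)) ∧
      (∀ w w' t t', α t (r w) = α t' (r w') → w = w' ∧ t = t') ∧
      V1.ncard ≤ Fintype.card Ω * Nat.card A := by
  classical
  have hone : ∀ v ∈ V1, α 1 v = v := by
    intro v hv
    have h := h1 v hv 1 1
    rw [mul_one] at h
    exact (α 1).injective h
  let S : Setoid {v // v ∈ V1} :=
    { r := fun v v' => ∃ t, α t v.1 = v'.1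
      iseqv :=
        { refl := fun v => ⟨1, hone v.1 v.2⟩
          symm := by
            rintro v v' ⟨t, ht⟩
            refine ⟨t⁻¹, ?_⟩
            rw [← ht, h1 v.1 v.2, inv_mul_cancel, hone v.1 v.2]
          trans := by
            rintro v v' v'' ⟨t, ht⟩ ⟨t', ht'⟩
            refine ⟨t' * t, ?_⟩
            rw [← ht', ← ht, h1 v.1 v.2] } }
  have hfin : Finite (Quotient S) := inferInstance
  have hex : ∀ v ∈ V1, ∃ (w : Quotient S) (t : A), v = α t (Quotient.out w).1 := by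
    intro v hv
    have h := Quotient.exact (Quotient.out_eq (Quotient.mk S ⟨v, hv⟩))
    obtain ⟨t, ht⟩ := h
    exact ⟨Quotient.mk S ⟨v, hv⟩, t, ht.symm⟩
  refine ⟨Quotient S, Fintype.ofFinite _, fun w => (Quotient.out w).1, fun w =>
    (Quotient.out w).2, hex, ?_, ?_⟩
  · intro w w' t t' h
    have h4 : α (t'⁻¹ * t) (Quotient.out w).1 = (Quotient.out w').1 := by
      rw [← h1 _ (Quotient.out w).2, h, h1 _ (Quotient.out w').2, inv_mul_cancel,
        hone _ (Quotient.out w').2]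
    have h5 : w = w' := by
      rw [← Quotient.out_eq w, ← Quotient.out_eq w']
      exact Quotient.sound ⟨_, h4⟩
    subst h5
    refine ⟨rfl, ?_⟩
    by_contra hne
    apply h2 _ (Quotient.out w).2 (t'⁻¹ * t) _ h4
    intro h6
    exact hne (inv_mul_eq_one.1 h6).symm
  · have h6 : V1 ⊆ Set.range (fun p : Quotient S × A => α p.2 (Quotient.out p.1).1) := by
      intro v hv
      obtain ⟨w, t, ht⟩ := hex v hv
      exact ⟨(w, t), ht.symm⟩
    have h7 := Set.ncard_le_ncard h6 (Set.toFinite _)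
    have h8 : (Set.range (fun p : Quotient S × A => α p.2 (Quotient.out p.1).1)).ncard ≤
        Nat.card (Quotient S × A) := by
      rw [← Set.image_univ]
      refine le_trans (Set.ncard_image_le (Set.toFinite _)) ?_
      rw [Set.ncard_univ]
    refine le_trans h7 (le_trans h8 (le_of_eq ?_))
    rw [Nat.card_prod, @Nat.card_eq_fintype_card (Quotient S) (Fintype.ofFinite _)]

/-- the construction of the almost-action and of the cochain -/
theorem step_a_core {G Y A V0 : Type} [Group G] [Fintype Y] [CommGroup A] [Finite A]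
    [Fintype V0] (τ : G →* Equiv.Perm Y) (a : G → G → Y → A) (α : A → Equiv.Perm V0)
    (s : G → Y → Equiv.Perm V0) (E E2 : Finset G) (hE : ∀ g ∈ E, g ∈ E2)
    (hE2 : ∀ g ∈ E, ∀ h ∈ E, g * h ∈ E2) (B : Set V0)
    (hB1 : ∀ v, v ∉ B → ∀ x y, α x (α y v) = α (x * y) v)
    (hB2 : ∀ v, v ∉ B → ∀ x, x ≠ 1 → α x v ≠ v)
    (hB3 : ∀ v, v ∉ B → ∀ g ∈ E2, ∀ y x, s g y (α x v) = α x (s g y v))
    (hB4 : ∀ v, v ∉ B → ∀ g ∈ E, ∀ h ∈ E, ∀ y,
      s g (τ h y) (s h y v) = α (a g h y) (s (g * h) y v))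
    (hlt : B.ncard < Fintype.card V0) :
    ∃ (Ω : Type) (_ : Fintype Ω) (_ : Nonempty Ω) (φ : G → Equiv.Perm (Y × Ω))
      (c : G → Y × Ω → A), Fintype.card V0 ≤ Fintype.card Ω * Nat.card A + B.ncard ∧
      (∀ g ∈ E, ∀ h ∈ E, {v | φ g (φ h v) ≠ φ (g * h) v}.ncard ≤
        7 * (Fintype.card Y * B.ncard)) ∧
      (∀ g ∈ E, {v | (φ g v).1 ≠ τ g v.1}.ncard ≤ 7 * (Fintype.card Y * B.ncard)) ∧
      ∀ g ∈ E, ∀ h ∈ E, {v : Y × Ω | a g h v.1 ≠ c g (φ h v) * c h v * (c (g * h) v)⁻¹}.ncard ≤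
        7 * (Fintype.card Y * B.ncard) := by
  classical
  let V1 : Set V0 := {v | (∀ x y, α x (α y v) = α (x * y) v) ∧ ∀ x, x ≠ 1 → α x v ≠ v}
  have hV1B : ∀ v, v ∉ B → v ∈ V1 := fun v hv => ⟨hB1 v hv, hB2 v hv⟩
  have hone : ∀ v ∈ V1, α 1 v = v := by
    intro v hv
    have h := hv.1 1 1
    rw [mul_one] at h
    exact (α 1).injective h
  obtain ⟨Ω, hΩ, r, hr, hex, huniq, hcard⟩ := fund_dom α V1 (fun v hv => hv.1)
    (fun v hv => hv.2)
  have hcompl : V1ᶜ ⊆ B := by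
    intro v hv
    by_contra h
    exact hv (hV1B v h)
  have hcard2 : Fintype.card V0 ≤ V1.ncard + B.ncard := by
    have h4 := Set.ncard_add_ncard_compl V1
    rw [Nat.card_eq_fintype_card] at h4
    have h5 := Set.ncard_le_ncard hcompl (Set.toFinite _)
    omega
  have hne : Nonempty Ω := by
    have h4 : 0 < V1.ncard := by omega
    have h5 : 0 < Fintype.card Ω * Nat.card A := lt_of_lt_of_le h4 hcard
    exact Fintype.card_pos_iff.1 (Nat.pos_of_mul_pos_right h5)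
  have hneA : Nonempty A := ⟨1⟩
  have key : ∀ (g : G) (p : Y × Ω), s g p.1 (r p.2) ∈ V1 →
      ∃ (w : Ω) (t : A), s g p.1 (r p.2) = α t (r w) := fun g p hp => hex _ hp
  choose! W T hWT using key
  let Good : G → Set (Y × Ω) := fun g => {p | s g p.1 (r p.2) ∈ V1 ∧
    ∀ x, s g p.1 (α x (r p.2)) = α x (s g p.1 (r p.2))}
  let f : G → Y × Ω → Y × Ω := fun g p => (τ g p.1, W g p)
  have hinj : ∀ g, Set.InjOn (f g) (Good g) := by
    rintro g ⟨y, w⟩ hp ⟨y', w'⟩ hp' h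
    have h4 : τ g y = τ g y' := congrArg Prod.fst h
    have h5 : y = y' := (τ g).injective h4
    subst h5
    have h6 : W g (y, w) = W g (y, w') := congrArg Prod.snd h
    have h7 := hWT g (y, w) hp.1
    have h8 := hWT g (y, w') hp'.1
    have h9 : s g y (α (T g (y, w') * (T g (y, w))⁻¹) (r w)) = s g y (r w') := by
      rw [hp.2, h7, (hr _).1, inv_mul_cancel_right, h6]
      exact h8.symm
    have h10 := (s g y).injective h9
    have h11 : α (T g (y, w') * (T g (y, w))⁻¹) (r w) = α 1 (r w') := by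
      rw [h10, hone _ (hr _)]
    rw [(huniq _ _ _ _ h11).1]
  have hφ : ∀ g, ∃ σ : Y × Ω ≃ Y × Ω, ∀ x ∈ Good g, σ x = f g x :=
    fun g => ext_inj rfl (Good g) (f g) (hinj g)
  choose φ hφ using hφ
  have hmul : ∀ g ∈ E, ∀ h ∈ E, ∀ p : Y × Ω, p ∈ Good h → f h p ∈ Good g →
      p ∈ Good (g * h) → r p.2 ∉ B → φ g (φ h p) = φ (g * h) p ∧
        a g h p.1 = T g (φ h p) * T h p * (T (g * h) p)⁻¹ := by
    rintro g hg h hh ⟨y, w⟩ hp1 hp2 hp3 hp4
    rw [hφ h _ hp1, hφ g _ hp2, hφ (g * h) _ hp3]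
    have e1 := hWT h (y, w) hp1.1
    have e2 := hWT g (f h (y, w)) hp2.1
    have e3 := hWT (g * h) (y, w) hp3.1
    have e4 := hB4 (r w) hp4 g hg h hh y
    have e5 : s g (τ h y) (s h y (r w)) =
        α (T h (y, w) * T g (f h (y, w))) (r (W g (f h (y, w)))) := by
      have e6 : s h y (r w) = α (T h (y, w)) (r (W h (y, w))) := e1
      rw [e6]
      have e7 : s g (τ h y) (α (T h (y, w)) (r (W h (y, w)))) =
        α (T h (y, w)) (s g (τ h y) (r (W h (y, w)))) := hp2.2 _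
      have e8 : s g (τ h y) (r (W h (y, w))) =
        α (T g (f h (y, w))) (r (W g (f h (y, w)))) := e2
      rw [e7, e8, (hr _).1]
    have e9 : α (a g h y) (s (g * h) y (r w)) =
        α (a g h y * T (g * h) (y, w)) (r (W (g * h) (y, w))) := by
      have e10 : s (g * h) y (r w) = α (T (g * h) (y, w)) (r (W (g * h) (y, w))) := e3
      rw [e10, (hr _).1]
    rw [e5, e9] at e4
    obtain ⟨e11, e12⟩ := huniq _ _ _ _ e4
    constructor
    · show (τ g (τ h y), W g (f h (y, w))) = (τ (g * h) y, W (g * h) (y, w))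
      rw [e11, map_mul]
      rfl
    · show a g h y = T g (f h (y, w)) * T h (y, w) * (T (g * h) (y, w))⁻¹
      rw [mul_comm (T g (f h (y, w))), e12, mul_inv_cancel_right]
  -- counting
  have hrinj : ∀ w w', r w = r w' → w = w' := by
    intro w w' h
    exact (huniq w w' 1 1 (by rw [h])).1
  have hYB : (Set.univ ×ˢ B : Set (Y × V0)).ncard = Fintype.card Y * B.ncard := by
    rw [Set.ncard_prod, Set.ncard_univ, Nat.card_eq_fintype_card]
  have hc1 : {p : Y × Ω | r p.2 ∈ B}.ncard ≤ Fintype.card Y * B.ncard := by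
    rw [← hYB]
    refine Set.ncard_le_ncard_of_injOn (fun p => (p.1, r p.2)) ?_ ?_ (Set.toFinite _)
    · intro p hp
      exact ⟨Set.mem_univ _, hp⟩
    · rintro ⟨y, w⟩ _ ⟨y', w'⟩ _ h
      simp only [Prod.mk.injEq] at h
      rw [h.1, hrinj _ _ h.2]
  have hc2 : ∀ g, {p : Y × Ω | s g p.1 (r p.2) ∈ B}.ncard ≤ Fintype.card Y * B.ncard := by
    intro g
    rw [← hYB]
    refine Set.ncard_le_ncard_of_injOn (fun p => (p.1, s g p.1 (r p.2))) ?_ ?_ (Set.toFinite _)
    · intro p hp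
      exact ⟨Set.mem_univ _, hp⟩
    · rintro ⟨y, w⟩ _ ⟨y', w'⟩ _ h
      simp only [Prod.mk.injEq] at h
      obtain ⟨h4, h5⟩ := h
      subst h4
      rw [hrinj _ _ ((s g y).injective h5)]
  have hc3 : ∀ g ∈ E2, (Good g)ᶜ.ncard ≤ 2 * (Fintype.card Y * B.ncard) := by
    intro g hg
    have h4 : (Good g)ᶜ ⊆ {p : Y × Ω | s g p.1 (r p.2) ∈ B} ∪ {p : Y × Ω | r p.2 ∈ B} := by
      intro p hp
      by_contra h
      rw [Set.mem_union, not_or] at h
      exact hp ⟨hV1B _ h.1, fun x => hB3 _ h.2 g hg p.1 x⟩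
    have h5 := Set.ncard_le_ncard h4 (Set.toFinite _)
    have h6 := Set.ncard_union_le {p : Y × Ω | s g p.1 (r p.2) ∈ B} {p : Y × Ω | r p.2 ∈ B}
    have h7 := hc2 g
    omega
  have hc4 : ∀ g ∈ E2, ∀ h, {p : Y × Ω | p ∈ Good h ∧ f h p ∉ Good g}.ncard ≤
      2 * (Fintype.card Y * B.ncard) := by
    intro g hg h
    refine le_trans (Set.ncard_le_ncard_of_injOn (f h) ?_ ?_ (Set.toFinite _)) (hc3 g hg)
    · intro p hp
      exact hp.2
    · intro p hp p' hp' he
      exact hinj h hp.1 hp'.1 he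
  have hbad : ∀ g ∈ E, ∀ h ∈ E, ∀ S : Set (Y × Ω),
      (∀ p ∈ S, ¬ (p ∈ Good h ∧ f h p ∈ Good g ∧ p ∈ Good (g * h) ∧ r p.2 ∉ B)) →
      S.ncard ≤ 7 * (Fintype.card Y * B.ncard) := by
    intro g hg h hh S hS
    have h4 : S ⊆ ((Good h)ᶜ ∪ {p : Y × Ω | p ∈ Good h ∧ f h p ∉ Good g}) ∪
        ((Good (g * h))ᶜ ∪ {p : Y × Ω | r p.2 ∈ B}) := by
      intro p hp
      have h5 := hS p hp
      by_contra h6
      simp only [Set.mem_union, not_or, Set.mem_compl_iff, not_not, Set.mem_ofPred_eq,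
        not_and] at h6
      exact h5 ⟨h6.1.1, h6.1.2 h6.1.1, h6.2.1, h6.2.2⟩
    have h5 := Set.ncard_le_ncard h4 (Set.toFinite _)
    have h6 := Set.ncard_union_le ((Good h)ᶜ ∪ {p : Y × Ω | p ∈ Good h ∧ f h p ∉ Good g})
      ((Good (g * h))ᶜ ∪ {p : Y × Ω | r p.2 ∈ B})
    have h7 := Set.ncard_union_le (Good h)ᶜ {p : Y × Ω | p ∈ Good h ∧ f h p ∉ Good g}
    have h8 := Set.ncard_union_le (Good (g * h))ᶜ {p : Y × Ω | r p.2 ∈ B}
    have h9 := hc3 h (hE h hh)
    have h10 := hc3 (g * h) (hE2 g hg h hh)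
    have h11 := hc4 g (hE g hg) h
    omega
  refine ⟨Ω, hΩ, hne, φ, T, by omega, ?_, ?_, ?_⟩
  · intro g hg h hh
    apply hbad g hg h hh
    rintro p hp ⟨q1, q2, q3, q4⟩
    exact hp (hmul g hg h hh p q1 q2 q3 q4).1
  · intro g hg
    have h4 : {v : Y × Ω | (φ g v).1 ≠ τ g v.1} ⊆ (Good g)ᶜ := by
      intro p hp hgd
      apply hp
      rw [hφ g p hgd]
    have h5 := Set.ncard_le_ncard h4 (Set.toFinite _)
    have h6 := hc3 g (hE g hg)
    omega
  · intro g hg h hh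
    apply hbad g hg h hh
    rintro p hp ⟨q1, q2, q3, q4⟩
    exact hp (hmul g hg h hh p q1 q2 q3 q4).2

/-- transport of the data of `SofTriv` from a finite type to `Fin N` -/
theorem softriv_of_fintype {G : Type} [Group G] {Y A : Type} [CommGroup A]
    (τ : G →* Equiv.Perm Y) (a : G → G → Y → A)
    (h : ∀ (E : Finset G) (ε : ℝ), 0 < ε → ∃ (V : Type) (_ : Fintype V) (_ : Nonempty V)
      (φ : G → Equiv.Perm V) (π : V → Y) (c : G → V → A),
      (∀ g ∈ E, ∀ h ∈ E, ({v | φ g (φ h v) ≠ φ (g * h) v}.ncard : ℝ) ≤ ε * Fintype.card V) ∧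
      (∀ g ∈ E, ({v | π (φ g v) ≠ τ g (π v)}.ncard : ℝ) ≤ ε * Fintype.card V) ∧
      ∀ g ∈ E, ∀ h ∈ E,
        ({v | a g h (π v) ≠ c g (φ h v) * c h v * (c (g * h) v)⁻¹}.ncard : ℝ) ≤
          ε * Fintype.card V) : SofTriv τ a := by
  classical
  intro E ε hε
  obtain ⟨V, hV, hV0, φ, π, c, h1, h2, h3⟩ := h E ε hε
  let e : V ≃ Fin (Fintype.card V) := Fintype.equivFin V
  have htr : ∀ P : V → Prop, {v : Fin (Fintype.card V) | P (e.symm v)}.ncard =
      {v : V | P v}.ncard := by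
    intro P
    have h4 : {v : Fin (Fintype.card V) | P (e.symm v)} = e '' {v : V | P v} := by
      ext v
      constructor
      · intro hv
        exact ⟨e.symm v, hv, e.apply_symm_apply v⟩
      · rintro ⟨w, hw, rfl⟩
        show P (e.symm (e w))
        rw [e.symm_apply_apply]
        exact hw
    rw [h4, Set.ncard_image_of_injective _ e.injective]
  refine ⟨Fintype.card V, fun g => (e.symm.trans (φ g)).trans e, fun v => π (e.symm v),
    fun g v => c g (e.symm v), Fintype.card_pos, ?_, ?_, ?_⟩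
  · intro g hg h hh
    refine le_trans (le_of_eq ?_) (h1 g hg h hh)
    rw [← htr fun v => φ g (φ h v) ≠ φ (g * h) v]
    congr 2
    ext v
    simp only [Equiv.trans_apply, Equiv.symm_apply_apply, Set.mem_ofPred_eq, ne_eq,
      EmbeddingLike.apply_eq_iff_eq]
  · intro g hg
    refine le_trans (le_of_eq ?_) (h2 g hg)
    rw [← htr fun v => π (φ g v) ≠ τ g (π v)]
    congr 2
    ext v
    simp only [Equiv.trans_apply, Equiv.symm_apply_apply, Set.mem_ofPred_eq, ne_eq]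
  · intro g hg h hh
    refine le_trans (le_of_eq ?_) (h3 g hg h hh)
    rw [← htr fun v => a g h (π v) ≠ c g (φ h v) * c h v * (c (g * h) v)⁻¹]
    congr 2
    ext v
    simp only [Equiv.trans_apply, Equiv.symm_apply_apply, Set.mem_ofPred_eq, ne_eq]

/-- the number of points at which `ψ` is not multiplicative on `K` or has a fixed point -/
theorem bad_card {H : Type} [Group H] (K : Finset H) (n : ℕ) (ψ : H → Equiv.Perm (Fin n))
    (η : ℝ) (hη : 0 ≤ η)
    (hψ1 : ∀ s ∈ K, ∀ t ∈ K,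
      ((univ.filter fun v => ψ s (ψ t v) ≠ ψ (s * t) v).card : ℝ) ≤ η * n)
    (hψ2 : ∀ s ∈ K, s ≠ 1 → ((univ.filter fun v => ψ s v = v).card : ℝ) ≤ η * n) :
    (({v | (∃ s ∈ K, ∃ t ∈ K, ψ s (ψ t v) ≠ ψ (s * t) v) ∨
      ∃ s ∈ K, s ≠ 1 ∧ ψ s v = v} : Set (Fin n)).ncard : ℝ) ≤
        (K.card * K.card + K.card + 1) * η * n := by
  classical
  have h1 : ({v | (∃ s ∈ K, ∃ t ∈ K, ψ s (ψ t v) ≠ ψ (s * t) v) ∨
      ∃ s ∈ K, s ≠ 1 ∧ ψ s v = v} : Set (Fin n)) ⊆
        (((K ×ˢ K).biUnion fun p => univ.filter fun v => ψ p.1 (ψ p.2 v) ≠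
          ψ (p.1 * p.2) v) ∪ (K.filter fun s => s ≠ 1).biUnion fun s =>
            univ.filter fun v => ψ s v = v : Finset (Fin n)) := by
    rintro v (⟨s, hs, t, ht, h⟩ | ⟨s, hs, hs1, h⟩)
    · rw [Finset.mem_coe, mem_union]
      left
      rw [mem_biUnion]
      exact ⟨(s, t), mem_product.2 ⟨hs, ht⟩, mem_filter.2 ⟨mem_univ _, h⟩⟩
    · rw [Finset.mem_coe, mem_union]
      right
      rw [mem_biUnion]
      exact ⟨s, mem_filter.2 ⟨hs, hs1⟩, mem_filter.2 ⟨mem_univ _, h⟩⟩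
  have h2 := Set.ncard_le_ncard h1 (Set.toFinite _)
  rw [Set.ncard_coe_finset] at h2
  have h3 := Finset.card_union_le ((K ×ˢ K).biUnion fun p => univ.filter fun v =>
    ψ p.1 (ψ p.2 v) ≠ ψ (p.1 * p.2) v) ((K.filter fun s => s ≠ 1).biUnion fun s =>
        univ.filter fun v => ψ s v = v)
  have h4 := Finset.card_biUnion_le (s := K ×ˢ K) (t := fun p => univ.filter fun v =>
    ψ p.1 (ψ p.2 v) ≠ ψ (p.1 * p.2) v)
  have h5 := Finset.card_biUnion_le (s := K.filter fun s => s ≠ 1) (t := fun s =>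
    univ.filter fun v => ψ s v = v)
  have h6 : ((∑ p ∈ K ×ˢ K, (univ.filter fun v => ψ p.1 (ψ p.2 v) ≠
      ψ (p.1 * p.2) v).card : ℕ) : ℝ) ≤ (K.card * K.card) * (η * n) := by
    push_cast
    refine le_trans (Finset.sum_le_card_nsmul _ _ (η * n) ?_) ?_
    · intro p hp
      exact hψ1 p.1 (mem_product.1 hp).1 p.2 (mem_product.1 hp).2
    · rw [card_product, nsmul_eq_mul]
      push_cast
      exact le_refl _
  have h7 : ((∑ s ∈ K.filter fun s => s ≠ 1, (univ.filter fun v => ψ s v = v).card : ℕ) : ℝ) ≤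
      K.card * (η * n) := by
    push_cast
    refine le_trans (Finset.sum_le_card_nsmul _ _ (η * n) ?_) ?_
    · intro s hs
      exact hψ2 s (mem_filter.1 hs).1 (mem_filter.1 hs).2
    · rw [nsmul_eq_mul]
      apply mul_le_mul_of_nonneg_right _ (by positivity)
      exact_mod_cast Finset.card_filter_le _ _
  have h8 := add_le_add h6 h7
  have h9 : (({v | (∃ s ∈ K, ∃ t ∈ K, ψ s (ψ t v) ≠ ψ (s * t) v) ∨
      ∃ s ∈ K, s ≠ 1 ∧ ψ s v = v} : Set (Fin n)).ncard : ℝ) ≤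
        (K.card * K.card) * (η * n) + K.card * (η * n) := by
    refine le_trans ?_ h8
    exact_mod_cast (le_trans h2 (le_trans h3 (add_le_add h4 h5)))
  have h11 : 0 ≤ η * n := by positivity
  refine le_trans h9 ?_
  nlinarith

/-- the arithmetic of the bounds -/
theorem bound_arith (ε A Ω Y b n : ℝ) (hε : 0 < ε) (hA : 1 ≤ A) (hY : 0 ≤ Y)
    (h0 : n ≤ Ω * A + b) (hb : b ≤ ε / (7 * A + ε) * n) : 7 * (Y * b) ≤ ε * (Y * Ω) := by
  have hm : 0 < 7 * A + ε := by linarith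
  have h5 : (7 * A + ε) * b ≤ ε * n := by
    have h6 : (7 * A + ε) * (ε / (7 * A + ε)) = ε := by field_simp
    calc (7 * A + ε) * b ≤ (7 * A + ε) * (ε / (7 * A + ε) * n) :=
          mul_le_mul_of_nonneg_left hb hm.le
      _ = ε * n := by rw [← mul_assoc, h6]
  have h8 : ε * n ≤ ε * (Ω * A + b) := mul_le_mul_of_nonneg_left h0 hε.le
  have h9 : A * (7 * b) ≤ A * (ε * Ω) := by linarith
  have h4 : 7 * b ≤ ε * Ω := le_of_mul_le_mul_left h9 (by linarith)
  have h12 := mul_le_mul_of_nonneg_left h4 hY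
  linarith

/-- if a central extension by a finite group `A` with the cocycle `a` is sofic, then `a` is almost
a coboundary over almost-actions -/
theorem sofTriv_of_sofic {G : Type} [Group G] {Y A H : Type} [Finite Y] [Nonempty Y]
    [CommGroup A] [Finite A] [Group H] (τ : G →* Equiv.Perm Y) (i : A →* H)
    (hi : Function.Injective i) (hc : ∀ t h, i t * h = h * i t) (σ : G → Y → H)
    (a : G → G → Y → A) (hσ : ∀ g h y, σ g (τ h y) * σ h y = i (a g h y) * σ (g * h) y)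
    (hH : Sofic H) : SofTriv τ a := by
  classical
  have hYf : Fintype Y := Fintype.ofFinite Y
  have hAf : Fintype A := Fintype.ofFinite A
  apply softriv_of_fintype
  intro E ε hε
  let E2 : Finset G := E ∪ (E ×ˢ E).image (fun p => p.1 * p.2)
  have hE : ∀ g ∈ E, g ∈ E2 := fun g hg => mem_union_left _ hg
  have hE2 : ∀ g ∈ E, ∀ h ∈ E, g * h ∈ E2 := fun g hg h hh =>
    mem_union_right _ (mem_image.2 ⟨(g, h), mem_product.2 ⟨hg, hh⟩, rfl⟩)
  let K : Finset H := (univ : Finset A).image i ∪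
    (E2 ×ˢ (univ : Finset Y)).image (fun p => σ p.1 p.2)
  have hKi : ∀ t, i t ∈ K := fun t => mem_union_left _ (mem_image_of_mem _ (mem_univ t))
  have hKs : ∀ g ∈ E2, ∀ y, σ g y ∈ K := fun g hg y =>
    mem_union_right _ (mem_image.2 ⟨(g, y), mem_product.2 ⟨hg, mem_univ y⟩, rfl⟩)
  obtain ⟨δ, hδe⟩ : ∃ δ : ℝ, δ = ε / (7 * Fintype.card A + ε) := ⟨_, rfl⟩
  have hm0 : (1 : ℝ) ≤ Fintype.card A := by
    exact_mod_cast Fintype.card_pos_iff.2 ⟨(1 : A)⟩
  have hm : (0 : ℝ) < 7 * Fintype.card A + ε := by linarith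
  have hδ : 0 < δ := by
    rw [hδe]
    exact div_pos hε hm
  have hδ1 : δ < 1 := by
    rw [hδe, div_lt_one hm]
    linarith
  obtain ⟨Cst, hCe⟩ : ∃ C : ℝ, C = K.card * K.card + K.card + 1 := ⟨_, rfl⟩
  have hCst : 0 < Cst := by
    rw [hCe]
    positivity
  obtain ⟨n, ψ, hn, hψ1, hψ2⟩ := hH K (δ / Cst) (div_pos hδ hCst)
  obtain ⟨B, hBe⟩ : ∃ B : Set (Fin n), B = {v | (∃ s ∈ K, ∃ t ∈ K, ψ s (ψ t v) ≠
    ψ (s * t) v) ∨ ∃ s ∈ K, s ≠ 1 ∧ ψ s v = v} := ⟨_, rfl⟩
  have hnB : ∀ v, v ∉ B → (∀ s ∈ K, ∀ t ∈ K, ψ s (ψ t v) = ψ (s * t) v) ∧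
      ∀ s ∈ K, s ≠ 1 → ψ s v ≠ v := by
    intro v hv
    rw [hBe] at hv
    constructor
    · intro s hs t ht
      by_contra h
      exact hv (Or.inl ⟨s, hs, t, ht, h⟩)
    · intro s hs hs1 h
      exact hv (Or.inr ⟨s, hs, hs1, h⟩)
  have hBcard : (B.ncard : ℝ) ≤ δ * n := by
    rw [hBe]
    refine le_trans (bad_card K n ψ (δ / Cst) (div_pos hδ hCst).le hψ1 hψ2) (le_of_eq ?_)
    rw [← hCe, mul_div_cancel₀ _ hCst.ne']
  have hn' : (0 : ℝ) < n := by exact_mod_cast hn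
  have hlt : B.ncard < Fintype.card (Fin n) := by
    rw [Fintype.card_fin]
    have h1 : (B.ncard : ℝ) < n := by
      refine lt_of_le_of_lt hBcard ?_
      nlinarith
    exact_mod_cast h1
  obtain ⟨Ω, hΩ, hΩ0, φ, c, h0, h1, h2, h3⟩ := step_a_core τ a (fun t => ψ (i t))
    (fun g y => ψ (σ g y)) E E2 hE hE2 B
    (by
      intro v hv x y
      have h := (hnB v hv).1 (i x) (hKi x) (i y) (hKi y)
      rw [map_mul]
      exact h)
    (by
      intro v hv x hx
      refine (hnB v hv).2 (i x) (hKi x) ?_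
      intro h
      exact hx (hi (by rw [h, map_one])))
    (by
      intro v hv g hg y x
      have h := (hnB v hv).1 (σ g y) (hKs g hg y) (i x) (hKi x)
      have h' := (hnB v hv).1 (i x) (hKi x) (σ g y) (hKs g hg y)
      rw [hc] at h'
      exact h.trans h'.symm)
    (by
      intro v hv g hg h hh y
      have h4 := (hnB v hv).1 (σ g (τ h y)) (hKs g (hE g hg) _) (σ h y) (hKs h (hE h hh) _)
      have h5 := (hnB v hv).1 (i (a g h y)) (hKi _) (σ (g * h) y) (hKs _ (hE2 g hg h hh) _)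
      rw [hσ] at h4
      exact h4.trans h5.symm)
    hlt
  have hbound : ((7 * (Fintype.card Y * B.ncard) : ℕ) : ℝ) ≤ ε * Fintype.card (Y × Ω) := by
    rw [Fintype.card_fin, Nat.card_eq_fintype_card] at h0
    have h0' : (n : ℝ) ≤ Fintype.card Ω * Fintype.card A + B.ncard := by exact_mod_cast h0
    rw [Fintype.card_prod]
    push_cast
    rw [hδe] at hBcard
    exact bound_arith ε _ _ _ _ n hε hm0 (Nat.cast_nonneg _) h0' hBcard
  refine ⟨Y × Ω, inferInstance, inferInstance, φ, Prod.fst, c, ?_, ?_, ?_⟩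
  · intro g hg h hh
    refine le_trans ?_ hbound
    exact_mod_cast h1 g hg h hh
  · intro g hg
    refine le_trans ?_ hbound
    exact_mod_cast h2 g hg
  · intro g hg h hh
    refine le_trans ?_ hbound
    exact_mod_cast h3 g hg h hh

end Pool.Agent.FS84
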