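import Pool.Agent.FS84.Sof
import Pool.Agent.FS84.FinForm

/-!
A `2`-cochain which is almost a coboundary over almost-actions of a flexibly stable group whose
almost invariant sets are close to invariant sets is almost a coboundary over finite quotients of
the group.
-/

set_option autoImplicit false
open Finset

namespace Pool.Agent.FS84

theorem ncard_filter {α : Type} [Fintype α] (p : α → Prop) [DecidablePred p] :
    {x | p x}.ncard = (univ.filter p).card := by
  rw [← Set.ncard_coe_finset]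
  congr 1
  ext x
  simp

/-- double counting: a point of an invariant set whose orbit meets the error sets rarely -/
theorem exists_base {G W κ : Type} [Group G] [Fintype W] [DecidableEq W]
    (σ : G →* Equiv.Perm W) (B : Finset W) (hB : Inv σ B) (hne : B.Nonempty)
    (I : Finset κ) (Err : κ → Finset W) (K : ℝ)
    (hErr : ∑ i ∈ I, ((B.filter fun b => b ∈ Err i).card : ℝ) ≤ K * B.card) :
    ∃ b ∈ B, ∑ i ∈ I, ({x : σ.range | (x : Equiv.Perm W) b ∈ Err i}.ncard : ℝ) ≤
      K * Nat.card σ.range := by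
  classical
  have : Fintype σ.range := Fintype.ofFinite _
  by_contra hc
  push Not at hc
  have h1 : ∑ _b ∈ B, K * (Nat.card σ.range : ℝ) <
      ∑ b ∈ B, ∑ i ∈ I, ({x : σ.range | (x : Equiv.Perm W) b ∈ Err i}.ncard : ℝ) :=
    Finset.sum_lt_sum_of_nonempty hne hc
  have h2 : ∀ i, ∑ b ∈ B, ({x : σ.range | (x : Equiv.Perm W) b ∈ Err i}.ncard : ℝ) =
      Fintype.card σ.range * ((B.filter fun b => b ∈ Err i).card : ℝ) := by
    intro i
    have h3 : ∀ b, ({x : σ.range | (x : Equiv.Perm W) b ∈ Err i}.ncard : ℝ) =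
        ∑ x : σ.range, if (x : Equiv.Perm W) b ∈ Err i then (1 : ℝ) else 0 := by
      intro b
      rw [ncard_filter, Finset.card_filter]
      push_cast
      rfl
    rw [Finset.sum_congr rfl fun b _ => h3 b, Finset.sum_comm]
    have h4 : ∀ x : σ.range, (∑ b ∈ B, if (x : Equiv.Perm W) b ∈ Err i then (1 : ℝ) else 0) =
        ((B.filter fun b => b ∈ Err i).card : ℝ) := by
      rintro ⟨x, g, rfl⟩
      rw [← Finset.sum_filter, Finset.sum_const, nsmul_eq_mul, mul_one]
      congr 1
      apply Finset.card_bij (fun b _ => σ g b)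
      · intro b hb
        rw [mem_filter] at hb ⊢
        exact ⟨(hB g b).2 hb.1, hb.2⟩
      · intro b _ b' _ h
        exact (σ g).injective h
      · intro b hb
        rw [mem_filter] at hb
        refine ⟨(σ g).symm b, ?_, (σ g).apply_symm_apply b⟩
        rw [mem_filter]
        have h5 : σ g ((σ g).symm b) = b := (σ g).apply_symm_apply b
        refine ⟨(hB g _).1 (by rw [h5]; exact hb.1), ?_⟩
        change σ g ((σ g).symm b) ∈ Err i
        rw [h5]
        exact hb.2
    rw [Finset.sum_congr rfl fun x _ => h4 x, Finset.sum_const, Finset.card_univ, nsmul_eq_mul]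
  rw [Finset.sum_const, nsmul_eq_mul, Nat.card_eq_fintype_card, Finset.sum_comm,
    Finset.sum_congr rfl fun i _ => h2 i, ← Finset.mul_sum] at h1
  have h6 : (0 : ℝ) ≤ Fintype.card σ.range := Nat.cast_nonneg _
  have h7 := mul_le_mul_of_nonneg_left hErr h6
  linarith

/-- the product of two actions -/
def pAct {G Z Y : Type} [Group G] (ρ : G →* Equiv.Perm Z) (τ : G →* Equiv.Perm Y) :
    G →* Equiv.Perm (Z × Y) where
  toFun g := Equiv.prodCongr (ρ g) (τ g)
  map_one' := by
    ext p <;> simp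
  map_mul' g h := by
    ext p <;> simp

theorem pAct_apply {G Z Y : Type} [Group G] (ρ : G →* Equiv.Perm Z) (τ : G →* Equiv.Perm Y)
    (g : G) (p : Z × Y) : pAct ρ τ g p = (ρ g p.1, τ g p.2) := rfl

/-- STEP B -/
theorem qform_of_sofTriv {G : Type} [Group G] [Countable G] {Y A : Type} [Finite Y] [CommGroup A]
    (hG : HasNear G) (hst : FlexStable G) (τ : G →* Equiv.Perm Y) (a : G → G → Y → A)
    (h : SofTriv τ a) : QForm τ a := by
  classical
  have := Fintype.ofFinite Y
  obtain ⟨F, C, hC, hnear⟩ := hG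
  intro E ε hε
  -- the constants
  obtain ⟨R, hR⟩ : ∃ R : ℝ, R = ((E.card : ℝ) ^ 2 + 1) * (C * (1 + F.card) + 3) := ⟨_, rfl⟩
  have hR0 : 0 < R := by rw [hR]; positivity
  obtain ⟨s, hs⟩ : ∃ s : ℝ, s = min 1 ε / (2 * R) := ⟨_, rfl⟩
  have hs0 : 0 < s := by
    rw [hs]
    have : 0 < min 1 ε := lt_min one_pos hε
    positivity
  have hRs : R * s = min 1 ε / 2 := by
    rw [hs]
    field_simp
  have hRs1 : R * s ≤ 1 / 2 := by
    rw [hRs]
    have := min_le_left 1 ε
    linarith
  have hRs2 : R * s ≤ ε / 2 := by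
    rw [hRs]
    have := min_le_right 1 ε
    linarith
  obtain ⟨E2, δ, hδ, hfin⟩ := finite_form hst (F ∪ E) s hs0
  obtain ⟨N, φ, π, c, hN, h1, h2, h3⟩ := h (E2 ∪ (F ∪ E)) (min δ s) (lt_min hδ hs0)
  have hN0 : (0 : ℝ) < N := by exact_mod_cast hN
  have hminδ : min δ s * N ≤ δ * N := mul_le_mul_of_nonneg_right (min_le_left _ _) hN0.le
  have hmins : min δ s * N ≤ s * N := mul_le_mul_of_nonneg_right (min_le_right _ _) hN0.le
  have hE2 : ∀ g ∈ E2, g ∈ E2 ∪ (F ∪ E) := fun g hg => mem_union_left _ hg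
  have hF : ∀ g ∈ F, g ∈ E2 ∪ (F ∪ E) := fun g hg => mem_union_right _ (mem_union_left _ hg)
  have hE : ∀ g ∈ E, g ∈ E2 ∪ (F ∪ E) := fun g hg => mem_union_right _ (mem_union_right _ hg)
  obtain ⟨m, ρ, ι, hι, hbad⟩ := hfin N φ hN (by
    intro g hg k hk
    have h4 := h1 g (hE2 g hg) k (hE2 k hk)
    rw [ncard_filter] at h4
    exact h4.trans hminδ)
  have hbad1 : ∀ g ∈ F ∪ E, ((univ.filter fun x => ρ g (ι x) ≠ ι (φ g x)).card : ℝ) ≤ s * N := by
    intro g hg
    exact (Finset.single_le_sum (f := fun g =>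
      ((univ.filter fun x => ρ g (ι x) ≠ ι (φ g x)).card : ℝ))
      (fun _ _ => Nat.cast_nonneg _) hg).trans hbad
  have hπ : ∀ g ∈ E2 ∪ (F ∪ E),
      ((univ.filter fun v => π (φ g v) ≠ τ g (π v)).card : ℝ) ≤ s * N := by
    intro g hg
    have h4 := h2 g hg
    rw [ncard_filter] at h4
    exact h4.trans hmins
  have hcr : ∀ g ∈ E, ∀ k ∈ E, ((univ.filter fun v =>
      a g k (π v) ≠ c g (φ k v) * c k v * (c (g * k) v)⁻¹).card : ℝ) ≤ s * N := by
    intro g hg k hk
    have h4 := h3 g (hE g hg) k (hE k hk)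
    rw [ncard_filter] at h4
    exact h4.trans hmins
  -- the almost invariant set
  obtain ⟨j, hj⟩ : ∃ j : Fin N → Fin m × Y, ∀ v, j v = (ι v, π v) := ⟨_, fun _ => rfl⟩
  have hjinj : Function.Injective j := by
    intro v w hvw
    rw [hj, hj] at hvw
    exact hι (congrArg Prod.fst hvw)
  obtain ⟨σ, hσ⟩ : ∃ σ : G →* Equiv.Perm (Fin m × Y), ∀ g p, σ g p = (ρ g p.1, τ g p.2) :=
    ⟨pAct ρ τ, pAct_apply ρ τ⟩
  have hσj : ∀ g v, ρ g (ι v) = ι (φ g v) → π (φ g v) = τ g (π v) → σ g (j v) = j (φ g v) := by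
    intro g v h4 h5
    rw [hσ, hj, hj, h4, h5]
  obtain ⟨P0, hP0⟩ : ∃ P0 : Finset (Fin m × Y), P0 = univ.image j := ⟨_, rfl⟩
  have hP0c : P0.card = N := by
    rw [hP0, Finset.card_image_of_injective _ hjinj, Finset.card_univ, Fintype.card_fin]
  have hP0j : ∀ v, j v ∈ P0 := fun v => by
    rw [hP0]
    exact mem_image_of_mem _ (mem_univ _)
  have hmove : ∀ g ∈ F, ((P0.filter fun p => σ g p ∉ P0).card : ℝ) ≤
      ((univ.filter fun x => ρ g (ι x) ≠ ι (φ g x)).card : ℝ) + s * N := by
    intro g hg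
    have h4 : (P0.filter fun p => σ g p ∉ P0) ⊆
        ((univ.filter fun x => ρ g (ι x) ≠ ι (φ g x)) ∪
          (univ.filter fun v => π (φ g v) ≠ τ g (π v))).image j := by
      intro p hp
      rw [mem_filter, hP0, mem_image] at hp
      obtain ⟨⟨v, _, rfl⟩, hp⟩ := hp
      apply mem_image_of_mem
      rw [mem_union, mem_filter, mem_filter]
      by_contra hcon
      rw [not_or] at hcon
      have h5 : ρ g (ι v) = ι (φ g v) := by
        by_contra h6
        exact hcon.1 ⟨mem_univ _, h6⟩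
      have h5' : π (φ g v) = τ g (π v) := by
        by_contra h6
        exact hcon.2 ⟨mem_univ _, h6⟩
      apply hp
      rw [hσj g v h5 h5']
      exact mem_image_of_mem _ (mem_univ _)
    have h5 := (Finset.card_le_card h4).trans (Finset.card_image_le.trans
      (Finset.card_union_le _ _))
    have h6 : ((P0.filter fun p => σ g p ∉ P0).card : ℝ) ≤
        (univ.filter fun x => ρ g (ι x) ≠ ι (φ g x)).card +
          (univ.filter fun v => π (φ g v) ≠ τ g (π v)).card := by exact_mod_cast h5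
    have h7 := hπ g (hF g hg)
    linarith
  have hmoves : ∑ g ∈ F, ((P0.filter fun p => σ g p ∉ P0).card : ℝ) ≤ (1 + F.card) * s * N := by
    refine (Finset.sum_le_sum hmove).trans ?_
    rw [Finset.sum_add_distrib, Finset.sum_const, nsmul_eq_mul]
    have h4 : ∑ g ∈ F, ((univ.filter fun x => ρ g (ι x) ≠ ι (φ g x)).card : ℝ) ≤
        ∑ g ∈ F ∪ E, ((univ.filter fun x => ρ g (ι x) ≠ ι (φ g x)).card : ℝ) :=
      Finset.sum_le_sum_of_subset_of_nonneg subset_union_left (fun _ _ _ => Nat.cast_nonneg _)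
    have h5 := h4.trans hbad
    linarith
  obtain ⟨B, hB, hBc⟩ := hnear (Fin m × Y) σ P0
  obtain ⟨K, hK⟩ : ∃ K : ℝ, K = C * (1 + F.card) * s := ⟨_, rfl⟩
  have hBc' : ((P0 \ B).card + (B \ P0).card : ℝ) ≤ K * N := by
    refine hBc.trans ?_
    have h4 := mul_le_mul_of_nonneg_left hmoves hC.le
    rw [hK]
    linarith
  have hK0 : 0 ≤ K := by rw [hK]; positivity
  have hE0 : (0 : ℝ) ≤ (E.card : ℝ) ^ 2 := by positivity
  have hRK : R * s = ((E.card : ℝ) ^ 2 + 1) * (K + 3 * s) := by
    rw [hR, hK]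
    ring
  have hK1 : K ≤ 1 / 2 := by
    have h4 : 0 ≤ (E.card : ℝ) ^ 2 * (K + 3 * s) := by positivity
    nlinarith
  have hBcard : (N : ℝ) - K * N ≤ B.card := by
    have h4 : P0.card ≤ B.card + (P0 \ B).card := by
      have h5 : P0 ⊆ B ∪ (P0 \ B) := by
        intro p hp
        by_cases hpB : p ∈ B
        · exact mem_union_left _ hpB
        · exact mem_union_right _ (mem_sdiff.2 ⟨hp, hpB⟩)
      exact (Finset.card_le_card h5).trans (Finset.card_union_le _ _)
    rw [hP0c] at h4
    have h6 : (N : ℝ) ≤ B.card + (P0 \ B).card := by exact_mod_cast h4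
    have h7 : (0 : ℝ) ≤ (B \ P0).card := Nat.cast_nonneg _
    linarith
  have hBpos : (0 : ℝ) < B.card := by nlinarith
  have hBne : B.Nonempty := by
    rw [← Finset.card_pos]
    exact_mod_cast hBpos
  -- the cochain on the invariant set
  obtain ⟨cB, hcB⟩ : ∃ cB : G → Fin m × Y → A, ∀ g v, cB g (j v) = c g v := by
    refine ⟨fun g b => if h : ∃ v, j v = b then c g h.choose else 1, ?_⟩
    intro g v
    have hex : ∃ w, j w = j v := ⟨v, rfl⟩
    change (if h : ∃ w, j w = j v then c g h.choose else 1) = c g v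
    rw [dif_pos hex]
    have h4 := hjinj hex.choose_spec
    rw [h4]
  obtain ⟨Err, hErr⟩ : ∃ Err : G × G → Finset (Fin m × Y), ∀ p, Err p = univ.filter fun b =>
      cB p.1 (σ p.2 b) * cB p.2 b * (cB (p.1 * p.2) b)⁻¹ ≠ a p.1 p.2 b.2 := ⟨_, fun _ => rfl⟩
  have herr : ∀ p ∈ E ×ˢ E, ((B.filter fun b => b ∈ Err p).card : ℝ) ≤ (K + 3 * s) * N := by
    rintro ⟨g, k⟩ hp
    rw [mem_product] at hp
    have h4 : (B.filter fun b => b ∈ Err (g, k)) ⊆ (B \ P0) ∪
        ((univ.filter fun x => ρ k (ι x) ≠ ι (φ k x)) ∪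
          ((univ.filter fun v => π (φ k v) ≠ τ k (π v)) ∪ (univ.filter fun v =>
            a g k (π v) ≠ c g (φ k v) * c k v * (c (g * k) v)⁻¹))).image j := by
      intro b hb
      rw [mem_filter, hErr, mem_filter] at hb
      by_cases hbP : b ∈ P0
      · apply mem_union_right
        rw [hP0, mem_image] at hbP
        obtain ⟨v, _, rfl⟩ := hbP
        apply mem_image_of_mem
        rw [mem_union, mem_union, mem_filter, mem_filter, mem_filter]
        by_contra hcon
        rw [not_or, not_or] at hcon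
        have h5 : ρ k (ι v) = ι (φ k v) := by
          by_contra h6
          exact hcon.1 ⟨mem_univ _, h6⟩
        have h5' : π (φ k v) = τ k (π v) := by
          by_contra h6
          exact hcon.2.1 ⟨mem_univ _, h6⟩
        have h5'' : a g k (π v) = c g (φ k v) * c k v * (c (g * k) v)⁻¹ := by
          by_contra h6
          exact hcon.2.2 ⟨mem_univ _, h6⟩
        apply hb.2.2
        change cB g (σ k (j v)) * cB k (j v) * (cB (g * k) (j v))⁻¹ = a g k (j v).2
        rw [hσj k v h5 h5', hcB, hcB, hcB, hj, h5'']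
      · exact mem_union_left _ (mem_sdiff.2 ⟨hb.1, hbP⟩)
    have h5 := (Finset.card_le_card h4).trans (Finset.card_union_le _ _)
    have h6 := (Finset.card_image_le (f := j) (s := (univ.filter fun x =>
      ρ k (ι x) ≠ ι (φ k x)) ∪ ((univ.filter fun v => π (φ k v) ≠ τ k (π v)) ∪
        (univ.filter fun v => a g k (π v) ≠ c g (φ k v) * c k v * (c (g * k) v)⁻¹)))).trans
      ((Finset.card_union_le _ _).trans (Nat.add_le_add_left (Finset.card_union_le _ _) _))
    have h7 : ((B.filter fun b => b ∈ Err (g, k)).card : ℝ) ≤ (B \ P0).card +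
        ((univ.filter fun x => ρ k (ι x) ≠ ι (φ k x)).card +
          ((univ.filter fun v => π (φ k v) ≠ τ k (π v)).card +
            (univ.filter fun v =>
              a g k (π v) ≠ c g (φ k v) * c k v * (c (g * k) v)⁻¹).card)) := by
      exact_mod_cast h5.trans (Nat.add_le_add_left h6 _)
    have h8 := hbad1 k (mem_union_right _ hp.2)
    have h9 := hπ k (hE k hp.2)
    have h10 := hcr g hp.1 k hp.2
    have h11 : (0 : ℝ) ≤ (P0 \ B).card := Nat.cast_nonneg _
    linarith
  have htot : ∑ p ∈ E ×ˢ E, ((B.filter fun b => b ∈ Err p).card : ℝ) ≤ ε * B.card := by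
    refine (Finset.sum_le_sum herr).trans ?_
    rw [Finset.sum_const, nsmul_eq_mul, Finset.card_product]
    push_cast
    have h4 : (E.card : ℝ) * E.card * ((K + 3 * s) * N) ≤ R * s * N := by
      rw [hRK]
      have h5 : 0 ≤ (K + 3 * s) * N := by positivity
      nlinarith
    have h6 : R * s * N ≤ ε / 2 * N := mul_le_mul_of_nonneg_right hRs2 hN0.le
    have h7 : ε * ((N : ℝ) / 2) ≤ ε * B.card := by
      apply mul_le_mul_of_nonneg_left _ hε.le
      nlinarith
    linarith
  obtain ⟨b0, _, hb0⟩ := exists_base σ B hB hBne (E ×ˢ E) Err ε htot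
  -- the quotient
  have hqv : ∀ g (x : σ.range), ((σ.rangeRestrict g * x : σ.range) : Equiv.Perm (Fin m × Y)) b0 =
      σ g ((x : Equiv.Perm (Fin m × Y)) b0) := fun _ _ => rfl
  refine ⟨σ.range, inferInstance, inferInstance, σ.rangeRestrict,
    fun x => ((x : Equiv.Perm (Fin m × Y)) b0).2,
    fun g x => cB g ((x : Equiv.Perm (Fin m × Y)) b0), σ.rangeRestrict_surjective, ?_, ?_⟩
  · intro g x
    change (((σ.rangeRestrict g * x : σ.range) : Equiv.Perm (Fin m × Y)) b0).2 =
      τ g ((x : Equiv.Perm (Fin m × Y)) b0).2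
    rw [hqv, hσ]
  · intro g hg k hk
    have h4 := (Finset.single_le_sum (f := fun p : G × G =>
      ({x : σ.range | (x : Equiv.Perm (Fin m × Y)) b0 ∈ Err p}.ncard : ℝ))
      (fun _ _ => Nat.cast_nonneg _) (mem_product.2 ⟨hg, hk⟩ : (g, k) ∈ E ×ˢ E)).trans hb0
    refine le_trans (le_of_eq ?_) h4
    congr 2
    ext x
    rw [Set.mem_ofPred_eq, Set.mem_ofPred_eq, hErr, mem_filter]
    constructor
    · intro h5
      exact ⟨mem_univ _, h5⟩
    · intro h5
      exact h5.2

end Pool.Agent.FS84
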