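import Pool.Agent.FS84.GroupForm
import Pool.Agent.FS84.StepA
import Pool.Agent.FS84.StepB
import Pool.Agent.FS84.Index
import Mathlib.GroupTheory.ResiduallyFinite

/-!
Flexibly stable Kazhdan groups `G`: sofic groups with a homomorphism to `G` with finite kernel and
image of finite index.
-/

set_option autoImplicit false
open Finset

namespace Pool.Agent.FS84

open Pool.Agent.H51K

variable {G : Type} [Group G]

theorem sofic_subgroup {H : Type} [Group H] (K : Subgroup H) (hH : Sofic H) : Sofic K := by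
  classical
  intro S ε hε
  obtain ⟨n, ψ, hn, h1, h2⟩ := hH (S.image Subtype.val) ε hε
  refine ⟨n, fun x => ψ x, hn, ?_, ?_⟩
  · intro s hs t ht
    exact h1 s (mem_image_of_mem _ hs) t (mem_image_of_mem _ ht)
  · intro s hs hs1
    apply h2 s (mem_image_of_mem _ hs)
    intro h
    exact hs1 (Subtype.ext h)

theorem resTriv_of_sofic [Countable G] (hG : HasNear G) (hst : FlexStable G) {Γ : Subgroup G}
    [Γ.FiniteIndex] {A H : Type} [CommGroup A] [Finite A] [Group H] (i : A →* H)
    (hi : Function.Injective i) (hcen : ∀ t h, i t * h = h * i t) (σ : G → G ⧸ Γ → H)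
    (a : G → G → G ⧸ Γ → A) (hσ : ∀ g h y, σ g (h • y) * σ h y = i (a g h y) * σ (g * h) y)
    (hH : Sofic H) : ResTriv (cosetAct Γ) a :=
  resTriv_of_qform hG hst (cosetAct Γ) (cosetAct_trans Γ) a
    (qform_of_sofTriv hG hst (cosetAct Γ) a
      (sofTriv_of_sofic (cosetAct Γ) i hi hcen σ a hσ hH))

theorem exists_rep (Γ : Subgroup G) : ∃ r : G ⧸ Γ → G, ∀ y, ((r y : G) : G ⧸ Γ) = y :=
  ⟨fun y => y.out, fun y => QuotientGroup.out_eq' y⟩

theorem virtually_split [Countable G] (hG : HasNear G) (hst : FlexStable G) {Γ : Subgroup G}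
    [Γ.FiniteIndex] {A H : Type} [CommGroup A] [Finite A] [Group H] (i : A →* H) (p : H →* Γ)
    (hi : Function.Injective i) (hp : Function.Surjective p) (hker : i.range = p.ker)
    (hcen : ∀ t h, i t * h = h * i t) (hH : Sofic H) :
    ∃ Γ' : Subgroup Γ, Γ'.FiniteIndex ∧ ∃ s : Γ' →* H, ∀ γ, p (s γ) = γ := by
  obtain ⟨r, hr⟩ := exists_rep Γ
  obtain ⟨σ, hσp⟩ := exists_sigma p hp r hr
  obtain ⟨a, hσ⟩ := exists_cocycle i p hker r σ hσp
  exact virtually_split_of i p hp hker hcen r hr σ hσp a hσ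
    (resTriv_of_sofic hG hst i hi hcen σ a hσ hH)

/-- the image of a section over a subgroup of finite index has finite index -/
theorem finiteIndex_range {Γ : Type} [Group Γ] {H : Type} [Group H] (p : H →* Γ)
    (hp : Function.Surjective p) [Finite p.ker] (Γ' : Subgroup Γ) [Γ'.FiniteIndex]
    (s : Γ' →* H) (hs : ∀ γ, p (s γ) = γ) : s.range.FiniteIndex := by
  rw [Subgroup.finiteIndex_iff_finite_quotient]
  have hex : ∀ y : Γ ⧸ Γ', ∃ u : H, p u = y.out := fun y => hp _
  choose u hu using hex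
  apply Finite.of_surjective (fun x : p.ker × (Γ ⧸ Γ') => ((x.1 * u x.2 : H) : H ⧸ s.range))
  intro x
  obtain ⟨h, rfl⟩ := QuotientGroup.mk_surjective x
  obtain ⟨y, hy⟩ : ∃ y : Γ ⧸ Γ', y = (p h : Γ ⧸ Γ') := ⟨_, rfl⟩
  have h1 : y.out⁻¹ * p h ∈ Γ' := by
    rw [← QuotientGroup.eq, QuotientGroup.out_eq', hy]
  have h2 : h * (u y * s ⟨_, h1⟩)⁻¹ ∈ p.ker := by
    rw [MonoidHom.mem_ker, map_mul, map_inv, map_mul, hu, hs]
    show p h * (y.out * (y.out⁻¹ * p h))⁻¹ = 1
    group
  refine ⟨(⟨_, h2⟩, y), ?_⟩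
  show ((h * (u y * s ⟨_, h1⟩)⁻¹ * u y : H) : H ⧸ s.range) = _
  rw [QuotientGroup.eq]
  refine ⟨⟨_, h1⟩, ?_⟩
  group

/-- THEOREM H -/
theorem sofic_main [Countable G] (hG : HasNear G) (hst : FlexStable G) {H : Type} [Group H]
    (p : H →* G) [Finite p.ker] [p.range.FiniteIndex] (hH : Sofic H) :
    ∃ K : Subgroup H, K.FiniteIndex ∧ K ⊓ p.ker = ⊥ := by
  classical
  obtain ⟨C, hC⟩ : ∃ C : Subgroup H, C = Subgroup.centralizer (p.ker : Set H) := ⟨_, rfl⟩
  have hCc : ∀ c ∈ C, ∀ t ∈ p.ker, t * c = c * t := by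
    intro c hc t ht
    rw [hC, Subgroup.mem_centralizer_iff] at hc
    exact hc t ht
  have hCfin : C.FiniteIndex := by
    let f : H →* Equiv.Perm p.ker := (MulAut.toPerm p.ker).comp MulAut.conjNormal
    have h1 : f.ker ≤ C := by
      intro x hx
      rw [hC, Subgroup.mem_centralizer_iff]
      intro t ht
      have h2 : f x = 1 := hx
      have h3 : f x ⟨t, ht⟩ = ⟨t, ht⟩ := by rw [h2, Equiv.Perm.one_apply]
      have h4 : x * t * x⁻¹ = t := congrArg Subtype.val h3
      rw [mul_inv_eq_iff_eq_mul] at h4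
      exact h4.symm
    exact Subgroup.finiteIndex_of_le h1
  obtain ⟨p', hp'⟩ : ∃ p' : C →* G, p' = p.comp C.subtype := ⟨_, rfl⟩
  have hp'a : ∀ x, p' x = p x := fun x => by rw [hp']; rfl
  have hkerm : ∀ x : C, x ∈ p'.ker ↔ (x : H) ∈ p.ker := by
    intro x
    rw [MonoidHom.mem_ker, MonoidHom.mem_ker, hp'a]
  have hΓ : p'.range.FiniteIndex := by
    have h1 : p'.range = C.map p := by
      rw [hp', MonoidHom.range_comp, Subgroup.range_subtype]
    rw [h1]
    constructor
    rw [Subgroup.index_map]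
    have h2 : (C ⊔ p.ker).FiniteIndex := Subgroup.finiteIndex_of_le (le_sup_left (a := C))
    exact mul_ne_zero h2.index_ne_zero (Subgroup.FiniteIndex.index_ne_zero)
  have hfinker : Finite p'.ker := by
    apply Finite.of_injective (fun x : p'.ker => (⟨((x : C) : H), (hkerm x.1).1 x.2⟩ : p.ker))
    intro x y h
    exact Subtype.ext (Subtype.ext (congrArg (fun z : p.ker => (z : H)) h))
  let _ : CommGroup p'.ker := { (inferInstance : Group p'.ker) with
    mul_comm := by
      intro x y
      apply Subtype.ext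
      apply Subtype.ext
      show ((x : C) : H) * ((y : C) : H) = ((y : C) : H) * ((x : C) : H)
      exact hCc _ (y : C).2 _ ((hkerm _).1 x.2) }
  obtain ⟨Γ', hΓ', s, hs⟩ := virtually_split hG hst (Γ := p'.range) (A := p'.ker) (H := C)
    p'.ker.subtype p'.rangeRestrict p'.ker.subtype_injective p'.rangeRestrict_surjective
    (by rw [Subgroup.range_subtype, MonoidHom.ker_rangeRestrict]) (by
      intro t h
      apply Subtype.ext
      show ((t : C) : H) * (h : H) = (h : H) * ((t : C) : H)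
      exact hCc _ h.2 _ ((hkerm _).1 t.2)) (sofic_subgroup C hH)
  have hfk : Finite p'.rangeRestrict.ker := by
    rw [MonoidHom.ker_rangeRestrict]
    exact hfinker
  have hsr : s.range.FiniteIndex :=
    finiteIndex_range p'.rangeRestrict p'.rangeRestrict_surjective Γ' s hs
  refine ⟨s.range.map C.subtype, ?_, ?_⟩
  · constructor
    rw [Subgroup.index_map_subtype]
    exact mul_ne_zero hsr.index_ne_zero hCfin.index_ne_zero
  · rw [eq_bot_iff]
    rintro x ⟨hx1, hx2⟩
    obtain ⟨y, ⟨γ, rfl⟩, rfl⟩ := hx1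
    have h1 : p'.rangeRestrict (s γ) = 1 := by
      apply Subtype.ext
      show p' (s γ) = 1
      rw [hp'a]
      exact hx2
    rw [hs] at h1
    have h2 : γ = 1 := Subtype.ext h1
    rw [h2, map_one, map_one]
    exact Subgroup.one_mem _

theorem residuallyFinite_of_kernel {H : Type} [Group H] [Group.ResiduallyFinite G] (p : H →* G)
    (K : Subgroup H) [K.FiniteIndex] (hK : K ⊓ p.ker = ⊥) : Group.ResiduallyFinite H := by
  rw [Group.residuallyFinite_iff_exists_finiteIndex]
  intro h hh
  by_cases hp : p h = 1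
  · refine ⟨K, inferInstance, ?_⟩
    intro hk
    apply hh
    have : h ∈ K ⊓ p.ker := ⟨hk, hp⟩
    rw [hK] at this
    exact Subgroup.mem_bot.1 this
  · obtain ⟨N, hN, hN'⟩ := Group.residuallyFinite_iff_exists_finiteIndex.1
      (inferInstance : Group.ResiduallyFinite G) (p h) hp
    have h1 : (N.subgroupOf p.range).FiniteIndex := inferInstance
    refine ⟨N.comap p, ⟨?_⟩, hN'⟩
    rw [Subgroup.index_comap]
    exact h1.index_ne_zero

/-- the subgroup `K` embeds in `G` as a subgroup of finite index, so `H` is flexibly stable -/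
theorem flexStable_of_kernel [Countable G] (hG : HasNear G) (hst : FlexStable G) {H : Type}
    [Group H] (p : H →* G) [p.range.FiniteIndex] (K : Subgroup H) [K.FiniteIndex]
    [Finite p.ker] (hK : K ⊓ p.ker = ⊥) : FlexStable H := by
  have hinj : Function.Injective (p.comp K.subtype) := by
    rw [injective_iff_map_eq_one]
    intro x hx
    apply Subtype.ext
    have : (x : H) ∈ K ⊓ p.ker := ⟨x.2, hx⟩
    rw [hK] at this
    exact Subgroup.mem_bot.1 this
  have h1 : (p.comp K.subtype).range.FiniteIndex := by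
    have h1 : (p.comp K.subtype).range = K.map p := by
      rw [MonoidHom.range_comp, Subgroup.range_subtype]
    rw [h1]
    constructor
    rw [Subgroup.index_map]
    have h2 : (K ⊔ p.ker).FiniteIndex := Subgroup.finiteIndex_of_le (le_sup_left (a := K))
    exact mul_ne_zero h2.index_ne_zero (Subgroup.FiniteIndex.index_ne_zero)
  have hcH : Countable H := by
    have h2 : Countable p.range := inferInstance
    have h3 : ∀ x : H, ∃ y, y = p x := fun x => ⟨_, rfl⟩
    have hex : ∀ y : p.range, ∃ u : H, p u = y := fun y => y.2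
    choose u hu using hex
    apply Function.Surjective.countable (f := fun x : p.ker × p.range => (x.1 : H) * u x.2)
    intro h
    refine ⟨(⟨h * (u ⟨p h, h, rfl⟩)⁻¹, ?_⟩, ⟨p h, h, rfl⟩), ?_⟩
    · rw [MonoidHom.mem_ker, map_mul, map_inv, hu, mul_inv_cancel]
    · simp
  exact (flexStable_commensurable hG (p.comp K.subtype).range K
    (MonoidHom.ofInjective hinj).symm).1 hst

end Pool.Agent.FS84
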