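import Pool.Agent.FS84.FinalS

/-!
Flexible stability of a Kazhdan group `G` and of a sofic group with a homomorphism to `G` with
finite kernel and image of finite index are equivalent.
-/

set_option autoImplicit false
open Finset

namespace Pool.Agent.FS84

open Pool.Agent.H51K

/-- a sofic, flexibly stable, countable group is residually finite -/
theorem residuallyFinite_of_sofic {H : Type} [Group H] [Countable H] (hH : Sofic H)
    (hst : FlexStable H) : Group.ResiduallyFinite H := by
  classical
  rw [Group.residuallyFinite_iff_exists_finiteIndex]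
  intro h hh
  obtain ⟨E, δ, hδ, hfin⟩ := finite_form hst {h} (1 / 4) (by norm_num)
  obtain ⟨n, ψ, hn, h1, h2⟩ := hH (E ∪ {h}) (min δ (1 / 4)) (lt_min hδ (by norm_num))
  have hn0 : (0 : ℝ) < n := by exact_mod_cast hn
  obtain ⟨m, ρ, ι, hι, hbad⟩ := hfin n ψ hn (by
    intro s hs t ht
    refine (h1 s (mem_union_left _ hs) t (mem_union_left _ ht)).trans ?_
    exact mul_le_mul_of_nonneg_right (min_le_left _ _) hn0.le)
  rw [Finset.sum_singleton] at hbad
  have h3 : ((univ.filter fun v => ψ h v = v).card : ℝ) ≤ 1 / 4 * n := by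
    refine (h2 h (mem_union_right _ (mem_singleton_self h)) hh).trans ?_
    exact mul_le_mul_of_nonneg_right (min_le_right _ _) hn0.le
  refine ⟨ρ.ker, inferInstance, ?_⟩
  intro hk
  have hk' : ρ h = 1 := hk
  have h4 : (univ : Finset (Fin n)) ⊆ (univ.filter fun x => ρ h (ι x) ≠ ι (ψ h x)) ∪
      (univ.filter fun v => ψ h v = v) := by
    intro x _
    rw [mem_union, mem_filter, mem_filter]
    by_cases hx : ψ h x = x
    · exact Or.inr ⟨mem_univ _, hx⟩
    · refine Or.inl ⟨mem_univ _, ?_⟩
      rw [hk', Equiv.Perm.one_apply]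
      intro heq
      exact hx (hι heq).symm
  have h5 := (Finset.card_le_card h4).trans (Finset.card_union_le _ _)
  rw [Finset.card_univ, Fintype.card_fin] at h5
  have h6 : (n : ℝ) ≤ (univ.filter fun x => ρ h (ι x) ≠ ι (ψ h x)).card +
      (univ.filter fun v => ψ h v = v).card := by exact_mod_cast h5
  linarith

/-- a finite normal subgroup of a residually finite group is avoided by a subgroup of finite
index -/
theorem exists_avoid {G H : Type} [Group G] [Group H] (p : H →* G) [Finite p.ker]
    [hRF : Group.ResiduallyFinite H] : ∃ K : Subgroup H, K.FiniteIndex ∧ K ⊓ p.ker = ⊥ := by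
  classical
  have := Fintype.ofFinite p.ker
  have hex : ∀ t : p.ker, ∃ K : Subgroup H, K.FiniteIndex ∧ ((t : H) ≠ 1 → (t : H) ∉ K) := by
    intro t
    by_cases ht : (t : H) = 1
    · exact ⟨⊤, inferInstance, fun h => absurd ht h⟩
    · obtain ⟨K, h1, h2⟩ := Group.residuallyFinite_iff_exists_finiteIndex.1 hRF (t : H) ht
      exact ⟨K, h1, fun _ => h2⟩
  choose K hK hKt using hex
  refine ⟨⨅ t, K t, ?_, ?_⟩
  · have : ∀ t, (K t).FiniteIndex := hK
    exact Subgroup.finiteIndex_iInf (f := K) fun t => hK t
  · rw [eq_bot_iff]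
    rintro x ⟨hx1, hx2⟩
    rw [Subgroup.mem_bot]
    by_contra hx
    have h1 := (Subgroup.mem_iInf.1 hx1) ⟨x, hx2⟩
    exact hKt ⟨x, hx2⟩ hx h1

/-- THEOREM: the equivalence -/
theorem flexStable_iff_of_sofic {G : Type} [Group G] [Countable G] (hG : HasNear G) {H : Type}
    [Group H] (p : H →* G) [Finite p.ker] [p.range.FiniteIndex] (hH : Sofic H) :
    FlexStable G ↔ FlexStable H := by
  have hcH : Countable H := by
    have hex : ∀ y : p.range, ∃ u : H, p u = y := fun y => y.2
    choose u hu using hex
    apply Function.Surjective.countable (f := fun x : p.ker × p.range => (x.1 : H) * u x.2)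
    intro h
    refine ⟨(⟨h * (u ⟨p h, h, rfl⟩)⁻¹, ?_⟩, ⟨p h, h, rfl⟩), ?_⟩
    · rw [MonoidHom.mem_ker, map_mul, map_inv, hu, mul_inv_cancel]
    · simp
  constructor
  · intro hst
    obtain ⟨K, hK, hK'⟩ := sofic_main hG hst p hH
    exact flexStable_of_kernel hG hst p K hK'
  · intro hst
    have hRF := residuallyFinite_of_sofic hH hst
    obtain ⟨K, hK, hK'⟩ := exists_avoid p
    have hinj : Function.Injective (p.comp K.subtype) := by
      rw [injective_iff_map_eq_one]
      intro x hx
      apply Subtype.ext
      have : (x : H) ∈ K ⊓ p.ker := ⟨x.2, hx⟩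
      rw [hK'] at this
      exact Subgroup.mem_bot.1 this
    have h1 : (p.comp K.subtype).range.FiniteIndex := by
      have h1 : (p.comp K.subtype).range = K.map p := by
        rw [MonoidHom.range_comp, Subgroup.range_subtype]
      rw [h1]
      constructor
      rw [Subgroup.index_map]
      have h2 : (K ⊔ p.ker).FiniteIndex := Subgroup.finiteIndex_of_le (le_sup_left (a := K))
      exact mul_ne_zero h2.index_ne_zero (Subgroup.FiniteIndex.index_ne_zero)
    exact (flexStable_commensurable hG (p.comp K.subtype).range K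
      (MonoidHom.ofInjective hinj).symm).2 hst

end Pool.Agent.FS84
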