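import Pool.Agent.FS84.FinalI

/-!
Flexible stability is invariant under commensurability up to finite kernels, among sofic groups.
-/

set_option autoImplicit false
open Finset

namespace Pool.Agent.FS84

open Pool.Agent.H51K

theorem countable_of_hom {G H : Type} [Group G] [Group H] [Countable G] (p : H →* G)
    [Finite p.ker] : Countable H := by
  have hex : ∀ y : p.range, ∃ u : H, p u = y := fun y => y.2
  choose u hu using hex
  apply Function.Surjective.countable (f := fun x : p.ker × p.range => (x.1 : H) * u x.2)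
  intro h
  refine ⟨(⟨h * (u ⟨p h, h, rfl⟩)⁻¹, ?_⟩, ⟨p h, h, rfl⟩), ?_⟩
  · rw [MonoidHom.mem_ker, map_mul, map_inv, hu, mul_inv_cancel]
  · simp

theorem countable_of_finiteIndex {G : Type} [Group G] (K : Subgroup G) [K.FiniteIndex]
    [Countable K] : Countable G := by
  apply Function.Surjective.countable (f := fun x : (G ⧸ K) × K => x.1.out * (x.2 : G))
  intro g
  refine ⟨((g : G ⧸ K), ⟨((g : G ⧸ K)).out⁻¹ * g, ?_⟩), ?_⟩
  · rw [← QuotientGroup.eq, QuotientGroup.out_eq']
  · simp

/-- THEOREM: commensurability up to finite kernels -/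
theorem flexStable_upToFinite {G₁ G₂ : Type} [Group G₁] [Group G₂] [Countable G₁]
    (hG : HasNear G₁) (K₂ : Subgroup G₂) [K₂.FiniteIndex] (p : K₂ →* G₁) [Finite p.ker]
    [p.range.FiniteIndex] (h : Sofic G₂ ∨ Function.Injective p) :
    (FlexStable G₁ ↔ FlexStable G₂) ∧
      (FlexStable G₁ → ∃ K : Subgroup K₂, K.FiniteIndex ∧ K ⊓ p.ker = ⊥) := by
  have hc : Countable K₂ := countable_of_hom p
  have hc2 : Countable G₂ := countable_of_finiteIndex K₂
  -- commensurable groups
  have hcom : ∀ K : Subgroup K₂, K.FiniteIndex → K ⊓ p.ker = ⊥ →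
      (FlexStable G₁ ↔ FlexStable G₂) := by
    intro K hK hK'
    have hinj : Function.Injective (p.comp K.subtype) := by
      rw [injective_iff_map_eq_one]
      intro x hx
      apply Subtype.ext
      have : (x : K₂) ∈ K ⊓ p.ker := ⟨x.2, hx⟩
      rw [hK'] at this
      exact Subgroup.mem_bot.1 this
    have h1 : (p.comp K.subtype).range.FiniteIndex := by
      have h1 : (p.comp K.subtype).range = K.map p := by
        rw [MonoidHom.range_comp, Subgroup.range_subtype]
      rw [h1]
      constructor
      rw [Subgroup.index_map]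
      have h2 : (K ⊔ p.ker).FiniteIndex := Subgroup.finiteIndex_of_le (le_sup_left (a := K))
      exact mul_ne_zero h2.index_ne_zero (Subgroup.FiniteIndex.index_ne_zero)
    have h2 : (K.map K₂.subtype).FiniteIndex := by
      constructor
      rw [Subgroup.index_map_subtype]
      exact mul_ne_zero hK.index_ne_zero (Subgroup.FiniteIndex.index_ne_zero)
    exact flexStable_commensurable hG (p.comp K.subtype).range (K.map K₂.subtype)
      ((MonoidHom.ofInjective hinj).symm.trans
        (K.equivMapOfInjective K₂.subtype K₂.subtype_injective))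
  have hex : FlexStable G₁ → ∃ K : Subgroup K₂, K.FiniteIndex ∧ K ⊓ p.ker = ⊥ := by
    intro hst
    rcases h with h | h
    · exact sofic_main hG hst p (sofic_subgroup K₂ h)
    · exact ⟨⊤, inferInstance, by rw [top_inf_eq, (MonoidHom.ker_eq_bot_iff p).2 h]⟩
  refine ⟨⟨fun hst => ?_, fun hst => ?_⟩, hex⟩
  · obtain ⟨K, hK, hK'⟩ := hex hst
    exact (hcom K hK hK').1 hst
  · rcases h with h | h
    · have hRF := residuallyFinite_of_sofic h hst
      obtain ⟨K, hK, hK'⟩ := exists_avoid p
      exact (hcom K hK hK').2 hst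
    · exact (hcom ⊤ inferInstance (by rw [top_inf_eq, (MonoidHom.ker_eq_bot_iff p).2 h])).2 hst

end Pool.Agent.FS84
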