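import Mathlib

/-!
Two elements of the factors of an amalgamated product which do not commute, by the normal form
theorem.
-/

set_option autoImplicit false

namespace Pool.Agent.FS84

open Monoid Monoid.PushoutI in
theorem amalgam_ne {G H : Type} [Group G] [Group H] (φ : Bool → H →* G)
    (hφ : ∀ i, Function.Injective (φ i)) {x y : G} (hx : x ∉ (φ true).range)
    (hy : y ∉ (φ false).range) :
    ((of true x : PushoutI (G := fun _ : Bool => G) φ) * of false y : PushoutI φ) ≠
      of false y * of true x := by
  intro h
  have hx1 : x ≠ 1 := by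
    rintro rfl
    exact hx (one_mem _)
  have hy1 : y ≠ 1 := by
    rintro rfl
    exact hy (one_mem _)
  let w : CoprodI.Word (fun _ : Bool => G) :=
    ⟨[⟨true, x⟩, ⟨false, y⟩, ⟨true, x⁻¹⟩, ⟨false, y⁻¹⟩],
      by simp_all, by simp_all⟩
  have hw : Reduced (G := fun _ : Bool => G) φ w := by
    simp only [w, Reduced, List.mem_cons, forall_eq_or_imp, not_false_eq_true, hx, hy,
      List.mem_nil_iff, false_imp_iff, imp_true_iff, and_true, inv_mem_iff]
  have hprod : ofCoprodI w.prod = (1 : PushoutI (G := fun _ : Bool => G) φ) := by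
    simp only [w, CoprodI.Word.prod, List.map_cons, List.prod_cons, List.prod_nil,
      List.map_nil, map_mul, ofCoprodI_of, map_inv, mul_one]
    have e : ∀ a b : PushoutI (G := fun _ : Bool => G) φ, a * b = b * a →
        a * (b * (a⁻¹ * b⁻¹)) = 1 := by
      intro a b hab
      rw [← mul_assoc, hab]
      group
    exact e _ _ h
  have h1 := hw.eq_empty_of_mem_range hφ (by rw [hprod]; exact one_mem _)
  simp [w, CoprodI.Word.empty] at h1

end Pool.Agent.FS84
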