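import Mathlib

/-!
The commensurator subgroups `c ∈ G, g c g⁻¹ ∈ G` for a group `G` embedded in a group `L`, and the
matrices used for the HNN extensions of `SL_k(ℤ)`.
-/

set_option autoImplicit false

namespace Pool.Agent.FS84

section General

variable {G L : Type} [Group G] [Group L]

/-- the subgroup of the `c` in `G` with `g (i c) g⁻¹` in the image of `i` -/
def conjSub (i : G →* L) (g : L) : Subgroup G :=
  (i.range.comap (MulAut.conj g).toMonoidHom).comap i

theorem mem_conjSub {i : G →* L} {g : L} {c : G} :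
    c ∈ conjSub i g ↔ ∃ d, i d = g * i c * g⁻¹ := Iff.rfl

/-- the element `d` with `i d = g (i c) g⁻¹` -/
noncomputable def conjEl (i : G →* L) (g : L) (c : conjSub i g) : G :=
  (mem_conjSub.1 c.2).choose

theorem conjEl_spec (i : G →* L) (g : L) (c : conjSub i g) :
    i (conjEl i g c) = g * i (c : G) * g⁻¹ :=
  (mem_conjSub.1 c.2).choose_spec

/-- conjugation by `g` -/
noncomputable def conjIso (i : G →* L) (hi : Function.Injective i) (g : L) :
    conjSub i g ≃* conjSub i g⁻¹ where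
  toFun c := ⟨conjEl i g c, mem_conjSub.2 ⟨c, by rw [conjEl_spec]; group⟩⟩
  invFun d := ⟨conjEl i g⁻¹ d, mem_conjSub.2 ⟨d, by rw [conjEl_spec]; group⟩⟩
  left_inv c := by
    apply Subtype.ext
    apply hi
    rw [conjEl_spec]
    change g⁻¹ * i (conjEl i g c) * g⁻¹⁻¹ = i (c : G)
    rw [conjEl_spec]
    group
  right_inv d := by
    apply Subtype.ext
    apply hi
    rw [conjEl_spec]
    change g * i (conjEl i g⁻¹ d) * g⁻¹ = i (d : G)
    rw [conjEl_spec]
    group
  map_mul' c d := by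
    apply Subtype.ext
    apply hi
    change i (conjEl i g (c * d)) = i (conjEl i g c * conjEl i g d)
    rw [map_mul, conjEl_spec, conjEl_spec, conjEl_spec]
    change g * i ((c : G) * (d : G)) * g⁻¹ = _
    rw [map_mul]
    group

theorem conjIso_spec (i : G →* L) (hi : Function.Injective i) (g : L) (c : conjSub i g) :
    i (conjIso i hi g c : G) = g * i (c : G) * g⁻¹ :=
  conjEl_spec i g c

end General

/-! ### The special linear groups -/

/-- the inclusion of `SL_k(ℤ)` in `SL_k(ℚ)` -/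
def slQ (k : ℕ) : Matrix.SpecialLinearGroup (Fin k) ℤ →* Matrix.SpecialLinearGroup (Fin k) ℚ :=
  Matrix.SpecialLinearGroup.map (Int.castRingHom ℚ)

theorem slQ_apply (k : ℕ) (c : Matrix.SpecialLinearGroup (Fin k) ℤ) (i j : Fin k) :
    (slQ k c : Matrix (Fin k) (Fin k) ℚ) i j = ((c : Matrix (Fin k) (Fin k) ℤ) i j : ℚ) := rfl

theorem slQ_injective (k : ℕ) : Function.Injective (slQ k) := by
  intro c d h
  apply Subtype.ext
  ext i j
  have h1 := congrArg (fun x : Matrix.SpecialLinearGroup (Fin k) ℚ =>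
    (x : Matrix (Fin k) (Fin k) ℚ) i j) h
  exact Int.cast_injective (α := ℚ) h1

/-- the diagonal `(p, 1/p, 1, …, 1)` -/
def dg (n p : ℕ) : Fin (n + 3) → ℚ :=
  Fin.cons (p : ℚ) (Fin.cons ((p : ℚ)⁻¹) (fun _ => 1))

theorem dg_zero (n p : ℕ) : dg n p 0 = p := rfl

theorem dg_one (n p : ℕ) : dg n p 1 = (p : ℚ)⁻¹ := rfl

theorem dg_two (n p : ℕ) : dg n p 2 = 1 := rfl

theorem dg_prod (n p : ℕ) (hp : p ≠ 0) : ∏ i, dg n p i = 1 := by
  have hp' : (p : ℚ) ≠ 0 := by exact_mod_cast hp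
  rw [Fin.prod_univ_succ, Fin.prod_univ_succ]
  unfold dg
  simp only [Fin.cons_zero, Fin.cons_succ, Finset.prod_const_one, mul_one]
  exact mul_inv_cancel₀ hp'

/-- the matrix `diag (p, 1/p, 1, …, 1)` in `SL_(n+3)(ℚ)` -/
def gEl (n p : ℕ) [NeZero p] : Matrix.SpecialLinearGroup (Fin (n + 3)) ℚ :=
  ⟨Matrix.diagonal (dg n p), by
    rw [Matrix.det_diagonal]
    exact dg_prod n p (NeZero.ne p)⟩

theorem dg_cases (n p : ℕ) (i : Fin (n + 3)) :
    dg n p i = p ∨ dg n p i = (p : ℚ)⁻¹ ∨ dg n p i = 1 := by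
  induction i using Fin.cases with
  | zero => left; rfl
  | succ i =>
    induction i using Fin.cases with
    | zero => right; left; rfl
    | succ i => right; right; rfl

theorem dg_ne_zero (n p : ℕ) (hp : p ≠ 0) (i : Fin (n + 3)) : dg n p i ≠ 0 := by
  have hp' : (p : ℚ) ≠ 0 := by exact_mod_cast hp
  rcases dg_cases n p i with h | h | h <;> rw [h]
  · exact hp'
  · exact inv_ne_zero hp'
  · exact one_ne_zero

/-- `p² (g_i / g_j)` is an integer -/
theorem dg_int (n p : ℕ) (hp : p ≠ 0) (i j : Fin (n + 3)) :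
    ∃ z : ℤ, (z : ℚ) = dg n p i * (p : ℚ) ^ 2 / dg n p j := by
  have hp' : (p : ℚ) ≠ 0 := by exact_mod_cast hp
  rcases dg_cases n p i with h | h | h <;> rcases dg_cases n p j with h' | h' | h' <;> rw [h, h']
  · exact ⟨(p : ℤ) ^ 2, by push_cast; field_simp⟩
  · exact ⟨(p : ℤ) ^ 4, by push_cast; field_simp⟩
  · exact ⟨(p : ℤ) ^ 3, by push_cast; field_simp⟩
  · exact ⟨1, by push_cast; field_simp⟩
  · exact ⟨(p : ℤ) ^ 2, by push_cast; field_simp⟩
  · exact ⟨(p : ℤ), by push_cast; field_simp⟩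
  · exact ⟨(p : ℤ), by push_cast; field_simp⟩
  · exact ⟨(p : ℤ) ^ 3, by push_cast; field_simp⟩
  · exact ⟨(p : ℤ) ^ 2, by push_cast; field_simp⟩

section Fix

variable (n p : ℕ) [NeZero p]

theorem conj_entry (x y : Matrix.SpecialLinearGroup (Fin (n + 3)) ℚ)
    (h : x = gEl n p * y * (gEl n p)⁻¹) (i j : Fin (n + 3)) :
    (x : Matrix (Fin (n + 3)) (Fin (n + 3)) ℚ) i j =
      dg n p i * (y : Matrix (Fin (n + 3)) (Fin (n + 3)) ℚ) i j / dg n p j := by
  have h1 : x * gEl n p = gEl n p * y := by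
    rw [h]
    group
  have h2 := congrArg (fun z : Matrix.SpecialLinearGroup (Fin (n + 3)) ℚ =>
    (z : Matrix (Fin (n + 3)) (Fin (n + 3)) ℚ) i j) h1
  have h3 : (x : Matrix (Fin (n + 3)) (Fin (n + 3)) ℚ) i j * dg n p j =
      dg n p i * (y : Matrix (Fin (n + 3)) (Fin (n + 3)) ℚ) i j := by
    have h4 : ((x * gEl n p : Matrix.SpecialLinearGroup (Fin (n + 3)) ℚ) :
        Matrix (Fin (n + 3)) (Fin (n + 3)) ℚ) i j =
        (x : Matrix (Fin (n + 3)) (Fin (n + 3)) ℚ) i j * dg n p j := by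
      rw [Matrix.SpecialLinearGroup.coe_mul]
      exact Matrix.mul_diagonal _ _ _ _
    have h5 : ((gEl n p * y : Matrix.SpecialLinearGroup (Fin (n + 3)) ℚ) :
        Matrix (Fin (n + 3)) (Fin (n + 3)) ℚ) i j =
        dg n p i * (y : Matrix (Fin (n + 3)) (Fin (n + 3)) ℚ) i j := by
      rw [Matrix.SpecialLinearGroup.coe_mul]
      exact Matrix.diagonal_mul _ _ _ _
    rw [← h4, ← h5]
    exact h2
  rw [eq_div_iff (dg_ne_zero n p (NeZero.ne p) j)]
  exact h3

theorem exists_slQ {k : ℕ} (x : Matrix.SpecialLinearGroup (Fin k) ℚ)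
    (h : ∀ i j, ∃ z : ℤ, (z : ℚ) = (x : Matrix (Fin k) (Fin k) ℚ) i j) :
    ∃ d, slQ k d = x := by
  choose z hz using h
  have hdet : (Matrix.of z).det = 1 := by
    have h1 : (((Matrix.of z).det : ℤ) : ℚ) = 1 := by
      have h2 := (Int.castRingHom ℚ).map_det (Matrix.of z)
      have h3 : (Int.castRingHom ℚ).mapMatrix (Matrix.of z) =
          (x : Matrix (Fin k) (Fin k) ℚ) := by
        ext i j
        exact hz i j
      rw [h3, x.2] at h2
      exact h2
    exact_mod_cast h1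
  refine ⟨⟨Matrix.of z, hdet⟩, ?_⟩
  apply Subtype.ext
  ext i j
  exact hz i j

theorem conjSub_finiteIndex : (conjSub (slQ (n + 3)) (gEl n p)).FiniteIndex := by
  have hp0 : p ≠ 0 := NeZero.ne p
  have : NeZero (p ^ 2) := ⟨pow_ne_zero 2 hp0⟩
  have hfin : Finite (Matrix.SpecialLinearGroup (Fin (n + 3)) (ZMod (p ^ 2))) := by
    unfold Matrix.SpecialLinearGroup Matrix
    infer_instance
  let q : Matrix.SpecialLinearGroup (Fin (n + 3)) ℤ →*
      Matrix.SpecialLinearGroup (Fin (n + 3)) (ZMod (p ^ 2)) :=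
    Matrix.SpecialLinearGroup.map (Int.castRingHom (ZMod (p ^ 2)))
  have hle : q.ker ≤ conjSub (slQ (n + 3)) (gEl n p) := by
    intro c hc
    rw [MonoidHom.mem_ker] at hc
    rw [mem_conjSub]
    apply exists_slQ
    intro i j
    rw [conj_entry n p _ _ rfl i j, slQ_apply]
    have h1 : ((c : Matrix (Fin (n + 3)) (Fin (n + 3)) ℤ) i j : ZMod (p ^ 2)) =
        (1 : Matrix (Fin (n + 3)) (Fin (n + 3)) (ZMod (p ^ 2))) i j := by
      have h2 := congrArg (fun b : Matrix.SpecialLinearGroup (Fin (n + 3)) (ZMod (p ^ 2)) =>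
        (b : Matrix (Fin (n + 3)) (Fin (n + 3)) (ZMod (p ^ 2))) i j) hc
      exact h2
    by_cases hij : i = j
    · subst hij
      refine ⟨(c : Matrix (Fin (n + 3)) (Fin (n + 3)) ℤ) i i, ?_⟩
      rw [mul_div_assoc, mul_comm, div_mul_cancel₀ _ (dg_ne_zero n p hp0 i)]
    · rw [Matrix.one_apply_ne hij, ZMod.intCast_zmod_eq_zero_iff_dvd] at h1
      obtain ⟨m, hm⟩ := h1
      obtain ⟨z, hz⟩ := dg_int n p hp0 i j
      refine ⟨z * m, ?_⟩
      rw [hm]
      push_cast
      rw [hz]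
      ring
  have hker : q.ker.FiniteIndex := Subgroup.finiteIndex_ker q
  exact Subgroup.finiteIndex_of_le hle

end Fix

/-- elementary matrix in the special linear group -/
def tv {R : Type} [CommRing R] {k : ℕ} (i j : Fin k) (h : i ≠ j) (c : R) :
    Matrix.SpecialLinearGroup (Fin k) R :=
  ⟨Matrix.transvection i j c, Matrix.det_transvection_of_ne i j h c⟩

theorem tv_pow {R : Type} [CommRing R] {k : ℕ} (i j : Fin k) (h : i ≠ j) (c : R) (m : ℕ) :
    tv i j h c ^ m = tv i j h (m * c) := by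
  induction m with
  | zero =>
    apply Subtype.ext
    rw [pow_zero, Matrix.SpecialLinearGroup.coe_one]
    change (1 : Matrix (Fin k) (Fin k) R) = Matrix.transvection i j (((0 : ℕ) : R) * c)
    rw [Nat.cast_zero, zero_mul, Matrix.transvection_zero]
  | succ m ih =>
    rw [pow_succ, ih]
    apply Subtype.ext
    rw [Matrix.SpecialLinearGroup.coe_mul]
    change Matrix.transvection i j ((m : R) * c) * Matrix.transvection i j c =
      Matrix.transvection i j (((m + 1 : ℕ) : R) * c)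
    rw [Matrix.transvection_mul_transvection_same _ _ h]
    congr 1
    push_cast
    ring

theorem slQ_tv (k : ℕ) (i j : Fin k) (h : i ≠ j) (c : ℤ) :
    slQ k (tv i j h c) = tv i j h (c : ℚ) := by
  apply Subtype.ext
  ext a b
  rw [slQ_apply]
  change ((Matrix.transvection i j c a b : ℤ) : ℚ) = Matrix.transvection i j (c : ℚ) a b
  unfold Matrix.transvection
  rw [Matrix.add_apply, Matrix.add_apply, Matrix.one_apply, Matrix.one_apply, Matrix.single_apply,
    Matrix.single_apply]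
  push_cast
  split_ifs <;> simp

theorem gEl_tv (n p : ℕ) [NeZero p] (i j : Fin (n + 3)) (h : i ≠ j) (c : ℚ) :
    gEl n p * tv i j h c * (gEl n p)⁻¹ = tv i j h (dg n p i * c / dg n p j) := by
  apply Subtype.ext
  ext a b
  rw [conj_entry n p _ _ rfl a b]
  have h0 := dg_ne_zero n p (NeZero.ne p)
  change dg n p a * Matrix.transvection i j c a b / dg n p b =
    Matrix.transvection i j (dg n p i * c / dg n p j) a b
  unfold Matrix.transvection
  rw [Matrix.add_apply, Matrix.add_apply, Matrix.one_apply, Matrix.single_apply,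
    Matrix.single_apply]
  by_cases hab : a = b
  · subst hab
    have h1 : ¬ (i = a ∧ j = a) := fun h2 => h (h2.1.trans h2.2.symm)
    rw [if_pos rfl, if_neg h1, if_neg h1, add_zero, mul_one, div_self (h0 a)]
  · rw [if_neg hab]
    by_cases h1 : i = a ∧ j = b
    · rw [if_pos h1, if_pos h1, zero_add, zero_add, h1.1, h1.2]
    · rw [if_neg h1, if_neg h1, add_zero, mul_zero, zero_div]

theorem gEl_inv_tv (n p : ℕ) [NeZero p] (i j : Fin (n + 3)) (h : i ≠ j) (c : ℚ) :
    (gEl n p)⁻¹ * tv i j h c * (gEl n p)⁻¹⁻¹ = tv i j h (dg n p j * c / dg n p i) := by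
  have h0 := dg_ne_zero n p (NeZero.ne p)
  have h1 := gEl_tv n p i j h (dg n p j * c / dg n p i)
  have h2 : dg n p i * (dg n p j * c / dg n p i) / dg n p j = c := by
    have h3 := h0 i
    have h4 := h0 j
    field_simp
  rw [h2] at h1
  rw [← h1]
  group

theorem tv_comm_of {R : Type} [CommRing R] {k : ℕ} (i j i' j' : Fin k) (h : i ≠ j) (h' : i' ≠ j')
    (h1 : j ≠ i') (h2 : j' ≠ i) (c c' : R) :
    tv i j h c * tv i' j' h' c' = tv i' j' h' c' * tv i j h c := by
  apply Subtype.ext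
  rw [Matrix.SpecialLinearGroup.coe_mul, Matrix.SpecialLinearGroup.coe_mul]
  change Matrix.transvection i j c * Matrix.transvection i' j' c' =
    Matrix.transvection i' j' c' * Matrix.transvection i j c
  unfold Matrix.transvection
  simp only [mul_add, add_mul, one_mul, mul_one, Matrix.single_mul_single_of_ne _ _ _ _ h1,
    Matrix.single_mul_single_of_ne _ _ _ _ h2, add_zero]
  abel

theorem tv_twist {R : Type} [CommRing R] {k : ℕ} (i j l : Fin k) (hij : i ≠ j) (hjl : j ≠ l)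
    (hil : i ≠ l) :
    tv i j hij (1 : R) * tv j l hjl 1 = tv i l hil 1 * tv j l hjl 1 * tv i j hij 1 := by
  apply Subtype.ext
  rw [Matrix.SpecialLinearGroup.coe_mul, Matrix.SpecialLinearGroup.coe_mul,
    Matrix.SpecialLinearGroup.coe_mul]
  change Matrix.transvection i j (1 : R) * Matrix.transvection j l 1 =
    Matrix.transvection i l 1 * Matrix.transvection j l 1 * Matrix.transvection i j 1
  unfold Matrix.transvection
  simp only [mul_add, add_mul, one_mul, mul_one, Matrix.single_mul_single_same,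
    Matrix.single_mul_single_of_ne _ _ _ _ hil.symm,
    Matrix.single_mul_single_of_ne _ _ _ _ hjl.symm, add_zero]
  abel

section Data

variable (n p : ℕ)

theorem ne01 : (0 : Fin (n + 3)) ≠ 1 := by
  intro h
  have h1 := congrArg Fin.val h
  simp at h1

theorem ne02 : (0 : Fin (n + 3)) ≠ 2 := by
  intro h
  have h1 := congrArg Fin.val h
  change 0 = 2 % (n + 3) at h1
  rw [Nat.mod_eq_of_lt (by omega)] at h1
  omega

theorem ne12 : (1 : Fin (n + 3)) ≠ 2 := by
  intro h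
  have h1 := congrArg Fin.val h
  change 1 % (n + 3) = 2 % (n + 3) at h1
  rw [Nat.mod_eq_of_lt (by omega), Nat.mod_eq_of_lt (by omega)] at h1
  omega

/-- `1 / p` is not an integer entry -/
theorem tv_not_int {k : ℕ} (i j : Fin k) (h : i ≠ j) (hp : 2 ≤ p)
    (d : Matrix.SpecialLinearGroup (Fin k) ℤ) : slQ k d ≠ tv i j h ((p : ℚ)⁻¹) := by
  intro h1
  have h2 := congrArg (fun x : Matrix.SpecialLinearGroup (Fin k) ℚ =>
    (x : Matrix (Fin k) (Fin k) ℚ) i j) h1
  have h3 : (((d : Matrix (Fin k) (Fin k) ℤ) i j : ℤ) : ℚ) =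
      Matrix.transvection i j ((p : ℚ)⁻¹) i j := h2
  unfold Matrix.transvection at h3
  rw [Matrix.add_apply, Matrix.one_apply_ne h, Matrix.single_apply_same, zero_add] at h3
  have hp0 : (p : ℚ) ≠ 0 := by
    have : p ≠ 0 := by omega
    exact_mod_cast this
  have h4 : (((d : Matrix (Fin k) (Fin k) ℤ) i j * (p : ℤ) : ℤ) : ℚ) = 1 := by
    push_cast
    rw [h3]
    exact inv_mul_cancel₀ hp0
  have h5 : (d : Matrix (Fin k) (Fin k) ℤ) i j * (p : ℤ) = 1 := by exact_mod_cast h4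
  have h6 : (p : ℤ) ∣ 1 := ⟨_, by rw [mul_comm]; exact h5.symm⟩
  have h7 := Int.le_of_dvd one_pos h6
  omega

theorem sl_data (hp : 2 ≤ p) [NeZero p] :
    (conjSub (slQ (n + 3)) (gEl n p)).FiniteIndex ∧
    ∃ (al be k1 k2 : Matrix.SpecialLinearGroup (Fin (n + 3)) ℤ)
      (a b : conjSub (slQ (n + 3)) (gEl n p)),
      (a : Matrix.SpecialLinearGroup (Fin (n + 3)) ℤ) = al ∧
      (conjIso (slQ (n + 3)) (slQ_injective (n + 3)) (gEl n p) a :
        Matrix.SpecialLinearGroup (Fin (n + 3)) ℤ) = al ^ p ∧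
      (b : Matrix.SpecialLinearGroup (Fin (n + 3)) ℤ) = be ^ p ∧
      (conjIso (slQ (n + 3)) (slQ_injective (n + 3)) (gEl n p) b :
        Matrix.SpecialLinearGroup (Fin (n + 3)) ℤ) = be ∧
      al * be = be * al ∧ k1 * al = al * be * k1 ∧ k1 * be = be * k1 ∧
      k2 * be = al * be * k2 ∧ k2 * al = al * k2 ∧
      al ∉ conjSub (slQ (n + 3)) (gEl n p)⁻¹ ∧ be ∉ conjSub (slQ (n + 3)) (gEl n p) := by
  have hp0 : (p : ℚ) ≠ 0 := by exact_mod_cast (NeZero.ne p)
  have hal : slQ (n + 3) (tv 0 2 (ne02 n) (1 : ℤ) ^ p) =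
      gEl n p * slQ (n + 3) (tv 0 2 (ne02 n) (1 : ℤ)) * (gEl n p)⁻¹ := by
    rw [tv_pow, slQ_tv, slQ_tv, gEl_tv, dg_zero, dg_two]
    congr 1
    push_cast
    ring
  have hbe : slQ (n + 3) (tv 1 2 (ne12 n) (1 : ℤ)) =
      gEl n p * slQ (n + 3) (tv 1 2 (ne12 n) (1 : ℤ) ^ p) * (gEl n p)⁻¹ := by
    rw [tv_pow, slQ_tv, slQ_tv, gEl_tv, dg_one, dg_two]
    congr 1
    push_cast
    rw [mul_one, inv_mul_cancel₀ hp0, div_one]
  refine ⟨conjSub_finiteIndex n p, tv 0 2 (ne02 n) 1, tv 1 2 (ne12 n) 1, tv 1 0 (ne01 n).symm 1,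
    tv 0 1 (ne01 n) 1, ⟨_, mem_conjSub.2 ⟨_, hal⟩⟩, ⟨_, mem_conjSub.2 ⟨_, hbe⟩⟩, rfl, ?_, rfl, ?_,
    ?_, ?_, ?_, ?_, ?_, ?_, ?_⟩
  · apply slQ_injective
    rw [conjIso_spec]
    exact hal.symm
  · apply slQ_injective
    rw [conjIso_spec]
    exact hbe.symm
  · exact tv_comm_of _ _ _ _ _ _ (ne12 n).symm (ne02 n).symm _ _
  · rw [tv_twist 1 0 2 (ne01 n).symm (ne02 n) (ne12 n)]
    rw [tv_comm_of 0 2 1 2 (ne02 n) (ne12 n) (ne12 n).symm (ne02 n).symm]
  · exact tv_comm_of _ _ _ _ _ _ (ne01 n) (ne12 n).symm _ _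
  · exact tv_twist 0 1 2 (ne01 n) (ne12 n) (ne02 n)
  · exact tv_comm_of _ _ _ _ _ _ (ne01 n).symm (ne02 n).symm _ _
  · intro h
    obtain ⟨d, hd⟩ := mem_conjSub.1 h
    rw [slQ_tv, gEl_inv_tv, dg_zero, dg_two] at hd
    apply tv_not_int p 0 2 (ne02 n) hp d
    rw [hd]
    congr 1
    push_cast
    rw [mul_one, one_div]
  · intro h
    obtain ⟨d, hd⟩ := mem_conjSub.1 h
    rw [slQ_tv, gEl_tv, dg_one, dg_two] at hd
    apply tv_not_int p 1 2 (ne12 n) hp d
    rw [hd]
    congr 1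
    push_cast
    rw [mul_one, div_one]

end Data

end Pool.Agent.FS84
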