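import Pool.Agent.FS84.HNF
import Pool.Agent.FS84.HNA
import Pool.Agent.FS84.HNM

/-!
Amalgamated products of two copies of `SL_k(ℤ)` which are not sofic if `SL_k(ℤ)` is flexibly
stable.
-/

set_option autoImplicit false

namespace Pool.Agent.FS84

/-- the group `A` of the `c ∈ SL_k(ℤ)` with `g c g⁻¹ ∈ SL_k(ℤ)`, `g = diag (p, 1/p, 1, …, 1)`,
`k = n + 3` -/
abbrev conjA (n p : ℕ) [NeZero p] : Subgroup (Matrix.SpecialLinearGroup (Fin (n + 3)) ℤ) :=
  conjSub (slQ (n + 3)) (gEl n p)

/-- the homomorphism `c ↦ g c g⁻¹` from `A` to `SL_k(ℤ)` -/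
noncomputable def conjHom (n p : ℕ) [NeZero p] :
    conjA n p →* Matrix.SpecialLinearGroup (Fin (n + 3)) ℤ :=
  (conjSub (slQ (n + 3)) (gEl n p)⁻¹).subtype.comp
    (conjIso (slQ (n + 3)) (slQ_injective (n + 3)) (gEl n p)).toMonoidHom

/-- the two homomorphisms `c ↦ c` (index `false`) and `c ↦ g c g⁻¹` (index `true`) -/
noncomputable def twoMaps (n p : ℕ) [NeZero p] :
    Bool → (conjA n p →* Matrix.SpecialLinearGroup (Fin (n + 3)) ℤ)
  | false => (conjA n p).subtype
  | true => conjHom n p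

/-- the amalgamated product `SL_k(ℤ) *_A SL_k(ℤ)` of two copies of `SL_k(ℤ)`, `k = n + 3`, in which
`c ∈ A` in the first copy is `g c g⁻¹` in the second copy -/
abbrev Amalgam (n p : ℕ) [NeZero p] : Type :=
  Monoid.PushoutI (G := fun _ : Bool => Matrix.SpecialLinearGroup (Fin (n + 3)) ℤ) (twoMaps n p)

/-- the two copies of `SL_k(ℤ)` in the amalgam -/
noncomputable def amalgIncl (n p : ℕ) [NeZero p] (i : Bool) :
    Matrix.SpecialLinearGroup (Fin (n + 3)) ℤ →* Amalgam n p :=
  Monoid.PushoutI.of (G := fun _ : Bool => Matrix.SpecialLinearGroup (Fin (n + 3)) ℤ) i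

theorem conjHom_injective (n p : ℕ) [NeZero p] : Function.Injective (conjHom n p) :=
  (Subgroup.subtype_injective _).comp (MulEquiv.injective _)

theorem conjHom_range (n p : ℕ) [NeZero p] :
    (conjHom n p).range = conjSub (slQ (n + 3)) (gEl n p)⁻¹ := by
  ext x
  constructor
  · rintro ⟨c, rfl⟩
    exact (conjIso (slQ (n + 3)) (slQ_injective (n + 3)) (gEl n p) c).2
  · intro hx
    refine ⟨(conjIso (slQ (n + 3)) (slQ_injective (n + 3)) (gEl n p)).symm ⟨x, hx⟩, ?_⟩
    change ((conjIso (slQ (n + 3)) (slQ_injective (n + 3)) (gEl n p)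
      ((conjIso (slQ (n + 3)) (slQ_injective (n + 3)) (gEl n p)).symm ⟨x, hx⟩) :
        conjSub (slQ (n + 3)) (gEl n p)⁻¹) : Matrix.SpecialLinearGroup (Fin (n + 3)) ℤ) = x
    rw [MulEquiv.apply_symm_apply]

/-- the amalgam is not sofic -/
theorem amalgam_not_sofic (n p : ℕ) [NeZero p] (hp : 2 ≤ p)
    (hG : HasNear (Matrix.SpecialLinearGroup (Fin (n + 3)) ℤ))
    (hst : FlexStable (Matrix.SpecialLinearGroup (Fin (n + 3)) ℤ)) : ¬ Sofic (Amalgam n p) := by
  intro hs
  obtain ⟨hfi, al, be, k1, k2, a, b, ha, hφa, hb, hφb, hab, h1a, h1b, h2b, h2a, hal, hbe⟩ :=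
    sl_data n p hp
  have hcount : Countable (Matrix.SpecialLinearGroup (Fin (n + 3)) ℤ) := by
    unfold Matrix.SpecialLinearGroup Matrix
    infer_instance
  have h1 := commute_of_sofic hG hst (conjA n p) (conjHom n p) hp hab h1a h1b h2b h2a a b ha hφa hb
    hφb hs (amalgIncl n p false) (amalgIncl n p true) (by
      intro c
      exact (Monoid.PushoutI.of_apply_eq_base
        (G := fun _ : Bool => Matrix.SpecialLinearGroup (Fin (n + 3)) ℤ) (twoMaps n p)
          false c).trans (Monoid.PushoutI.of_apply_eq_base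
        (G := fun _ : Bool => Matrix.SpecialLinearGroup (Fin (n + 3)) ℤ) (twoMaps n p)
          true c).symm)
  refine amalgam_ne (twoMaps n p) ?_ ?_ ?_ h1
  · intro i
    cases i
    · exact Subgroup.subtype_injective _
    · exact conjHom_injective n p
  · change al ∉ (conjHom n p).range
    rw [conjHom_range]
    exact hal
  · change be ∉ (conjA n p).subtype.range
    rw [Subgroup.range_subtype]
    exact hbe

end Pool.Agent.FS84
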