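import Pool.Agent.FS84.FinalH

/-!
Flexibly stable Kazhdan groups: sofic central extensions of subgroups of finite index which almost
split; `SL_k(ℤ)` is residually finite.
-/

set_option autoImplicit false
open Finset

namespace Pool.Agent.FS84

open Pool.Agent.H51K

variable {G : Type} [Group G]

/-- THEOREM S -/
theorem split_small [Countable G] (hG : HasNear G) (hst : FlexStable G) (A : Type) [CommGroup A]
    [Finite A] :
    ∃ (E : Finset G) (δ : ℝ), 0 < δ ∧ ∀ (Γ : Subgroup G), Γ.FiniteIndex →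
      ∀ (H : Type) [Group H] (i : A →* H) (p : H →* Γ), Function.Injective i →
        Function.Surjective p → i.range = p.ker → (∀ t h, i t * h = h * i t) → Sofic H →
        ∀ (r : G ⧸ Γ → G), (∀ y, ((r y : G) : G ⧸ Γ) = y) → ∀ σ : G → G ⧸ Γ → H,
          (∀ g y, ((p (σ g y) : Γ) : G) = (r (g • y))⁻¹ * g * r y) →
          (∀ g ∈ E, ∀ h ∈ E,
            ({y | σ g (h • y) * σ h y ≠ σ (g * h) y}.ncard : ℝ) ≤ δ * Γ.index) →
          ∃ s : Γ →* H, ∀ γ, p (s γ) = γ := by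
  classical
  obtain ⟨E, δ, hδ, hsm⟩ := small_cocycles hG hst A
  refine ⟨E, δ, hδ, ?_⟩
  intro Γ hΓ H _ i p hi hp hker hcen hH r hr σ hσp hsmall
  obtain ⟨a, hσ⟩ := exists_cocycle i p hker r σ hσp
  have hres := resTriv_of_sofic hG hst i hi hcen σ a hσ hH
  have : Fintype (G ⧸ Γ) := Fintype.ofFinite _
  obtain ⟨c, hc⟩ := hsm (G ⧸ Γ) (cosetAct Γ) a (cosetAct_trans Γ) hres (by
    intro g hg h hh
    have h1 := hsmall g hg h hh
    have h2 : {y | a g h y ≠ 1} = {y | σ g (h • y) * σ h y ≠ σ (g * h) y} := by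
      ext y
      exact cocycle_ne_one_iff i hi σ a hσ g h y
    rw [h2, ← Nat.card_eq_fintype_card]
    exact h1)
  exact split_of_cob i p hp hker hcen r hr σ hσp a hσ c hc

theorem sl_residuallyFinite (k : ℕ) :
    Group.ResiduallyFinite (Matrix.SpecialLinearGroup (Fin k) ℤ) := by
  apply Group.residuallyFinite_of_forall_exists_finite_monoidHom.{0}
  intro g hg
  obtain ⟨i, j, hij⟩ : ∃ i j, (g : Matrix (Fin k) (Fin k) ℤ) i j ≠
      (1 : Matrix (Fin k) (Fin k) ℤ) i j := by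
    by_contra hc
    push Not at hc
    apply hg
    apply Subtype.ext
    ext i j
    exact hc i j
  obtain ⟨d, hd⟩ : ∃ d : ℤ, d = (g : Matrix (Fin k) (Fin k) ℤ) i j -
      (1 : Matrix (Fin k) (Fin k) ℤ) i j := ⟨_, rfl⟩
  have hd0 : d ≠ 0 := by
    rw [hd]
    exact sub_ne_zero.2 hij
  obtain ⟨m, hm⟩ : ∃ m : ℕ, m = d.natAbs + 1 := ⟨_, rfl⟩
  have : NeZero m := ⟨by omega⟩
  have hfin : Finite (Matrix.SpecialLinearGroup (Fin k) (ZMod m)) := by
    unfold Matrix.SpecialLinearGroup Matrix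
    infer_instance
  refine ⟨Matrix.SpecialLinearGroup (Fin k) (ZMod m), inferInstance, hfin,
    Matrix.SpecialLinearGroup.map (Int.castRingHom (ZMod m)), ?_⟩
  intro h1
  have h2 : ((g : Matrix (Fin k) (Fin k) ℤ) i j : ZMod m) =
      ((1 : Matrix (Fin k) (Fin k) ℤ) i j : ℤ) := by
    have h3 := congrArg (fun b : Matrix.SpecialLinearGroup (Fin k) (ZMod m) =>
      (b : Matrix (Fin k) (Fin k) (ZMod m)) i j) h1
    have h4 : ((1 : Matrix (Fin k) (Fin k) ℤ) i j : ZMod m) =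
        (1 : Matrix (Fin k) (Fin k) (ZMod m)) i j := by
      rw [Matrix.one_apply, Matrix.one_apply]
      split_ifs <;> simp
    rw [h4]
    exact h3
  have h3 : (d : ZMod m) = 0 := by
    rw [hd, Int.cast_sub]
    exact sub_eq_zero.2 h2
  rw [ZMod.intCast_zmod_eq_zero_iff_dvd] at h3
  have h4 := Int.natAbs_dvd_natAbs.2 h3
  have h5 := Nat.le_of_dvd (Int.natAbs_pos.2 hd0) h4
  rw [Int.natAbs_natCast] at h5
  omega

end Pool.Agent.FS84
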