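import Pool.Agent.FS84.ResT

/-!
Central extensions of subgroups of finite index, and cochains on the coset space.
-/

set_option autoImplicit false
open Finset

namespace Pool.Agent.FS84

variable {G : Type} [Group G]

/-- the action on the cosets -/
def cosetAct (Γ : Subgroup G) : G →* Equiv.Perm (G ⧸ Γ) := MulAction.toPermHom G (G ⧸ Γ)

theorem cosetAct_apply (Γ : Subgroup G) (g : G) (y : G ⧸ Γ) : cosetAct Γ g y = g • y := rfl

theorem cosetAct_trans (Γ : Subgroup G) : Trans (cosetAct Γ) := by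
  intro x y
  obtain ⟨g, hg⟩ := MulAction.exists_smul_eq G x y
  exact ⟨g, hg⟩

section ext

variable {Γ : Subgroup G} {A H : Type} [CommGroup A] [Group H] (i : A →* H) (p : H →* Γ)

theorem rep_mem (r : G ⧸ Γ → G) (hr : ∀ y, ((r y : G) : G ⧸ Γ) = y) (g : G) (y : G ⧸ Γ) :
    (r (g • y))⁻¹ * g * r y ∈ Γ := by
  rw [mul_assoc, ← QuotientGroup.eq, hr]
  conv_lhs => rw [← hr y]
  rfl

theorem exists_sigma (hp : Function.Surjective p) (r : G ⧸ Γ → G)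
    (hr : ∀ y, ((r y : G) : G ⧸ Γ) = y) :
    ∃ σ : G → G ⧸ Γ → H, ∀ g y, ((p (σ g y) : Γ) : G) = (r (g • y))⁻¹ * g * r y := by
  have h : ∀ g y, ∃ x : H, ((p x : Γ) : G) = (r (g • y))⁻¹ * g * r y := by
    intro g y
    obtain ⟨x, hx⟩ := hp ⟨_, rep_mem r hr g y⟩
    exact ⟨x, by rw [hx]⟩
  choose σ hσ using h
  exact ⟨σ, hσ⟩

theorem exists_cocycle (hker : i.range = p.ker) (r : G ⧸ Γ → G) (σ : G → G ⧸ Γ → H)
    (hσp : ∀ g y, ((p (σ g y) : Γ) : G) = (r (g • y))⁻¹ * g * r y) :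
    ∃ a : G → G → G ⧸ Γ → A, ∀ g h y, σ g (h • y) * σ h y = i (a g h y) * σ (g * h) y := by
  have hex : ∀ g h y, ∃ t, σ g (h • y) * σ h y = i t * σ (g * h) y := by
    intro g h y
    have h1 : σ g (h • y) * σ h y * (σ (g * h) y)⁻¹ ∈ p.ker := by
      rw [MonoidHom.mem_ker, map_mul, map_mul, map_inv, mul_inv_eq_one]
      apply Subtype.ext
      rw [Subgroup.coe_mul, hσp, hσp, hσp, mul_smul]
      group
    rw [← hker] at h1
    obtain ⟨t, ht⟩ := h1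
    exact ⟨t, by rw [ht, inv_mul_cancel_right]⟩
  choose a ha using hex
  exact ⟨a, ha⟩

theorem cocycle_ne_one_iff (hi : Function.Injective i) (σ : G → G ⧸ Γ → H)
    (a : G → G → G ⧸ Γ → A) (hσ : ∀ g h y, σ g (h • y) * σ h y = i (a g h y) * σ (g * h) y)
    (g h : G) (y : G ⧸ Γ) : a g h y ≠ 1 ↔ σ g (h • y) * σ h y ≠ σ (g * h) y := by
  rw [not_iff_not, hσ, mul_eq_right, ← i.map_one, hi.eq_iff]

/-- a coboundary gives a splitting -/
theorem split_of {Y' : Type} (hp : Function.Surjective p) (hker : i.range = p.ker)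
    (hcen : ∀ t h, i t * h = h * i t) (r : G ⧸ Γ → G) (hr : ∀ y, ((r y : G) : G ⧸ Γ) = y)
    (σ : G → G ⧸ Γ → H)
    (hσp : ∀ g y, ((p (σ g y) : Γ) : G) = (r (g • y))⁻¹ * g * r y)
    (a : G → G → G ⧸ Γ → A) (hσ : ∀ g h y, σ g (h • y) * σ h y = i (a g h y) * σ (g * h) y)
    (τ' : G →* Equiv.Perm Y') (π : Y' → G ⧸ Γ) (c' : G → Y' → A)
    (hc' : ∀ g h y, a g h (π y) = dc τ' c' g h y) (y0 : Y')
    (hy0 : π y0 = ((1 : G) : G ⧸ Γ)) (Γ' : Subgroup Γ)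
    (hΓ' : ∀ γ ∈ Γ', τ' ((γ : Γ) : G) y0 = y0) :
    ∃ s : Γ' →* H, ∀ γ, p (s γ) = γ := by
  have hpi : ∀ t, p (i t) = 1 := by
    intro t
    have : i t ∈ p.ker := by
      rw [← hker]
      exact ⟨t, rfl⟩
    exact this
  obtain ⟨z, hz⟩ : ∃ z : G ⧸ Γ, z = ((1 : G) : G ⧸ Γ) := ⟨_, rfl⟩
  have hfix : ∀ γ : Γ, (γ : G) • z = z := by
    intro γ
    rw [hz]
    show (((γ : G) * 1 : G) : G ⧸ Γ) = ((1 : G) : G ⧸ Γ)
    rw [QuotientGroup.eq, mul_one, mul_one]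
    exact Γ.inv_mem γ.2
  have hr0 : r z ∈ Γ := by
    have h1 := hr z
    conv_rhs at h1 => rw [hz]
    rw [QuotientGroup.eq, mul_one] at h1
    exact (Subgroup.inv_mem_iff Γ).1 h1
  obtain ⟨u, hu⟩ := hp ⟨r z, hr0⟩
  have hmul : ∀ γ γ' : Γ', σ ((γ : Γ) : G) z * i (c' ((γ : Γ) : G) y0)⁻¹ *
      (σ ((γ' : Γ) : G) z * i (c' ((γ' : Γ) : G) y0)⁻¹) =
      σ (((γ * γ' : Γ') : Γ) : G) z * i (c' (((γ * γ' : Γ') : Γ) : G) y0)⁻¹ := by
    intro γ γ'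
    have h1 := hσ ((γ : Γ) : G) ((γ' : Γ) : G) z
    rw [hfix] at h1
    have h2 : a ((γ : Γ) : G) ((γ' : Γ) : G) z =
        c' ((γ : Γ) : G) y0 * c' ((γ' : Γ) : G) y0 * (c' (((γ * γ' : Γ') : Γ) : G) y0)⁻¹ := by
      rw [hz, ← hy0, hc', dc, hΓ' _ γ'.2]
      rfl
    have h3 : (((γ * γ' : Γ') : Γ) : G) = ((γ : Γ) : G) * ((γ' : Γ) : G) := rfl
    rw [Commute.mul_mul_mul_comm (show Commute (i (c' ((γ : Γ) : G) y0)⁻¹) (σ ((γ' : Γ) : G) z)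
      from hcen _ _), h1, h2, ← h3, hcen, mul_assoc, ← map_mul, ← map_mul]
    congr 2
    have := fun (x y w : Additive A) => (by abel : (x + y + -w) + (-x + -y) = -w)
    exact this _ _ _
  refine ⟨{ toFun := fun γ => u * (σ ((γ : Γ) : G) z * i (c' ((γ : Γ) : G) y0)⁻¹) * u⁻¹
            map_one' := ?_
            map_mul' := ?_ }, ?_⟩
  · have h1 := hmul 1 1
    rw [mul_one] at h1
    rw [mul_eq_left.1 h1, mul_one, mul_inv_cancel]
  · intro γ γ'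
    rw [← hmul]
    group
  · intro γ
    show p (u * (σ ((γ : Γ) : G) z * i (c' ((γ : Γ) : G) y0)⁻¹) * u⁻¹) = γ
    rw [map_mul, map_mul, map_mul, hpi, mul_one, hu, map_inv, hu]
    apply Subtype.ext
    rw [Subgroup.coe_mul, Subgroup.coe_mul, hσp, hfix, Subgroup.coe_inv]
    show r z * ((r z)⁻¹ * ((γ : Γ) : G) * r z) * (r z)⁻¹ = _
    group

/-- a residually trivial cocycle gives a splitting over a subgroup of finite index -/
theorem virtually_split_of [Γ.FiniteIndex] (hp : Function.Surjective p) (hker : i.range = p.ker)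
    (hcen : ∀ t h, i t * h = h * i t) (r : G ⧸ Γ → G) (hr : ∀ y, ((r y : G) : G ⧸ Γ) = y)
    (σ : G → G ⧸ Γ → H)
    (hσp : ∀ g y, ((p (σ g y) : Γ) : G) = (r (g • y))⁻¹ * g * r y)
    (a : G → G → G ⧸ Γ → A) (hσ : ∀ g h y, σ g (h • y) * σ h y = i (a g h y) * σ (g * h) y)
    (hres : ResTriv (cosetAct Γ) a) :
    ∃ Γ' : Subgroup Γ, Γ'.FiniteIndex ∧ ∃ s : Γ' →* H, ∀ γ, p (s γ) = γ := by
  obtain ⟨Y', _, hne, τ', π, c', hπ, hc'⟩ := hres
  obtain ⟨y0, hy0⟩ := resTriv_surj (cosetAct Γ) (cosetAct_trans Γ) τ' π hπ hne ((1 : G) : G ⧸ Γ)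
  let f : Γ →* Equiv.Perm Y' := τ'.comp Γ.subtype
  refine ⟨f.ker, inferInstance, ?_⟩
  apply split_of i p hp hker hcen r hr σ hσp a hσ τ' π c' hc' y0 hy0 f.ker
  intro γ hγ
  have h1 : f γ = 1 := hγ
  have h2 : τ' ((γ : Γ) : G) = 1 := h1
  rw [h2, Equiv.Perm.one_apply]

/-- a coboundary gives a splitting -/
theorem split_of_cob (hp : Function.Surjective p) (hker : i.range = p.ker)
    (hcen : ∀ t h, i t * h = h * i t) (r : G ⧸ Γ → G) (hr : ∀ y, ((r y : G) : G ⧸ Γ) = y)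
    (σ : G → G ⧸ Γ → H)
    (hσp : ∀ g y, ((p (σ g y) : Γ) : G) = (r (g • y))⁻¹ * g * r y)
    (a : G → G → G ⧸ Γ → A) (hσ : ∀ g h y, σ g (h • y) * σ h y = i (a g h y) * σ (g * h) y)
    (c : G → G ⧸ Γ → A) (hc : ∀ g h y, a g h y = dc (cosetAct Γ) c g h y) :
    ∃ s : Γ →* H, ∀ γ, p (s γ) = γ := by
  obtain ⟨s, hs⟩ := split_of i p hp hker hcen r hr σ hσp a hσ (cosetAct Γ) id c hc
    ((1 : G) : G ⧸ Γ) rfl ⊤ (by
      intro γ _
      show (((γ : G) * 1 : G) : G ⧸ Γ) = ((1 : G) : G ⧸ Γ)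
      rw [QuotientGroup.eq, mul_one, mul_one]
      exact Γ.inv_mem γ.2)
  refine ⟨s.comp Subgroup.topEquiv.symm.toMonoidHom, ?_⟩
  intro γ
  exact hs _

end ext

end Pool.Agent.FS84
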