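import Mathlib

/-!
Britton's lemma for one word: in an HNN extension `t⁻¹ al t` does not commute with `be` when
`al ∉ B` and `be ∉ A`.
-/

set_option autoImplicit false

namespace Pool.Agent.FS84

open HNNExtension

variable {G : Type} [Group G] {A B : Subgroup G}

/-- the reduced word `t⁻¹ al t be t⁻¹ al⁻¹ t be⁻¹` -/
def brWord (al be : G) (hal : al ∉ B) (hbe : be ∉ A) :
    HNNExtension.NormalWord.ReducedWord G A B where
  head := 1
  toList := [(-1, al), (1, be), (-1, al⁻¹), (1, be⁻¹)]
  chain := by
    have hal' : al⁻¹ ∉ B := fun h => hal (inv_mem_iff.1 h)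
    have h1 : toSubgroup A B (-1 : ℤˣ) = B := toSubgroup_neg_one A B
    have h2 : toSubgroup A B (1 : ℤˣ) = A := toSubgroup_one A B
    simp only [List.isChain_cons_cons, List.isChain_singleton, and_true]
    refine ⟨fun h => absurd (h1 ▸ h) hal, fun h => absurd (h2 ▸ h) hbe,
      fun h => absurd (h1 ▸ h) hal'⟩

theorem hnn_not_comm (φ : A ≃* B) {al be : G} (hal : al ∉ B) (hbe : be ∉ A) :
    (t⁻¹ * of al * t : HNNExtension G A B φ) * of be ≠ of be * (t⁻¹ * of al * t) := by
  intro h
  have h1 : (brWord al be hal hbe).prod φ = 1 := by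
    have h2 : (brWord al be hal hbe).prod φ =
        (t⁻¹ * of al * t : HNNExtension G A B φ) * of be * (t⁻¹ * of al * t)⁻¹ * (of be)⁻¹ := by
      unfold brWord HNNExtension.NormalWord.ReducedWord.prod
      simp [mul_assoc]
    rw [h2, h]
    group
  have h3 := HNNExtension.ReducedWord.toList_eq_nil_of_mem_of_range φ (brWord al be hal hbe)
    ⟨1, by rw [map_one, h1]⟩
  exact absurd h3 (by simp [brWord])

end Pool.Agent.FS84
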