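import Pool.Agent.FS84.HNS

/-!
Two almost-actions `f₁`, `f₂` of a flexibly stable group `G` on the same points for which `f₁ c` is
close to `f₂ (φ c)` on a subgroup `C`, `φ : C → G` a homomorphism, are close to two finite `G`-sets
with a `C`-invariant relation, injective both ways, between them.
-/

set_option autoImplicit false
open Finset

namespace Pool.Agent.FS84

/-- the unique part of an invariant relation inside invariant sets of points -/
theorem hns_count2 {N m₁ m₂ : ℕ} (ι₁ : Fin N → Fin m₁) (ι₂ : Fin N → Fin m₂)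
    (h₁ : Function.Injective ι₁) (h₂ : Function.Injective ι₂)
    (V₁ : Finset (Fin m₁)) (V₂ : Finset (Fin m₂)) (D0 : Finset (Fin m₁ × Fin m₂)) :
    ((univ.filter fun x : Fin N => (ι₁ x, ι₂ x) ∉ D0.filter fun d => d.1 ∈ V₁ ∧ d.2 ∈ V₂ ∧
      ∀ d' ∈ D0, (d'.1 = d.1 ∨ d'.2 = d.2) → d' = d).card : ℝ) ≤
      (((univ.image fun x => (ι₁ x, ι₂ x)) \ D0).card : ℝ) +
        ((univ.image ι₁ \ V₁).card : ℝ) + ((univ.image ι₂ \ V₂).card : ℝ) +
        2 * ((D0 \ univ.image fun x => (ι₁ x, ι₂ x)).card : ℝ) := by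
  classical
  have hpt : Function.Injective fun x : Fin N => (ι₁ x, ι₂ x) := by
    intro x y h
    exact h₁ (Prod.ext_iff.1 h).1
  have hsub : (univ.filter fun x : Fin N => (ι₁ x, ι₂ x) ∉ D0.filter fun d => d.1 ∈ V₁ ∧
      d.2 ∈ V₂ ∧ ∀ d' ∈ D0, (d'.1 = d.1 ∨ d'.2 = d.2) → d' = d) ⊆
      ((((univ.filter fun x : Fin N => (ι₁ x, ι₂ x) ∉ D0) ∪
        univ.filter fun x : Fin N => ι₁ x ∉ V₁) ∪
        univ.filter fun x : Fin N => ι₂ x ∉ V₂) ∪
        univ.filter fun x : Fin N =>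
          ι₁ x ∈ (D0 \ univ.image fun x => (ι₁ x, ι₂ x)).image Prod.fst) ∪
        univ.filter fun x : Fin N =>
          ι₂ x ∈ (D0 \ univ.image fun x => (ι₁ x, ι₂ x)).image Prod.snd := by
    intro x hx
    rw [mem_filter] at hx
    by_contra hc
    simp only [mem_union, mem_filter, mem_univ, true_and, not_or, not_not] at hc
    obtain ⟨⟨⟨⟨h1, h2⟩, h3⟩, h4⟩, h5⟩ := hc
    apply hx.2
    rw [mem_filter]
    refine ⟨h1, h2, h3, ?_⟩
    intro d' hd' hor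
    by_cases hG : d' ∈ univ.image fun x => (ι₁ x, ι₂ x)
    · rw [mem_image] at hG
      obtain ⟨y, _, rfl⟩ := hG
      rcases hor with h | h
      · have h6 : y = x := h₁ h
        rw [h6]
      · have h6 : y = x := h₂ h
        rw [h6]
    · exfalso
      rcases hor with h | h
      · exact h4 (mem_image.2 ⟨d', mem_sdiff.2 ⟨hd', hG⟩, h⟩)
      · exact h5 (mem_image.2 ⟨d', mem_sdiff.2 ⟨hd', hG⟩, h⟩)
  have h0 := Finset.card_le_card hsub
  have hu1 := Finset.card_union_le ((((univ.filter fun x : Fin N => (ι₁ x, ι₂ x) ∉ D0) ∪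
        univ.filter fun x : Fin N => ι₁ x ∉ V₁) ∪
        univ.filter fun x : Fin N => ι₂ x ∉ V₂) ∪
        univ.filter fun x : Fin N =>
          ι₁ x ∈ (D0 \ univ.image fun x => (ι₁ x, ι₂ x)).image Prod.fst)
        (univ.filter fun x : Fin N =>
          ι₂ x ∈ (D0 \ univ.image fun x => (ι₁ x, ι₂ x)).image Prod.snd)
  have hu2 := Finset.card_union_le (((univ.filter fun x : Fin N => (ι₁ x, ι₂ x) ∉ D0) ∪
        univ.filter fun x : Fin N => ι₁ x ∉ V₁) ∪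
        univ.filter fun x : Fin N => ι₂ x ∉ V₂)
        (univ.filter fun x : Fin N =>
          ι₁ x ∈ (D0 \ univ.image fun x => (ι₁ x, ι₂ x)).image Prod.fst)
  have hu3 := Finset.card_union_le ((univ.filter fun x : Fin N => (ι₁ x, ι₂ x) ∉ D0) ∪
        univ.filter fun x : Fin N => ι₁ x ∉ V₁)
        (univ.filter fun x : Fin N => ι₂ x ∉ V₂)
  have hu4 := Finset.card_union_le (univ.filter fun x : Fin N => (ι₁ x, ι₂ x) ∉ D0)
        (univ.filter fun x : Fin N => ι₁ x ∉ V₁)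
  have hR : ((univ.filter fun x : Fin N => (ι₁ x, ι₂ x) ∉ D0.filter fun d => d.1 ∈ V₁ ∧
      d.2 ∈ V₂ ∧ ∀ d' ∈ D0, (d'.1 = d.1 ∨ d'.2 = d.2) → d' = d).card : ℝ) ≤
      ((univ.filter fun x : Fin N => (ι₁ x, ι₂ x) ∉ D0).card : ℝ) +
        ((univ.filter fun x : Fin N => ι₁ x ∉ V₁).card : ℝ) +
        ((univ.filter fun x : Fin N => ι₂ x ∉ V₂).card : ℝ) +
        ((univ.filter fun x : Fin N =>
          ι₁ x ∈ (D0 \ univ.image fun x => (ι₁ x, ι₂ x)).image Prod.fst).card : ℝ) +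
        ((univ.filter fun x : Fin N =>
          ι₂ x ∈ (D0 \ univ.image fun x => (ι₁ x, ι₂ x)).image Prod.snd).card : ℝ) := by
    have h9 := h0.trans (hu1.trans (Nat.add_le_add_right (hu2.trans (Nat.add_le_add_right
      (hu3.trans (Nat.add_le_add_right hu4 _)) _)) _))
    exact_mod_cast h9
  have e1 := card_fiber_le (fun x : Fin N => (ι₁ x, ι₂ x) ∉ D0) (fun x => (ι₁ x, ι₂ x)) hpt
    ((univ.image fun x => (ι₁ x, ι₂ x)) \ D0) (fun x hx => mem_sdiff.2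
      ⟨mem_image.2 ⟨x, mem_univ _, rfl⟩, hx⟩)
  have e2 := card_fiber_le (fun x : Fin N => ι₁ x ∉ V₁) ι₁ h₁ (univ.image ι₁ \ V₁)
    (fun x hx => mem_sdiff.2 ⟨mem_image.2 ⟨x, mem_univ _, rfl⟩, hx⟩)
  have e3 := card_fiber_le (fun x : Fin N => ι₂ x ∉ V₂) ι₂ h₂ (univ.image ι₂ \ V₂)
    (fun x hx => mem_sdiff.2 ⟨mem_image.2 ⟨x, mem_univ _, rfl⟩, hx⟩)
  have e4 := card_fiber_le (fun x : Fin N =>
    ι₁ x ∈ (D0 \ univ.image fun x => (ι₁ x, ι₂ x)).image Prod.fst) ι₁ h₁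
    ((D0 \ univ.image fun x => (ι₁ x, ι₂ x)).image Prod.fst) (fun x hx => hx)
  have e5 := card_fiber_le (fun x : Fin N =>
    ι₂ x ∈ (D0 \ univ.image fun x => (ι₁ x, ι₂ x)).image Prod.snd) ι₂ h₂
    ((D0 \ univ.image fun x => (ι₁ x, ι₂ x)).image Prod.snd) (fun x hx => hx)
  have e6 : (((D0 \ univ.image fun x => (ι₁ x, ι₂ x)).image Prod.fst).card : ℝ) ≤
      ((D0 \ univ.image fun x => (ι₁ x, ι₂ x)).card : ℝ) := by
    exact_mod_cast Finset.card_image_le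
  have e7 : (((D0 \ univ.image fun x => (ι₁ x, ι₂ x)).image Prod.snd).card : ℝ) ≤
      ((D0 \ univ.image fun x => (ι₁ x, ι₂ x)).card : ℝ) := by
    exact_mod_cast Finset.card_image_le
  linarith

/-- an almost-action close to an action is supported near an invariant set -/
theorem hns_near {G : Type} [Group G] {F : Finset G} {CG : ℝ} (hCG : 0 < CG)
    (hnG : ∀ (X : Type) [Fintype X] [DecidableEq X]
      (ρ : G →* Equiv.Perm X) (A : Finset X), ∃ B : Finset X, Inv ρ B ∧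
        ((A \ B).card + (B \ A).card : ℝ) ≤
          CG * ∑ a ∈ F, ((A.filter fun x => ρ a x ∉ A).card : ℝ))
    {N m : ℕ} (f : G → Equiv.Perm (Fin N)) (ρ : G →* Equiv.Perm (Fin m)) (ι : Fin N → Fin m)
    (F0 : Finset G) (hF : F ⊆ F0) (t : ℝ)
    (hsum : ∑ g ∈ F0, ((univ.filter fun x => ρ g (ι x) ≠ ι (f g x)).card : ℝ) ≤ t) :
    ∃ V : Finset (Fin m), Inv ρ V ∧
      ((univ.image ι \ V).card : ℝ) + ((V \ univ.image ι).card : ℝ) ≤ CG * t := by
  classical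
  obtain ⟨V, hV, hVc⟩ := hnG (Fin m) ρ (univ.image ι)
  have hVs : ∑ a ∈ F, (((univ.image ι).filter fun x => ρ a x ∉ univ.image ι).card : ℝ) ≤ t := by
    refine le_trans ?_ hsum
    refine le_trans ?_ (Finset.sum_le_sum_of_subset_of_nonneg hF
      (fun _ _ _ => Nat.cast_nonneg _))
    apply Finset.sum_le_sum
    intro a _
    have h1 : ((univ.image ι).filter fun x => ρ a x ∉ univ.image ι) ⊆
        (univ.filter fun x => ρ a (ι x) ≠ ι (f a x)).image ι := by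
      intro y hy
      rw [mem_filter, mem_image] at hy
      obtain ⟨⟨x, _, rfl⟩, hy2⟩ := hy
      rw [mem_image]
      refine ⟨x, ?_, rfl⟩
      rw [mem_filter]
      refine ⟨mem_univ _, fun hc => hy2 ?_⟩
      rw [hc]
      exact mem_image.2 ⟨_, mem_univ _, rfl⟩
    have h2 := (Finset.card_le_card h1).trans Finset.card_image_le
    exact_mod_cast h2
  exact ⟨V, hV, hVc.trans (mul_le_mul_of_nonneg_left hVs hCG.le)⟩

theorem hns_card {N m : ℕ} (ι : Fin N → Fin m) (V : Finset (Fin m)) :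
    (V.card : ℝ) ≤ ((V \ univ.image ι).card : ℝ) + N := by
  classical
  have h2 := Finset.card_sdiff_add_card_inter V (univ.image ι)
  have h3 : (V ∩ univ.image ι).card ≤ N := by
    refine (Finset.card_le_card Finset.inter_subset_right).trans ?_
    refine Finset.card_image_le.trans ?_
    simp
  have h4 : V.card ≤ (V \ univ.image ι).card + N := by omega
  exact_mod_cast h4

/-- STEP 2, two almost-actions -/
theorem hnn_model2 {G : Type} [Group G] [Countable G] (hG : HasNear G) (hst : FlexStable G)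
    {C : Subgroup G} (hC : HasNear C) (φ : C →* G) (F1 : Finset G) (η : ℝ) (hη : 0 < η) :
    ∃ (E : Finset G) (δ : ℝ), 0 < δ ∧ ∀ (N : ℕ) (f₁ f₂ : G → Equiv.Perm (Fin N)), 0 < N →
      (∀ g ∈ E, ∀ h ∈ E,
        ((univ.filter fun x => f₁ g (f₁ h x) ≠ f₁ (g * h) x).card : ℝ) ≤ δ * N) →
      (∀ g ∈ E, ∀ h ∈ E,
        ((univ.filter fun x => f₂ g (f₂ h x) ≠ f₂ (g * h) x).card : ℝ) ≤ δ * N) →
      (∀ c : C, (c : G) ∈ E →
        ((univ.filter fun x => f₁ c x ≠ f₂ (φ c) x).card : ℝ) ≤ δ * N) →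
      ∃ (m₁ m₂ : ℕ) (ρ₁ : G →* Equiv.Perm (Fin m₁)) (ρ₂ : G →* Equiv.Perm (Fin m₂))
        (ι₁ : Fin N → Fin m₁) (ι₂ : Fin N → Fin m₂) (V₁ : Finset (Fin m₁))
        (V₂ : Finset (Fin m₂)) (D : Finset (Fin m₁ × Fin m₂)),
        Function.Injective ι₁ ∧ Function.Injective ι₂ ∧ Inv ρ₁ V₁ ∧ Inv ρ₂ V₂ ∧
        (∀ g ∈ F1, ((univ.filter fun x => ρ₁ g (ι₁ x) ≠ ι₁ (f₁ g x)).card : ℝ) ≤ η * N) ∧
        (∀ g ∈ F1, ((univ.filter fun x => ρ₂ g (ι₂ x) ≠ ι₂ (f₂ g x)).card : ℝ) ≤ η * N) ∧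
        (∀ d ∈ D, d.1 ∈ V₁ ∧ d.2 ∈ V₂) ∧ (∀ d ∈ D, ∀ d' ∈ D, d.1 = d'.1 → d = d') ∧
        (∀ d ∈ D, ∀ d' ∈ D, d.2 = d'.2 → d = d') ∧
        (∀ (c : C), ∀ d ∈ D, (ρ₁ c d.1, ρ₂ (φ c) d.2) ∈ D) ∧
        ((univ.filter fun x => (ι₁ x, ι₂ x) ∉ D).card : ℝ) ≤ η * N ∧
        (V₁.card : ℝ) ≤ (1 + η) * N ∧ (V₂.card : ℝ) ≤ (1 + η) * N := by
  classical
  obtain ⟨F, CG, hCG, hnG⟩ := hG
  obtain ⟨F2, CC, hCC, hnC⟩ := hC
  set K : ℝ := CG + CC * ((F2.card : ℝ) + 1) + 1 with hK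
  have hF2 : (0 : ℝ) ≤ F2.card := Nat.cast_nonneg _
  have hCk : 0 < CC * ((F2.card : ℝ) + 1) := by positivity
  have hKpos : 0 < K := by linarith
  set s : ℝ := η / (8 * K) with hs
  have hspos : 0 < s := by positivity
  have hsK : s * K = η / 8 := by
    rw [hs]
    field_simp
  have hs1 : s ≤ η / 8 := by
    have : s * 1 ≤ s * K := mul_le_mul_of_nonneg_left (by linarith) hspos.le
    linarith
  have hs2 : CG * s ≤ η / 8 := by
    have : s * CG ≤ s * K := mul_le_mul_of_nonneg_left (by linarith) hspos.le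
    linarith
  have hs3 : CC * F2.card * s ≤ s * K - CG * s := by
    rw [hK]
    nlinarith
  obtain ⟨E0, δ0, hδ0, hff⟩ := finite_form hst
    (((F ∪ F1) ∪ F2.image fun c : C => (c : G)) ∪ F2.image fun c => φ c) s hspos
  refine ⟨E0 ∪ F2.image fun c : C => (c : G), min δ0 s, lt_min hδ0 hspos, ?_⟩
  intro N f₁ f₂ hN hmul₁ hmul₂ hτ
  have hN' : (0 : ℝ) < N := by exact_mod_cast hN
  obtain ⟨m₁, ρ₁, ι₁, hι₁, hsum₁⟩ := hff N f₁ hN (by
    intro g hg h hh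
    refine (hmul₁ g (mem_union_left _ hg) h (mem_union_left _ hh)).trans ?_
    exact mul_le_mul_of_nonneg_right (min_le_left _ _) hN'.le)
  obtain ⟨m₂, ρ₂, ι₂, hι₂, hsum₂⟩ := hff N f₂ hN (by
    intro g hg h hh
    refine (hmul₂ g (mem_union_left _ hg) h (mem_union_left _ hh)).trans ?_
    exact mul_le_mul_of_nonneg_right (min_le_left _ _) hN'.le)
  have hone₁ : ∀ g ∈ (((F ∪ F1) ∪ F2.image fun c : C => (c : G)) ∪ F2.image fun c => φ c),
      ((univ.filter fun x => ρ₁ g (ι₁ x) ≠ ι₁ (f₁ g x)).card : ℝ) ≤ s * N := by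
    intro g hg
    refine le_trans ?_ hsum₁
    exact Finset.single_le_sum (f := fun g =>
      ((univ.filter fun x => ρ₁ g (ι₁ x) ≠ ι₁ (f₁ g x)).card : ℝ))
      (fun _ _ => Nat.cast_nonneg _) hg
  have hone₂ : ∀ g ∈ (((F ∪ F1) ∪ F2.image fun c : C => (c : G)) ∪ F2.image fun c => φ c),
      ((univ.filter fun x => ρ₂ g (ι₂ x) ≠ ι₂ (f₂ g x)).card : ℝ) ≤ s * N := by
    intro g hg
    refine le_trans ?_ hsum₂
    exact Finset.single_le_sum (f := fun g =>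
      ((univ.filter fun x => ρ₂ g (ι₂ x) ≠ ι₂ (f₂ g x)).card : ℝ))
      (fun _ _ => Nat.cast_nonneg _) hg
  have hFsub : F ⊆ (((F ∪ F1) ∪ F2.image fun c : C => (c : G)) ∪ F2.image fun c => φ c) :=
    fun a ha => mem_union_left _ (mem_union_left _ (mem_union_left _ ha))
  obtain ⟨V₁, hV₁, hVb₁⟩ := hns_near hCG hnG f₁ ρ₁ ι₁ _ hFsub _ hsum₁
  obtain ⟨V₂, hV₂, hVb₂⟩ := hns_near hCG hnG f₂ ρ₂ ι₂ _ hFsub _ hsum₂
  -- the invariant relation
  obtain ⟨D0, hD0, hDc⟩ := hnC (Fin m₁ × Fin m₂) (pAct (ρ₁.comp C.subtype) (ρ₂.comp φ))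
    (univ.image fun x => (ι₁ x, ι₂ x))
  have hσ : ∀ (c : C) (d : Fin m₁ × Fin m₂),
      pAct (ρ₁.comp C.subtype) (ρ₂.comp φ) c d = (ρ₁ c d.1, ρ₂ (φ c) d.2) := by
    intro c d
    rfl
  have hDs : ∑ c ∈ F2, (((univ.image fun x => (ι₁ x, ι₂ x)).filter fun d =>
      pAct (ρ₁.comp C.subtype) (ρ₂.comp φ) c d ∉ univ.image fun x => (ι₁ x, ι₂ x)).card : ℝ) ≤
      F2.card * (3 * (s * N)) := by
    rw [← nsmul_eq_mul, ← Finset.sum_const]
    apply Finset.sum_le_sum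
    intro c hc
    have hcE : (c : G) ∈ E0 ∪ F2.image fun c : C => (c : G) :=
      mem_union_right _ (mem_image.2 ⟨c, hc, rfl⟩)
    have a1 := hone₁ (c : G) (mem_union_left _ (mem_union_right _ (mem_image.2 ⟨c, hc, rfl⟩)))
    have a2 := hone₂ (φ c) (mem_union_right _ (mem_image.2 ⟨c, hc, rfl⟩))
    have a3 := (hτ c hcE).trans (mul_le_mul_of_nonneg_right (min_le_right δ0 s) hN'.le)
    have h1 : ((univ.image fun x => (ι₁ x, ι₂ x)).filter fun d =>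
        pAct (ρ₁.comp C.subtype) (ρ₂.comp φ) c d ∉ univ.image fun x => (ι₁ x, ι₂ x)) ⊆
        (((univ.filter fun x => ρ₁ (c : G) (ι₁ x) ≠ ι₁ (f₁ c x)) ∪
          univ.filter fun x => ρ₂ (φ c) (ι₂ x) ≠ ι₂ (f₂ (φ c) x)) ∪
          univ.filter fun x => f₁ c x ≠ f₂ (φ c) x).image fun x => (ι₁ x, ι₂ x) := by
      intro d hd
      rw [mem_filter, mem_image] at hd
      obtain ⟨⟨x, _, rfl⟩, hd2⟩ := hd
      rw [mem_image]
      refine ⟨x, ?_, rfl⟩
      by_contra hcon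
      simp only [mem_union, mem_filter, mem_univ, true_and, not_or, not_not] at hcon
      obtain ⟨⟨b1, b2⟩, b3⟩ := hcon
      apply hd2
      rw [hσ, mem_image]
      refine ⟨f₁ c x, mem_univ _, ?_⟩
      change (ι₁ (f₁ c x), ι₂ (f₁ c x)) = (ρ₁ c (ι₁ x), ρ₂ (φ c) (ι₂ x))
      rw [b1, b2, ← b3]
    have h2 := (Finset.card_le_card h1).trans Finset.card_image_le
    have h3 := h2.trans ((Finset.card_union_le _ _).trans
      (Nat.add_le_add_right (Finset.card_union_le _ _) _))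
    have h4 : (((univ.image fun x => (ι₁ x, ι₂ x)).filter fun d =>
        pAct (ρ₁.comp C.subtype) (ρ₂.comp φ) c d ∉
          univ.image fun x => (ι₁ x, ι₂ x)).card : ℝ) ≤
        ((univ.filter fun x => ρ₁ (c : G) (ι₁ x) ≠ ι₁ (f₁ c x)).card : ℝ) +
        ((univ.filter fun x => ρ₂ (φ c) (ι₂ x) ≠ ι₂ (f₂ (φ c) x)).card : ℝ) +
        ((univ.filter fun x => f₁ c x ≠ f₂ (φ c) x).card : ℝ) := by
      exact_mod_cast h3
    linarith
  have hDb : (((univ.image fun x => (ι₁ x, ι₂ x)) \ D0).card : ℝ) +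
      ((D0 \ univ.image fun x => (ι₁ x, ι₂ x)).card : ℝ) ≤ 3 * (CC * F2.card * s) * N := by
    refine hDc.trans ?_
    refine (mul_le_mul_of_nonneg_left hDs hCC.le).trans (le_of_eq ?_)
    ring
  have n1 : (0 : ℝ) ≤ (((univ.image fun x => (ι₁ x, ι₂ x)) \ D0).card : ℝ) :=
    Nat.cast_nonneg _
  have n2 : (0 : ℝ) ≤ ((V₁ \ univ.image ι₁).card : ℝ) := Nat.cast_nonneg _
  have n3 : (0 : ℝ) ≤ ((V₂ \ univ.image ι₂).card : ℝ) := Nat.cast_nonneg _
  have n4 : (0 : ℝ) ≤ ((univ.image ι₁ \ V₁).card : ℝ) := Nat.cast_nonneg _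
  have n5 : (0 : ℝ) ≤ ((univ.image ι₂ \ V₂).card : ℝ) := Nat.cast_nonneg _
  have hcs : CG * (s * N) ≤ η / 8 * N := by
    rw [← mul_assoc]
    exact mul_le_mul_of_nonneg_right hs2 hN'.le
  have hηN : (0 : ℝ) ≤ η * N := by positivity
  refine ⟨m₁, m₂, ρ₁, ρ₂, ι₁, ι₂, V₁, V₂, D0.filter fun d => d.1 ∈ V₁ ∧ d.2 ∈ V₂ ∧
      ∀ d' ∈ D0, (d'.1 = d.1 ∨ d'.2 = d.2) → d' = d, hι₁, hι₂, hV₁, hV₂, ?_, ?_, ?_, ?_, ?_, ?_,
      ?_, ?_, ?_⟩
  · intro g hg
    refine (hone₁ g (mem_union_left _ (mem_union_left _ (mem_union_right _ hg)))).trans ?_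
    exact mul_le_mul_of_nonneg_right (by linarith) hN'.le
  · intro g hg
    refine (hone₂ g (mem_union_left _ (mem_union_left _ (mem_union_right _ hg)))).trans ?_
    exact mul_le_mul_of_nonneg_right (by linarith) hN'.le
  · intro d hd
    rw [mem_filter] at hd
    exact ⟨hd.2.1, hd.2.2.1⟩
  · intro d hd d' hd' h
    rw [mem_filter] at hd hd'
    exact hd'.2.2.2 d hd.1 (Or.inl h)
  · intro d hd d' hd' h
    rw [mem_filter] at hd hd'
    exact hd'.2.2.2 d hd.1 (Or.inr h)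
  · intro c d hd
    rw [mem_filter] at hd ⊢
    obtain ⟨h1, h2, h3, h4⟩ := hd
    refine ⟨?_, (hV₁ _ _).2 h2, (hV₂ _ _).2 h3, ?_⟩
    · have := (hD0 c d).2 h1
      rwa [hσ] at this
    · intro d' hd' hor
      have h5 : pAct (ρ₁.comp C.subtype) (ρ₂.comp φ) c⁻¹ d' ∈ D0 := (hD0 c⁻¹ d').2 hd'
      have h6 : pAct (ρ₁.comp C.subtype) (ρ₂.comp φ) c⁻¹ d' = d := by
        apply h4 _ h5
        rw [hσ]
        rcases hor with h | h
        · left
          change ρ₁ ((c⁻¹ : C) : G) d'.1 = d.1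
          rw [h]
          change ρ₁ ((c⁻¹ : C) : G) (ρ₁ (c : G) d.1) = d.1
          rw [← Equiv.Perm.mul_apply, ← map_mul]
          simp
        · right
          change ρ₂ (φ c⁻¹) d'.2 = d.2
          rw [h]
          change ρ₂ (φ c⁻¹) (ρ₂ (φ c) d.2) = d.2
          rw [← Equiv.Perm.mul_apply, ← map_mul, ← map_mul]
          simp
      have h7 : d' = pAct (ρ₁.comp C.subtype) (ρ₂.comp φ) c d := by
        rw [← h6, ← Equiv.Perm.mul_apply, ← map_mul]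
        simp
      rw [h7, hσ]
  · refine (hns_count2 ι₁ ι₂ hι₁ hι₂ V₁ V₂ D0).trans ?_
    have h8 : (3 * (CC * F2.card * s) * 2 + 2 * (CG * s)) * N ≤ η * N := by
      apply mul_le_mul_of_nonneg_right _ hN'.le
      nlinarith
    nlinarith
  · have h1 := hns_card ι₁ V₁
    nlinarith
  · have h1 := hns_card ι₂ V₂
    nlinarith

end Pool.Agent.FS84
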