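import Pool.Agent.FS84.HNQ
import Pool.Agent.FS84.HNS2
import Pool.Agent.FS84.Index

/-!
A relation which holds in every sofic group with two homomorphisms from a flexibly stable group
which agree, up to an isomorphism, on subgroups of finite index.
-/

set_option autoImplicit false
open Finset

namespace Pool.Agent.FS84

/-- the number of points with a property -/
noncomputable def cP {N : ℕ} (p : Fin N → Prop) : ℝ := ({x | p x}.ncard : ℝ)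

theorem cP_eq {N : ℕ} (p : Fin N → Prop) [DecidablePred p] :
    cP p = ((univ.filter p).card : ℝ) := by
  unfold cP
  rw [ncard_filter]

theorem cP_or {N : ℕ} {p q r : Fin N → Prop} (h : ∀ x, p x → q x ∨ r x) :
    cP p ≤ cP q + cP r := by
  unfold cP
  have h1 : {x | p x} ⊆ {x | q x} ∪ {x | r x} := fun x hx => h x hx
  have h2 := (Set.ncard_le_ncard h1 (Set.toFinite _)).trans (Set.ncard_union_le _ _)
  exact_mod_cast h2

theorem cP_pull {N : ℕ} (σ : Equiv.Perm (Fin N)) (p : Fin N → Prop) :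
    cP (fun x => p (σ x)) = cP p := by
  unfold cP
  congr 1
  apply Set.ncard_congr (fun x _ => σ x)
  · intro x hx
    exact hx
  · intro x y _ _ h
    exact σ.injective h
  · intro y hy
    refine ⟨σ.symm y, ?_, σ.apply_symm_apply y⟩
    change p (σ (σ.symm y))
    rw [σ.apply_symm_apply]
    exact hy

theorem cP_compl {N : ℕ} (p : Fin N → Prop) : cP p + cP (fun x => ¬ p x) = N := by
  unfold cP
  have h1 := Set.ncard_add_ncard_compl {x : Fin N | p x}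
  have h2 : {x : Fin N | ¬ p x} = {x | p x}ᶜ := rfl
  rw [h2]
  rw [Nat.card_eq_fintype_card, Fintype.card_fin] at h1
  exact_mod_cast h1

/-- the part of `n` prime to `p` -/
theorem prime_part (p : ℕ) : ∀ n : ℕ, n ≠ 0 →
    ∃ e M : ℕ, Nat.Coprime p M ∧ M ≠ 0 ∧ n ∣ p ^ e * M := by
  intro n
  induction n using Nat.strong_induction_on with
  | _ n ih =>
    intro hn
    by_cases h : Nat.Coprime p n
    · exact ⟨0, n, h, hn, by simp⟩
    · obtain ⟨d, hd⟩ : ∃ d, d = Nat.gcd p n := ⟨_, rfl⟩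
      have hd1 : d ≠ 1 := by rw [hd]; exact h
      have hdp : d ∣ p := by rw [hd]; exact Nat.gcd_dvd_left p n
      have hdn : d ∣ n := by rw [hd]; exact Nat.gcd_dvd_right p n
      obtain ⟨n', hn'⟩ := hdn
      have hd0 : d ≠ 0 := by
        rintro rfl
        rw [zero_mul] at hn'
        exact hn hn'
      have hn'0 : n' ≠ 0 := by
        rintro rfl
        rw [mul_zero] at hn'
        exact hn hn'
      have hlt : n' < n := by
        rw [hn']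
        have h2 : 2 ≤ d := by omega
        have h3 : 0 < n' := Nat.pos_of_ne_zero hn'0
        nlinarith
      obtain ⟨e, M, h1, h2, h3⟩ := ih n' hlt hn'0
      refine ⟨e + 1, M, h1, h2, ?_⟩
      rw [hn', pow_succ']
      have := mul_dvd_mul hdp h3
      rwa [mul_assoc]

/-- an inverse of `p` modulo `M` -/
theorem inv_mod {p M : ℕ} (hp : 2 ≤ p) (hco : Nat.Coprime p M) (hM0 : M ≠ 0) :
    ∃ j q : ℕ, p * j = M * q + 1 := by
  rcases Nat.lt_or_ge 1 M with h1 | h1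
  · obtain ⟨j, hj⟩ := Nat.exists_mul_mod_eq_one_of_coprime hco h1
    refine ⟨j, p * j / M, ?_⟩
    have := Nat.div_add_mod (p * j) M
    omega
  · have hM1 : M = 1 := by omega
    refine ⟨1, p - 1, ?_⟩
    rw [hM1]
    omega

/-- STEP F -/
theorem commute_of_sofic {G : Type} [Group G] [Countable G] (hG : HasNear G) (hst : FlexStable G)
    (A : Subgroup G) [A.FiniteIndex] (φ : A →* G) {p : ℕ} (hp : 2 ≤ p) {α β k₁ k₂ : G}
    (hab : α * β = β * α) (h1a : k₁ * α = α * β * k₁) (h1b : k₁ * β = β * k₁)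
    (h2b : k₂ * β = α * β * k₂) (h2a : k₂ * α = α * k₂) (a b : A) (ha : (a : G) = α)
    (hφa : φ a = α ^ p) (hb : (b : G) = β ^ p) (hφb : φ b = β)
    {Γ : Type} [Group Γ] (hΓ : Sofic Γ) (i₁ i₂ : G →* Γ) (hi : ∀ c : A, i₁ c = i₂ (φ c)) :
    i₂ α * i₁ β = i₁ β * i₂ α := by
  classical
  by_contra hne
  obtain ⟨u, hu⟩ : ∃ u : Γ, u = i₂ α := ⟨_, rfl⟩
  obtain ⟨w, hw⟩ : ∃ w : Γ, w = i₁ β := ⟨_, rfl⟩
  rw [← hu, ← hw] at hne
  obtain ⟨ν, hν⟩ : ∃ ν : Γ, ν = u * w * (w * u)⁻¹ := ⟨_, rfl⟩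
  have hν1 : ν ≠ 1 := by
    rw [hν]
    intro h
    exact hne (mul_inv_eq_one.1 h)
  -- the model
  obtain ⟨E, δ, hδ, hmod⟩ := hnn_model2 hG hst (hasNear_subgroup A hG) φ {α, β} (1 / 1000)
    (by norm_num)
  obtain ⟨K, hK⟩ : ∃ K : Finset Γ, K = E.image i₁ ∪ (E.image i₂ ∪ {u, w, w * u, ν}) := ⟨_, rfl⟩
  obtain ⟨ε, hε⟩ : ∃ ε : ℝ, ε = min δ (1 / 1000) := ⟨_, rfl⟩
  have hε0 : 0 < ε := by rw [hε]; positivity
  have hε1 : ε ≤ δ := by rw [hε]; exact min_le_left _ _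
  have hε2 : ε ≤ 1 / 1000 := by rw [hε]; exact min_le_right _ _
  obtain ⟨N, ψ, hN, hψ, hfix⟩ := hΓ K ε hε0
  have hN0 : (0 : ℝ) < N := by exact_mod_cast hN
  have hK1 : ∀ g ∈ E, i₁ g ∈ K := by
    intro g hg
    rw [hK]
    exact mem_union_left _ (mem_image_of_mem _ hg)
  have hK2 : ∀ g ∈ E, i₂ g ∈ K := by
    intro g hg
    rw [hK]
    exact mem_union_right _ (mem_union_left _ (mem_image_of_mem _ hg))
  have hKu : u ∈ K := by rw [hK]; simp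
  have hKw : w ∈ K := by rw [hK]; simp
  have hKwu : w * u ∈ K := by rw [hK]; simp
  have hKν : ν ∈ K := by rw [hK]; simp
  have hψ' : ∀ s ∈ K, ∀ v ∈ K, cP (fun x => ψ s (ψ v x) ≠ ψ (s * v) x) ≤ 1 / 1000 * N := by
    intro s hs v hv
    rw [cP_eq]
    exact (hψ s hs v hv).trans (mul_le_mul_of_nonneg_right hε2 hN0.le)
  have hfix' : cP (fun v => ψ ν v = v) ≤ 1 / 1000 * N := by
    rw [cP_eq]
    exact (hfix ν hKν hν1).trans (mul_le_mul_of_nonneg_right hε2 hN0.le)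
  obtain ⟨m₁, m₂, ρ₁, ρ₂, ι₁, ι₂, V₁, V₂, D, hι₁, hι₂, hV₁, hV₂, hF₁, hF₂, hDV, hD1, hD2, hDc,
    hDx, hVc₁, hVc₂⟩ :=
    hmod N (fun g => ψ (i₁ g)) (fun g => ψ (i₂ g)) hN
    (by
      intro g hg h hh
      have h1 := hψ (i₁ g) (hK1 g hg) (i₁ h) (hK1 h hh)
      rw [← map_mul] at h1
      exact h1.trans (mul_le_mul_of_nonneg_right hε1 hN0.le))
    (by
      intro g hg h hh
      have h1 := hψ (i₂ g) (hK2 g hg) (i₂ h) (hK2 h hh)
      rw [← map_mul] at h1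
      exact h1.trans (mul_le_mul_of_nonneg_right hε1 hN0.le))
    (by
      intro c _
      have h1 : (univ.filter fun x => ψ (i₁ c) x ≠ ψ (i₂ (φ c)) x) = ∅ := by
        rw [Finset.filter_eq_empty_iff]
        intro x _
        rw [hi c, not_not]
      rw [h1]
      simp only [card_empty, Nat.cast_zero]
      positivity)
  have hF1α : cP (fun x => ρ₂ α (ι₂ x) ≠ ι₂ (ψ u x)) ≤ 1 / 1000 * N := by
    rw [cP_eq, hu]
    exact hF₂ α (by simp)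
  have hF1β : cP (fun x => ρ₁ β (ι₁ x) ≠ ι₁ (ψ w x)) ≤ 1 / 1000 * N := by
    rw [cP_eq, hw]
    exact hF₁ β (by simp)
  have hDx' : cP (fun x => (ι₁ x, ι₂ x) ∉ D) ≤ 1 / 1000 * N := by
    rw [cP_eq]
    exact hDx
  -- the exponent
  obtain ⟨e, M, hM, hM0, heM⟩ := prime_part p
    (Fintype.card (Equiv.Perm (Fin m₁)) * Fintype.card (Equiv.Perm (Fin m₂)))
    (mul_ne_zero Fintype.card_ne_zero Fintype.card_ne_zero)
  have hpow₁ : ∀ g : Equiv.Perm (Fin m₁), g ^ (p ^ e * M) = 1 := by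
    intro g
    obtain ⟨c, hc⟩ := (Dvd.intro _ rfl : Fintype.card (Equiv.Perm (Fin m₁)) ∣ _).trans heM
    rw [hc, pow_mul, pow_card_eq_one, one_pow]
  have hpow₂ : ∀ g : Equiv.Perm (Fin m₂), g ^ (p ^ e * M) = 1 := by
    intro g
    obtain ⟨c, hc⟩ := (Dvd.intro_left _ rfl : Fintype.card (Equiv.Perm (Fin m₂)) ∣ _).trans heM
    rw [hc, pow_mul, pow_card_eq_one, one_pow]
  obtain ⟨j, q, hjq⟩ := inv_mod hp hM hM0
  have hDa : ∀ d ∈ D, ((ρ₁ α) d.1, ((ρ₂ α) ^ p) d.2) ∈ D := by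
    intro d hd
    have h1 := hDc a d hd
    rw [hφa, ha, map_pow] at h1
    exact h1
  have hDb : ∀ d ∈ D, (((ρ₁ β) ^ p) d.1, (ρ₂ β) d.2) ∈ D := by
    intro d hd
    have h1 := hDc b d hd
    rw [hφb, hb, map_pow] at h1
    exact h1
  have hDaj : ∀ d ∈ D, (((ρ₁ α) ^ j) d.1, ((ρ₂ α) ^ (p * j)) d.2) ∈ D := by
    intro d hd
    have h1 := hDc (a ^ j) d hd
    have e3 : ((a ^ j : A) : G) = α ^ j := by
      rw [Subgroup.coe_pow, ha]
    rw [map_pow, hφa, ← pow_mul, e3, map_pow, map_pow] at h1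
    exact h1
  have hcnt := hnn_count (ρ₁ α) (ρ₁ β) (ρ₁ k₁) (ρ₁ k₂) (ρ₂ α) (ρ₂ β) (ρ₂ k₁) (ρ₂ k₂)
    (by rw [← map_mul, ← map_mul, hab]) (by rw [← map_mul, ← map_mul, ← map_mul, h1a])
    (by rw [← map_mul, ← map_mul, h1b]) (by rw [← map_mul, ← map_mul, ← map_mul, h2b])
    (by rw [← map_mul, ← map_mul, h2a])
    (by rw [← map_mul, ← map_mul, hab]) (by rw [← map_mul, ← map_mul, ← map_mul, h1a])
    (by rw [← map_mul, ← map_mul, h1b]) (by rw [← map_mul, ← map_mul, ← map_mul, h2b])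
    (by rw [← map_mul, ← map_mul, h2a]) p M e (hpow₁ _) (hpow₁ _) (hpow₂ _) (hpow₂ _)
    V₁ (hV₁ k₁) (hV₁ k₂) V₂ (hV₂ k₁) (hV₂ k₂) D hDV hD1 hD2 hDa hDb
  -- the number of points of `D`
  have hDcard : (N : ℝ) ≤ D.card + 1 / 1000 * N := by
    have h1 := cP_compl (fun x => (ι₁ x, ι₂ x) ∉ D)
    have h2 : cP (fun x => ¬ (ι₁ x, ι₂ x) ∉ D) ≤ D.card := by
      rw [cP_eq]
      have h3 : (univ.filter fun x => ¬ (ι₁ x, ι₂ x) ∉ D).card ≤ D.card := by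
        apply Finset.card_le_card_of_injOn (fun x => (ι₁ x, ι₂ x))
        · intro x hx
          have h4 := (mem_filter.1 (mem_coe.1 hx)).2
          exact mem_coe.2 (not_not.1 h4)
        · intro x _ y _ h
          exact hι₁ (congrArg Prod.fst h)
      exact_mod_cast h3
    linarith
  -- the good points
  obtain ⟨Good, hGood⟩ : ∃ Good : Fin N → Prop, ∀ x, Good x ↔
      ((ι₁ x, ι₂ x) ∈ D ∧ ((ρ₂ α) ^ M) (ι₂ x) = ι₂ x) := ⟨_, fun _ => Iff.rfl⟩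
  have hbadG : cP (fun x => ¬ Good x) ≤ 25 / 1000 * N := by
    have h1 : cP (fun x => ¬ Good x) ≤ cP (fun x => (ι₁ x, ι₂ x) ∉ D) +
        cP (fun x => ι₂ x ∈ V₂ ∧ ((ρ₂ α) ^ M) (ι₂ x) ≠ ι₂ x) := by
      apply cP_or
      intro x hx
      by_cases h : (ι₁ x, ι₂ x) ∈ D
      · right
        refine ⟨(hDV _ h).2, ?_⟩
        intro h2
        exact hx ((hGood x).2 ⟨h, h2⟩)
      · left
        exact h
    have h2 : cP (fun x => ι₂ x ∈ V₂ ∧ ((ρ₂ α) ^ M) (ι₂ x) ≠ ι₂ x) ≤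
        ((V₂.filter fun v => ¬ (((ρ₂ α) ^ M) v = v ∧ ((ρ₂ β) ^ M) v = v)).card : ℝ) := by
      rw [cP_eq]
      have h3 : (univ.filter fun x => ι₂ x ∈ V₂ ∧ ((ρ₂ α) ^ M) (ι₂ x) ≠ ι₂ x).card ≤
          (V₂.filter fun v => ¬ (((ρ₂ α) ^ M) v = v ∧ ((ρ₂ β) ^ M) v = v)).card := by
        apply Finset.card_le_card_of_injOn (fun x => ι₂ x)
        · intro x hx
          have h4 := (mem_filter.1 (mem_coe.1 hx)).2
          exact mem_coe.2 (mem_filter.2 ⟨h4.1, fun h5 => h4.2 h5.1⟩)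
        · intro x _ y _ h
          exact hι₂ h
      exact_mod_cast h3
    have h3 : ((V₂.filter fun v => ¬ (((ρ₂ α) ^ M) v = v ∧ ((ρ₂ β) ^ M) v = v)).card : ℝ) +
        12 * D.card ≤ 6 * V₁.card + 6 * V₂.card := by exact_mod_cast hcnt
    linarith
  -- `u` acts as `a ^ j`
  have hstar : cP (fun x => ι₁ (ψ u x) ≠ ((ρ₁ α) ^ j) (ι₁ x)) ≤ 51 / 1000 * N := by
    have h1 : cP (fun x => ι₁ (ψ u x) ≠ ((ρ₁ α) ^ j) (ι₁ x)) ≤
        cP (fun x => ¬ Good x) + cP (fun x => ¬ Good (ψ u x) ∨ ρ₂ α (ι₂ x) ≠ ι₂ (ψ u x)) := by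
      apply cP_or
      intro x hx
      by_contra hcon
      rw [not_or, not_or, not_not, not_not, not_not] at hcon
      obtain ⟨g1, g2, e3⟩ := hcon
      rw [hGood] at g1 g2
      have h2 := hDaj _ g1.1
      have h3 : ((ρ₂ α) ^ (p * j)) (ι₂ x) = ι₂ (ψ u x) := by
        rw [hjq, pow_succ', pow_mul, Equiv.Perm.mul_apply,
          Equiv.Perm.pow_apply_eq_self_of_apply_eq_self g1.2 q, e3]
      have h4 := hD2 _ h2 _ g2.1 h3
      exact hx (congrArg Prod.fst h4).symm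
    have h2 : cP (fun x => ¬ Good (ψ u x) ∨ ρ₂ α (ι₂ x) ≠ ι₂ (ψ u x)) ≤
        cP (fun x => ¬ Good (ψ u x)) + cP (fun x => ρ₂ α (ι₂ x) ≠ ι₂ (ψ u x)) :=
      cP_or fun _ h => h
    have h5 := cP_pull (ψ u) (fun x => ¬ Good x)
    linarith
  -- `u` and `w` commute at most points
  have hcomm : cP (fun x => ψ (u * w) x ≠ ψ (w * u) x) ≤ 106 / 1000 * N := by
    have h1 : cP (fun x => ψ (u * w) x ≠ ψ (w * u) x) ≤
        cP (fun x => ι₁ (ψ u x) ≠ ((ρ₁ α) ^ j) (ι₁ x)) +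
        cP (fun x => ι₁ (ψ u (ψ w x)) ≠ ((ρ₁ α) ^ j) (ι₁ (ψ w x)) ∨
          (ρ₁ β (ι₁ x) ≠ ι₁ (ψ w x) ∨ (ρ₁ β (ι₁ (ψ u x)) ≠ ι₁ (ψ w (ψ u x)) ∨
          (ψ u (ψ w x) ≠ ψ (u * w) x ∨ ψ w (ψ u x) ≠ ψ (w * u) x)))) := by
      apply cP_or
      intro x hx
      by_contra hcon
      rw [not_or, not_or, not_or, not_or, not_or, not_not, not_not, not_not, not_not, not_not,
        not_not] at hcon
      obtain ⟨e1, e2, e3, e4, e5, e6⟩ := hcon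
      apply hx
      apply hι₁
      have hcom : (ρ₁ α) ^ j * ρ₁ β = ρ₁ β * (ρ₁ α) ^ j := by
        have h2 : Commute (ρ₁ α) (ρ₁ β) := by
          change ρ₁ α * ρ₁ β = ρ₁ β * ρ₁ α
          rw [← map_mul, ← map_mul, hab]
        exact h2.pow_left j
      rw [← e5, ← e6, e2, ← e3, ← e4, e1, ← Equiv.Perm.mul_apply, ← Equiv.Perm.mul_apply, hcom]
    have h2 : cP (fun x => ι₁ (ψ u (ψ w x)) ≠ ((ρ₁ α) ^ j) (ι₁ (ψ w x)) ∨
          (ρ₁ β (ι₁ x) ≠ ι₁ (ψ w x) ∨ (ρ₁ β (ι₁ (ψ u x)) ≠ ι₁ (ψ w (ψ u x)) ∨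
          (ψ u (ψ w x) ≠ ψ (u * w) x ∨ ψ w (ψ u x) ≠ ψ (w * u) x)))) ≤
        cP (fun x => ι₁ (ψ u (ψ w x)) ≠ ((ρ₁ α) ^ j) (ι₁ (ψ w x))) +
        cP (fun x => ρ₁ β (ι₁ x) ≠ ι₁ (ψ w x) ∨ (ρ₁ β (ι₁ (ψ u x)) ≠ ι₁ (ψ w (ψ u x)) ∨
          (ψ u (ψ w x) ≠ ψ (u * w) x ∨ ψ w (ψ u x) ≠ ψ (w * u) x))) :=
      cP_or fun _ h => h
    have h3 : cP (fun x => ρ₁ β (ι₁ x) ≠ ι₁ (ψ w x) ∨ (ρ₁ β (ι₁ (ψ u x)) ≠ ι₁ (ψ w (ψ u x)) ∨
          (ψ u (ψ w x) ≠ ψ (u * w) x ∨ ψ w (ψ u x) ≠ ψ (w * u) x))) ≤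
        cP (fun x => ρ₁ β (ι₁ x) ≠ ι₁ (ψ w x)) +
        cP (fun x => ρ₁ β (ι₁ (ψ u x)) ≠ ι₁ (ψ w (ψ u x)) ∨
          (ψ u (ψ w x) ≠ ψ (u * w) x ∨ ψ w (ψ u x) ≠ ψ (w * u) x)) :=
      cP_or fun _ h => h
    have h4 : cP (fun x => ρ₁ β (ι₁ (ψ u x)) ≠ ι₁ (ψ w (ψ u x)) ∨
          (ψ u (ψ w x) ≠ ψ (u * w) x ∨ ψ w (ψ u x) ≠ ψ (w * u) x)) ≤
        cP (fun x => ρ₁ β (ι₁ (ψ u x)) ≠ ι₁ (ψ w (ψ u x))) +
        cP (fun x => ψ u (ψ w x) ≠ ψ (u * w) x ∨ ψ w (ψ u x) ≠ ψ (w * u) x) :=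
      cP_or fun _ h => h
    have h5 : cP (fun x => ψ u (ψ w x) ≠ ψ (u * w) x ∨ ψ w (ψ u x) ≠ ψ (w * u) x) ≤
        cP (fun x => ψ u (ψ w x) ≠ ψ (u * w) x) + cP (fun x => ψ w (ψ u x) ≠ ψ (w * u) x) :=
      cP_or fun _ h => h
    have h6 := cP_pull (ψ w) (fun x => ι₁ (ψ u x) ≠ ((ρ₁ α) ^ j) (ι₁ x))
    have h7 := cP_pull (ψ u) (fun x => ρ₁ β (ι₁ x) ≠ ι₁ (ψ w x))
    have h8 := hψ' u hKu w hKw
    have h9 := hψ' w hKw u hKu
    linarith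
  -- the contradiction
  have hend : cP (fun x => ψ ν x ≠ x) ≤ 107 / 1000 * N := by
    have h1 := cP_pull (ψ (w * u)) (fun x => ψ ν x ≠ x)
    have h2 : cP (fun x => ψ ν (ψ (w * u) x) ≠ ψ (w * u) x) ≤
        cP (fun x => ψ (u * w) x ≠ ψ (w * u) x) +
        cP (fun x => ψ ν (ψ (w * u) x) ≠ ψ (ν * (w * u)) x) := by
      apply cP_or
      intro x hx
      by_contra hcon
      rw [not_or, not_not, not_not] at hcon
      apply hx
      have e1 : ν * (w * u) = u * w := by rw [hν]; group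
      rw [hcon.2, e1, hcon.1]
    have h3 := hψ' ν hKν (w * u) hKwu
    linarith
  have h1 := cP_compl (fun x => ψ ν x = x)
  have h5 : cP (fun x => ¬ ψ ν x = x) ≤ 107 / 1000 * N := hend
  linarith

end Pool.Agent.FS84
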