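import Pool.Agent.FS84.Kaz

/-!
A counting lemma for a partial injection `t` from a finite set `V₁` to a finite set `V₂` with
`t a₁ = a₂ ^ p t` and `t b₁ ^ p = b₂ t`, where `aᵢ`, `bᵢ` and `aᵢ bᵢ` are conjugate: nearly all
points of `V₂` are fixed by the powers `a₂ ^ M` and `b₂ ^ M` with `M` prime to `p`.
-/

set_option autoImplicit false
open Finset

namespace Pool.Agent.FS84

/-- the level of a point: the least `s` such that `a ^ (p ^ s * M)` and `b ^ (p ^ s * M)` fix it,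
and the sets of points whose level is attained by `a`, by `b` -/
theorem hnn_level {W : Type} [Fintype W] [DecidableEq W] (a b κ₁ κ₂ : Equiv.Perm W)
    (hab : a * b = b * a) (h1a : κ₁ * a = a * b * κ₁) (h1b : κ₁ * b = b * κ₁)
    (h2b : κ₂ * b = a * b * κ₂) (h2a : κ₂ * a = a * κ₂) (p M e : ℕ)
    (hea : a ^ (p ^ e * M) = 1) (heb : b ^ (p ^ e * M) = 1)
    (V : Finset W) (hV1 : ∀ x, κ₁ x ∈ V ↔ x ∈ V) (hV2 : ∀ x, κ₂ x ∈ V ↔ x ∈ V) :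
    ∃ (A : W → ℕ) (Sa Sb : Finset W), Sa ⊆ V ∧ Sb ⊆ V ∧
      (∀ v ∈ Sa, ∃ s, A v = s + 1 ∧ (a ^ (p ^ s * M)) v ≠ v) ∧
      (∀ v ∈ Sb, ∃ s, A v = s + 1 ∧ (b ^ (p ^ s * M)) v ≠ v) ∧
      (∀ v s, (a ^ (p ^ s * M)) v ≠ v → s < A v) ∧
      (∀ v s, (b ^ (p ^ s * M)) v ≠ v → s < A v) ∧
      2 * (V.filter fun v => A v ≠ 0).card ≤ 3 * Sa.card ∧
      2 * (V.filter fun v => A v ≠ 0).card ≤ 3 * Sb.card ∧
      ∀ v, A v = 0 → (a ^ M) v = v ∧ (b ^ M) v = v := by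
  classical
  obtain ⟨P, hP⟩ : ∃ P : Equiv.Perm W → ℕ → W → Prop,
      ∀ g s v, P g s v ↔ (g ^ (p ^ s * M)) v = v := ⟨_, fun _ _ _ => Iff.rfl⟩
  have hPmono1 : ∀ g s v, P g s v → P g (s + 1) v := by
    intro g s v h
    rw [hP] at h ⊢
    have e1 : p ^ (s + 1) * M = p ^ s * M * p := by ring
    rw [e1, pow_mul]
    exact Equiv.Perm.pow_apply_eq_self_of_apply_eq_self h p
  have hPmono : ∀ g s s' v, s ≤ s' → P g s v → P g s' v := by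
    intro g s s' v hs h
    induction s', hs using Nat.le_induction with
    | base => exact h
    | succ n _ ih => exact hPmono1 g n v ih
  have hconj : ∀ κ g g' : Equiv.Perm W, κ * g = g' * κ → ∀ s v, P g' s (κ v) ↔ P g s v := by
    intro κ g g' h s v
    rw [hP, hP]
    have h1 : SemiconjBy κ g g' := h
    have h2 : κ * g ^ (p ^ s * M) = g' ^ (p ^ s * M) * κ := h1.pow_right (p ^ s * M)
    have h3 : κ ((g ^ (p ^ s * M)) v) = (g' ^ (p ^ s * M)) (κ v) := by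
      rw [← Equiv.Perm.mul_apply, h2, Equiv.Perm.mul_apply]
    rw [← h3]
    exact κ.injective.eq_iff
  have hpow : ∀ n : ℕ, (a * b) ^ n = a ^ n * b ^ n := fun n => (show Commute a b from hab).mul_pow n
  have htw1 : ∀ s v, P a s v → (P (a * b) s v ↔ P b s v) := by
    intro s v h
    rw [hP] at h ⊢
    rw [hP, hpow, Equiv.Perm.mul_apply]
    constructor
    · intro h1
      exact (a ^ (p ^ s * M)).injective (h1.trans h.symm)
    · intro h1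
      rw [h1, h]
  have htw2 : ∀ s v, P b s v → (P (a * b) s v ↔ P a s v) := by
    intro s v h
    rw [hP] at h ⊢
    rw [hP, hpow, Equiv.Perm.mul_apply, h]
  have hex : ∀ v, ∃ s, P a s v ∧ P b s v := by
    intro v
    refine ⟨e, ?_, ?_⟩
    · rw [hP, hea]; rfl
    · rw [hP, heb]; rfl
  obtain ⟨A, hA⟩ : ∃ A : W → ℕ, ∀ v, A v = Nat.find (hex v) := ⟨_, fun _ => rfl⟩
  have hAspec : ∀ v, P a (A v) v ∧ P b (A v) v := by
    intro v
    rw [hA]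
    exact Nat.find_spec (hex v)
  have hAle : ∀ v s, P a s v ∧ P b s v → A v ≤ s := by
    intro v s h
    rw [hA]
    exact Nat.find_min' (hex v) h
  have hAa : ∀ v s, ¬ P a s v → s < A v := by
    intro v s h
    by_contra hc
    exact h (hPmono a _ _ v (not_lt.1 hc) (hAspec v).1)
  have hAb : ∀ v s, ¬ P b s v → s < A v := by
    intro v s h
    by_contra hc
    exact h (hPmono b _ _ v (not_lt.1 hc) (hAspec v).2)
  have hAκ : ∀ κ : Equiv.Perm W, (∀ s v, (P a s (κ v) ∧ P b s (κ v)) ↔ (P a s v ∧ P b s v)) →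
      ∀ v, A (κ v) = A v := by
    intro κ h v
    apply le_antisymm
    · exact hAle _ _ ((h _ _).2 (hAspec v))
    · exact hAle _ _ ((h _ _).1 (hAspec (κ v)))
  have hA1 : ∀ v, A (κ₁ v) = A v := by
    apply hAκ
    intro s v
    have h1 := hconj κ₁ a (a * b) h1a s v
    have h2 := hconj κ₁ b b h1b s v
    constructor
    · rintro ⟨h3, h4⟩
      exact ⟨h1.1 ((htw2 s _ h4).2 h3), h2.1 h4⟩
    · rintro ⟨h3, h4⟩
      exact ⟨(htw2 s _ (h2.2 h4)).1 (h1.2 h3), h2.2 h4⟩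
  have hA2 : ∀ v, A (κ₂ v) = A v := by
    apply hAκ
    intro s v
    have h1 := hconj κ₂ b (a * b) h2b s v
    have h2 := hconj κ₂ a a h2a s v
    constructor
    · rintro ⟨h3, h4⟩
      exact ⟨h2.1 h3, h1.1 ((htw1 s _ h3).2 h4)⟩
    · rintro ⟨h3, h4⟩
      exact ⟨h2.2 h3, (htw1 s _ (h2.2 h3)).1 (h1.2 h4)⟩
  -- the three sets
  obtain ⟨S, hS⟩ : ∃ S : Equiv.Perm W → Finset W,
      ∀ g, S g = V.filter fun v => ∃ s, A v = s + 1 ∧ ¬ P g s v := ⟨_, fun _ => rfl⟩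
  have hScard : ∀ κ g g' : Equiv.Perm W, κ * g = g' * κ → (∀ x, κ x ∈ V ↔ x ∈ V) →
      (∀ v, A (κ v) = A v) → (S g).card = (S g').card := by
    intro κ g g' h hV hAk
    apply Finset.card_bij (fun v _ => κ v)
    · intro v hv
      rw [hS, mem_filter] at hv ⊢
      obtain ⟨h1, s, h2, h3⟩ := hv
      exact ⟨(hV v).2 h1, s, (hAk v).trans h2, fun h4 => h3 ((hconj κ g g' h s v).1 h4)⟩
    · intro v _ w _ hvw
      exact κ.injective hvw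
    · intro w hw
      rw [hS, mem_filter] at hw
      obtain ⟨h1, s, h2, h3⟩ := hw
      have e1 : κ (κ.symm w) = w := κ.apply_symm_apply w
      refine ⟨κ.symm w, ?_, e1⟩
      rw [hS, mem_filter]
      refine ⟨(hV _).1 (by rw [e1]; exact h1), s, ?_, ?_⟩
      · rw [← hAk, e1]
        exact h2
      · intro h4
        apply h3
        have h5 := (hconj κ g g' h s (κ.symm w)).2 h4
        rw [e1] at h5
        exact h5
  have hS1 : (S a).card = (S (a * b)).card := hScard κ₁ a (a * b) h1a hV1 hA1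
  have hS2 : (S b).card = (S (a * b)).card := hScard κ₂ b (a * b) h2b hV2 hA2
  have hthree : 2 * (V.filter fun v => A v ≠ 0).card ≤
      (S a).card + (S b).card + (S (a * b)).card := by
    rw [hS, hS, hS, Finset.card_filter, Finset.card_filter, Finset.card_filter,
      Finset.card_filter, Finset.mul_sum, ← Finset.sum_add_distrib, ← Finset.sum_add_distrib]
    apply Finset.sum_le_sum
    intro v _
    by_cases hv : A v ≠ 0
    · obtain ⟨s, hs⟩ := Nat.exists_eq_succ_of_ne_zero hv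
      have hs' : A v = s + 1 := hs
      have hlt : ¬ (P a s v ∧ P b s v) := by
        intro h
        have := hAle v s h
        omega
      have hmem : ∀ g : Equiv.Perm W, ¬ P g s v → (∃ s, A v = s + 1 ∧ ¬ P g s v) :=
        fun g h => ⟨s, hs', h⟩
      rw [if_pos hv]
      by_cases ha : P a s v
      · have hb : ¬ P b s v := fun h => hlt ⟨ha, h⟩
        have hc : ¬ P (a * b) s v := fun h => hb ((htw1 s v ha).1 h)
        rw [if_pos (hmem b hb), if_pos (hmem (a * b) hc)]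
        omega
      · rw [if_pos (hmem a ha)]
        by_cases hb : P b s v
        · have hc : ¬ P (a * b) s v := fun h => ha ((htw2 s v hb).1 h)
          rw [if_pos (hmem (a * b) hc)]
          omega
        · rw [if_pos (hmem b hb)]
          omega
    · rw [if_neg hv]
      omega
  refine ⟨A, S a, S b, ?_, ?_, ?_, ?_, ?_, ?_, by omega, by omega, ?_⟩
  · rw [hS]
    exact Finset.filter_subset _ _
  · rw [hS]
    exact Finset.filter_subset _ _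
  · intro v hv
    rw [hS, mem_filter] at hv
    obtain ⟨_, s, h2, h3⟩ := hv
    exact ⟨s, h2, fun h4 => h3 ((hP a s v).2 h4)⟩
  · intro v hv
    rw [hS, mem_filter] at hv
    obtain ⟨_, s, h2, h3⟩ := hv
    exact ⟨s, h2, fun h4 => h3 ((hP b s v).2 h4)⟩
  · intro v s h
    exact hAa v s fun h1 => h ((hP a s v).1 h1)
  · intro v s h
    exact hAb v s fun h1 => h ((hP b s v).1 h1)
  · intro v h0
    have h1 := hAspec v
    rw [h0, hP, hP, pow_zero, one_mul] at h1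
    exact h1

/-- elements of `S` which are coordinates of pairs in `D` -/
theorem card_coord {W Z : Type} [DecidableEq W] [DecidableEq Z] (V S : Finset W) (hSV : S ⊆ V)
    (D : Finset Z) (π : Z → W) (hDV : ∀ d ∈ D, π d ∈ V)
    (hD : ∀ d ∈ D, ∀ d' ∈ D, π d = π d' → d = d') :
    S.card + D.card ≤ (D.filter fun d => π d ∈ S).card + V.card := by
  have hi : (D.image π).card = D.card :=
    Finset.card_image_of_injOn fun d hd d' hd' h => hD d hd d' hd' h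
  have hi2 : D.image π ⊆ V := by
    intro x hx
    obtain ⟨d, hd, rfl⟩ := mem_image.1 hx
    exact hDV d hd
  have h1 : S ∩ D.image π ⊆ (D.filter fun d => π d ∈ S).image π := by
    intro x hx
    rw [mem_inter] at hx
    obtain ⟨d, hd, rfl⟩ := mem_image.1 hx.2
    exact mem_image_of_mem _ (mem_filter.2 ⟨hd, hx.1⟩)
  have h2 := (Finset.card_le_card h1).trans Finset.card_image_le
  have h3 := Finset.card_union_add_card_inter S (D.image π)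
  have h4 := Finset.card_le_card (Finset.union_subset hSV hi2)
  omega

/-- STEP Q -/
theorem hnn_count_both {W₁ W₂ : Type} [Fintype W₁] [DecidableEq W₁] [Fintype W₂] [DecidableEq W₂]
    (a₁ b₁ κ₁ κ₁' : Equiv.Perm W₁) (a₂ b₂ κ₂ κ₂' : Equiv.Perm W₂)
    (hab₁ : a₁ * b₁ = b₁ * a₁) (h1a₁ : κ₁ * a₁ = a₁ * b₁ * κ₁) (h1b₁ : κ₁ * b₁ = b₁ * κ₁)
    (h2b₁ : κ₁' * b₁ = a₁ * b₁ * κ₁') (h2a₁ : κ₁' * a₁ = a₁ * κ₁')
    (hab₂ : a₂ * b₂ = b₂ * a₂) (h1a₂ : κ₂ * a₂ = a₂ * b₂ * κ₂) (h1b₂ : κ₂ * b₂ = b₂ * κ₂)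
    (h2b₂ : κ₂' * b₂ = a₂ * b₂ * κ₂') (h2a₂ : κ₂' * a₂ = a₂ * κ₂') (p M e : ℕ)
    (hea₁ : a₁ ^ (p ^ e * M) = 1) (heb₁ : b₁ ^ (p ^ e * M) = 1)
    (hea₂ : a₂ ^ (p ^ e * M) = 1) (heb₂ : b₂ ^ (p ^ e * M) = 1)
    (V₁ : Finset W₁) (hV1 : ∀ x, κ₁ x ∈ V₁ ↔ x ∈ V₁) (hV1' : ∀ x, κ₁' x ∈ V₁ ↔ x ∈ V₁)
    (V₂ : Finset W₂) (hV2 : ∀ x, κ₂ x ∈ V₂ ↔ x ∈ V₂) (hV2' : ∀ x, κ₂' x ∈ V₂ ↔ x ∈ V₂)
    (D : Finset (W₁ × W₂)) (hDV : ∀ d ∈ D, d.1 ∈ V₁ ∧ d.2 ∈ V₂)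
    (hD1 : ∀ d ∈ D, ∀ d' ∈ D, d.1 = d'.1 → d = d')
    (hD2 : ∀ d ∈ D, ∀ d' ∈ D, d.2 = d'.2 → d = d')
    (hDa : ∀ d ∈ D, (a₁ d.1, (a₂ ^ p) d.2) ∈ D)
    (hDb : ∀ d ∈ D, ((b₁ ^ p) d.1, b₂ d.2) ∈ D) :
    (V₁.filter fun v => ¬ ((a₁ ^ M) v = v ∧ (b₁ ^ M) v = v)).card +
      (V₂.filter fun v => ¬ ((a₂ ^ M) v = v ∧ (b₂ ^ M) v = v)).card + 12 * D.card ≤
        6 * V₁.card + 6 * V₂.card := by
  classical
  obtain ⟨A₁, Sa₁, Sb₁, hSa₁, hSb₁, ha₁, hb₁, hAa₁, hAb₁, hca₁, hcb₁, hz₁⟩ :=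
    hnn_level a₁ b₁ κ₁ κ₁' hab₁ h1a₁ h1b₁ h2b₁ h2a₁ p M e hea₁ heb₁ V₁ hV1 hV1'
  obtain ⟨A₂, Sa₂, Sb₂, hSa₂, hSb₂, ha₂, hb₂, hAa₂, hAb₂, hca₂, hcb₂, hz₂⟩ :=
    hnn_level a₂ b₂ κ₂ κ₂' hab₂ h1a₂ h1b₂ h2b₂ h2a₂ p M e hea₂ heb₂ V₂ hV2 hV2'
  have hDan : ∀ n : ℕ, ∀ d ∈ D, ((a₁ ^ n) d.1, (a₂ ^ (p * n)) d.2) ∈ D := by
    intro n
    induction n with
    | zero =>
      intro d hd
      simpa using hd
    | succ n ih =>
      intro d hd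
      have h := hDa _ (ih d hd)
      have e1 : a₁ ^ (n + 1) = a₁ * a₁ ^ n := pow_succ' a₁ n
      have e2 : a₂ ^ (p * (n + 1)) = a₂ ^ p * a₂ ^ (p * n) := by rw [← pow_add]; ring_nf
      rw [e1, e2]
      exact h
  have hDbn : ∀ n : ℕ, ∀ d ∈ D, ((b₁ ^ (p * n)) d.1, (b₂ ^ n) d.2) ∈ D := by
    intro n
    induction n with
    | zero =>
      intro d hd
      simpa using hd
    | succ n ih =>
      intro d hd
      have h := hDb _ (ih d hd)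
      have e1 : b₂ ^ (n + 1) = b₂ * b₂ ^ n := pow_succ' b₂ n
      have e2 : b₁ ^ (p * (n + 1)) = b₁ ^ p * b₁ ^ (p * n) := by rw [← pow_add]; ring_nf
      rw [e1, e2]
      exact h
  have hup : ∀ s, ∀ d ∈ D, (a₂ ^ (p ^ (s + 1) * M)) d.2 = d.2 → (a₁ ^ (p ^ s * M)) d.1 = d.1 := by
    intro s d hd h1
    have h := hDan (p ^ s * M) d hd
    have e1 : p ^ (s + 1) * M = p * (p ^ s * M) := by ring
    rw [e1] at h1
    exact congrArg Prod.fst (hD2 _ h _ hd h1)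
  have hdown : ∀ s, ∀ d ∈ D, (b₁ ^ (p ^ (s + 1) * M)) d.1 = d.1 →
      (b₂ ^ (p ^ s * M)) d.2 = d.2 := by
    intro s d hd h1
    have h := hDbn (p ^ s * M) d hd
    have e1 : p ^ (s + 1) * M = p * (p ^ s * M) := by ring
    rw [e1] at h1
    exact congrArg Prod.snd (hD1 _ h _ hd h1)
  have hcnt1 := card_coord V₁ Sa₁ hSa₁ D Prod.fst (fun d hd => (hDV d hd).1) hD1
  have hcnt2 := card_coord V₂ Sb₂ hSb₂ D Prod.snd (fun d hd => (hDV d hd).2) hD2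
  have hd1 : ∀ d ∈ D, d.1 ∈ Sa₁ → A₁ d.1 < A₂ d.2 ∧ A₁ d.1 ≠ 0 := by
    intro d hd h
    obtain ⟨s, h2, h3⟩ := ha₁ _ h
    have h5 := hAa₂ d.2 (s + 1) fun h5 => h3 (hup s d hd h5)
    omega
  have hd2 : ∀ d ∈ D, d.2 ∈ Sb₂ → A₂ d.2 < A₁ d.1 ∧ A₂ d.2 ≠ 0 := by
    intro d hd h
    obtain ⟨s, h2, h3⟩ := hb₂ _ h
    have h5 := hAb₁ d.1 (s + 1) fun h5 => h3 (hdown s d hd h5)
    omega
  have hdisj : Disjoint (D.filter fun d => d.1 ∈ Sa₁) (D.filter fun d => d.2 ∈ Sb₂) := by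
    rw [Finset.disjoint_left]
    intro d h1 h2
    rw [mem_filter] at h1 h2
    have h3 := (hd1 d h1.1 h1.2).1
    have h4 := (hd2 d h2.1 h2.2).1
    omega
  have hle1 : (D.filter fun d => d.1 ∈ Sa₁).card + (D.filter fun d => d.2 ∈ Sb₂).card ≤
      (V₁.filter fun v => A₁ v ≠ 0).card := by
    rw [← Finset.card_union_of_disjoint hdisj]
    apply Finset.card_le_card_of_injOn Prod.fst
    · intro d hd
      rw [mem_coe, mem_union, mem_filter, mem_filter] at hd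
      rw [mem_coe, mem_filter]
      rcases hd with hd | hd
      · exact ⟨(hDV d hd.1).1, (hd1 d hd.1 hd.2).2⟩
      · have h1 := (hd2 d hd.1 hd.2).1
        exact ⟨(hDV d hd.1).1, by omega⟩
    · intro d hd d' hd' h
      rw [mem_coe, mem_union, mem_filter, mem_filter] at hd hd'
      have e1 : d ∈ D := by rcases hd with hd | hd <;> exact hd.1
      have e2 : d' ∈ D := by rcases hd' with hd | hd <;> exact hd.1
      exact hD1 d e1 d' e2 h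
  have hle2 : (D.filter fun d => d.1 ∈ Sa₁).card + (D.filter fun d => d.2 ∈ Sb₂).card ≤
      (V₂.filter fun v => A₂ v ≠ 0).card := by
    rw [← Finset.card_union_of_disjoint hdisj]
    apply Finset.card_le_card_of_injOn Prod.snd
    · intro d hd
      rw [mem_coe, mem_union, mem_filter, mem_filter] at hd
      rw [mem_coe, mem_filter]
      rcases hd with hd | hd
      · have h1 := (hd1 d hd.1 hd.2).1
        exact ⟨(hDV d hd.1).2, by omega⟩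
      · exact ⟨(hDV d hd.1).2, (hd2 d hd.1 hd.2).2⟩
    · intro d hd d' hd' h
      rw [mem_coe, mem_union, mem_filter, mem_filter] at hd hd'
      have e1 : d ∈ D := by rcases hd with hd | hd <;> exact hd.1
      have e2 : d' ∈ D := by rcases hd' with hd | hd <;> exact hd.1
      exact hD2 d e1 d' e2 h
  have hfin : (V₂.filter fun v => ¬ ((a₂ ^ M) v = v ∧ (b₂ ^ M) v = v)).card ≤
      (V₂.filter fun v => A₂ v ≠ 0).card := by
    apply Finset.card_le_card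
    intro v hv
    rw [mem_filter] at hv ⊢
    exact ⟨hv.1, fun h0 => hv.2 (hz₂ v h0)⟩
  have hfin1 : (V₁.filter fun v => ¬ ((a₁ ^ M) v = v ∧ (b₁ ^ M) v = v)).card ≤
      (V₁.filter fun v => A₁ v ≠ 0).card := by
    apply Finset.card_le_card
    intro v hv
    rw [mem_filter] at hv ⊢
    exact ⟨hv.1, fun h0 => hv.2 (hz₁ v h0)⟩
  omega

/-- STEP Q, the points of `V₂` -/
theorem hnn_count {W₁ W₂ : Type} [Fintype W₁] [DecidableEq W₁] [Fintype W₂] [DecidableEq W₂]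
    (a₁ b₁ κ₁ κ₁' : Equiv.Perm W₁) (a₂ b₂ κ₂ κ₂' : Equiv.Perm W₂)
    (hab₁ : a₁ * b₁ = b₁ * a₁) (h1a₁ : κ₁ * a₁ = a₁ * b₁ * κ₁) (h1b₁ : κ₁ * b₁ = b₁ * κ₁)
    (h2b₁ : κ₁' * b₁ = a₁ * b₁ * κ₁') (h2a₁ : κ₁' * a₁ = a₁ * κ₁')
    (hab₂ : a₂ * b₂ = b₂ * a₂) (h1a₂ : κ₂ * a₂ = a₂ * b₂ * κ₂) (h1b₂ : κ₂ * b₂ = b₂ * κ₂)
    (h2b₂ : κ₂' * b₂ = a₂ * b₂ * κ₂') (h2a₂ : κ₂' * a₂ = a₂ * κ₂') (p M e : ℕ)
    (hea₁ : a₁ ^ (p ^ e * M) = 1) (heb₁ : b₁ ^ (p ^ e * M) = 1)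
    (hea₂ : a₂ ^ (p ^ e * M) = 1) (heb₂ : b₂ ^ (p ^ e * M) = 1)
    (V₁ : Finset W₁) (hV1 : ∀ x, κ₁ x ∈ V₁ ↔ x ∈ V₁) (hV1' : ∀ x, κ₁' x ∈ V₁ ↔ x ∈ V₁)
    (V₂ : Finset W₂) (hV2 : ∀ x, κ₂ x ∈ V₂ ↔ x ∈ V₂) (hV2' : ∀ x, κ₂' x ∈ V₂ ↔ x ∈ V₂)
    (D : Finset (W₁ × W₂)) (hDV : ∀ d ∈ D, d.1 ∈ V₁ ∧ d.2 ∈ V₂)
    (hD1 : ∀ d ∈ D, ∀ d' ∈ D, d.1 = d'.1 → d = d')
    (hD2 : ∀ d ∈ D, ∀ d' ∈ D, d.2 = d'.2 → d = d')
    (hDa : ∀ d ∈ D, (a₁ d.1, (a₂ ^ p) d.2) ∈ D)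
    (hDb : ∀ d ∈ D, ((b₁ ^ p) d.1, b₂ d.2) ∈ D) :
    (V₂.filter fun v => ¬ ((a₂ ^ M) v = v ∧ (b₂ ^ M) v = v)).card + 12 * D.card ≤
      6 * V₁.card + 6 * V₂.card := by
  have h := hnn_count_both a₁ b₁ κ₁ κ₁' a₂ b₂ κ₂ κ₂' hab₁ h1a₁ h1b₁ h2b₁ h2a₁ hab₂ h1a₂ h1b₂
    h2b₂ h2a₂ p M e hea₁ heb₁ hea₂ heb₂ V₁ hV1 hV1' V₂ hV2 hV2' D hDV hD1 hD2 hDa hDb
  omega

end Pool.Agent.FS84
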