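import Pool.Agent.FS84.StepB

/-!
A permutation which almost intertwines two almost-actions of a group `C` (the restriction of an
almost-action of a flexibly stable group `G` to a subgroup `C` and its pullback under a homomorphism
`C → G`) is close to a `C`-invariant relation, injective both ways, on a finite `G`-set.
-/

set_option autoImplicit false
open Finset

namespace Pool.Agent.FS84

theorem card_fiber_le {α β : Type} [Fintype α] [DecidableEq β] (P : α → Prop) [DecidablePred P]
    (h : α → β) (hh : Function.Injective h) (S : Finset β) (hP : ∀ x, P x → h x ∈ S) :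
    ((univ.filter P).card : ℝ) ≤ S.card := by
  have h1 : (univ.filter P).card ≤ S.card := by
    apply Finset.card_le_card_of_injOn h
    · intro x hx
      have hx' : x ∈ univ.filter P := hx
      exact hP x (mem_filter.1 hx').2
    · intro x _ y _ hxy
      exact hh hxy
  exact_mod_cast h1

theorem card_filter_perm {N : ℕ} (τ : Equiv.Perm (Fin N)) (P : Fin N → Prop) [DecidablePred P] :
    (univ.filter fun x => P (τ x)).card = (univ.filter P).card := by
  apply Finset.card_bij (fun x _ => τ x)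
  · intro x hx
    rw [mem_filter] at hx ⊢
    exact ⟨mem_univ _, hx.2⟩
  · intro x _ y _ h
    exact τ.injective h
  · intro y hy
    rw [mem_filter] at hy
    refine ⟨τ.symm y, ?_, τ.apply_symm_apply y⟩
    rw [mem_filter, τ.apply_symm_apply]
    exact ⟨mem_univ _, hy.2⟩

/-- the unique part of an invariant relation inside an invariant set of points -/
theorem hns_count {N m : ℕ} (ι : Fin N → Fin m) (hι : Function.Injective ι)
    (τ : Equiv.Perm (Fin N)) (V : Finset (Fin m)) (D0 : Finset (Fin m × Fin m)) :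
    ((univ.filter fun x : Fin N => (ι x, ι (τ x)) ∉ D0.filter fun d => d.1 ∈ V ∧ d.2 ∈ V ∧
      ∀ d' ∈ D0, (d'.1 = d.1 ∨ d'.2 = d.2) → d' = d).card : ℝ) ≤
      (((univ.image fun x => (ι x, ι (τ x))) \ D0).card : ℝ) +
        2 * ((univ.image ι \ V).card : ℝ) +
        2 * ((D0 \ univ.image fun x => (ι x, ι (τ x))).card : ℝ) := by
  classical
  have hpt : Function.Injective fun x : Fin N => (ι x, ι (τ x)) := by
    intro x y h
    exact hι (Prod.ext_iff.1 h).1
  have hιτ : Function.Injective fun x : Fin N => ι (τ x) := by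
    intro x y h
    exact τ.injective (hι h)
  have hsub : (univ.filter fun x : Fin N => (ι x, ι (τ x)) ∉ D0.filter fun d => d.1 ∈ V ∧ d.2 ∈ V ∧
      ∀ d' ∈ D0, (d'.1 = d.1 ∨ d'.2 = d.2) → d' = d) ⊆
      ((((univ.filter fun x : Fin N => (ι x, ι (τ x)) ∉ D0) ∪
        univ.filter fun x : Fin N => ι x ∉ V) ∪
        univ.filter fun x : Fin N => ι (τ x) ∉ V) ∪
        univ.filter fun x : Fin N =>
          ι x ∈ (D0 \ univ.image fun x => (ι x, ι (τ x))).image Prod.fst) ∪
        univ.filter fun x : Fin N =>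
          ι (τ x) ∈ (D0 \ univ.image fun x => (ι x, ι (τ x))).image Prod.snd := by
    intro x hx
    rw [mem_filter] at hx
    by_contra hc
    simp only [mem_union, mem_filter, mem_univ, true_and, not_or, not_not] at hc
    obtain ⟨⟨⟨⟨h1, h2⟩, h3⟩, h4⟩, h5⟩ := hc
    apply hx.2
    rw [mem_filter]
    refine ⟨h1, h2, h3, ?_⟩
    intro d' hd' hor
    by_cases hG : d' ∈ univ.image fun x => (ι x, ι (τ x))
    · rw [mem_image] at hG
      obtain ⟨y, _, rfl⟩ := hG
      rcases hor with h | h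
      · have h6 : y = x := hι h
        rw [h6]
      · have h6 : y = x := hιτ h
        rw [h6]
    · exfalso
      rcases hor with h | h
      · exact h4 (mem_image.2 ⟨d', mem_sdiff.2 ⟨hd', hG⟩, h⟩)
      · exact h5 (mem_image.2 ⟨d', mem_sdiff.2 ⟨hd', hG⟩, h⟩)
  have h0 := Finset.card_le_card hsub
  have hu1 := Finset.card_union_le ((((univ.filter fun x : Fin N => (ι x, ι (τ x)) ∉ D0) ∪
        univ.filter fun x : Fin N => ι x ∉ V) ∪
        univ.filter fun x : Fin N => ι (τ x) ∉ V) ∪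
        univ.filter fun x : Fin N =>
          ι x ∈ (D0 \ univ.image fun x => (ι x, ι (τ x))).image Prod.fst)
        (univ.filter fun x : Fin N =>
          ι (τ x) ∈ (D0 \ univ.image fun x => (ι x, ι (τ x))).image Prod.snd)
  have hu2 := Finset.card_union_le (((univ.filter fun x : Fin N => (ι x, ι (τ x)) ∉ D0) ∪
        univ.filter fun x : Fin N => ι x ∉ V) ∪
        univ.filter fun x : Fin N => ι (τ x) ∉ V)
        (univ.filter fun x : Fin N =>
          ι x ∈ (D0 \ univ.image fun x => (ι x, ι (τ x))).image Prod.fst)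
  have hu3 := Finset.card_union_le ((univ.filter fun x : Fin N => (ι x, ι (τ x)) ∉ D0) ∪
        univ.filter fun x : Fin N => ι x ∉ V)
        (univ.filter fun x : Fin N => ι (τ x) ∉ V)
  have hu4 := Finset.card_union_le (univ.filter fun x : Fin N => (ι x, ι (τ x)) ∉ D0)
        (univ.filter fun x : Fin N => ι x ∉ V)
  have hR : ((univ.filter fun x : Fin N => (ι x, ι (τ x)) ∉ D0.filter fun d => d.1 ∈ V ∧ d.2 ∈ V ∧
      ∀ d' ∈ D0, (d'.1 = d.1 ∨ d'.2 = d.2) → d' = d).card : ℝ) ≤
      ((univ.filter fun x : Fin N => (ι x, ι (τ x)) ∉ D0).card : ℝ) +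
        ((univ.filter fun x : Fin N => ι x ∉ V).card : ℝ) +
        ((univ.filter fun x : Fin N => ι (τ x) ∉ V).card : ℝ) +
        ((univ.filter fun x : Fin N =>
          ι x ∈ (D0 \ univ.image fun x => (ι x, ι (τ x))).image Prod.fst).card : ℝ) +
        ((univ.filter fun x : Fin N =>
          ι (τ x) ∈ (D0 \ univ.image fun x => (ι x, ι (τ x))).image Prod.snd).card : ℝ) := by
    have h9 := h0.trans (hu1.trans (Nat.add_le_add_right (hu2.trans (Nat.add_le_add_right
      (hu3.trans (Nat.add_le_add_right hu4 _)) _)) _))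
    exact_mod_cast h9
  have e1 := card_fiber_le (fun x : Fin N => (ι x, ι (τ x)) ∉ D0) (fun x => (ι x, ι (τ x))) hpt
    ((univ.image fun x => (ι x, ι (τ x))) \ D0) (fun x hx => mem_sdiff.2
      ⟨mem_image.2 ⟨x, mem_univ _, rfl⟩, hx⟩)
  have e2 := card_fiber_le (fun x : Fin N => ι x ∉ V) ι hι (univ.image ι \ V)
    (fun x hx => mem_sdiff.2 ⟨mem_image.2 ⟨x, mem_univ _, rfl⟩, hx⟩)
  have e3 := card_fiber_le (fun x : Fin N => ι (τ x) ∉ V) (fun x => ι (τ x)) hιτ (univ.image ι \ V)
    (fun x hx => mem_sdiff.2 ⟨mem_image.2 ⟨τ x, mem_univ _, rfl⟩, hx⟩)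
  have e4 := card_fiber_le (fun x : Fin N =>
    ι x ∈ (D0 \ univ.image fun x => (ι x, ι (τ x))).image Prod.fst) ι hι
    ((D0 \ univ.image fun x => (ι x, ι (τ x))).image Prod.fst) (fun x hx => hx)
  have e5 := card_fiber_le (fun x : Fin N =>
    ι (τ x) ∈ (D0 \ univ.image fun x => (ι x, ι (τ x))).image Prod.snd) (fun x => ι (τ x)) hιτ
    ((D0 \ univ.image fun x => (ι x, ι (τ x))).image Prod.snd) (fun x hx => hx)
  have e6 : (((D0 \ univ.image fun x => (ι x, ι (τ x))).image Prod.fst).card : ℝ) ≤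
      ((D0 \ univ.image fun x => (ι x, ι (τ x))).card : ℝ) := by
    exact_mod_cast Finset.card_image_le
  have e7 : (((D0 \ univ.image fun x => (ι x, ι (τ x))).image Prod.snd).card : ℝ) ≤
      ((D0 \ univ.image fun x => (ι x, ι (τ x))).card : ℝ) := by
    exact_mod_cast Finset.card_image_le
  linarith

/-- STEP 2 -/
theorem hnn_model {G : Type} [Group G] [Countable G] (hG : HasNear G) (hst : FlexStable G)
    {C : Subgroup G} (hC : HasNear C) (φ : C →* G) (F1 : Finset G) (η : ℝ) (hη : 0 < η) :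
    ∃ (E : Finset G) (δ : ℝ), 0 < δ ∧
      ∀ (N : ℕ) (f : G → Equiv.Perm (Fin N)) (τ : Equiv.Perm (Fin N)), 0 < N →
      (∀ g ∈ E, ∀ h ∈ E,
        ((univ.filter fun x => f g (f h x) ≠ f (g * h) x).card : ℝ) ≤ δ * N) →
      (∀ c : C, (c : G) ∈ E →
        ((univ.filter fun x => τ (f c x) ≠ f (φ c) (τ x)).card : ℝ) ≤ δ * N) →
      ∃ (m : ℕ) (ρ : G →* Equiv.Perm (Fin m)) (ι : Fin N → Fin m) (V : Finset (Fin m))
        (D : Finset (Fin m × Fin m)),
        Function.Injective ι ∧ Inv ρ V ∧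
        (∀ g ∈ F1, ((univ.filter fun x => ρ g (ι x) ≠ ι (f g x)).card : ℝ) ≤ η * N) ∧
        (∀ d ∈ D, d.1 ∈ V ∧ d.2 ∈ V) ∧ (∀ d ∈ D, ∀ d' ∈ D, d.1 = d'.1 → d = d') ∧
        (∀ d ∈ D, ∀ d' ∈ D, d.2 = d'.2 → d = d') ∧
        (∀ (c : C), ∀ d ∈ D, (ρ c d.1, ρ (φ c) d.2) ∈ D) ∧
        ((univ.filter fun x => (ι x, ι (τ x)) ∉ D).card : ℝ) ≤ η * N ∧
        (V.card : ℝ) ≤ (1 + η) * N := by
  classical
  obtain ⟨F, CG, hCG, hnG⟩ := hG
  obtain ⟨F2, CC, hCC, hnC⟩ := hC
  set K : ℝ := CG + CC * ((F2.card : ℝ) + 1) + 1 with hK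
  have hF2 : (0 : ℝ) ≤ F2.card := Nat.cast_nonneg _
  have hCk : 0 < CC * ((F2.card : ℝ) + 1) := by positivity
  have hKpos : 0 < K := by linarith
  set s : ℝ := η / (8 * K) with hs
  have hspos : 0 < s := by positivity
  have hsK : s * K = η / 8 := by
    rw [hs]
    field_simp
  have hs1 : s ≤ η / 8 := by
    have : s * 1 ≤ s * K := mul_le_mul_of_nonneg_left (by linarith) hspos.le
    linarith
  have hs2 : CG * s ≤ η / 8 := by
    have : s * CG ≤ s * K := mul_le_mul_of_nonneg_left (by linarith) hspos.le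
    linarith
  have hs3 : CC * F2.card * s ≤ s * K - CG * s := by
    rw [hK]
    nlinarith
  obtain ⟨E0, δ0, hδ0, hff⟩ := finite_form hst
    (((F ∪ F1) ∪ F2.image fun c : C => (c : G)) ∪ F2.image fun c => φ c) s hspos
  refine ⟨E0 ∪ F2.image fun c : C => (c : G), min δ0 s, lt_min hδ0 hspos, ?_⟩
  intro N f τ hN hmul hτ
  have hN' : (0 : ℝ) < N := by exact_mod_cast hN
  obtain ⟨m, ρ, ι, hι, hsum⟩ := hff N f hN (by
    intro g hg h hh
    refine (hmul g (mem_union_left _ hg) h (mem_union_left _ hh)).trans ?_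
    exact mul_le_mul_of_nonneg_right (min_le_left _ _) hN'.le)
  have hone : ∀ g ∈ (((F ∪ F1) ∪ F2.image fun c : C => (c : G)) ∪ F2.image fun c => φ c),
      ((univ.filter fun x => ρ g (ι x) ≠ ι (f g x)).card : ℝ) ≤ s * N := by
    intro g hg
    refine le_trans ?_ hsum
    exact Finset.single_le_sum (f := fun g =>
      ((univ.filter fun x => ρ g (ι x) ≠ ι (f g x)).card : ℝ))
      (fun _ _ => Nat.cast_nonneg _) hg
  -- the invariant set of points
  obtain ⟨V, hV, hVc⟩ := hnG (Fin m) ρ (univ.image ι)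
  have hVs : ∑ a ∈ F, (((univ.image ι).filter fun x => ρ a x ∉ univ.image ι).card : ℝ) ≤ s * N := by
    refine le_trans ?_ hsum
    refine le_trans ?_ (Finset.sum_le_sum_of_subset_of_nonneg (s := F)
      (fun a ha => mem_union_left _ (mem_union_left _ (mem_union_left _ ha)))
      (fun _ _ _ => Nat.cast_nonneg _))
    apply Finset.sum_le_sum
    intro a _
    have h1 : ((univ.image ι).filter fun x => ρ a x ∉ univ.image ι) ⊆
        (univ.filter fun x => ρ a (ι x) ≠ ι (f a x)).image ι := by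
      intro y hy
      rw [mem_filter, mem_image] at hy
      obtain ⟨⟨x, _, rfl⟩, hy2⟩ := hy
      rw [mem_image]
      refine ⟨x, ?_, rfl⟩
      rw [mem_filter]
      refine ⟨mem_univ _, fun hc => hy2 ?_⟩
      rw [hc]
      exact mem_image.2 ⟨_, mem_univ _, rfl⟩
    have h2 := (Finset.card_le_card h1).trans Finset.card_image_le
    exact_mod_cast h2
  have hVb : (((univ.image ι) \ V).card : ℝ) + ((V \ univ.image ι).card : ℝ) ≤ CG * s * N := by
    refine hVc.trans ?_
    rw [mul_assoc]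
    exact mul_le_mul_of_nonneg_left hVs hCG.le
  -- the invariant relation
  obtain ⟨D0, hD0, hDc⟩ := hnC (Fin m × Fin m) (pAct (ρ.comp C.subtype) (ρ.comp φ))
    (univ.image fun x => (ι x, ι (τ x)))
  have hσ : ∀ (c : C) (d : Fin m × Fin m),
      pAct (ρ.comp C.subtype) (ρ.comp φ) c d = (ρ c d.1, ρ (φ c) d.2) := by
    intro c d
    rfl
  have hDs : ∑ c ∈ F2, (((univ.image fun x => (ι x, ι (τ x))).filter fun d =>
      pAct (ρ.comp C.subtype) (ρ.comp φ) c d ∉ univ.image fun x => (ι x, ι (τ x))).card : ℝ) ≤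
      F2.card * (3 * (s * N)) := by
    rw [← nsmul_eq_mul, ← Finset.sum_const]
    apply Finset.sum_le_sum
    intro c hc
    have hcE : (c : G) ∈ E0 ∪ F2.image fun c : C => (c : G) :=
      mem_union_right _ (mem_image.2 ⟨c, hc, rfl⟩)
    have a1 := hone (c : G) (mem_union_left _ (mem_union_right _ (mem_image.2 ⟨c, hc, rfl⟩)))
    have a2 := hone (φ c) (mem_union_right _ (mem_image.2 ⟨c, hc, rfl⟩))
    have a3 := (hτ c hcE).trans (mul_le_mul_of_nonneg_right (min_le_right δ0 s) hN'.le)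
    rw [← card_filter_perm τ] at a2
    have h1 : ((univ.image fun x => (ι x, ι (τ x))).filter fun d =>
        pAct (ρ.comp C.subtype) (ρ.comp φ) c d ∉ univ.image fun x => (ι x, ι (τ x))) ⊆
        (((univ.filter fun x => ρ (c : G) (ι x) ≠ ι (f c x)) ∪
          univ.filter fun x => ρ (φ c) (ι (τ x)) ≠ ι (f (φ c) (τ x))) ∪
          univ.filter fun x => τ (f c x) ≠ f (φ c) (τ x)).image fun x => (ι x, ι (τ x)) := by
      intro d hd
      rw [mem_filter, mem_image] at hd
      obtain ⟨⟨x, _, rfl⟩, hd2⟩ := hd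
      rw [mem_image]
      refine ⟨x, ?_, rfl⟩
      by_contra hcon
      simp only [mem_union, mem_filter, mem_univ, true_and, not_or, not_not] at hcon
      obtain ⟨⟨b1, b2⟩, b3⟩ := hcon
      apply hd2
      rw [hσ, mem_image]
      refine ⟨f c x, mem_univ _, ?_⟩
      change (ι (f c x), ι (τ (f c x))) = (ρ c (ι x), ρ (φ c) (ι (τ x)))
      rw [b1, b2, b3]
    have h2 := (Finset.card_le_card h1).trans Finset.card_image_le
    have h3 := h2.trans ((Finset.card_union_le _ _).trans
      (Nat.add_le_add_right (Finset.card_union_le _ _) _))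
    have h4 : (((univ.image fun x => (ι x, ι (τ x))).filter fun d =>
        pAct (ρ.comp C.subtype) (ρ.comp φ) c d ∉ univ.image fun x => (ι x, ι (τ x))).card : ℝ) ≤
        ((univ.filter fun x => ρ (c : G) (ι x) ≠ ι (f c x)).card : ℝ) +
        ((univ.filter fun x => ρ (φ c) (ι (τ x)) ≠ ι (f (φ c) (τ x))).card : ℝ) +
        ((univ.filter fun x => τ (f c x) ≠ f (φ c) (τ x)).card : ℝ) := by
      exact_mod_cast h3
    linarith
  have hDb : (((univ.image fun x => (ι x, ι (τ x))) \ D0).card : ℝ) +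
      ((D0 \ univ.image fun x => (ι x, ι (τ x))).card : ℝ) ≤ 3 * (CC * F2.card * s) * N := by
    refine hDc.trans ?_
    refine (mul_le_mul_of_nonneg_left hDs hCC.le).trans (le_of_eq ?_)
    ring
  refine ⟨m, ρ, ι, V, D0.filter fun d => d.1 ∈ V ∧ d.2 ∈ V ∧
      ∀ d' ∈ D0, (d'.1 = d.1 ∨ d'.2 = d.2) → d' = d, hι, hV, ?_, ?_, ?_, ?_, ?_, ?_, ?_⟩
  · intro g hg
    refine (hone g (mem_union_left _ (mem_union_left _ (mem_union_right _ hg)))).trans ?_
    exact mul_le_mul_of_nonneg_right (by linarith) hN'.le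
  · intro d hd
    rw [mem_filter] at hd
    exact ⟨hd.2.1, hd.2.2.1⟩
  · intro d hd d' hd' h
    rw [mem_filter] at hd hd'
    exact hd'.2.2.2 d hd.1 (Or.inl h)
  · intro d hd d' hd' h
    rw [mem_filter] at hd hd'
    exact hd'.2.2.2 d hd.1 (Or.inr h)
  · intro c d hd
    rw [mem_filter] at hd ⊢
    obtain ⟨h1, h2, h3, h4⟩ := hd
    refine ⟨?_, (hV _ _).2 h2, (hV _ _).2 h3, ?_⟩
    · have := (hD0 c d).2 h1
      rwa [hσ] at this
    · intro d' hd' hor
      have h5 : pAct (ρ.comp C.subtype) (ρ.comp φ) c⁻¹ d' ∈ D0 := (hD0 c⁻¹ d').2 hd'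
      have h6 : pAct (ρ.comp C.subtype) (ρ.comp φ) c⁻¹ d' = d := by
        apply h4 _ h5
        rw [hσ]
        rcases hor with h | h
        · left
          change ρ ((c⁻¹ : C) : G) d'.1 = d.1
          rw [h]
          change ρ ((c⁻¹ : C) : G) (ρ (c : G) d.1) = d.1
          rw [← Equiv.Perm.mul_apply, ← map_mul]
          simp
        · right
          change ρ (φ c⁻¹) d'.2 = d.2
          rw [h]
          change ρ (φ c⁻¹) (ρ (φ c) d.2) = d.2
          rw [← Equiv.Perm.mul_apply, ← map_mul, ← map_mul]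
          simp
      have h7 : d' = pAct (ρ.comp C.subtype) (ρ.comp φ) c d := by
        rw [← h6, ← Equiv.Perm.mul_apply, ← map_mul]
        simp
      rw [h7, hσ]
  · refine (hns_count ι hι τ V D0).trans ?_
    have n1 : (0 : ℝ) ≤ (((univ.image fun x => (ι x, ι (τ x))) \ D0).card : ℝ) :=
      Nat.cast_nonneg _
    have n2 : (0 : ℝ) ≤ ((V \ univ.image ι).card : ℝ) := Nat.cast_nonneg _
    have h8 : (3 * (CC * F2.card * s) * 2 + 2 * (CG * s)) * N ≤ η * N := by
      apply mul_le_mul_of_nonneg_right _ hN'.le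
      nlinarith
    nlinarith
  · have h1 : (V.card : ℝ) ≤ ((V \ univ.image ι).card : ℝ) + N := by
      have h2 := Finset.card_sdiff_add_card_inter V (univ.image ι)
      have h3 : (V ∩ univ.image ι).card ≤ N := by
        refine (Finset.card_le_card Finset.inter_subset_right).trans ?_
        refine Finset.card_image_le.trans ?_
        simp
      have h4 : V.card ≤ (V \ univ.image ι).card + N := by omega
      exact_mod_cast h4
    have n1 : (0 : ℝ) ≤ ((univ.image ι \ V).card : ℝ) := Nat.cast_nonneg _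
    have h5 : CG * s * N ≤ η * N := mul_le_mul_of_nonneg_right (by linarith) hN'.le
    nlinarith

end Pool.Agent.FS84
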