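import Pool.Agent.FS84.Descend

/-!
The approximate descent of a small cochain: the majority over the fibres.
-/

set_option autoImplicit false
open Finset

namespace Pool.Agent.FS84

section alg

variable {A : Type} [AddCommGroup A]

theorem alg7 (z z' z'' b b' b'' : A) :
    z'' + -(z' + z) + (b'' + -(b' + b)) = z'' + b'' + -((z' + b') + (z + b)) := by abel

theorem alg8 (u v w : A) : u + -w = (u + -v) + (v + -w) := by abel

end alg

variable {G : Type} [Group G] {Y Q A : Type} [Group Q] [CommGroup A]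

/-- LEMMA 2 with the bound of the support -/
theorem small_cob2 [Fintype Y] [Fintype A] (F : Finset G) (C : ℝ)
    (hnear : ∀ (X : Type) [Fintype X] [DecidableEq X]
      (ρ : G →* Equiv.Perm X) (A : Finset X), ∃ B : Finset X, Inv ρ B ∧
        ((A \ B).card + (B \ A).card : ℝ) ≤
          C * ∑ a ∈ F, ((A.filter fun x => ρ a x ∉ A).card : ℝ))
    [DecidableEq A]
    (τ : G →* Equiv.Perm Y) (hτ : Trans τ) (z : G → Y → A) (hz : IsCoc τ z)
    (hsmall : C * ∑ a ∈ F, ((univ.filter fun y => z a y ≠ 1).card : ℝ) < Fintype.card Y) :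
    ∃ b : Y → A, (∀ g y, z g y * b y = b (τ g y)) ∧
      ((univ.filter fun y => b y ≠ 1).card : ℝ) ≤
        C * ∑ a ∈ F, ((univ.filter fun y => z a y ≠ 1).card : ℝ) := by
  classical
  set P : Finset (Y × A) := univ.filter fun p => p.2 = 1 with hP
  obtain ⟨B, hB, hcard⟩ := hnear (Y × A) (twist τ z hz) P
  have hPm : ∀ y t, (y, t) ∈ P ↔ t = 1 := by
    intro y t
    simp [hP]
  have hle : ∀ a, ((P.filter fun p => twist τ z hz a p ∉ P).card : ℝ) =
      ((univ.filter fun y => z a y ≠ 1).card : ℝ) := by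
    intro a
    congr 1
    apply Finset.card_bij (fun p _ => p.1)
    · rintro ⟨y, t⟩ hp
      rw [mem_filter, hPm, twist_apply, hPm] at hp
      rw [mem_filter]
      refine ⟨mem_univ _, ?_⟩
      intro h
      apply hp.2
      rw [hp.1, mul_one]
      exact h
    · rintro ⟨y, t⟩ hp ⟨y', t'⟩ hp' h
      rw [mem_filter, hPm] at hp hp'
      simp only at h
      rw [hp.1, hp'.1, h]
    · intro y hy
      rw [mem_filter] at hy
      refine ⟨(y, 1), ?_, rfl⟩
      rw [mem_filter, hPm, twist_apply, hPm, mul_one]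
      exact ⟨rfl, hy.2⟩
  rw [Finset.sum_congr rfl fun a _ => hle a] at hcard
  have hlt : (P \ B).card + (B \ P).card < Fintype.card Y := by
    have : ((P \ B).card + (B \ P).card : ℝ) < Fintype.card Y := lt_of_le_of_lt hcard hsmall
    exact_mod_cast this
  obtain ⟨y0, hy0⟩ := exists_good (π := (Prod.fst : Y × A → Y)) P B hlt
  have h0 : ∀ s, (y0, s) ∈ B ↔ s = 1 := fun s => (hy0 (y0, s) rfl).trans (hPm y0 s)
  have h1 : ∀ y, ∃ b, ∀ t, (y, t) ∈ B ↔ t = b := by
    intro y
    obtain ⟨g, rfl⟩ := hτ y0 y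
    refine ⟨z g y0, ?_⟩
    intro t
    have h2 := hB g (y0, (z g y0)⁻¹ * t)
    rw [twist_apply, mul_inv_cancel_left, h0] at h2
    rw [h2, inv_mul_eq_one]
    exact eq_comm
  choose b hb using h1
  refine ⟨b, ?_, ?_⟩
  · intro g y
    have h2 := hB g (y, b y)
    rw [twist_apply, hb, hb] at h2
    exact h2.2 rfl
  · have h2 : (univ.filter fun y => b y ≠ 1).card ≤ (P \ B).card := by
      apply Finset.card_le_card_of_injOn (fun y => (y, (1 : A)))
      · intro y hy
        have hy := (mem_filter.1 hy).2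
        rw [Finset.mem_coe, mem_sdiff, hPm, hb]
        exact ⟨rfl, fun h => hy h.symm⟩
      · intro y _ y' _ h
        exact congrArg Prod.fst h
    have h3 : ((univ.filter fun y => b y ≠ 1).card : ℝ) ≤ (P \ B).card := by exact_mod_cast h2
    have h4 : (0 : ℝ) ≤ (B \ P).card := Nat.cast_nonneg _
    linarith

/-- the approximate cocycle identity of the `b` -/
theorem approx_bb [Fintype Q] [DecidableEq Q] [Fintype A] [DecidableEq A] (F : Finset G) (C : ℝ)
    (hC : 0 ≤ C)
    (hnear : ∀ (X : Type) [Fintype X] [DecidableEq X]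
      (ρ : G →* Equiv.Perm X) (A : Finset X), ∃ B : Finset X, Inv ρ B ∧
        ((A \ B).card + (B \ A).card : ℝ) ≤
          C * ∑ a ∈ F, ((A.filter fun x => ρ a x ∉ A).card : ℝ))
    (q : G →* Q) (hq : Function.Surjective q) (c : G → Q → A) (d d' : Q)
    (z z' z'' : G → Q → A) (b b' b'' : Q → A)
    (hb : ∀ g x, z g x * b x = b (lact q g x)) (hb' : ∀ g x, z' g x * b' x = b' (lact q g x))
    (hb'' : ∀ g x, z'' g x * b'' x = b'' (lact q g x)) (t : ℝ)
    (h1 : ∀ a ∈ F, ((univ.filter fun x => z a x ≠ c a (x * d) * (c a x)⁻¹).card : ℝ) ≤ t)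
    (h2 : ∀ a ∈ F, ((univ.filter fun x => z' a x ≠ c a (x * d') * (c a x)⁻¹).card : ℝ) ≤ t)
    (h3 : ∀ a ∈ F, ((univ.filter fun x => z'' a x ≠ c a (x * (d * d')) * (c a x)⁻¹).card : ℝ) ≤ t)
    (hs : 4 * ((univ.filter fun x => b x ≠ 1).card : ℝ) ≤ Fintype.card Q)
    (hs' : 4 * ((univ.filter fun x => b' x ≠ 1).card : ℝ) ≤ Fintype.card Q)
    (hs'' : 4 * ((univ.filter fun x => b'' x ≠ 1).card : ℝ) ≤ Fintype.card Q)
    (ht : 4 * (C * (F.card * (3 * t))) < Fintype.card Q) :
    ((univ.filter fun x => b'' x ≠ b' (x * d) * b x).card : ℝ) ≤ C * (F.card * (3 * t)) := by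
  classical
  have htr := lact_trans q hq
  obtain ⟨ζ, hζ⟩ : ∃ ζ : G → Q → A, ∀ g x, ζ g x = z'' g x * (z' g (x * d) * z g x)⁻¹ :=
    ⟨_, fun _ _ => rfl⟩
  obtain ⟨w, hw⟩ : ∃ w : Q → A, ∀ x, w x = b'' x * (b' (x * d) * b x)⁻¹ := ⟨_, fun _ => rfl⟩
  have hζw : ∀ g x, ζ g x * w x = w (lact q g x) := by
    intro g x
    rw [hζ, hw, hw, ← lact_mul, ← hb'' g x, ← hb' g (x * d), ← hb g x]
    exact alg7 (A := Additive A) _ _ _ _ _ _
  have hζc : IsCoc (lact q) ζ := by
    intro g h x
    have e1 : ζ (g * h) x = w (lact q (g * h) x) * (w x)⁻¹ := by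
      rw [← hζw, mul_inv_cancel_right]
    have e2 : ζ g (lact q h x) = w (lact q g (lact q h x)) * (w (lact q h x))⁻¹ := by
      rw [← hζw g, mul_inv_cancel_right]
    have e3 : ζ h x = w (lact q h x) * (w x)⁻¹ := by
      rw [← hζw h, mul_inv_cancel_right]
    rw [e1, e2, e3, map_mul, Equiv.Perm.mul_apply]
    exact alg8 (A := Additive A) _ _ _
  have hζs : ∀ a ∈ F, ((univ.filter fun x => ζ a x ≠ 1).card : ℝ) ≤ 3 * t := by
    intro a ha
    have e1 : (univ.filter fun x => ζ a x ≠ 1) ⊆
        ((univ.filter fun x => z'' a x ≠ c a (x * (d * d')) * (c a x)⁻¹) ∪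
          (univ.filter fun x => z' a (x * d) ≠ c a (x * d * d') * (c a (x * d))⁻¹)) ∪
          (univ.filter fun x => z a x ≠ c a (x * d) * (c a x)⁻¹) := by
      intro x hx
      rw [mem_filter] at hx
      rw [mem_union, mem_union, mem_filter, mem_filter, mem_filter]
      by_contra hc
      push Not at hc
      apply hx.2
      rw [hζ, hc.1.1 (mem_univ _), hc.1.2 (mem_univ _), hc.2 (mem_univ _), mul_assoc x d d',
        mul_inv_eq_one]
      exact alg8 (A := Additive A) _ _ _
    have e2 := (Finset.card_le_card e1).trans (Finset.card_union_le _ _)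
    have e3 := Finset.card_union_le
      (univ.filter fun x => z'' a x ≠ c a (x * (d * d')) * (c a x)⁻¹)
      (univ.filter fun x => z' a (x * d) ≠ c a (x * d * d') * (c a (x * d))⁻¹)
    have e4 := card_shift (fun x => z' a x ≠ c a (x * d') * (c a x)⁻¹) d
    have e5 : (univ.filter fun x => ζ a x ≠ 1).card ≤
        (univ.filter fun x => z'' a x ≠ c a (x * (d * d')) * (c a x)⁻¹).card +
          (univ.filter fun x => z' a x ≠ c a (x * d') * (c a x)⁻¹).card +
          (univ.filter fun x => z a x ≠ c a (x * d) * (c a x)⁻¹).card := by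
      rw [← e4]
      omega
    have e6 : ((univ.filter fun x => ζ a x ≠ 1).card : ℝ) ≤
        (univ.filter fun x => z'' a x ≠ c a (x * (d * d')) * (c a x)⁻¹).card +
          (univ.filter fun x => z' a x ≠ c a (x * d') * (c a x)⁻¹).card +
          (univ.filter fun x => z a x ≠ c a (x * d) * (c a x)⁻¹).card := by exact_mod_cast e5
    have := h1 a ha
    have := h2 a ha
    have := h3 a ha
    linarith
  have hsum : C * ∑ a ∈ F, ((univ.filter fun x => ζ a x ≠ 1).card : ℝ) ≤
      C * (F.card * (3 * t)) := by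
    apply mul_le_mul_of_nonneg_left _ hC
    have := Finset.sum_le_sum hζs
    rwa [Finset.sum_const, nsmul_eq_mul] at this
  have hQ0 : (0 : ℝ) ≤ Fintype.card Q := Nat.cast_nonneg _
  have hS0 : (0 : ℝ) ≤ C * (F.card * (3 * t)) := by
    refine le_trans ?_ hsum
    exact mul_nonneg hC (Finset.sum_nonneg fun _ _ => Nat.cast_nonneg _)
  obtain ⟨w', hw', hws⟩ := small_cob2 F C hnear (lact q) htr ζ hζc (by linarith)
  have hww : w = w' := by
    apply cob_unique (lact q) htr ζ w w' hζw hw'
    have e1 : (univ.filter fun x => w x ≠ 1) ⊆ ((univ.filter fun x => b'' x ≠ 1) ∪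
        (univ.filter fun x => b' (x * d) ≠ 1)) ∪ (univ.filter fun x => b x ≠ 1) := by
      intro x hx
      rw [mem_filter] at hx
      rw [mem_union, mem_union, mem_filter, mem_filter, mem_filter]
      by_contra hc
      push Not at hc
      apply hx.2
      rw [hw, hc.1.1 (mem_univ _), hc.1.2 (mem_univ _), hc.2 (mem_univ _)]
      simp
    have e2 := (Finset.card_le_card e1).trans (Finset.card_union_le _ _)
    have e3 := Finset.card_union_le (univ.filter fun x => b'' x ≠ 1)
      (univ.filter fun x => b' (x * d) ≠ 1)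
    have e4 := card_shift (fun x => b' x ≠ 1) d
    have e5 : (univ.filter fun x => w x ≠ 1).card ≤ (univ.filter fun x => b'' x ≠ 1).card +
        (univ.filter fun x => b' x ≠ 1).card + (univ.filter fun x => b x ≠ 1).card := by
      rw [← e4]
      omega
    have e6 : ((univ.filter fun x => w x ≠ 1).card : ℝ) ≤ (univ.filter fun x => b'' x ≠ 1).card +
        (univ.filter fun x => b' x ≠ 1).card + (univ.filter fun x => b x ≠ 1).card := by
      exact_mod_cast e5
    have e7 : ((univ.filter fun x => w x ≠ 1).card : ℝ) +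
        (univ.filter fun x => w' x ≠ 1).card < Fintype.card Q := by linarith
    exact_mod_cast e7
  have hfin : (univ.filter fun x => b'' x ≠ b' (x * d) * b x) = univ.filter fun x => w' x ≠ 1 := by
    apply Finset.filter_congr
    intro x _
    rw [← hww, hw, not_iff_not, mul_inv_eq_one]
  rw [hfin]
  exact hws.trans hsum

/-- averaging -/
theorem exists_le_avg {α : Type} [Fintype α] [Nonempty α] (f : α → ℝ) (K : ℝ)
    (h : ∑ x, f x ≤ Fintype.card α * K) : ∃ x, f x ≤ K := by
  by_contra hc
  push Not at hc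
  have h1 : ∑ _x : α, K < ∑ x, f x := by
    apply Finset.sum_lt_sum_of_nonempty Finset.univ_nonempty
    intro x _
    exact hc x
  rw [Finset.sum_const, Finset.card_univ, nsmul_eq_mul] at h1
  linarith

theorem double_count {α β : Type} [Fintype α] [Fintype β] (R : α → β → Prop)
    [∀ x y, Decidable (R x y)] :
    ∑ x, ((univ.filter fun y => R x y).card : ℝ) =
      ∑ y, ((univ.filter fun x => R x y).card : ℝ) := by
  simp only [Finset.card_filter, Nat.cast_sum]
  exact Finset.sum_comm

theorem count_prod {α β : Type} [Fintype α] [Fintype β] (R : α → β → Prop)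
    [∀ x y, Decidable (R x y)] :
    ((univ.filter fun p : α × β => R p.1 p.2).card : ℝ) =
      ∑ x, ((univ.filter fun y => R x y).card : ℝ) := by
  simp only [Finset.card_filter, Nat.cast_sum]
  exact Fintype.sum_prod_type _

theorem count_inj {α β : Type} [Fintype α] [Fintype β] (f : α → β) (hf : Function.Injective f)
    (R : β → Prop) [DecidablePred R] :
    ((univ.filter fun x => R (f x)).card : ℝ) ≤ (univ.filter R).card := by
  have h : (univ.filter fun x => R (f x)).card ≤ (univ.filter R).card := by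
    apply Finset.card_le_card_of_injOn f
    · intro x hx
      have := (mem_filter.1 hx).2
      exact Finset.mem_coe.2 (mem_filter.2 ⟨mem_univ _, this⟩)
    · exact hf.injOn
  exact_mod_cast h

/-- the descent by majority -/
theorem majority_descent [Fintype Q] [DecidableEq A]
    (q : G →* Q) (τ : G →* Equiv.Perm Y) (P : Q → Y) (hP : ∀ g x, P (q g * x) = τ g (P x))
    (D : Subgroup Q) [Fintype D] (hPD : ∀ x, ∀ d ∈ D, P (x * d) = P x)
    (hDe : ∀ x x', P x = P x' → x⁻¹ * x' ∈ D) (hsurj : ∀ y, ∃ x, P x = y)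
    (c : G → Q → A) (z : D → G → Q → A) (b : D → Q → A)
    (hb : ∀ d g x, z d g x * b d x = b d (lact q g x)) (E1 : Finset G) (t T : ℝ)
    (hz : ∀ d : D, ∀ g ∈ E1,
      ((univ.filter fun x => z d g x ≠ c g (x * d) * (c g x)⁻¹).card : ℝ) ≤ t)
    (hbb : ∀ d d' : D,
      ((univ.filter fun x => b (d * d') x ≠ b d' (x * d) * b d x).card : ℝ) ≤ T)
    (E0 : Finset G) (hE : ∀ g ∈ E0, ∀ h ∈ E0, g ∈ E1 ∧ h ∈ E1 ∧ g * h ∈ E1)
    (a : G → G → Y → A) (t' : ℝ)
    (hdc : ∀ g ∈ E0, ∀ h ∈ E0,
      ((univ.filter fun x => dc (lact q) c g h x ≠ a g h (P x)).card : ℝ) ≤ t')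
    (hfin : 3 * (2 * T + t) + t' < Fintype.card D) :
    ∃ c' : G → Y → A, ∀ g ∈ E0, ∀ h ∈ E0, ∀ y, a g h y = dc τ c' g h y := by
  classical
  have hD0 : (0 : ℝ) ≤ Fintype.card D := Nat.cast_nonneg _
  have hinj : ∀ s : Q, Function.Injective fun f : D => s * (f : Q) := by
    intro s f f' h
    exact Subtype.ext (mul_left_cancel h)
  -- the section
  have hr : ∀ y, ∃ r, P r = y ∧ ((univ.filter fun p : D × D =>
      b (p.1 * p.2) r ≠ b p.2 (r * p.1) * b p.1 r).card : ℝ) ≤ Fintype.card D * T := by
    intro y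
    obtain ⟨s, hs⟩ := hsurj y
    obtain ⟨f, hf⟩ := exists_le_avg (α := D) (fun f => ((univ.filter fun p : D × D =>
      b (p.1 * p.2) (s * f) ≠ b p.2 (s * f * p.1) * b p.1 (s * f)).card : ℝ))
      (Fintype.card D * T) (by
        rw [double_count (fun (f : D) (p : D × D) =>
          b (p.1 * p.2) (s * f) ≠ b p.2 (s * f * p.1) * b p.1 (s * f))]
        have h1 : ∀ p ∈ (univ : Finset (D × D)), ((univ.filter fun f : D =>
            b (p.1 * p.2) (s * f) ≠ b p.2 (s * f * p.1) * b p.1 (s * f)).card : ℝ) ≤ T := by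
          intro p _
          exact (count_inj (fun f : D => s * (f : Q)) (hinj s)
            (fun x => b (p.1 * p.2) x ≠ b p.2 (x * p.1) * b p.1 x)).trans (hbb p.1 p.2)
        have h2 := Finset.sum_le_sum h1
        rw [Finset.sum_const, Finset.card_univ, Fintype.card_prod, nsmul_eq_mul, Nat.cast_mul,
          mul_assoc] at h2
        exact h2)
    exact ⟨s * f, by rw [hPD _ _ f.2, hs], hf⟩
  choose r hrP hrb using hr
  obtain ⟨β, hβ⟩ : ∃ β : Q → A, ∀ x, β x =
    b ⟨(r (P x))⁻¹ * x, hDe _ _ (hrP (P x))⟩ (r (P x)) := ⟨_, fun _ => rfl⟩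
  have hβr : ∀ y (e : D), β (r y * e) = b e (r y) := by
    intro y e
    have h1 : P (r y * e) = y := by rw [hPD _ _ e.2, hrP]
    have key : ∀ y' (h : (r y')⁻¹ * (r y * e) ∈ D), y' = y →
        b ⟨(r y')⁻¹ * (r y * e), h⟩ (r y') = b e (r y) := by
      rintro y' h rfl
      have h2 : (⟨(r y')⁻¹ * (r y' * e), h⟩ : D) = e := Subtype.ext (inv_mul_cancel_left _ _)
      rw [h2]
    rw [hβ]
    exact key _ _ h1
  obtain ⟨κ, hκ⟩ : ∃ κ : G → Y → D, ∀ g y, q g * r y = r (τ g y) * κ g y := by
    refine ⟨fun g y => ⟨(r (τ g y))⁻¹ * (q g * r y), hDe _ _ ?_⟩, ?_⟩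
    · rw [hP, hrP, hrP]
    · intro g y
      exact (mul_inv_cancel_left _ _).symm
  have hlact : ∀ g y (e : D), lact q g (r y * e) = r (τ g y) * ((κ g y * e : D) : Q) := by
    intro g y e
    rw [lact_apply, ← mul_assoc, hκ, Subgroup.coe_mul, mul_assoc]
  obtain ⟨c2, hc2⟩ : ∃ c2 : G → Q → A, ∀ g x, c2 g x = c g x * (β x * (β (lact q g x))⁻¹) :=
    ⟨_, fun _ _ => rfl⟩
  have hdc2 : ∀ g h x, dc (lact q) c2 g h x = dc (lact q) c g h x := by
    intro g h x
    simp only [dc, hc2]
    rw [map_mul, Equiv.Perm.mul_apply]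
    exact alg4 (A := Additive A) _ _ _ _ _ _
  -- the majority
  have hval : ∀ g y, ∃ v, g ∈ E1 →
      ((univ.filter fun e : D => c2 g (r y * e) ≠ v).card : ℝ) ≤ 2 * T + t := by
    intro g y
    by_cases hg : g ∈ E1
    · obtain ⟨e0, he0⟩ := exists_le_avg (α := D) (fun e => ((univ.filter fun d : D =>
        c2 g (r y * ((e * d : D) : Q)) ≠ c2 g (r y * e)).card : ℝ)) (2 * T + t) (by
          rw [← count_prod (fun (e d : D) => c2 g (r y * ((e * d : D) : Q)) ≠ c2 g (r y * e))]
          have h1 : (univ.filter fun p : D × D =>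
              c2 g (r y * ((p.1 * p.2 : D) : Q)) ≠ c2 g (r y * p.1)) ⊆
              ((univ.filter fun p : D × D =>
                b (p.1 * p.2) (r y) ≠ b p.2 (r y * p.1) * b p.1 (r y)) ∪
              (univ.filter fun p : D × D =>
                b (κ g y * p.1 * p.2) (r (τ g y)) ≠ b p.2 (r (τ g y) * (κ g y * p.1 : D)) *
                  b (κ g y * p.1) (r (τ g y)))) ∪
              (univ.filter fun p : D × D =>
                z p.2 g (r y * p.1) ≠ c g (r y * p.1 * p.2) * (c g (r y * p.1))⁻¹) := by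
            rintro ⟨e, d⟩ hp
            rw [mem_filter] at hp
            rw [mem_union, mem_union, mem_filter, mem_filter, mem_filter]
            by_contra hc
            push Not at hc
            apply hp.2
            have h2 := hc.1.1 (mem_univ _)
            have h3 := hc.1.2 (mem_univ _)
            have h4 := hc.2 (mem_univ _)
            simp only at h2 h3 h4 ⊢
            rw [hc2, hc2, hlact, hlact, hβr, hβr, hβr, hβr, h2, ← mul_assoc (κ g y) e d, h3]
            have h5 := hb d g (r y * e)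
            rw [h4, hlact] at h5
            rw [Subgroup.coe_mul D e d, ← mul_assoc (r y)]
            exact alg3 (A := Additive A) _ _ _ _ _ _ h5
          have h2 := (Finset.card_le_card h1).trans (Finset.card_union_le _ _)
          have h3 := Finset.card_union_le (univ.filter fun p : D × D =>
                b (p.1 * p.2) (r y) ≠ b p.2 (r y * p.1) * b p.1 (r y))
              (univ.filter fun p : D × D =>
                b (κ g y * p.1 * p.2) (r (τ g y)) ≠ b p.2 (r (τ g y) * (κ g y * p.1 : D)) *
                  b (κ g y * p.1) (r (τ g y)))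
          have h4 : ((univ.filter fun p : D × D =>
                b (κ g y * p.1 * p.2) (r (τ g y)) ≠ b p.2 (r (τ g y) * (κ g y * p.1 : D)) *
                  b (κ g y * p.1) (r (τ g y))).card : ℝ) ≤ Fintype.card D * T := by
            refine le_trans (count_inj (fun p : D × D => (κ g y * p.1, p.2)) ?_
              (fun p : D × D => b (p.1 * p.2) (r (τ g y)) ≠
                b p.2 (r (τ g y) * p.1) * b p.1 (r (τ g y)))) (hrb (τ g y))
            rintro ⟨e, d⟩ ⟨e', d'⟩ h
            rw [Prod.mk.injEq] at h ⊢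
            exact ⟨mul_left_cancel h.1, h.2⟩
          have h5 : ((univ.filter fun p : D × D =>
                z p.2 g (r y * p.1) ≠ c g (r y * p.1 * p.2) * (c g (r y * p.1))⁻¹).card : ℝ) ≤
              Fintype.card D * t := by
            rw [count_prod (fun (e d : D) =>
              z d g (r y * e) ≠ c g (r y * e * d) * (c g (r y * e))⁻¹), double_count]
            have h6 : ∀ d ∈ (univ : Finset D), ((univ.filter fun e : D =>
                z d g (r y * e) ≠ c g (r y * e * d) * (c g (r y * e))⁻¹).card : ℝ) ≤ t := by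
              intro d _
              exact (count_inj (fun e : D => r y * (e : Q)) (hinj (r y))
                (fun x => z d g x ≠ c g (x * d) * (c g x)⁻¹)).trans (hz d g hg)
            have h7 := Finset.sum_le_sum h6
            rwa [Finset.sum_const, Finset.card_univ, nsmul_eq_mul] at h7
          have h6n : (univ.filter fun p : D × D =>
              c2 g (r y * ((p.1 * p.2 : D) : Q)) ≠ c2 g (r y * p.1)).card ≤
              (univ.filter fun p : D × D =>
                b (p.1 * p.2) (r y) ≠ b p.2 (r y * p.1) * b p.1 (r y)).card +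
              (univ.filter fun p : D × D =>
                b (κ g y * p.1 * p.2) (r (τ g y)) ≠ b p.2 (r (τ g y) * (κ g y * p.1 : D)) *
                  b (κ g y * p.1) (r (τ g y))).card +
              (univ.filter fun p : D × D =>
                z p.2 g (r y * p.1) ≠ c g (r y * p.1 * p.2) * (c g (r y * p.1))⁻¹).card := by
            omega
          have h6 : ((univ.filter fun p : D × D =>
              c2 g (r y * ((p.1 * p.2 : D) : Q)) ≠ c2 g (r y * p.1)).card : ℝ) ≤
              (univ.filter fun p : D × D =>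
                b (p.1 * p.2) (r y) ≠ b p.2 (r y * p.1) * b p.1 (r y)).card +
              (univ.filter fun p : D × D =>
                b (κ g y * p.1 * p.2) (r (τ g y)) ≠ b p.2 (r (τ g y) * (κ g y * p.1 : D)) *
                  b (κ g y * p.1) (r (τ g y))).card +
              (univ.filter fun p : D × D =>
                z p.2 g (r y * p.1) ≠ c g (r y * p.1 * p.2) * (c g (r y * p.1))⁻¹).card := by
            exact_mod_cast h6n
          have h7 := hrb y
          linarith)
      refine ⟨c2 g (r y * e0), fun _ => ?_⟩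
      refine le_trans (le_of_eq ?_) he0
      congr 1
      symm
      apply Finset.card_bij (fun d _ => e0 * d)
      · intro d hd
        rw [mem_filter] at hd ⊢
        exact ⟨mem_univ _, hd.2⟩
      · intro d _ d' _ h
        exact mul_left_cancel h
      · intro e he
        rw [mem_filter] at he
        refine ⟨e0⁻¹ * e, ?_, mul_inv_cancel_left _ _⟩
        rw [mem_filter, mul_inv_cancel_left]
        exact ⟨mem_univ _, he.2⟩
    · exact ⟨1, fun h => absurd h hg⟩
  choose c' hc' using hval
  refine ⟨c', ?_⟩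
  intro g hg h hh y
  obtain ⟨hg1, hh1, hgh1⟩ := hE g hg h hh
  have hex : ∃ e : D, c2 h (r y * e) = c' h y ∧ c2 (g * h) (r y * e) = c' (g * h) y ∧
      c2 g (r (τ h y) * (κ h y * e : D)) = c' g (τ h y) ∧
      dc (lact q) c g h (r y * e) = a g h (P (r y * e)) := by
    by_contra hno
    push Not at hno
    have h1 : (univ : Finset D) ⊆ (((univ.filter fun e : D => c2 h (r y * e) ≠ c' h y) ∪
        (univ.filter fun e : D => c2 (g * h) (r y * e) ≠ c' (g * h) y)) ∪
        (univ.filter fun e : D => c2 g (r (τ h y) * (κ h y * e : D)) ≠ c' g (τ h y))) ∪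
        (univ.filter fun e : D => dc (lact q) c g h (r y * e) ≠ a g h (P (r y * e))) := by
      intro e _
      rw [mem_union, mem_union, mem_union, mem_filter, mem_filter, mem_filter, mem_filter]
      by_contra hc
      push Not at hc
      exact hno e (hc.1.1.1 (mem_univ _)) (hc.1.1.2 (mem_univ _)) (hc.1.2 (mem_univ _))
        (hc.2 (mem_univ _))
    have h2 := (Finset.card_le_card h1).trans (Finset.card_union_le _ _)
    have h3 := Finset.card_union_le ((univ.filter fun e : D => c2 h (r y * e) ≠ c' h y) ∪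
        (univ.filter fun e : D => c2 (g * h) (r y * e) ≠ c' (g * h) y))
        (univ.filter fun e : D => c2 g (r (τ h y) * (κ h y * e : D)) ≠ c' g (τ h y))
    have h4 := Finset.card_union_le (univ.filter fun e : D => c2 h (r y * e) ≠ c' h y)
        (univ.filter fun e : D => c2 (g * h) (r y * e) ≠ c' (g * h) y)
    rw [Finset.card_univ] at h2
    have h5n : Fintype.card D ≤ (univ.filter fun e : D => c2 h (r y * e) ≠ c' h y).card +
        (univ.filter fun e : D => c2 (g * h) (r y * e) ≠ c' (g * h) y).card +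
        (univ.filter fun e : D => c2 g (r (τ h y) * (κ h y * e : D)) ≠ c' g (τ h y)).card +
        (univ.filter fun e : D => dc (lact q) c g h (r y * e) ≠ a g h (P (r y * e))).card := by
      omega
    have h5 : (Fintype.card D : ℝ) ≤ (univ.filter fun e : D => c2 h (r y * e) ≠ c' h y).card +
        (univ.filter fun e : D => c2 (g * h) (r y * e) ≠ c' (g * h) y).card +
        (univ.filter fun e : D => c2 g (r (τ h y) * (κ h y * e : D)) ≠ c' g (τ h y)).card +
        (univ.filter fun e : D => dc (lact q) c g h (r y * e) ≠ a g h (P (r y * e))).card := by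
      exact_mod_cast h5n
    have h6 := hc' h y hh1
    have h7 := hc' (g * h) y hgh1
    have h8 : ((univ.filter fun e : D =>
        c2 g (r (τ h y) * (κ h y * e : D)) ≠ c' g (τ h y)).card : ℝ) ≤ 2 * T + t :=
      (count_inj (fun e : D => κ h y * e) (mul_right_injective _)
        (fun e : D => c2 g (r (τ h y) * e) ≠ c' g (τ h y))).trans (hc' g (τ h y) hg1)
    have h9 : ((univ.filter fun e : D =>
        dc (lact q) c g h (r y * e) ≠ a g h (P (r y * e))).card : ℝ) ≤ t' :=
      (count_inj (fun e : D => r y * (e : Q)) (hinj (r y))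
        (fun x => dc (lact q) c g h x ≠ a g h (P x))).trans (hdc g hg h hh)
    linarith
  obtain ⟨e, h1, h2, h3, h4⟩ := hex
  rw [← hdc2, hPD _ _ e.2, hrP] at h4
  rw [← h4]
  simp only [dc]
  rw [hlact, h1, h2, h3]

end Pool.Agent.FS84
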