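import Pool.Agent.FS84.Defs
import Pool.Agent.FS84.Kaz

/-!
Models of a part of a family of permutations. If an almost-homomorphism cannot be modelled on
almost everything, then the complement of a largest modelled part is an almost-homomorphism (along
a sequence of sizes) no part of which is modelled.
-/

set_option autoImplicit false
open Filter Topology Finset

namespace Pool.Agent.FS84

open Pool.Agent.H51K

variable {G : Type} [Group G]

/-- the points of `A` at which the model is wrong -/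
def bad {X Y : Type} [DecidableEq X] [DecidableEq Y] (φ : G → Equiv.Perm X)
    (ρ : G →* Equiv.Perm Y) (A : Finset X) (ι : X → Y) (g : G) : Finset X :=
  A.filter fun x => φ g x ∉ A ∨ ι (φ g x) ≠ ρ g (ι x)

/-- `A` is modelled by a finite `G`-set, with at most `η` wrong points for `g ∈ E` -/
def Model {X : Type} [DecidableEq X] (φ : G → Equiv.Perm X) (E : Finset G) (η : ℝ)
    (A : Finset X) : Prop :=
  ∃ (m : ℕ) (ρ : G →* Equiv.Perm (Fin m)) (ι : X → Fin m), Set.InjOn ι A ∧
    ∀ g ∈ E, ((bad φ ρ A ι g).card : ℝ) ≤ η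

theorem Model.empty {X : Type} [DecidableEq X] (φ : G → Equiv.Perm X) (E : Finset G) (η : ℝ)
    (hη : 0 ≤ η) : Model φ E η ∅ := by
  refine ⟨1, 1, fun _ => 0, by simp, ?_⟩
  intro g _
  have : bad φ (1 : G →* Equiv.Perm (Fin 1)) ∅ (fun _ => 0) g = ∅ := by
    rw [bad, Finset.filter_empty]
  rw [this]
  simpa using hη

theorem Model.mono {X : Type} [DecidableEq X] {φ : G → Equiv.Perm X} {E E' : Finset G}
    {η η' : ℝ} {A : Finset X} (h : Model φ E η A) (hE : E' ⊆ E) (hη : η ≤ η') :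
    Model φ E' η' A := by
  obtain ⟨m, ρ, ι, h1, h2⟩ := h
  exact ⟨m, ρ, ι, h1, fun g hg => (h2 g (hE hg)).trans hη⟩

theorem bad_out {X Y : Type} [DecidableEq X] [DecidableEq Y] (φ : G → Equiv.Perm X)
    (ρ : G →* Equiv.Perm Y) (A : Finset X) (ι : X → Y) (g : G) :
    (A.filter fun x => φ g x ∉ A).card ≤ (bad φ ρ A ι g).card := by
  apply Finset.card_le_card
  intro x hx
  rw [mem_filter] at hx
  rw [bad, mem_filter]
  exact ⟨hx.1, Or.inl hx.2⟩

/-- two models, of `A` and of a part of the complement of `A`, give a model of the union -/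
theorem Model.union {X Z : Type} [Fintype X] [DecidableEq X] [DecidableEq Z]
    {φ : G → Equiv.Perm X} {ψ : G → Equiv.Perm Z} {E : Finset G} {η η' : ℝ} {A : Finset X}
    {A' : Finset Z} (e : Z → X) (he : Function.Injective e) (heA : ∀ z, e z ∉ A)
    (hψ : ∀ g z, φ g (e z) ∉ A → e (ψ g z) = φ g (e z))
    (h : Model φ E η A) (h' : Model ψ E η' A') : Model φ E (2 * η + η') (A ∪ A'.image e) := by
  classical
  obtain ⟨m, ρ, ι, h1, h2⟩ := h
  obtain ⟨m', ρ', ι', h1', h2'⟩ := h'
  let σ : Fin m ⊕ Fin m' ≃ Fin (m + m') := finSumFinEquiv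
  let τ : G →* Equiv.Perm (Fin (m + m')) :=
    { toFun := fun g => (σ.symm.trans (Equiv.sumCongr (ρ g) (ρ' g))).trans σ
      map_one' := by
        ext x
        simp
      map_mul' := by
        intro g g'
        ext x
        simp only [map_mul, Equiv.Perm.mul_apply, Equiv.trans_apply, Equiv.symm_apply_apply]
        rcases σ.symm x with y | y <;> rfl }
  have hτl : ∀ g y, τ g (σ (Sum.inl y)) = σ (Sum.inl (ρ g y)) := by
    intro g y
    show σ (Equiv.sumCongr (ρ g) (ρ' g) (σ.symm (σ (Sum.inl y)))) = _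
    rw [Equiv.symm_apply_apply]
    rfl
  have hτr : ∀ g y, τ g (σ (Sum.inr y)) = σ (Sum.inr (ρ' g y)) := by
    intro g y
    show σ (Equiv.sumCongr (ρ g) (ρ' g) (σ.symm (σ (Sum.inr y)))) = _
    rw [Equiv.symm_apply_apply]
    rfl
  let κ : X → Fin (m + m') := fun x => if hx : ∃ z, e z = x then σ (Sum.inr (ι' hx.choose))
    else σ (Sum.inl (ι x))
  have hκe : ∀ z, κ (e z) = σ (Sum.inr (ι' z)) := by
    intro z
    have hx : ∃ z', e z' = e z := ⟨z, rfl⟩
    have h3 : hx.choose = z := he hx.choose_spec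
    simp only [κ, hx, dite_true, h3]
  have hκA : ∀ x ∈ A, κ x = σ (Sum.inl (ι x)) := by
    intro x hxA
    have hx : ¬ ∃ z', e z' = x := by
      rintro ⟨z, rfl⟩
      exact heA z hxA
    simp only [κ, hx, dite_false]
  refine ⟨m + m', τ, κ, ?_, ?_⟩
  · intro x hx y hy hxy
    rw [coe_union, Set.mem_union] at hx hy
    simp only [mem_coe] at hx hy
    rcases hx with hx | hx
    · rcases hy with hy | hy
      · rw [hκA x hx, hκA y hy] at hxy
        exact h1 hx hy (Sum.inl_injective (σ.injective hxy))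
      · obtain ⟨z, hz, rfl⟩ := Finset.mem_image.1 hy
        rw [hκA x hx, hκe] at hxy
        exact absurd (σ.injective hxy) (by simp)
    · obtain ⟨w, hw, rfl⟩ := Finset.mem_image.1 hx
      rcases hy with hy | hy
      · rw [hκe, hκA y hy] at hxy
        exact absurd (σ.injective hxy) (by simp)
      · obtain ⟨z, hz, rfl⟩ := Finset.mem_image.1 hy
        rw [hκe, hκe] at hxy
        rw [h1' hw hz (Sum.inr_injective (σ.injective hxy))]
  · intro g hg
    have hsub : bad φ τ (A ∪ A'.image e) κ g ⊆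
        bad φ ρ A ι g ∪ ((univ.filter fun x => x ∉ A ∧ φ g x ∈ A) ∪
          (bad ψ ρ' A' ι' g).image e) := by
      intro x hx
      rw [bad, mem_filter, Finset.mem_union] at hx
      obtain ⟨hx, hbad⟩ := hx
      rw [Finset.mem_union, Finset.mem_union]
      rcases hx with hx | hx
      · left
        rw [bad, mem_filter]
        refine ⟨hx, ?_⟩
        by_contra hc
        push Not at hc
        obtain ⟨hc1, hc2⟩ := hc
        rcases hbad with hb | hb
        · exact hb (Finset.mem_union_left _ hc1)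
        · apply hb
          rw [hκA _ hc1, hκA _ hx, hτl, hc2]
      · obtain ⟨z, hz, rfl⟩ := Finset.mem_image.1 hx
        right
        by_cases hout : φ g (e z) ∈ A
        · left
          rw [mem_filter]
          exact ⟨mem_univ _, heA z, hout⟩
        · right
          rw [Finset.mem_image]
          refine ⟨z, ?_, rfl⟩
          rw [bad, mem_filter]
          refine ⟨hz, ?_⟩
          by_contra hc
          push Not at hc
          obtain ⟨hc1, hc2⟩ := hc
          have h3 := hψ g z hout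
          rcases hbad with hb | hb
          · apply hb
            rw [← h3]
            exact Finset.mem_union_right _ (Finset.mem_image_of_mem e hc1)
          · apply hb
            rw [← h3, hκe, hκe, hτr, hc2]
    have h3 := (Finset.card_le_card hsub).trans (Finset.card_union_le _ _)
    have h4 := Finset.card_union_le (univ.filter fun x => x ∉ A ∧ φ g x ∈ A)
      ((bad ψ ρ' A' ι' g).image e)
    have h5 : ((bad ψ ρ' A' ι' g).image e).card ≤ (bad ψ ρ' A' ι' g).card :=
      Finset.card_image_le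
    have h6 : (univ.filter fun x => x ∉ A ∧ φ g x ∈ A).card ≤ (bad φ ρ A ι g).card := by
      rw [card_out_in]
      exact bad_out φ ρ A ι g
    have h7 : (bad φ τ (A ∪ A'.image e) κ g).card ≤
        2 * (bad φ ρ A ι g).card + (bad ψ ρ' A' ι' g).card := by omega
    have h8 : ((bad φ τ (A ∪ A'.image e) κ g).card : ℝ) ≤
        2 * ((bad φ ρ A ι g).card : ℝ) + ((bad ψ ρ' A' ι' g).card : ℝ) := by exact_mod_cast h7
    have h9 := h2 g hg
    have h10 := h2' g hg
    linarith

/-- restriction to the complement of a set -/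
theorem restr {n c : ℕ} (A : Finset (Fin n)) (h : c + A.card = n) :
    ∃ e : Fin c → Fin n, Function.Injective e ∧ (∀ z, e z ∉ A) ∧
      ∀ π : Equiv.Perm (Fin n), ∃ σ : Equiv.Perm (Fin c), ∀ z, π (e z) ∉ A →
        e (σ z) = π (e z) := by
  classical
  have hc : (Aᶜ : Finset (Fin n)).card = c := by
    rw [Finset.card_compl, Fintype.card_fin]
    omega
  let e0 := (Aᶜ : Finset (Fin n)).orderEmbOfFin hc
  have hinj : Function.Injective (fun z => e0 z) := e0.injective
  have hout : ∀ z, e0 z ∉ A := by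
    intro z
    have := Finset.orderEmbOfFin_mem (Aᶜ : Finset (Fin n)) hc z
    rwa [Finset.mem_compl] at this
  have hsurj : ∀ x, x ∉ A → ∃ z, e0 z = x := by
    intro x hx
    have h1 : x ∈ Set.range e0 := by
      rw [Finset.range_orderEmbOfFin]
      simpa using hx
    exact h1
  refine ⟨fun z => e0 z, hinj, hout, ?_⟩
  intro π
  have hch : ∀ z, ∃ w, π (e0 z) ∉ A → e0 w = π (e0 z) := by
    intro z
    by_cases hz : π (e0 z) ∈ A
    · exact ⟨z, fun h => absurd hz h⟩
    · obtain ⟨w, hw⟩ := hsurj _ hz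
      exact ⟨w, fun _ => hw⟩
  choose f hf using hch
  obtain ⟨σ, hσ⟩ := ext_inj (rfl : Fintype.card (Fin c) = Fintype.card (Fin c))
    {z : Fin c | π (e0 z) ∉ A} f (by
      intro x hx y hy hxy
      have h1 := hf x hx
      have h2 := hf y hy
      rw [hxy, h2] at h1
      exact hinj (π.injective h1).symm)
  refine ⟨σ, ?_⟩
  intro z hz
  rw [hσ z hz]
  exact hf z hz

/-- parts of proportion at least `β` can be modelled, for the exhaustion `E` of the group -/
def AllParts (f : (n : ℕ) → G → Equiv.Perm (Fin n)) (E : ℕ → Finset G) (β : ℝ) : Prop :=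
  ∀ i : ℕ, ∀ᶠ n : ℕ in atTop, ∃ A : Finset (Fin n),
    Model (f n) (E i) ((n : ℝ) / (i + 1)) A ∧ β * n ≤ A.card

/-- the data of one stage: `F` is the restriction of `f n` to the complement of a modelled part -/
def Stage (f : (n : ℕ) → G → Equiv.Perm (Fin n)) (E : ℕ → Finset G) (κ : ℝ)
    (W : (n : ℕ) → Finset (Fin n) → Prop) (j c : ℕ) (F : G → Equiv.Perm (Fin c)) : Prop :=
  ∃ (n : ℕ) (A : Finset (Fin n)) (e : Fin c → Fin n), c + A.card = n ∧ κ * n ≤ c ∧ W n A ∧
    Model (f n) (E j) ((n : ℝ) / (j + 1)) A ∧ Function.Injective e ∧ (∀ z, e z ∉ A) ∧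
    ∀ g z, f n g (e z) ∉ A → e (F g z) = f n g (e z)

theorem exists_stage (f : (n : ℕ) → G → Equiv.Perm (Fin n)) (E : ℕ → Finset G) (κ : ℝ)
    (W : (n : ℕ) → Finset (Fin n) → Prop) (j n : ℕ) (A : Finset (Fin n)) (hW : W n A)
    (hA : Model (f n) (E j) ((n : ℝ) / (j + 1)) A) (hκ : (A.card : ℝ) ≤ (1 - κ) * n) (C : ℕ)
    (hC : (C : ℝ) ≤ κ * n) :
    ∃ c, C ≤ c ∧ ∃ F : G → Equiv.Perm (Fin c), Stage f E κ W j c F := by
  classical
  have hAn : A.card ≤ n := by
    have := Finset.card_le_univ A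
    rwa [Fintype.card_fin] at this
  have hc : (n - A.card) + A.card = n := by omega
  obtain ⟨e, he, heA, hF⟩ := restr A hc
  choose F hF using fun g => hF (f n g)
  have h5 : κ * n ≤ ((n - A.card : ℕ) : ℝ) := by
    rw [Nat.cast_sub hAn]
    linarith
  refine ⟨n - A.card, ?_, F, n, A, e, hc, h5, hW, hA, he, heA, hF⟩
  exact_mod_cast hC.trans h5

/-- the number of points where the restriction is not multiplicative -/
theorem restr_mul {n c : ℕ} (f : G → Equiv.Perm (Fin n)) (F : G → Equiv.Perm (Fin c))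
    (A : Finset (Fin n)) (e : Fin c → Fin n) (he : Function.Injective e) (heA : ∀ z, e z ∉ A)
    (hF : ∀ g z, f g (e z) ∉ A → e (F g z) = f g (e z)) (E : Finset G) (η : ℝ)
    (hA : Model f E η A) (g h : G) (hh : h ∈ E) (hgh : g * h ∈ E) :
    ((univ.filter fun z => (F g * F h) z ≠ F (g * h) z).card : ℝ) ≤
      2 * η + (univ.filter fun x => (f g * f h) x ≠ f (g * h) x).card := by
  classical
  obtain ⟨m, ρ, ι, -, hbad⟩ := hA
  have h1 : (univ.filter fun z => (F g * F h) z ≠ F (g * h) z).card ≤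
      ((univ.filter fun x => x ∉ A ∧ f h x ∈ A) ∪ ((univ.filter fun x => x ∉ A ∧ f (g * h) x ∈ A) ∪
        (univ.filter fun x => (f g * f h) x ≠ f (g * h) x))).card := by
    apply Finset.card_le_card_of_injOn e
    · intro z hz
      have hz' := (Finset.mem_filter.1 hz).2
      rw [mem_coe, Finset.mem_union, Finset.mem_union, mem_filter, mem_filter, mem_filter]
      by_contra hcon
      push Not at hcon
      obtain ⟨h2, h3, h4⟩ := hcon
      have h5 := h2 (mem_univ _) (heA z)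
      have h6 := h3 (mem_univ _) (heA z)
      have h7 : (f g * f h) (e z) = f (g * h) (e z) := by
        by_contra hne
        exact absurd hne (by simpa using h4)
      apply hz'
      apply he
      rw [Equiv.Perm.mul_apply] at h7 ⊢
      rw [hF (g * h) z h6, ← h7]
      have h8 := hF h z h5
      rw [hF g (F h z), h8]
      rw [h8, h7]
      exact h6
    · exact he.injOn
  have h2 := h1.trans (Finset.card_union_le _ _)
  have h3 := Finset.card_union_le (univ.filter fun x => x ∉ A ∧ f (g * h) x ∈ A)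
        (univ.filter fun x => (f g * f h) x ≠ f (g * h) x)
  have h4 : (univ.filter fun x => x ∉ A ∧ f h x ∈ A).card ≤ (bad f ρ A ι h).card := by
    rw [card_out_in]
    exact bad_out f ρ A ι h
  have h5 : (univ.filter fun x => x ∉ A ∧ f (g * h) x ∈ A).card ≤
      (bad f ρ A ι (g * h)).card := by
    rw [card_out_in]
    exact bad_out f ρ A ι (g * h)
  have h6 := hbad h hh
  have h7 := hbad (g * h) hgh
  have h8 : ((univ.filter fun z => (F g * F h) z ≠ F (g * h) z).card : ℝ) ≤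
      (bad f ρ A ι h).card + ((bad f ρ A ι (g * h)).card +
        (univ.filter fun x => (f g * f h) x ≠ f (g * h) x).card) := by
    have : (univ.filter fun z => (F g * F h) z ≠ F (g * h) z).card ≤
      (bad f ρ A ι h).card + ((bad f ρ A ι (g * h)).card +
        (univ.filter fun x => (f g * f h) x ≠ f (g * h) x).card) := by omega
    exact_mod_cast this
  linarith

/-- the family of the restrictions is an almost-homomorphism -/
theorem stage_almost (f : (n : ℕ) → G → Equiv.Perm (Fin n)) (hf : AlmostHom f)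
    (E : ℕ → Finset G) (hE : Monotone E) (hEx : ∀ g, ∃ i, g ∈ E i) (κ : ℝ) (hκ : 0 < κ)
    (W : ℕ → (n : ℕ) → Finset (Fin n) → Prop)
    (φ : ℕ → ℕ) (hφ : StrictMono φ) (F : (c : ℕ) → G → Equiv.Perm (Fin c))
    (hF1 : ∀ j, Stage f E κ (W j) j (φ j) (F (φ j)))
    (hF2 : ∀ c, (¬ ∃ j, φ j = c) → ∀ g, F c g = 1) : AlmostHom F := by
  classical
  intro g h
  rw [Metric.tendsto_atTop]
  intro ε hε
  obtain ⟨i1, hi1⟩ := hEx h
  obtain ⟨i2, hi2⟩ := hEx (g * h)
  obtain ⟨N, hN⟩ := (Metric.tendsto_atTop.1 (hf g h)) (ε * κ / 4) (by positivity)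
  have h1 : Tendsto (fun j : ℕ => 2 / ((j : ℝ) + 1)) atTop (𝓝 0) := by
    have := tendsto_one_div_add_atTop_nhds_zero_nat (𝕜 := ℝ)
    have h2 := this.const_mul 2
    simpa [div_eq_mul_inv] using h2
  obtain ⟨J, hJ⟩ := (Metric.tendsto_atTop.1 h1) (ε * κ / 4) (by positivity)
  refine ⟨max N (max (φ (max i1 (max i2 J))) 1), ?_⟩
  intro c hc
  have hcN : N ≤ c := le_trans (le_max_left _ _) hc
  have hcφ : φ (max i1 (max i2 J)) ≤ c := le_trans (le_trans (le_max_left _ _) (le_max_right _ _)) hc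
  have hc1 : 1 ≤ c := le_trans (le_trans (le_max_right _ _) (le_max_right _ _)) hc
  have hham0 : 0 ≤ ham (F c g * F c h) (F c (g * h)) := by
    unfold ham
    positivity
  rw [Real.dist_eq, sub_zero, abs_of_nonneg hham0]
  by_cases hj : ∃ j, φ j = c
  · obtain ⟨j, rfl⟩ := hj
    have hjj : max i1 (max i2 J) ≤ j := hφ.le_iff_le.1 hcφ
    have hj1 : i1 ≤ j := le_trans (le_max_left _ _) hjj
    have hj2 : i2 ≤ j := le_trans (le_trans (le_max_left _ _) (le_max_right _ _)) hjj
    have hj3 : J ≤ j := le_trans (le_trans (le_max_right _ _) (le_max_right _ _)) hjj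
    obtain ⟨n, A, e, hcn, h5, -, hA, he, heA, hF⟩ := hF1 j
    have h3 := restr_mul (f n) (F (φ j)) A e he heA hF _ _ hA g h (hE hj1 hi1) (hE hj2 hi2)
    have hn1 : 1 ≤ n := by omega
    have hn0 : (0 : ℝ) < n := by exact_mod_cast hn1
    have h6 := hN n (by omega)
    have h7 : 0 ≤ ham (f n g * f n h) (f n (g * h)) := by
      unfold ham
      positivity
    rw [Real.dist_eq, sub_zero, abs_of_nonneg h7, ham, div_lt_iff₀ hn0] at h6
    have h8 := hJ j hj3
    have h9 : (0 : ℝ) ≤ 2 / ((j : ℝ) + 1) := by positivity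
    rw [Real.dist_eq, sub_zero, abs_of_nonneg h9] at h8
    have h10 : 2 * ((n : ℝ) / ((j : ℝ) + 1)) = 2 / ((j : ℝ) + 1) * n := by ring
    have h12 : 2 / ((j : ℝ) + 1) * n ≤ ε * κ / 4 * n :=
      mul_le_mul_of_nonneg_right h8.le hn0.le
    have h13 : (0 : ℝ) < φ j := by exact_mod_cast hc1
    rw [ham, div_lt_iff₀ h13]
    have h14 : ε * κ / 4 * n + ε * κ / 4 * n = ε / 2 * (κ * n) := by ring
    have h15 : ε / 2 * (κ * n) ≤ ε / 2 * φ j :=
      mul_le_mul_of_nonneg_left h5 (by positivity)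
    have h16 : 0 < ε / 2 * φ j := by positivity
    linarith
  · have h2 := hF2 c hj
    rw [h2 g, h2 h, h2 (g * h)]
    simpa [ham] using hε

/-- no part of positive proportion is modelled, along the sizes `φ j` -/
def NowhereOn (F : (c : ℕ) → G → Equiv.Perm (Fin c)) (φ : ℕ → ℕ) : Prop :=
  ∀ δ : ℝ, 0 < δ → ∃ (E : Finset G) (η : ℝ), 0 < η ∧ ∀ᶠ j in atTop,
    ∀ A : Finset (Fin (φ j)), Model (F (φ j)) E (η * φ j) A → (A.card : ℝ) < δ * φ j

/-- THE STEP -/
theorem nowhere_of_not_all (f : (n : ℕ) → G → Equiv.Perm (Fin n)) (hf : AlmostHom f)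
    (E : ℕ → Finset G) (hE : Monotone E) (hEx : ∀ g, ∃ i, g ∈ E i) (β1 : ℝ) (hβ1 : β1 < 1)
    (hno : ¬ AllParts f E β1) :
    ∃ (F : (c : ℕ) → G → Equiv.Perm (Fin c)) (φ : ℕ → ℕ), AlmostHom F ∧ StrictMono φ ∧
      NowhereOn F φ := by
  classical
  unfold AllParts at hno
  push Not at hno
  obtain ⟨i1, hi1⟩ := hno
  -- an ultrafilter
  have hne : (atTop ⊓ 𝓟 {n : ℕ | ∀ A' : Finset (Fin n), Model (f n) (E i1) ((n : ℝ) / (i1 + 1)) A' →
      (A'.card : ℝ) < β1 * n}).NeBot := Filter.frequently_mem_iff_neBot.1 hi1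
  set 𝒰 : Ultrafilter ℕ := Ultrafilter.of (atTop ⊓ 𝓟 {n : ℕ | ∀ A' : Finset (Fin n),
    Model (f n) (E i1) ((n : ℝ) / (i1 + 1)) A' → (A'.card : ℝ) < β1 * n}) with h𝒰
  have h𝒰le := Ultrafilter.of_le (atTop ⊓ 𝓟 {n : ℕ | ∀ A' : Finset (Fin n),
    Model (f n) (E i1) ((n : ℝ) / (i1 + 1)) A' → (A'.card : ℝ) < β1 * n})
  have htop : (𝒰 : Filter ℕ) ≤ atTop := h𝒰le.trans inf_le_left
  have hb : ∀ᶠ n : ℕ in (𝒰 : Filter ℕ), ∀ A' : Finset (Fin n),
      Model (f n) (E i1) ((n : ℝ) / (i1 + 1)) A' → (A'.card : ℝ) < β1 * n :=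
    h𝒰le (Filter.mem_inf_of_right (Filter.mem_principal_self _))
  -- the proportion of a largest modelled part
  let S : Set ℝ := {β | ∀ i : ℕ, ∀ᶠ n : ℕ in (𝒰 : Filter ℕ), ∃ A : Finset (Fin n),
    Model (f n) (E i) ((n : ℝ) / (i + 1)) A ∧ β * n ≤ A.card}
  have hS0 : (0 : ℝ) ∈ S := by
    intro i
    filter_upwards with n
    exact ⟨∅, Model.empty _ _ _ (by positivity), by simp⟩
  have hSb : ∀ β ∈ S, β ≤ β1 := by
    intro β hβ
    by_contra hcon
    push Not at hcon
    obtain ⟨n, ⟨A, hA, hA'⟩, hbn, hn⟩ := ((hβ i1).and (hb.and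
      (htop (eventually_gt_atTop 0)))).exists
    have h1 := hbn A hA
    have h2 : β1 * (n : ℝ) < β * n := mul_lt_mul_of_pos_right hcon (by exact_mod_cast hn)
    linarith
  have hSbdd : BddAbove S := ⟨β1, hSb⟩
  set b : ℝ := sSup S with hbdef
  have hb1 : b ≤ β1 := csSup_le ⟨0, hS0⟩ hSb
  have hb0 : 0 ≤ b := le_csSup hSbdd hS0
  have hlow : ∀ ε : ℝ, 0 < ε → (b - ε) ∈ S := by
    intro ε hε
    obtain ⟨β, hβ, hβ'⟩ := exists_lt_of_lt_csSup ⟨0, hS0⟩ (by linarith : b - ε < sSup S)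
    intro i
    filter_upwards [hβ i] with n hn
    obtain ⟨A, hA, hA'⟩ := hn
    exact ⟨A, hA, le_trans (mul_le_mul_of_nonneg_right hβ'.le (Nat.cast_nonneg n)) hA'⟩
  have hup : ∀ ε : ℝ, 0 < ε → ∃ i : ℕ, ∀ᶠ n : ℕ in (𝒰 : Filter ℕ), ∀ A : Finset (Fin n),
      Model (f n) (E i) ((n : ℝ) / (i + 1)) A → (A.card : ℝ) < (b + ε) * n := by
    intro ε hε
    have h1 : (b + ε) ∉ S := by
      intro h
      have := le_csSup hSbdd h
      linarith
    have h2 : ∃ i : ℕ, ¬ ∀ᶠ n : ℕ in (𝒰 : Filter ℕ), ∃ A : Finset (Fin n),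
        Model (f n) (E i) ((n : ℝ) / (i + 1)) A ∧ (b + ε) * n ≤ A.card := by
      by_contra hcon
      push Not at hcon
      exact h1 hcon
    obtain ⟨i, hi⟩ := h2
    refine ⟨i, ?_⟩
    have h3 := Ultrafilter.eventually_not.2 hi
    filter_upwards [h3] with n hn A hA
    by_contra hcon
    exact hn ⟨A, hA, not_lt.1 hcon⟩
  choose ik hik using fun k : ℕ => hup (1 / ((k : ℝ) + 1)) (by positivity)
  -- the stages
  let W : ℕ → (n : ℕ) → Finset (Fin n) → Prop := fun j n A =>
    (∀ k ∈ Finset.range (j + 1), ∀ A' : Finset (Fin n),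
      Model (f n) (E (ik k)) ((n : ℝ) / (ik k + 1)) A' →
        (A'.card : ℝ) < (b + 1 / ((k : ℝ) + 1)) * n) ∧ (b - 1 / ((j : ℝ) + 1)) * n ≤ A.card
  have hκ : 0 < 1 - β1 := by linarith
  have hfreq : ∀ j, ∃ᶠ c : ℕ in atTop, ∃ F : G → Equiv.Perm (Fin c),
      Stage f E (1 - β1) (W j) j c F := by
    intro j
    rw [frequently_atTop]
    intro C
    have h1 : Tendsto (fun n : ℕ => (1 - β1) * (n : ℝ)) atTop atTop :=
      Tendsto.const_mul_atTop hκ tendsto_natCast_atTop_atTop
    have h2 : ∀ᶠ n : ℕ in (𝒰 : Filter ℕ), (C : ℝ) ≤ (1 - β1) * n :=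
      htop (h1.eventually_ge_atTop (C : ℝ))
    have h3 : ∀ᶠ n : ℕ in (𝒰 : Filter ℕ), ∀ k ∈ Finset.range (j + 1), ∀ A' : Finset (Fin n),
        Model (f n) (E (ik k)) ((n : ℝ) / (ik k + 1)) A' →
        (A'.card : ℝ) < (b + 1 / ((k : ℝ) + 1)) * n := by
      rw [Filter.eventually_all_finset]
      intro k _
      exact hik k
    have h4 := hlow (1 / ((j : ℝ) + 1)) (by positivity) (max j i1)
    obtain ⟨n, h5, h6, h7, A, hA, hA'⟩ := (h2.and (h3.and (hb.and h4))).exists
    have hmono : ∀ i, i ≤ max j i1 → Model (f n) (E i) ((n : ℝ) / (i + 1)) A := by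
      intro i hi
      apply hA.mono (hE hi)
      apply div_le_div_of_nonneg_left (by positivity) (by positivity)
      have : (i : ℝ) ≤ ((max j i1 : ℕ) : ℝ) := by exact_mod_cast hi
      linarith
    have h8 := h7 A (hmono i1 (le_max_right _ _))
    exact exists_stage f E (1 - β1) (W j) j n A ⟨h6, hA'⟩ (hmono j (le_max_left _ _))
      (by linarith) C h5
  obtain ⟨φ, hφ, hst⟩ := Filter.extraction_forall_of_frequently hfreq
  have hex : ∀ c : ℕ, ∃ F : G → Equiv.Perm (Fin c),
      (∀ j, φ j = c → Stage f E (1 - β1) (W j) j c F) ∧ ((¬ ∃ j, φ j = c) → ∀ g, F g = 1) := by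
    intro c
    by_cases hj : ∃ j, φ j = c
    · obtain ⟨j, rfl⟩ := hj
      obtain ⟨F, hF⟩ := hst j
      refine ⟨F, ?_, fun h => absurd ⟨j, rfl⟩ h⟩
      intro j' hj'
      have : j' = j := hφ.injective hj'
      subst this
      exact hF
    · exact ⟨fun _ => 1, fun j h => absurd ⟨j, h⟩ hj, fun _ _ => rfl⟩
  choose F hF1 hF2 using hex
  refine ⟨F, φ, stage_almost f hf E hE hEx (1 - β1) hκ W φ hφ F (fun j => hF1 (φ j) j rfl) hF2,
    hφ, ?_⟩
  intro δ0 hδ0
  -- we may take `δ ≤ 1`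
  set δ : ℝ := min δ0 1 with hδdef
  have hδ : 0 < δ := lt_min hδ0 one_pos
  have hδ1 : δ ≤ 1 := min_le_right _ _
  have hδle : δ ≤ δ0 := min_le_left _ _
  have hgain : 0 < δ * (1 - b) := mul_pos hδ (by linarith)
  obtain ⟨k, hk⟩ := exists_nat_one_div_lt (by positivity : 0 < δ * (1 - b) / 2)
  refine ⟨E (ik k), 1 / (2 * ((ik k : ℝ) + 1)), by positivity, ?_⟩
  filter_upwards [eventually_ge_atTop (max k (4 * (ik k + 1))), eventually_gt_atTop 0] with j hj hj0
  intro A' hM'
  have hjk : k ≤ j := (le_max_left _ _).trans hj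
  have hj4 : 4 * (ik k + 1) ≤ j := (le_max_right _ _).trans hj
  obtain ⟨n, A, e, hcn, h5, ⟨hW1, hW2⟩, hA, he, heA, hF⟩ := hF1 (φ j) j rfl
  have hφj : 1 ≤ φ j := le_trans hj0 (hφ.id_le j)
  have hn1 : 1 ≤ n := by omega
  have hn0 : (0 : ℝ) < n := by exact_mod_cast hn1
  have h9 : (φ j : ℝ) + A.card = n := by exact_mod_cast hcn
  have hA0 : (0 : ℝ) ≤ A.card := by positivity
  have hM1 : Model (F (φ j)) (E (ik k)) ((n : ℝ) / (2 * (ik k + 1))) A' := by
    apply hM'.mono (Finset.Subset.refl _)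
    have h11 : 1 / (2 * ((ik k : ℝ) + 1)) * φ j ≤ 1 / (2 * ((ik k : ℝ) + 1)) * n :=
      mul_le_mul_of_nonneg_left (by linarith) (by positivity)
    have h12 : 1 / (2 * ((ik k : ℝ) + 1)) * n = (n : ℝ) / (2 * (ik k + 1)) := by ring
    linarith
  have hM : Model (f n) (E (ik k)) ((n : ℝ) / (4 * (ik k + 1))) A := by
    apply hA.mono (hE (by omega : ik k ≤ j))
    apply div_le_div_of_nonneg_left hn0.le (by positivity)
    have h11 : (4 : ℝ) * ((ik k : ℝ) + 1) ≤ j := by exact_mod_cast hj4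
    linarith
  have hU := Model.union e he heA (fun g z hz => hF g z hz) hM hM1
  have hη : 2 * ((n : ℝ) / (4 * (ik k + 1))) + (n : ℝ) / (2 * (ik k + 1)) =
      (n : ℝ) / (ik k + 1) := by
    field_simp
    ring
  rw [hη] at hU
  have h10 := hW1 k (Finset.mem_range.2 (by omega)) _ hU
  have h11 : (A ∪ A'.image e).card = A.card + A'.card := by
    rw [Finset.card_union_of_disjoint, Finset.card_image_of_injective _ he]
    rw [Finset.disjoint_left]
    intro x hx hx'
    obtain ⟨z, _, rfl⟩ := Finset.mem_image.1 hx'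
    exact heA z hx
  rw [h11] at h10
  push_cast at h10
  have h12 : (1 : ℝ) / ((j : ℝ) + 1) ≤ 1 / ((k : ℝ) + 1) := by
    apply one_div_le_one_div_of_le (by positivity)
    have : (k : ℝ) ≤ j := by exact_mod_cast hjk
    linarith
  by_contra hcon
  push Not at hcon
  have h13 : δ * (φ j : ℝ) ≤ A'.card :=
    le_trans (mul_le_mul_of_nonneg_right hδle (Nat.cast_nonneg _)) hcon
  have h14 : δ * (φ j : ℝ) = δ * n - δ * A.card := by
    rw [← h9]
    ring
  -- `A.card + δ c < (b + 1/(k+1)) n`, `A.card ≥ (b - 1/(k+1)) n`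
  have h15 : (1 - δ) * ((b - 1 / ((k : ℝ) + 1)) * n) ≤ (1 - δ) * A.card := by
    apply mul_le_mul_of_nonneg_left _ (by linarith)
    refine le_trans (mul_le_mul_of_nonneg_right ?_ hn0.le) hW2
    linarith
  have h16 : (A.card : ℝ) + δ * φ j < (b + 1 / ((k : ℝ) + 1)) * n := by linarith
  have h17 : (1 - δ) * ((b - 1 / ((k : ℝ) + 1)) * n) + δ * n <
      (b + 1 / ((k : ℝ) + 1)) * n := by linarith
  have h18 : (1 - δ) * (b - 1 / ((k : ℝ) + 1)) + δ < b + 1 / ((k : ℝ) + 1) := by
    by_contra hc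
    push Not at hc
    have := mul_le_mul_of_nonneg_right hc hn0.le
    nlinarith
  have h19 : (0 : ℝ) < 1 / ((k : ℝ) + 1) := by positivity
  nlinarith

end Pool.Agent.FS84
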