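import Pool.Agent.FS84.FinalD

/-!
The homomorphism from the amalgam to `SL_k(ℤ[1/p])` is not injective.
-/

set_option autoImplicit false

namespace Pool.Agent.FS84

open Pool.Agent.TAU
open Pool.Agent.K89 (toQ toQ_false toQ_true)

theorem toI_not_injective (n p : ℕ) (hp : 2 ≤ p) [NeZero p] :
    ¬ Function.Injective (toI n p) := by
  intro hinj
  obtain ⟨⟨a, ha, hφa⟩, ⟨b, hb, hφb⟩, hal, hbe⟩ := sl_explicit n p hp
  obtain ⟨α, hα⟩ : ∃ α : SL (n + 3), α = el 0 2 (ne02 n) 1 := ⟨_, rfl⟩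
  obtain ⟨β, hβ⟩ : ∃ β : SL (n + 3), β = el 1 2 (ne12 n) 1 := ⟨_, rfl⟩
  rw [← hα] at hal
  rw [← hβ] at hbe
  have hne : amalgIncl n p true α * amalgIncl n p false β ≠
      amalgIncl n p false β * amalgIncl n p true α := by
    refine amalgam_ne (twoMaps n p) ?_ ?_ ?_
    · intro i
      cases i
      · exact Subgroup.subtype_injective _
      · exact conjHom_injective n p
    · exact hal
    · change β ∉ (conjA n p).subtype.range
      rw [Subgroup.range_subtype]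
      exact hbe
  apply hne
  apply hinj
  apply slIQ_injective
  rw [map_mul, map_mul, map_mul, map_mul, slIQ_toI, slIQ_toI, toQ_true, toQ_false]
  have h1 : (gEl n p)⁻¹ * slQ (n + 3) α * gEl n p =
      tv 0 2 (ne02 n) (dg n p 2 * ((1 : ℤ) : ℚ) / dg n p 0) := by
    have h2 := gEl_inv_tv n p 0 2 (ne02 n) ((1 : ℤ) : ℚ)
    rw [inv_inv, ← slQ_tv] at h2
    rw [hα]
    exact h2
  have h3 : slQ (n + 3) β = tv 1 2 (ne12 n) ((1 : ℤ) : ℚ) := by
    rw [hβ, ← slQ_tv]
    rfl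
  rw [h1, h3]
  exact tv_comm_of 0 2 1 2 (ne02 n) (ne12 n) (ne12 n).symm (ne02 n).symm _ _

end Pool.Agent.FS84
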