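import Pool.Agent.IRS.Tits
import Pool.Agent.TAU.Gen

/-!
`SL_k(ℤ)`, `k ≥ 3`, acting on a finite set: if `el_ij(1)^M` fixes almost all points of an invariant
set, for one pair `(i, j)`, then almost all points lie in an invariant subset on which all
`el_ij(M² t)` act trivially.
-/

set_option autoImplicit false
open Finset
namespace Pool.Agent.FS84
open Pool.Agent.TAU (SL el IsEl)

section bad

variable {G X : Type} [Group G] [DecidableEq X] (ρ : G →* Equiv.Perm X) (V : Finset X)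

/-- the number of points of `V` moved by `x` -/
def rfBad (x : G) : ℕ := (V.filter fun v => ρ x v ≠ v).card

theorem rfBad_inv (x : G) : rfBad ρ V x⁻¹ = rfBad ρ V x := by
  unfold rfBad
  congr 1
  apply filter_congr
  intro v _
  rw [map_inv, ne_eq, ne_eq, not_iff_not, Equiv.Perm.inv_eq_iff_eq]
  exact eq_comm

variable {V} in
theorem rfBad_comm (hV : ∀ (g : G), ∀ v ∈ V, ρ g v ∈ V) (x y : G) :
    rfBad ρ V (x * (y * x⁻¹ * y⁻¹)) ≤ 2 * rfBad ρ V x := by
  have hsub : (V.filter fun v => ρ (x * (y * x⁻¹ * y⁻¹)) v ≠ v) ⊆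
      (V.filter fun v => ρ x v ≠ v) ∪ (V.filter fun v => ρ x (ρ y⁻¹ v) ≠ ρ y⁻¹ v) := by
    intro v hv
    rw [mem_filter] at hv
    rw [mem_union, mem_filter, mem_filter]
    by_contra hcon
    push Not at hcon
    obtain ⟨h1, h2⟩ := hcon
    have h1 := h1 hv.1
    have h2 := h2 hv.1
    apply hv.2
    have h3 : ρ x⁻¹ (ρ y⁻¹ v) = ρ y⁻¹ v := by
      rw [map_inv ρ x, Equiv.Perm.inv_eq_iff_eq]
      exact h2.symm
    have h4 : ρ y (ρ y⁻¹ v) = v := by
      rw [← Equiv.Perm.mul_apply, ← map_mul, mul_inv_cancel, map_one]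
      rfl
    rw [map_mul, map_mul, map_mul, Equiv.Perm.mul_apply, Equiv.Perm.mul_apply,
      Equiv.Perm.mul_apply, h3, h4, h1]
  have hinj : (V.filter fun v => ρ x (ρ y⁻¹ v) ≠ ρ y⁻¹ v).card ≤
      (V.filter fun v => ρ x v ≠ v).card := by
    apply card_le_card_of_injOn (fun v => ρ y⁻¹ v)
    · intro v hv
      have hv := mem_filter.1 (mem_coe.1 hv)
      exact mem_coe.2 (mem_filter.2 ⟨hV _ v hv.1, hv.2⟩)
    · intro a _ b _ hab
      exact (ρ y⁻¹).injective hab
  have h1 := (card_le_card hsub).trans (card_union_le _ _)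
  unfold rfBad
  omega

end bad

section el

variable {k : ℕ} {X : Type} [DecidableEq X] (ρ : SL k →* Equiv.Perm X) {V : Finset X}

/-- the second index changes -/
theorem rfBad_snd (hV : ∀ (g : SL k), ∀ v ∈ V, ρ g v ∈ V) (M : ℤ) {i j l : Fin k} (hij : i ≠ j)
    (hjl : j ≠ l) (hil : i ≠ l) :
    rfBad ρ V (el i l hil M) ≤ 2 * rfBad ρ V (el i j hij M) := by
  have h := Pool.Agent.TAU.rt_rel i j l hij hjl hil M 1
  have e : el i l hil M = el i j hij M * (el j l hjl 1 * (el i j hij M)⁻¹ * (el j l hjl 1)⁻¹) := by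
    rw [← mul_assoc, ← mul_assoc, h, mul_one]
    group
  rw [e]
  exact rfBad_comm ρ hV _ _

/-- the first index changes -/
theorem rfBad_fst (hV : ∀ (g : SL k), ∀ v ∈ V, ρ g v ∈ V) (M : ℤ) {i j l : Fin k} (hij : i ≠ j)
    (hjl : j ≠ l) (hil : i ≠ l) :
    rfBad ρ V (el i l hil M) ≤ 2 * rfBad ρ V (el j l hjl M) := by
  have h := Pool.Agent.TAU.rt_rel i j l hij hjl hil 1 M
  have e : (el i l hil M)⁻¹ = el j l hjl M * (el i j hij 1 * (el j l hjl M)⁻¹ * (el i j hij 1)⁻¹) := by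
    rw [one_mul] at h
    have e1 : el i l hil M = el i j hij 1 * el j l hjl M * (el i j hij 1)⁻¹ * (el j l hjl M)⁻¹ := by
      rw [h]
      group
    rw [e1]
    group
  rw [← rfBad_inv ρ V (el i l hil M), e]
  exact rfBad_comm ρ hV _ _

theorem rfBad_all (hk : 3 ≤ k) (hV : ∀ (g : SL k), ∀ v ∈ V, ρ g v ∈ V) (M : ℤ) {i0 j0 : Fin k}
    (h0 : i0 ≠ j0) {i j : Fin k} (h : i ≠ j) :
    rfBad ρ V (el i j h M) ≤ 8 * rfBad ρ V (el i0 j0 h0 M) := by
  -- change the second index to any `l ≠ i0`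
  have snd : ∀ (l : Fin k) (hl : i0 ≠ l),
      rfBad ρ V (el i0 l hl M) ≤ 2 * rfBad ρ V (el i0 j0 h0 M) := by
    intro l hl
    by_cases hj : j0 = l
    · subst hj
      omega
    · exact rfBad_snd ρ hV M h0 hj hl
  by_cases hj : j = i0
  · obtain ⟨l, hl1, hl2⟩ : ∃ l : Fin k, l ≠ i0 ∧ l ≠ i := by
      by_contra hcon
      push Not at hcon
      have h1 : (Finset.univ : Finset (Fin k)) ⊆ {i0, i} := by
        intro x _
        rw [Finset.mem_insert, Finset.mem_singleton]
        by_cases hx : x = i0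
        · exact Or.inl hx
        · exact Or.inr (hcon x hx)
      have h2 := Finset.card_le_card h1
      have h3 : ({i0, i} : Finset (Fin k)).card ≤ 2 := Finset.card_le_two
      rw [Finset.card_univ, Fintype.card_fin] at h2
      omega
    have hi : i ≠ i0 := fun e => h (e.trans hj.symm)
    have e1 := snd l hl1.symm
    -- `(i0, l)` to `(i, l)`
    have e2 := rfBad_fst ρ hV M hi hl1.symm hl2.symm
    -- `(i, l)` to `(i, j)`
    have e3 := rfBad_snd ρ hV M hl2.symm (fun e => hl1 (e.trans hj)) h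
    omega
  · have e1 := snd j (Ne.symm hj)
    by_cases hi : i = i0
    · subst hi
      omega
    · have e2 := rfBad_fst ρ hV M hi (Ne.symm hj) h
      omega

end el

/-- [RF1] -/
theorem good_el (k : ℕ) (hk : 3 ≤ k) : ∃ C : ℕ, ∀ (X : Type) [Fintype X] [DecidableEq X]
    (ρ : SL k →* Equiv.Perm X) (V : Finset X), (∀ (g : SL k), ∀ v ∈ V, ρ g v ∈ V) →
    ∀ (M : ℕ) (i0 j0 : Fin k) (h0 : i0 ≠ j0),
      ∃ Y ⊆ V, (∀ (g : SL k), ∀ v ∈ Y, ρ g v ∈ Y) ∧
        (∀ v ∈ Y, ∀ (i j : Fin k) (h : i ≠ j) (t : ℤ), ρ (el i j h ((M : ℤ) * M * t)) v = v) ∧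
        (V \ Y).card ≤ C * (V.filter fun v => (ρ (el i0 j0 h0 1) ^ M) v ≠ v).card := by
  classical
  refine ⟨k * k * 8, ?_⟩
  intro X _ _ ρ V hV M i0 j0 h0
  have hpow : (V.filter fun v => (ρ (el i0 j0 h0 1) ^ M) v ≠ v).card =
      rfBad ρ V (el i0 j0 h0 (M : ℤ)) := by
    unfold rfBad
    rw [← map_pow, Pool.Agent.TAU.rt_pow, mul_one]
  rw [hpow]
  refine ⟨V.filter fun v => ∀ (x : SL k) (i j : Fin k) (h : i ≠ j) (t : ℤ),
    ρ (x * el i j h ((M : ℤ) * M * t) * x⁻¹) v = v, filter_subset _ _, ?_, ?_, ?_⟩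
  · intro g v hv
    rw [mem_filter] at hv ⊢
    refine ⟨hV g v hv.1, ?_⟩
    intro x i j h t
    have h1 := hv.2 (g⁻¹ * x) i j h t
    have h2 : x * el i j h ((M : ℤ) * M * t) * x⁻¹ * g =
        g * (g⁻¹ * x * el i j h ((M : ℤ) * M * t) * (g⁻¹ * x)⁻¹) := by group
    rw [← Equiv.Perm.mul_apply, ← map_mul, h2, map_mul, Equiv.Perm.mul_apply, h1]
  · intro v hv i j h t
    have h1 := (mem_filter.1 hv).2 1 i j h t
    rwa [one_mul, inv_one, mul_one] at h1
  · have hsub : V \ (V.filter fun v => ∀ (x : SL k) (i j : Fin k) (h : i ≠ j) (t : ℤ),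
        ρ (x * el i j h ((M : ℤ) * M * t) * x⁻¹) v = v) ⊆
        (univ : Finset {p : Fin k × Fin k // p.1 ≠ p.2}).biUnion
          (fun p => V.filter fun v => ρ (el p.1.1 p.1.2 p.2 (M : ℤ)) v ≠ v) := by
      intro v hv
      rw [mem_sdiff, mem_filter] at hv
      rw [mem_biUnion]
      by_contra hcon
      push Not at hcon
      apply hv.2
      refine ⟨hv.1, ?_⟩
      let K : Subgroup (SL k) :=
        { carrier := {g | ρ g v = v}
          mul_mem' := by
            intro a b ha hb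
            show ρ (a * b) v = v
            rw [map_mul, Equiv.Perm.mul_apply]
            rw [show ρ b v = v from hb, show ρ a v = v from ha]
          one_mem' := by
            show ρ 1 v = v
            rw [map_one]
            rfl
          inv_mem' := by
            intro a ha
            show ρ a⁻¹ v = v
            rw [map_inv, Equiv.Perm.inv_eq_iff_eq]
            exact (show ρ a v = v from ha).symm }
      have hK : ∀ (i j : Fin k) (h : i ≠ j), el i j h (M : ℤ) ∈ K := by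
        intro i j h
        have h1 := hcon ⟨(i, j), h⟩ (mem_univ _)
        rw [mem_filter, not_and, not_not] at h1
        exact h1 hv.1
      intro x i j h t
      exact Pool.Agent.IRS.tits k hk (M : ℤ) K hK x i j h t
    refine (card_le_card hsub).trans (card_biUnion_le.trans ?_)
    have h1 : ∀ p ∈ (univ : Finset {p : Fin k × Fin k // p.1 ≠ p.2}),
        (V.filter fun v => ρ (el p.1.1 p.1.2 p.2 (M : ℤ)) v ≠ v).card ≤
          8 * rfBad ρ V (el i0 j0 h0 (M : ℤ)) := fun p _ => rfBad_all ρ hk hV M h0 p.2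
    refine (sum_le_card_nsmul _ _ _ h1).trans ?_
    rw [smul_eq_mul, card_univ, mul_assoc (k * k)]
    refine Nat.mul_le_mul_right _ ?_
    refine (Fintype.card_subtype_le _).trans ?_
    rw [Fintype.card_prod, Fintype.card_fin]

end Pool.Agent.FS84
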