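import Pool.Agent.TAU.Gen

/-!
`MP_d45256_al`: on a set on which the congruence elements act trivially the orbits of `B` are the
orbits of `SL_k(ℤ)`.
-/

set_option autoImplicit false

namespace Pool.Agent.FS84

open Pool.Agent.TAU (SL el IsEl)

private theorem rf2_add {k : ℕ} (i j : Fin k) (h : i ≠ j) (s t : ℤ) :
    el i j h s * el i j h t = el i j h (s + t) := by
  apply Subtype.ext
  exact Matrix.transvection_mul_transvection_same i j h s t

theorem orbit_el (k : ℕ) (hk : 2 ≤ k) (X : Type) (ρ : SL k →* Equiv.Perm X) (Y : Set X)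
    (hY : ∀ (g : SL k), ∀ v ∈ Y, ρ g v ∈ Y) (m q : ℤ) (hmq : IsCoprime m q)
    (hm : ∀ v ∈ Y, ∀ (i j : Fin k) (h : i ≠ j) (t : ℤ), ρ (el i j h (m * t)) v = v)
    (B : Subgroup (SL k)) (hB : ∀ (i j : Fin k) (h : i ≠ j) (t : ℤ), el i j h (q * t) ∈ B)
    (g : SL k) (v : X) (hv : v ∈ Y) : ∃ b ∈ B, ρ b v = ρ g v := by
  let S : Subgroup (SL k) :=
    { carrier := {g | ∀ v ∈ Y, ∃ b ∈ B, ρ b v = ρ g v}
      one_mem' := fun v _ => ⟨1, B.one_mem, rfl⟩
      mul_mem' := by
        intro g h hg hh v hv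
        obtain ⟨c, hc, hc'⟩ := hh v hv
        obtain ⟨b, hb, hb'⟩ := hg (ρ h v) (hY h v hv)
        refine ⟨b * c, B.mul_mem hb hc, ?_⟩
        rw [map_mul, map_mul, Equiv.Perm.mul_apply, Equiv.Perm.mul_apply, hc', hb']
      inv_mem' := by
        intro g hg v hv
        obtain ⟨b, hb, hb'⟩ := hg (ρ g⁻¹ v) (hY g⁻¹ v hv)
        refine ⟨b⁻¹, B.inv_mem hb, ?_⟩
        have h1 : ρ g (ρ g⁻¹ v) = v := by
          rw [← Equiv.Perm.mul_apply, ← map_mul, mul_inv_cancel, map_one, Equiv.Perm.one_apply]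
        rw [h1] at hb'
        rw [map_inv, Equiv.Perm.inv_eq_iff_eq]
        exact hb'.symm }
  have hgen : Subgroup.closure {x : SL k | IsEl x} ≤ S := by
    rw [Subgroup.closure_le]
    rintro x ⟨i, j, h, t, rfl⟩ v hv
    obtain ⟨a, b, hab⟩ := hmq
    refine ⟨el i j h (q * (b * t)), hB i j h _, ?_⟩
    have h2 : el i j h t = el i j h (q * (b * t)) * el i j h (m * (a * t)) := by
      rw [rf2_add]
      congr 1
      linear_combination (-t) * hab
    rw [h2, map_mul, Equiv.Perm.mul_apply, hm v hv]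
  have hg : g ∈ S := hgen (by rw [Pool.Agent.TAU.gen k hk]; exact Subgroup.mem_top g)
  exact hg v hv

end Pool.Agent.FS84
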