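import Mathlib

/-!
Two actions of a group on the two projections of a partial bijection, which agree on a common
subgroup, give an action of the amalgamated product on the partial bijection.
-/

set_option autoImplicit false
open Finset

namespace Pool.Agent.FS84

/-- a group action induced on a set through an injective map with an invariant image -/
private theorem rf3_induced {G X Z : Type} [Group G] (ρ : G →* Equiv.Perm X) (ι : Z → X)
    (hι : Function.Injective ι) (h : ∀ (g : G) (z : Z), ∃ z', ι z' = ρ g (ι z)) :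
    ∃ τ : G →* Equiv.Perm Z, ∀ (g : G) (z : Z), ι (τ g z) = ρ g (ι z) := by
  choose f hf using h
  let F : G →* Function.End Z :=
    { toFun := fun g z => f g z
      map_one' := by
        funext z
        apply hι
        rw [hf, map_one]
        rfl
      map_mul' := by
        intro a b
        funext z
        apply hι
        change ι (f (a * b) z) = ι (f a (f b z))
        rw [hf, hf, hf, map_mul]
        rfl }
  exact ⟨F.toHomPerm, fun g z => hf g z⟩

/-- [RF3] -/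
theorem pushout_action {G H X₁ X₂ : Type} [Group G] [Group H] (φ : Bool → (H →* G))
    (ρ₁ : G →* Equiv.Perm X₁) (ρ₂ : G →* Equiv.Perm X₂) (D : Finset (X₁ × X₂))
    (hD1 : ∀ d ∈ D, ∀ d' ∈ D, d.1 = d'.1 → d = d') (hD2 : ∀ d ∈ D, ∀ d' ∈ D, d.2 = d'.2 → d = d')
    (hDA : ∀ (h : H), ∀ d ∈ D, (ρ₁ (φ false h) d.1, ρ₂ (φ true h) d.2) ∈ D)
    (hO1 : ∀ (g : G), ∀ d ∈ D, ∃ h : H, ρ₁ (φ false h) d.1 = ρ₁ g d.1)
    (hO2 : ∀ (g : G), ∀ d ∈ D, ∃ h : H, ρ₂ (φ true h) d.2 = ρ₂ g d.2) :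
    ∃ τ : Monoid.PushoutI (G := fun _ : Bool => G) φ →* Equiv.Perm {d // d ∈ D},
      (∀ (g : G) (d : {d // d ∈ D}),
        (τ (Monoid.PushoutI.of (G := fun _ : Bool => G) false g) d).1.1 = ρ₁ g d.1.1) ∧
      (∀ (g : G) (d : {d // d ∈ D}),
        (τ (Monoid.PushoutI.of (G := fun _ : Bool => G) true g) d).1.2 = ρ₂ g d.1.2) := by
  have hi1 : Function.Injective (fun d : {d // d ∈ D} => d.1.1) :=
    fun a b hab => Subtype.ext (hD1 a.1 a.2 b.1 b.2 hab)
  have hi2 : Function.Injective (fun d : {d // d ∈ D} => d.1.2) :=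
    fun a b hab => Subtype.ext (hD2 a.1 a.2 b.1 b.2 hab)
  obtain ⟨τ₁, h1⟩ := rf3_induced ρ₁ (fun d : {d // d ∈ D} => d.1.1) hi1 (by
    rintro g ⟨d, hd⟩
    obtain ⟨h, hh⟩ := hO1 g d hd
    exact ⟨⟨_, hDA h d hd⟩, hh⟩)
  obtain ⟨τ₂, h2⟩ := rf3_induced ρ₂ (fun d : {d // d ∈ D} => d.1.2) hi2 (by
    rintro g ⟨d, hd⟩
    obtain ⟨h, hh⟩ := hO2 g d hd
    exact ⟨⟨_, hDA h d hd⟩, hh⟩)
  have hk : ∀ h : H, τ₁ (φ false h) = τ₂ (φ true h) := by
    intro h
    ext1 d
    have e1 : τ₁ (φ false h) d = ⟨_, hDA h d.1 d.2⟩ := hi1 (h1 (φ false h) d)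
    have e2 : τ₂ (φ true h) d = ⟨_, hDA h d.1 d.2⟩ := hi2 (h2 (φ true h) d)
    rw [e1, e2]
  let F : ∀ _ : Bool, G →* Equiv.Perm {d // d ∈ D} := fun b => Bool.rec τ₁ τ₂ b
  have hF : ∀ i, (F i).comp (φ i) = τ₁.comp (φ false) := by
    intro i
    cases i
    · rfl
    · ext1 h
      exact (hk h).symm
  refine ⟨Monoid.PushoutI.lift (G := fun _ : Bool => G) F (τ₁.comp (φ false)) hF, ?_, ?_⟩
  · intro g d
    rw [Monoid.PushoutI.lift_of (G := fun _ : Bool => G) F (τ₁.comp (φ false)) hF (i := false) g]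
    exact h1 g d
  · intro g d
    rw [Monoid.PushoutI.lift_of (G := fun _ : Bool => G) F (τ₁.comp (φ false)) hF (i := true) g]
    exact h2 g d

end Pool.Agent.FS84
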