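import Pool.Agent.FS84.FinalN
import Pool.Agent.FS84.RF1
import Pool.Agent.FS84.RF2
import Pool.Agent.FS84.RF3

/-!
If `SL_k(ℤ)`, `k ≥ 3`, is flexibly stable, then every homomorphism from the amalgamated product
`SL_k(ℤ) *_A SL_k(ℤ)` to a sofic group kills the finite residual, which is not trivial.
-/

set_option autoImplicit false
open Finset

namespace Pool.Agent.FS84

open Pool.Agent.TAU (SL el IsEl)

/-! ### The data in `SL_k(ℤ)` -/

theorem el_mem_conj (n p : ℕ) [NeZero p] (i j : Fin (n + 3)) (h : i ≠ j) (t : ℤ) :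
    el i j h ((p : ℤ) * p * t) ∈ conjA n p := by
  obtain ⟨z, hz⟩ := dg_int n p (NeZero.ne p) i j
  refine mem_conjSub.2 ⟨el i j h (z * t), ?_⟩
  change slQ (n + 3) (tv i j h (z * t)) = gEl n p * slQ (n + 3) (tv i j h ((p : ℤ) * p * t)) *
    (gEl n p)⁻¹
  rw [slQ_tv, slQ_tv, gEl_tv]
  congr 1
  push_cast
  rw [hz]
  ring

theorem el_mem_conj' (n p : ℕ) [NeZero p] (i j : Fin (n + 3)) (h : i ≠ j) (t : ℤ) :
    el i j h ((p : ℤ) * p * t) ∈ (conjHom n p).range := by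
  obtain ⟨z, hz⟩ := dg_int n p (NeZero.ne p) j i
  rw [conjHom_range]
  refine mem_conjSub.2 ⟨el i j h (z * t), ?_⟩
  change slQ (n + 3) (tv i j h (z * t)) = (gEl n p)⁻¹ *
    slQ (n + 3) (tv i j h ((p : ℤ) * p * t)) * (gEl n p)⁻¹⁻¹
  rw [slQ_tv, slQ_tv, gEl_inv_tv]
  congr 1
  push_cast
  rw [hz]
  ring

theorem sl_data' (n p : ℕ) [NeZero p] :
    (conjA n p).FiniteIndex ∧
    ∃ (k1 k2 : SL (n + 3)) (a b : conjA n p),
      (a : SL (n + 3)) = el 0 2 (ne02 n) 1 ∧ conjHom n p a = el 0 2 (ne02 n) 1 ^ p ∧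
      (b : SL (n + 3)) = el 1 2 (ne12 n) 1 ^ p ∧ conjHom n p b = el 1 2 (ne12 n) 1 ∧
      el 0 2 (ne02 n) 1 * el 1 2 (ne12 n) 1 = el 1 2 (ne12 n) 1 * el 0 2 (ne02 n) 1 ∧
      k1 * el 0 2 (ne02 n) 1 = el 0 2 (ne02 n) 1 * el 1 2 (ne12 n) 1 * k1 ∧
      k1 * el 1 2 (ne12 n) 1 = el 1 2 (ne12 n) 1 * k1 ∧
      k2 * el 1 2 (ne12 n) 1 = el 0 2 (ne02 n) 1 * el 1 2 (ne12 n) 1 * k2 ∧
      k2 * el 0 2 (ne02 n) 1 = el 0 2 (ne02 n) 1 * k2 := by
  have hp0 : (p : ℚ) ≠ 0 := by exact_mod_cast (NeZero.ne p)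
  have hal : slQ (n + 3) (tv 0 2 (ne02 n) (1 : ℤ) ^ p) =
      gEl n p * slQ (n + 3) (tv 0 2 (ne02 n) (1 : ℤ)) * (gEl n p)⁻¹ := by
    rw [tv_pow, slQ_tv, slQ_tv, gEl_tv, dg_zero, dg_two]
    congr 1
    push_cast
    ring
  have hbe : slQ (n + 3) (tv 1 2 (ne12 n) (1 : ℤ)) =
      gEl n p * slQ (n + 3) (tv 1 2 (ne12 n) (1 : ℤ) ^ p) * (gEl n p)⁻¹ := by
    rw [tv_pow, slQ_tv, slQ_tv, gEl_tv, dg_one, dg_two]
    congr 1
    push_cast
    rw [mul_one, inv_mul_cancel₀ hp0, div_one]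
  refine ⟨conjSub_finiteIndex n p, tv 1 0 (ne01 n).symm 1,
    tv 0 1 (ne01 n) 1, ⟨_, mem_conjSub.2 ⟨_, hal⟩⟩, ⟨_, mem_conjSub.2 ⟨_, hbe⟩⟩, rfl, ?_, rfl, ?_,
    ?_, ?_, ?_, ?_, ?_⟩
  · apply slQ_injective
    exact (conjIso_spec (slQ (n + 3)) (slQ_injective (n + 3)) (gEl n p) _).trans hal.symm
  · apply slQ_injective
    exact (conjIso_spec (slQ (n + 3)) (slQ_injective (n + 3)) (gEl n p) _).trans hbe.symm
  · exact tv_comm_of 0 2 1 2 (ne02 n) (ne12 n) (ne12 n).symm (ne02 n).symm _ _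
  · change tv 1 0 (ne01 n).symm 1 * tv 0 2 (ne02 n) 1 =
      tv 0 2 (ne02 n) 1 * tv 1 2 (ne12 n) 1 * tv 1 0 (ne01 n).symm 1
    rw [tv_twist 1 0 2 (ne01 n).symm (ne02 n) (ne12 n)]
    rw [tv_comm_of 0 2 1 2 (ne02 n) (ne12 n) (ne12 n).symm (ne02 n).symm]
  · exact tv_comm_of 1 0 1 2 (ne01 n).symm (ne12 n) (ne01 n) (ne12 n).symm _ _
  · exact tv_twist 0 1 2 (ne01 n) (ne12 n) (ne02 n)
  · exact tv_comm_of 0 1 0 2 (ne01 n) (ne02 n) (ne01 n).symm (ne02 n).symm _ _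


/-! ### The counting -/

theorem bad_card {W₁ W₂ : Type} [Fintype W₁] [DecidableEq W₁] [Fintype W₂] [DecidableEq W₂]
    {G : Type} [Group G] {α β k₁ k₂ : G} (A : Subgroup G) (φ : A →* G)
    (hab : α * β = β * α) (h1a : k₁ * α = α * β * k₁) (h1b : k₁ * β = β * k₁)
    (h2b : k₂ * β = α * β * k₂) (h2a : k₂ * α = α * k₂) (a b : A) (ha : (a : G) = α) {p : ℕ}
    (hφa : φ a = α ^ p) (hb : (b : G) = β ^ p) (hφb : φ b = β)
    (ρ₁ : G →* Equiv.Perm W₁) (ρ₂ : G →* Equiv.Perm W₂) (V₁ : Finset W₁) (V₂ : Finset W₂)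
    (hV₁ : Inv ρ₁ V₁) (hV₂ : Inv ρ₂ V₂) (D : Finset (W₁ × W₂))
    (hDV : ∀ d ∈ D, d.1 ∈ V₁ ∧ d.2 ∈ V₂) (hD1 : ∀ d ∈ D, ∀ d' ∈ D, d.1 = d'.1 → d = d')
    (hD2 : ∀ d ∈ D, ∀ d' ∈ D, d.2 = d'.2 → d = d')
    (hDc : ∀ (c : A), ∀ d ∈ D, (ρ₁ c d.1, ρ₂ (φ c) d.2) ∈ D) :
    ∃ M : ℕ, Nat.Coprime p M ∧
      (V₁.filter fun v => (ρ₁ β ^ M) v ≠ v).card + 12 * D.card ≤ 6 * V₁.card + 6 * V₂.card ∧
      (V₂.filter fun v => (ρ₂ α ^ M) v ≠ v).card + 12 * D.card ≤ 6 * V₁.card + 6 * V₂.card := by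
  classical
  obtain ⟨e, M, hM, hM0, heM⟩ := prime_part p
    (Fintype.card (Equiv.Perm W₁) * Fintype.card (Equiv.Perm W₂))
    (mul_ne_zero Fintype.card_ne_zero Fintype.card_ne_zero)
  have hpow₁ : ∀ g : Equiv.Perm W₁, g ^ (p ^ e * M) = 1 := by
    intro g
    obtain ⟨c, hc⟩ := (Dvd.intro _ rfl : Fintype.card (Equiv.Perm W₁) ∣ _).trans heM
    rw [hc, pow_mul, pow_card_eq_one, one_pow]
  have hpow₂ : ∀ g : Equiv.Perm W₂, g ^ (p ^ e * M) = 1 := by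
    intro g
    obtain ⟨c, hc⟩ := (Dvd.intro_left _ rfl : Fintype.card (Equiv.Perm W₂) ∣ _).trans heM
    rw [hc, pow_mul, pow_card_eq_one, one_pow]
  have hDa : ∀ d ∈ D, ((ρ₁ α) d.1, ((ρ₂ α) ^ p) d.2) ∈ D := by
    intro d hd
    have h1 := hDc a d hd
    rw [hφa, ha, map_pow] at h1
    exact h1
  have hDb : ∀ d ∈ D, (((ρ₁ β) ^ p) d.1, (ρ₂ β) d.2) ∈ D := by
    intro d hd
    have h1 := hDc b d hd
    rw [hφb, hb, map_pow] at h1
    exact h1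
  have hcnt₂ := hnn_count (ρ₁ α) (ρ₁ β) (ρ₁ k₁) (ρ₁ k₂) (ρ₂ α) (ρ₂ β) (ρ₂ k₁) (ρ₂ k₂)
    (by rw [← map_mul, ← map_mul, hab]) (by rw [← map_mul, ← map_mul, ← map_mul, h1a])
    (by rw [← map_mul, ← map_mul, h1b]) (by rw [← map_mul, ← map_mul, ← map_mul, h2b])
    (by rw [← map_mul, ← map_mul, h2a])
    (by rw [← map_mul, ← map_mul, hab]) (by rw [← map_mul, ← map_mul, ← map_mul, h1a])
    (by rw [← map_mul, ← map_mul, h1b]) (by rw [← map_mul, ← map_mul, ← map_mul, h2b])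
    (by rw [← map_mul, ← map_mul, h2a]) p M e (hpow₁ _) (hpow₁ _) (hpow₂ _) (hpow₂ _)
    V₁ (hV₁ k₁) (hV₁ k₂) V₂ (hV₂ k₁) (hV₂ k₂) D hDV hD1 hD2 hDa hDb
  -- the swapped partial bijection
  obtain ⟨D', hD'⟩ : ∃ D' : Finset (W₂ × W₁), D' = D.map (Equiv.prodComm W₁ W₂).toEmbedding :=
    ⟨_, rfl⟩
  have hmem : ∀ d : W₂ × W₁, d ∈ D' ↔ (d.2, d.1) ∈ D := by
    intro d
    rw [hD', Finset.mem_map_equiv]
    rfl
  have hcard : D'.card = D.card := by rw [hD', Finset.card_map]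
  have hba : ∀ {W : Type} (ρ : G →* Equiv.Perm W), ρ β * ρ α = ρ α * ρ β := by
    intro W ρ
    rw [← map_mul, ← map_mul, hab]
  have hcnt₁ := hnn_count (ρ₂ β) (ρ₂ α) (ρ₂ k₂) (ρ₂ k₁) (ρ₁ β) (ρ₁ α) (ρ₁ k₂) (ρ₁ k₁)
    (hba ρ₂) (by rw [hba ρ₂, ← map_mul, ← map_mul, ← map_mul, h2b])
    (by rw [← map_mul, ← map_mul, h2a]) (by rw [hba ρ₂, ← map_mul, ← map_mul, ← map_mul, h1a])
    (by rw [← map_mul, ← map_mul, h1b])
    (hba ρ₁) (by rw [hba ρ₁, ← map_mul, ← map_mul, ← map_mul, h2b])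
    (by rw [← map_mul, ← map_mul, h2a]) (by rw [hba ρ₁, ← map_mul, ← map_mul, ← map_mul, h1a])
    (by rw [← map_mul, ← map_mul, h1b]) p M e (hpow₂ _) (hpow₂ _) (hpow₁ _) (hpow₁ _)
    V₂ (hV₂ k₂) (hV₂ k₁) V₁ (hV₁ k₂) (hV₁ k₁) D'
    (fun d hd => ⟨(hDV _ ((hmem d).1 hd)).2, (hDV _ ((hmem d).1 hd)).1⟩)
    (by
      intro d hd d' hd' h
      have h1 := hD2 _ ((hmem d).1 hd) _ ((hmem d').1 hd') h
      exact Prod.ext (congrArg Prod.snd h1) (congrArg Prod.fst h1))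
    (by
      intro d hd d' hd' h
      have h1 := hD1 _ ((hmem d).1 hd) _ ((hmem d').1 hd') h
      exact Prod.ext (congrArg Prod.snd h1) (congrArg Prod.fst h1))
    (fun d hd => (hmem _).2 (hDb _ ((hmem d).1 hd)))
    (fun d hd => (hmem _).2 (hDa _ ((hmem d).1 hd)))
  refine ⟨M, hM, ?_, ?_⟩
  · have h1 : (V₁.filter fun v => (ρ₁ β ^ M) v ≠ v).card ≤
        (V₁.filter fun v => ¬ ((ρ₁ β ^ M) v = v ∧ (ρ₁ α ^ M) v = v)).card := by
      apply Finset.card_le_card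
      intro v hv
      rw [Finset.mem_filter] at hv ⊢
      exact ⟨hv.1, fun h => hv.2 h.1⟩
    omega
  · have h1 : (V₂.filter fun v => (ρ₂ α ^ M) v ≠ v).card ≤
        (V₂.filter fun v => ¬ ((ρ₂ α ^ M) v = v ∧ (ρ₂ β ^ M) v = v)).card := by
      apply Finset.card_le_card
      intro v hv
      rw [Finset.mem_filter] at hv ⊢
      exact ⟨hv.1, fun h => hv.2 h.1⟩
    omega

/-! ### The models -/

/-- the points whose image under `ψ w` does not correspond to their image under `τ w` -/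
noncomputable def wErr {P H : Type} [Group P] [Group H] (f : P →* H) {N : ℕ}
    (ψ : H → Equiv.Perm (Fin N)) {Y : Type} (pt : Fin N → Y) (D : Finset Y)
    (τ : P →* Equiv.Perm {d // d ∈ D}) (w : P) : ℝ :=
  cP (fun x => ¬ ∃ h : pt x ∈ D, pt (ψ (f w) x) = (τ w ⟨pt x, h⟩ : Y))

theorem wErr_mul {P H : Type} [Group P] [Group H] (f : P →* H) {N : ℕ}
    (ψ : H → Equiv.Perm (Fin N)) {Y : Type} (pt : Fin N → Y) (D : Finset Y)
    (τ : P →* Equiv.Perm {d // d ∈ D}) (v w : P) :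
    wErr f ψ pt D τ (v * w) ≤ wErr f ψ pt D τ v + wErr f ψ pt D τ w +
      cP (fun x => ψ (f v) (ψ (f w) x) ≠ ψ (f v * f w) x) := by
  unfold wErr
  have h1 : cP (fun x => ¬ ∃ h : pt x ∈ D, pt (ψ (f (v * w)) x) = (τ (v * w) ⟨pt x, h⟩ : Y)) ≤
      cP (fun x => ¬ ∃ h : pt (ψ (f w) x) ∈ D,
        pt (ψ (f v) (ψ (f w) x)) = (τ v ⟨pt (ψ (f w) x), h⟩ : Y)) +
      cP (fun x => (¬ ∃ h : pt x ∈ D, pt (ψ (f w) x) = (τ w ⟨pt x, h⟩ : Y)) ∨
        ψ (f v) (ψ (f w) x) ≠ ψ (f v * f w) x) := by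
    apply cP_or
    intro x hx
    by_contra hcon
    rw [not_or, not_or, not_not, not_not, not_not] at hcon
    obtain ⟨⟨h1, e1⟩, ⟨h2, e2⟩, e3⟩ := hcon
    apply hx
    refine ⟨h2, ?_⟩
    rw [map_mul, ← e3, e1, map_mul, Equiv.Perm.mul_apply]
    congr 2
    exact Subtype.ext e2
  have h2 : cP (fun x => (¬ ∃ h : pt x ∈ D, pt (ψ (f w) x) = (τ w ⟨pt x, h⟩ : Y)) ∨
        ψ (f v) (ψ (f w) x) ≠ ψ (f v * f w) x) ≤
      cP (fun x => ¬ ∃ h : pt x ∈ D, pt (ψ (f w) x) = (τ w ⟨pt x, h⟩ : Y)) +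
        cP (fun x => ψ (f v) (ψ (f w) x) ≠ ψ (f v * f w) x) := cP_or fun _ h => h
  have h3 := cP_pull (ψ (f w)) (fun x => ¬ ∃ h : pt x ∈ D, pt (ψ (f v) x) = (τ v ⟨pt x, h⟩ : Y))
  linarith

/-- the model -/
theorem rf_model (n p : ℕ) [NeZero p] (hG : HasNear (SL (n + 3))) (hst : FlexStable (SL (n + 3)))
    {H : Type} [Group H] (hs : Sofic H) (f : Amalgam n p →* H) (F : Finset (SL (n + 3)))
    (K : Finset H) (η : ℝ) (hη : 0 < η) :
    ∃ (N : ℕ) (ψ : H → Equiv.Perm (Fin N)) (m₁ m₂ : ℕ) (ι₁ : Fin N → Fin m₁)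
      (ι₂ : Fin N → Fin m₂) (D : Finset (Fin m₁ × Fin m₂))
      (τ : Amalgam n p →* Equiv.Perm {d // d ∈ D}),
      0 < N ∧ Function.Injective ι₁ ∧
      (∀ s ∈ K, ∀ v ∈ K, cP (fun x => ψ s (ψ v x) ≠ ψ (s * v) x) ≤ η * N) ∧
      (∀ s ∈ K, s ≠ 1 → cP (fun x => ψ s x = x) ≤ η * N) ∧
      cP (fun x => (ι₁ x, ι₂ x) ∉ D) ≤ η * N ∧
      (∀ i : Bool, ∀ g ∈ F, wErr f ψ (fun x => (ι₁ x, ι₂ x)) D τ (amalgIncl n p i g) ≤ η * N) := by
  classical
  obtain ⟨hfi, k1, k2, a, b, ha, hφa, hb, hφb, hab, h1a, h1b, h2b, h2a⟩ := sl_data' n p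
  have hcount : Countable (SL (n + 3)) := by
    unfold SL Matrix.SpecialLinearGroup Matrix
    infer_instance
  obtain ⟨C, hC⟩ := good_el (n + 3) (by omega)
  -- the constants
  obtain ⟨κ, hκ⟩ : ∃ κ : ℝ, κ = η / (200 * (C + 1)) := ⟨_, rfl⟩
  have hC0 : (0 : ℝ) ≤ C := Nat.cast_nonneg _
  have hκ0 : 0 < κ := by rw [hκ]; positivity
  have hκC : 200 * ((C : ℝ) * κ) + 200 * κ = η := by
    rw [hκ]
    field_simp
  have hCκ : 0 ≤ (C : ℝ) * κ := by positivity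
  obtain ⟨E, δ, hδ, hmod⟩ := hnn_model2 hG hst (hasNear_subgroup (conjA n p) hG) (conjHom n p) F κ
    hκ0
  obtain ⟨i₁, hi₁⟩ : ∃ i₁ : SL (n + 3) →* H, i₁ = f.comp (amalgIncl n p false) := ⟨_, rfl⟩
  obtain ⟨i₂, hi₂⟩ : ∃ i₂ : SL (n + 3) →* H, i₂ = f.comp (amalgIncl n p true) := ⟨_, rfl⟩
  have hi : ∀ c : conjA n p, i₁ c = i₂ (conjHom n p c) := by
    intro c
    rw [hi₁, hi₂]
    change f (amalgIncl n p false c) = f (amalgIncl n p true (conjHom n p c))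
    congr 1
    exact (Monoid.PushoutI.of_apply_eq_base
      (G := fun _ : Bool => SL (n + 3)) (twoMaps n p) false c).trans
      (Monoid.PushoutI.of_apply_eq_base
      (G := fun _ : Bool => SL (n + 3)) (twoMaps n p) true c).symm
  obtain ⟨K', hK'⟩ : ∃ K' : Finset H, K' = E.image i₁ ∪ (E.image i₂ ∪ K) := ⟨_, rfl⟩
  obtain ⟨ε, hε⟩ : ∃ ε : ℝ, ε = min δ η := ⟨_, rfl⟩
  have hε0 : 0 < ε := by rw [hε]; exact lt_min hδ hη
  have hε1 : ε ≤ δ := by rw [hε]; exact min_le_left _ _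
  have hε2 : ε ≤ η := by rw [hε]; exact min_le_right _ _
  obtain ⟨N, ψ, hN, hψ, hfix⟩ := hs K' ε hε0
  have hN0 : (0 : ℝ) < N := by exact_mod_cast hN
  have hK1 : ∀ g ∈ E, i₁ g ∈ K' := by
    intro g hg
    rw [hK']
    exact mem_union_left _ (mem_image_of_mem _ hg)
  have hK2 : ∀ g ∈ E, i₂ g ∈ K' := by
    intro g hg
    rw [hK']
    exact mem_union_right _ (mem_union_left _ (mem_image_of_mem _ hg))
  have hK3 : ∀ s ∈ K, s ∈ K' := by
    intro s hs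
    rw [hK']
    exact mem_union_right _ (mem_union_right _ hs)
  obtain ⟨m₁, m₂, ρ₁, ρ₂, ι₁, ι₂, V₁, V₂, D, hι₁, hι₂, hV₁, hV₂, hF₁, hF₂, hDV, hD1, hD2, hDc,
    hDx, hVc₁, hVc₂⟩ :=
    hmod N (fun g => ψ (i₁ g)) (fun g => ψ (i₂ g)) hN
    (by
      intro g hg h hh
      have h1 := hψ (i₁ g) (hK1 g hg) (i₁ h) (hK1 h hh)
      rw [← map_mul] at h1
      exact h1.trans (mul_le_mul_of_nonneg_right hε1 hN0.le))
    (by
      intro g hg h hh
      have h1 := hψ (i₂ g) (hK2 g hg) (i₂ h) (hK2 h hh)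
      rw [← map_mul] at h1
      exact h1.trans (mul_le_mul_of_nonneg_right hε1 hN0.le))
    (by
      intro c _
      have h1 : (univ.filter fun x => ψ (i₁ c) x ≠ ψ (i₂ (conjHom n p c)) x) = ∅ := by
        rw [Finset.filter_eq_empty_iff]
        intro x _
        rw [hi c, not_not]
      rw [h1]
      simp only [card_empty, Nat.cast_zero]
      positivity)
  obtain ⟨M, hM, hbad₁, hbad₂⟩ := bad_card (conjA n p) (conjHom n p) hab h1a h1b h2b h2a a b ha hφa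
    hb hφb ρ₁ ρ₂ V₁ V₂ hV₁ hV₂ D hDV hD1 hD2 hDc
  obtain ⟨Y₁, hY₁V, hY₁inv, hY₁fix, hY₁card⟩ := hC (Fin m₁) ρ₁ V₁
    (fun g v hv => (hV₁ g v).2 hv) M 1 2 (ne12 n)
  obtain ⟨Y₂, hY₂V, hY₂inv, hY₂fix, hY₂card⟩ := hC (Fin m₂) ρ₂ V₂
    (fun g v hv => (hV₂ g v).2 hv) M 0 2 (ne02 n)
  -- the cardinalities
  have hDcard : (N : ℝ) ≤ D.card + κ * N := by
    have h1 := cP_compl (fun x => (ι₁ x, ι₂ x) ∉ D)
    have h2 : cP (fun x => ¬ (ι₁ x, ι₂ x) ∉ D) ≤ D.card := by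
      rw [cP_eq]
      have h3 : (univ.filter fun x => ¬ (ι₁ x, ι₂ x) ∉ D).card ≤ D.card := by
        apply Finset.card_le_card_of_injOn (fun x => (ι₁ x, ι₂ x))
        · intro x hx
          have h4 := (mem_filter.1 (mem_coe.1 hx)).2
          exact mem_coe.2 (not_not.1 h4)
        · intro x _ y _ h
          exact hι₁ (congrArg Prod.fst h)
      exact_mod_cast h3
    have h3 : cP (fun x => (ι₁ x, ι₂ x) ∉ D) ≤ κ * N := by
      rw [cP_eq]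
      exact hDx
    linarith
  have hb₁ : ((V₁.filter fun v => (ρ₁ (el 1 2 (ne12 n) 1) ^ M) v ≠ v).card : ℝ) ≤
      24 * κ * N := by
    have h1 : ((V₁.filter fun v => (ρ₁ (el 1 2 (ne12 n) 1) ^ M) v ≠ v).card : ℝ) +
        12 * D.card ≤ 6 * V₁.card + 6 * V₂.card := by exact_mod_cast hbad₁
    linarith
  have hb₂ : ((V₂.filter fun v => (ρ₂ (el 0 2 (ne02 n) 1) ^ M) v ≠ v).card : ℝ) ≤
      24 * κ * N := by
    have h1 : ((V₂.filter fun v => (ρ₂ (el 0 2 (ne02 n) 1) ^ M) v ≠ v).card : ℝ) +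
        12 * D.card ≤ 6 * V₁.card + 6 * V₂.card := by exact_mod_cast hbad₂
    linarith
  have hc₁ : ((V₁ \ Y₁).card : ℝ) ≤ C * (24 * κ * N) := by
    have h1 : ((V₁ \ Y₁).card : ℝ) ≤
        C * (V₁.filter fun v => (ρ₁ (el 1 2 (ne12 n) 1) ^ M) v ≠ v).card := by
      exact_mod_cast hY₁card
    exact h1.trans (mul_le_mul_of_nonneg_left hb₁ hC0)
  have hc₂ : ((V₂ \ Y₂).card : ℝ) ≤ C * (24 * κ * N) := by
    have h1 : ((V₂ \ Y₂).card : ℝ) ≤
        C * (V₂.filter fun v => (ρ₂ (el 0 2 (ne02 n) 1) ^ M) v ≠ v).card := by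
      exact_mod_cast hY₂card
    exact h1.trans (mul_le_mul_of_nonneg_left hb₂ hC0)
  obtain ⟨D', hD'⟩ : ∃ D' : Finset (Fin m₁ × Fin m₂),
      ∀ d, d ∈ D' ↔ d ∈ D ∧ d.1 ∈ Y₁ ∧ d.2 ∈ Y₂ :=
    ⟨D.filter fun d => d.1 ∈ Y₁ ∧ d.2 ∈ Y₂, fun d => by rw [mem_filter]⟩
  have hbadD : cP (fun x => (ι₁ x, ι₂ x) ∉ D') ≤ κ * N + 2 * (C * (24 * κ * N)) := by
    have h1 : cP (fun x => (ι₁ x, ι₂ x) ∉ D') ≤ cP (fun x => (ι₁ x, ι₂ x) ∉ D) +
        cP (fun x => ι₁ x ∈ V₁ \ Y₁ ∨ ι₂ x ∈ V₂ \ Y₂) := by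
      apply cP_or
      intro x hx
      by_cases h : (ι₁ x, ι₂ x) ∈ D
      · right
        by_contra hcon
        rw [not_or, mem_sdiff, mem_sdiff, not_and, not_and, not_not, not_not] at hcon
        exact hx ((hD' _).2 ⟨h, hcon.1 (hDV _ h).1, hcon.2 (hDV _ h).2⟩)
      · left
        exact h
    have h2 : cP (fun x => ι₁ x ∈ V₁ \ Y₁ ∨ ι₂ x ∈ V₂ \ Y₂) ≤
        cP (fun x => ι₁ x ∈ V₁ \ Y₁) + cP (fun x => ι₂ x ∈ V₂ \ Y₂) := cP_or fun _ h => h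
    have h3 : cP (fun x => ι₁ x ∈ V₁ \ Y₁) ≤ (V₁ \ Y₁).card := by
      rw [cP_eq]
      have h4 : (univ.filter fun x => ι₁ x ∈ V₁ \ Y₁).card ≤ (V₁ \ Y₁).card := by
        apply Finset.card_le_card_of_injOn ι₁
        · intro x hx
          exact mem_coe.2 (mem_filter.1 (mem_coe.1 hx)).2
        · intro x _ y _ h
          exact hι₁ h
      exact_mod_cast h4
    have h5 : cP (fun x => ι₂ x ∈ V₂ \ Y₂) ≤ (V₂ \ Y₂).card := by
      rw [cP_eq]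
      have h4 : (univ.filter fun x => ι₂ x ∈ V₂ \ Y₂).card ≤ (V₂ \ Y₂).card := by
        apply Finset.card_le_card_of_injOn ι₂
        · intro x hx
          exact mem_coe.2 (mem_filter.1 (mem_coe.1 hx)).2
        · intro x _ y _ h
          exact hι₂ h
      exact_mod_cast h4
    have h6 : cP (fun x => (ι₁ x, ι₂ x) ∉ D) ≤ κ * N := by
      rw [cP_eq]
      exact hDx
    linarith
  -- the action
  have hcop : IsCoprime ((M : ℤ) * M) ((p : ℤ) * p) := by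
    have h1 : IsCoprime (p : ℤ) (M : ℤ) := Nat.isCoprime_iff_coprime.2 hM
    exact (h1.symm.mul_left h1.symm).mul_right (h1.symm.mul_left h1.symm)
  have hD1' : ∀ d ∈ D', ∀ d' ∈ D', d.1 = d'.1 → d = d' := fun d hd d' hd' h =>
    hD1 d ((hD' d).1 hd).1 d' ((hD' d').1 hd').1 h
  have hD2' : ∀ d ∈ D', ∀ d' ∈ D', d.2 = d'.2 → d = d' := fun d hd d' hd' h =>
    hD2 d ((hD' d).1 hd).1 d' ((hD' d').1 hd').1 h
  obtain ⟨τ, hτ₁, hτ₂⟩ := pushout_action (twoMaps n p) ρ₁ ρ₂ D' hD1' hD2'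
    (by
      intro c d hd
      obtain ⟨h1, h2, h3⟩ := (hD' d).1 hd
      exact (hD' _).2 ⟨hDc c d h1, hY₁inv _ _ h2, hY₂inv _ _ h3⟩)
    (by
      intro g d hd
      obtain ⟨h1, h2, h3⟩ := (hD' d).1 hd
      obtain ⟨c, hc, e⟩ := orbit_el (n + 3) (by omega) (Fin m₁) ρ₁ (↑Y₁)
        (fun g v hv => hY₁inv g v hv) ((M : ℤ) * M) ((p : ℤ) * p) hcop
        (fun v hv i j h t => hY₁fix v hv i j h t) (conjA n p)
        (fun i j h t => el_mem_conj n p i j h t) g d.1 h2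
      exact ⟨⟨c, hc⟩, e⟩)
    (by
      intro g d hd
      obtain ⟨h1, h2, h3⟩ := (hD' d).1 hd
      obtain ⟨c, ⟨c', rfl⟩, e⟩ := orbit_el (n + 3) (by omega) (Fin m₂) ρ₂ (↑Y₂)
        (fun g v hv => hY₂inv g v hv) ((M : ℤ) * M) ((p : ℤ) * p) hcop
        (fun v hv i j h t => hY₂fix v hv i j h t) (conjHom n p).range
        (fun i j h t => el_mem_conj' n p i j h t) g d.2 h3
      exact ⟨c', e⟩)
  have hCκN : 0 ≤ (C : ℝ) * κ * N := by positivity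
  have hκN : 0 ≤ κ * N := by positivity
  have hηN : 200 * ((C : ℝ) * κ * N) + 200 * (κ * N) = η * N := by
    rw [← hκC]
    ring
  refine ⟨N, ψ, m₁, m₂, ι₁, ι₂, D', τ, hN, hι₁, ?_, ?_, ?_, ?_⟩
  · intro s hs v hv
    rw [cP_eq]
    exact (hψ s (hK3 s hs) v (hK3 v hv)).trans (mul_le_mul_of_nonneg_right hε2 hN0.le)
  · intro s hs hs1
    rw [cP_eq]
    exact (hfix s (hK3 s hs) hs1).trans (mul_le_mul_of_nonneg_right hε2 hN0.le)
  · nlinarith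
  · intro i g hg
    have hgen : ∀ (q : Fin N → Prop), (cP q ≤ κ * N) →
        (∀ x, (ι₁ x, ι₂ x) ∈ D' → (ι₁ (ψ (f (amalgIncl n p i g)) x),
          ι₂ (ψ (f (amalgIncl n p i g)) x)) ∈ D' → ¬ q x →
          ∃ h : (ι₁ x, ι₂ x) ∈ D', (ι₁ (ψ (f (amalgIncl n p i g)) x),
            ι₂ (ψ (f (amalgIncl n p i g)) x)) =
              ((τ (amalgIncl n p i g) ⟨(ι₁ x, ι₂ x), h⟩ : {d // d ∈ D'}) :
                Fin m₁ × Fin m₂)) →
        wErr f ψ (fun x => (ι₁ x, ι₂ x)) D' τ (amalgIncl n p i g) ≤ η * N := by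
      intro q hq h
      unfold wErr
      have h1 : cP (fun x => ¬ ∃ h : (ι₁ x, ι₂ x) ∈ D', (ι₁ (ψ (f (amalgIncl n p i g)) x),
            ι₂ (ψ (f (amalgIncl n p i g)) x)) =
              ((τ (amalgIncl n p i g) ⟨(ι₁ x, ι₂ x), h⟩ : {d // d ∈ D'}) :
                Fin m₁ × Fin m₂)) ≤
          cP (fun x => (ι₁ x, ι₂ x) ∉ D') + cP (fun x => (ι₁ (ψ (f (amalgIncl n p i g)) x),
            ι₂ (ψ (f (amalgIncl n p i g)) x)) ∉ D' ∨ q x) := by
        apply cP_or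
        intro x hx
        by_contra hcon
        rw [not_or, not_or, not_not, not_not] at hcon
        exact hx (h x hcon.1 hcon.2.1 hcon.2.2)
      have h2 : cP (fun x => (ι₁ (ψ (f (amalgIncl n p i g)) x),
            ι₂ (ψ (f (amalgIncl n p i g)) x)) ∉ D' ∨ q x) ≤
          cP (fun x => (ι₁ (ψ (f (amalgIncl n p i g)) x),
            ι₂ (ψ (f (amalgIncl n p i g)) x)) ∉ D') + cP q := cP_or fun _ h => h
      have h3 := cP_pull (ψ (f (amalgIncl n p i g))) (fun x => (ι₁ x, ι₂ x) ∉ D')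
      nlinarith
    cases i
    · apply hgen (fun x => ρ₁ g (ι₁ x) ≠ ι₁ (ψ (i₁ g) x))
      · rw [cP_eq]
        exact hF₁ g hg
      · intro x h1 h2 h3
        rw [not_not] at h3
        refine ⟨h1, hD1' _ h2 _ (τ (amalgIncl n p false g) ⟨(ι₁ x, ι₂ x), h1⟩).2 ?_⟩
        rw [hi₁] at h3
        exact h3.symm.trans (hτ₁ g ⟨(ι₁ x, ι₂ x), h1⟩).symm
    · apply hgen (fun x => ρ₂ g (ι₂ x) ≠ ι₂ (ψ (i₂ g) x))
      · rw [cP_eq]
        exact hF₂ g hg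
      · intro x h1 h2 h3
        rw [not_not] at h3
        refine ⟨h1, hD2' _ h2 _ (τ (amalgIncl n p true g) ⟨(ι₁ x, ι₂ x), h1⟩).2 ?_⟩
        rw [hi₂] at h3
        exact h3.symm.trans (hτ₂ g ⟨(ι₁ x, ι₂ x), h1⟩).symm

/-- every word is modelled -/
theorem rf_word (n p : ℕ) [NeZero p] {H : Type} [Group H] (f : Amalgam n p →* H)
    (w : Amalgam n p) : ∀ ε : ℝ, 0 < ε → ∃ (F : Finset (SL (n + 3))) (K : Finset H) (η : ℝ),
      0 < η ∧ ∀ (N : ℕ) (ψ : H → Equiv.Perm (Fin N)) (Y : Type) (pt : Fin N → Y) (D : Finset Y)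
        (τ : Amalgam n p →* Equiv.Perm {d // d ∈ D}),
        (∀ s ∈ K, ∀ v ∈ K, cP (fun x => ψ s (ψ v x) ≠ ψ (s * v) x) ≤ η * N) →
        (∀ i : Bool, ∀ g ∈ F, wErr f ψ pt D τ (amalgIncl n p i g) ≤ η * N) →
          wErr f ψ pt D τ w ≤ ε * N := by
  classical
  have hof : ∀ (i : Bool) (g : SL (n + 3)), ∀ ε : ℝ, 0 < ε →
      ∃ (F : Finset (SL (n + 3))) (K : Finset H) (η : ℝ),
      0 < η ∧ ∀ (N : ℕ) (ψ : H → Equiv.Perm (Fin N)) (Y : Type) (pt : Fin N → Y) (D : Finset Y)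
        (τ : Amalgam n p →* Equiv.Perm {d // d ∈ D}),
        (∀ s ∈ K, ∀ v ∈ K, cP (fun x => ψ s (ψ v x) ≠ ψ (s * v) x) ≤ η * N) →
        (∀ i : Bool, ∀ g ∈ F, wErr f ψ pt D τ (amalgIncl n p i g) ≤ η * N) →
          wErr f ψ pt D τ (amalgIncl n p i g) ≤ ε * N := by
    intro i g ε hε
    exact ⟨{g}, ∅, ε, hε, fun N ψ Y pt D τ _ h => h i g (mem_singleton_self g)⟩
  induction w using Monoid.PushoutI.induction_on with
  | of i g => exact hof i g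
  | base c =>
    have e : Monoid.PushoutI.base (twoMaps n p) c = amalgIncl n p false (c : SL (n + 3)) :=
      (Monoid.PushoutI.of_apply_eq_base
        (G := fun _ : Bool => SL (n + 3)) (twoMaps n p) false c).symm
    rw [e]
    exact hof false c
  | mul v w hv hw =>
    intro ε hε
    obtain ⟨F₁, K₁, η₁, hη₁, h₁⟩ := hv (ε / 3) (by positivity)
    obtain ⟨F₂, K₂, η₂, hη₂, h₂⟩ := hw (ε / 3) (by positivity)
    refine ⟨F₁ ∪ F₂, K₁ ∪ (K₂ ∪ {f v, f w}), min (min η₁ η₂) (ε / 3),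
      lt_min (lt_min hη₁ hη₂) (by positivity), ?_⟩
    intro N ψ Y pt D τ hK hF
    have hN : (0 : ℝ) ≤ N := Nat.cast_nonneg _
    have e1 := h₁ N ψ Y pt D τ
      (fun s hs v hv => (hK s (mem_union_left _ hs) v (mem_union_left _ hv)).trans
        (mul_le_mul_of_nonneg_right ((min_le_left _ _).trans (min_le_left _ _)) hN))
      (fun i g hg => (hF i g (mem_union_left _ hg)).trans
        (mul_le_mul_of_nonneg_right ((min_le_left _ _).trans (min_le_left _ _)) hN))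
    have e2 := h₂ N ψ Y pt D τ
      (fun s hs v hv => (hK s (mem_union_right _ (mem_union_left _ hs)) v
        (mem_union_right _ (mem_union_left _ hv))).trans
        (mul_le_mul_of_nonneg_right ((min_le_left _ _).trans (min_le_right _ _)) hN))
      (fun i g hg => (hF i g (mem_union_right _ hg)).trans
        (mul_le_mul_of_nonneg_right ((min_le_left _ _).trans (min_le_right _ _)) hN))
    have e3 := (hK (f v) (mem_union_right _ (mem_union_right _ (by simp))) (f w)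
      (mem_union_right _ (mem_union_right _ (by simp)))).trans
        (mul_le_mul_of_nonneg_right (min_le_right _ _) hN)
    have e4 := wErr_mul f ψ pt D τ v w
    linarith

/-- every homomorphism to a sofic group kills the finite residual -/
theorem kills_residual (n p : ℕ) [NeZero p] (hG : HasNear (SL (n + 3))) (hst : FlexStable (SL (n + 3)))
    {H : Type} [Group H] (hs : Sofic H) (f : Amalgam n p →* H) (w : Amalgam n p)
    (hw : ∀ N : Subgroup (Amalgam n p), N.FiniteIndex → w ∈ N) : f w = 1 := by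
  classical
  by_contra hne
  obtain ⟨F, K, η, hη, hword⟩ := rf_word n p f w (1 / 10) (by norm_num)
  obtain ⟨N, ψ, m₁, m₂, ι₁, ι₂, D, τ, hN, hι₁, hmul, hfix, hD, hgen⟩ :=
    rf_model n p hG hst hs f F (K ∪ {f w}) (min η (1 / 10)) (lt_min hη (by norm_num))
  have hN0 : (0 : ℝ) < N := by exact_mod_cast hN
  have h1 := hword N ψ _ (fun x => (ι₁ x, ι₂ x)) D τ
    (fun s hs v hv => (hmul s (mem_union_left _ hs) v (mem_union_left _ hv)).trans
      (mul_le_mul_of_nonneg_right (min_le_left _ _) hN0.le))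
    (fun i g hg => (hgen i g hg).trans
      (mul_le_mul_of_nonneg_right (min_le_left _ _) hN0.le))
  have h2 := (hfix (f w) (mem_union_right _ (mem_singleton_self _)) hne).trans
    (mul_le_mul_of_nonneg_right (min_le_right _ _) hN0.le)
  have hker : τ w = 1 := by
    have h3 : (τ.ker).FiniteIndex := by
      have : Finite (τ.range) := inferInstance
      exact Subgroup.finiteIndex_ker τ
    exact hw τ.ker h3
  have h3 : (N : ℝ) ≤ wErr f ψ (fun x => (ι₁ x, ι₂ x)) D τ w + cP (fun x => ψ (f w) x = x) := by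
    have h4 := cP_or (p := fun _ : Fin N => True)
      (q := fun x => ¬ ∃ h : (ι₁ x, ι₂ x) ∈ D, (ι₁ (ψ (f w) x), ι₂ (ψ (f w) x)) =
        ((τ w ⟨(ι₁ x, ι₂ x), h⟩ : {d // d ∈ D}) : Fin m₁ × Fin m₂))
      (r := fun x => ψ (f w) x = x) (by
        intro x _
        by_contra hcon
        rw [not_or, not_not] at hcon
        obtain ⟨⟨h5, h6⟩, h7⟩ := hcon
        rw [hker] at h6
        exact h7 (hι₁ (congrArg Prod.fst h6)))
    have h5 : cP (fun _ : Fin N => True) = N := by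
      rw [cP_eq]
      simp
    rw [h5] at h4
    exact h4
  linarith

/-! ### The finite residual is not trivial -/

/-- the intersection of the subgroups of finite index -/
def finResidual (G : Type) [Group G] : Subgroup G :=
  ⨅ N : {N : Subgroup G // N.FiniteIndex}, (N : Subgroup G)

theorem mem_finResidual {G : Type} [Group G] {w : G} :
    w ∈ finResidual G ↔ ∀ N : Subgroup G, N.FiniteIndex → w ∈ N := by
  unfold finResidual
  rw [Subgroup.mem_iInf]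
  exact ⟨fun h N hN => h ⟨N, hN⟩, fun h N => h N.1 N.2⟩

/-- the commutator of `e_02(1)` in the second copy and `e_12(1)` in the first copy -/
noncomputable def nuEl (n p : ℕ) [NeZero p] : Amalgam n p :=
  amalgIncl n p true (el 0 2 (ne02 n) 1) * amalgIncl n p false (el 1 2 (ne12 n) 1) *
    (amalgIncl n p false (el 1 2 (ne12 n) 1) * amalgIncl n p true (el 0 2 (ne02 n) 1))⁻¹

theorem nuEl_ne (n p : ℕ) [NeZero p] (hp : 2 ≤ p) : nuEl n p ≠ 1 := by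
  intro h
  have h1 := mul_inv_eq_one.1 h
  refine amalgam_ne (twoMaps n p) ?_ ?_ ?_ h1
  · intro i
    cases i
    · exact Subgroup.subtype_injective _
    · exact conjHom_injective n p
  · change el 0 2 (ne02 n) 1 ∉ (conjHom n p).range
    rw [conjHom_range]
    intro h
    obtain ⟨d, hd⟩ := mem_conjSub.1 h
    change slQ (n + 3) d = (gEl n p)⁻¹ * slQ (n + 3) (tv 0 2 (ne02 n) 1) * (gEl n p)⁻¹⁻¹ at hd
    rw [slQ_tv, gEl_inv_tv, dg_zero, dg_two] at hd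
    apply tv_not_int p 0 2 (ne02 n) hp d
    rw [hd]
    congr 1
    push_cast
    rw [mul_one, one_div]
  · change el 1 2 (ne12 n) 1 ∉ (conjA n p).subtype.range
    rw [Subgroup.range_subtype]
    intro h
    obtain ⟨d, hd⟩ := mem_conjSub.1 h
    change slQ (n + 3) d = gEl n p * slQ (n + 3) (tv 1 2 (ne12 n) 1) * (gEl n p)⁻¹ at hd
    rw [slQ_tv, gEl_tv, dg_one, dg_two] at hd
    apply tv_not_int p 1 2 (ne12 n) hp d
    rw [hd]
    congr 1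
    push_cast
    rw [mul_one, div_one]

theorem nuEl_mem (n p : ℕ) [NeZero p] : nuEl n p ∈ finResidual (Amalgam n p) := by
  classical
  rw [mem_finResidual]
  intro N hN
  have : Fintype (Amalgam n p ⧸ N) := Fintype.ofFinite _
  obtain ⟨hfi, k1, k2, a, b, ha, hφa, hb, hφb, hab, h1a, h1b, h2b, h2a⟩ := sl_data' n p
  obtain ⟨τ, hτ⟩ : ∃ τ : Amalgam n p →* Equiv.Perm (Amalgam n p ⧸ N),
      τ = MulAction.toPermHom (Amalgam n p) (Amalgam n p ⧸ N) := ⟨_, rfl⟩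
  obtain ⟨ρ₁, hρ₁⟩ : ∃ ρ₁ : SL (n + 3) →* Equiv.Perm (Amalgam n p ⧸ N),
      ρ₁ = τ.comp (amalgIncl n p false) := ⟨_, rfl⟩
  obtain ⟨ρ₂, hρ₂⟩ : ∃ ρ₂ : SL (n + 3) →* Equiv.Perm (Amalgam n p ⧸ N),
      ρ₂ = τ.comp (amalgIncl n p true) := ⟨_, rfl⟩
  have hi : ∀ c : conjA n p, ρ₁ c = ρ₂ (conjHom n p c) := by
    intro c
    rw [hρ₁, hρ₂]
    change τ (amalgIncl n p false c) = τ (amalgIncl n p true (conjHom n p c))
    congr 1
    exact (Monoid.PushoutI.of_apply_eq_base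
      (G := fun _ : Bool => SL (n + 3)) (twoMaps n p) false c).trans
      (Monoid.PushoutI.of_apply_eq_base
      (G := fun _ : Bool => SL (n + 3)) (twoMaps n p) true c).symm
  obtain ⟨M, hM, hb₁, hb₂⟩ := bad_card (conjA n p) (conjHom n p) hab h1a h1b h2b h2a a b ha hφa
    hb hφb ρ₁ ρ₂ univ univ (fun g x => by simp) (fun g x => by simp)
    (univ.map ⟨fun x => (x, x), fun x y h => congrArg Prod.fst h⟩)
    (fun d _ => ⟨mem_univ _, mem_univ _⟩)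
    (by
      intro d hd d' hd' h
      obtain ⟨x, _, rfl⟩ := mem_map.1 hd
      obtain ⟨y, _, rfl⟩ := mem_map.1 hd'
      have h1 : x = y := h
      rw [h1])
    (by
      intro d hd d' hd' h
      obtain ⟨x, _, rfl⟩ := mem_map.1 hd
      obtain ⟨y, _, rfl⟩ := mem_map.1 hd'
      have h1 : x = y := h
      rw [h1])
    (by
      intro c d hd
      obtain ⟨x, _, rfl⟩ := mem_map.1 hd
      refine mem_map.2 ⟨ρ₁ c x, mem_univ _, ?_⟩
      change (ρ₁ c x, ρ₁ c x) = (ρ₁ c x, ρ₂ (conjHom n p c) x)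
      rw [hi c])
  rw [card_map, card_univ] at hb₂
  have h0 : (univ.filter fun v => (ρ₂ (el 0 2 (ne02 n) 1) ^ M) v ≠ v).card = 0 := by omega
  have h1 : ρ₂ (el 0 2 (ne02 n) 1) ^ M = 1 := by
    apply Equiv.ext
    intro v
    by_contra hv
    have h2 : v ∈ (univ.filter fun v => (ρ₂ (el 0 2 (ne02 n) 1) ^ M) v ≠ v) :=
      mem_filter.2 ⟨mem_univ _, hv⟩
    rw [card_eq_zero] at h0
    rw [h0] at h2
    exact absurd h2 (notMem_empty _)
  have h2 : ρ₂ (el 0 2 (ne02 n) 1) ^ p = ρ₁ (el 0 2 (ne02 n) 1) := by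
    rw [← map_pow, ← hφa, ← hi a, ha]
  have h3 : Commute (ρ₂ (el 0 2 (ne02 n) 1) ^ p) (ρ₁ (el 1 2 (ne12 n) 1)) := by
    rw [h2]
    change ρ₁ _ * ρ₁ _ = ρ₁ _ * ρ₁ _
    rw [← map_mul, ← map_mul, hab]
  have h4 : Commute (ρ₂ (el 0 2 (ne02 n) 1)) (ρ₁ (el 1 2 (ne12 n) 1)) := by
    have h5 : IsCoprime (p : ℤ) (M : ℤ) := Nat.isCoprime_iff_coprime.2 hM
    obtain ⟨u, v, huv⟩ := h5
    have h6 : ρ₂ (el 0 2 (ne02 n) 1) = (ρ₂ (el 0 2 (ne02 n) 1) ^ p) ^ u := by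
      have h7 : ρ₂ (el 0 2 (ne02 n) 1) = ρ₂ (el 0 2 (ne02 n) 1) ^ (u * p + v * M) := by
        rw [huv, zpow_one]
      rw [zpow_add, mul_comm v, zpow_mul _ (M : ℤ) v, zpow_natCast, h1, one_zpow, mul_one,
        mul_comm u, zpow_mul, zpow_natCast] at h7
      exact h7
    rw [h6]
    exact h3.zpow_left u
  have h5 : τ (nuEl n p) = 1 := by
    unfold nuEl
    rw [map_mul, map_mul, map_inv, map_mul]
    rw [hρ₁, hρ₂] at h4
    change τ (amalgIncl n p true _) * τ (amalgIncl n p false _) =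
      τ (amalgIncl n p false _) * τ (amalgIncl n p true _) at h4
    rw [h4, mul_inv_cancel]
  have h6 : nuEl n p • ((1 : Amalgam n p) : Amalgam n p ⧸ N) = ((1 : Amalgam n p) : _) := by
    have h7 := congrArg (fun σ : Equiv.Perm (Amalgam n p ⧸ N) =>
      σ ((1 : Amalgam n p) : Amalgam n p ⧸ N)) h5
    rw [hτ] at h7
    exact h7
  rw [MulAction.Quotient.smul_coe, smul_eq_mul, mul_one] at h6
  have h7 := QuotientGroup.eq.1 h6
  rw [mul_one] at h7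
  simpa using N.inv_mem h7

end Pool.Agent.FS84
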