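import Pool.Agent.FS84.Dense

/-!
Flexibly stable Kazhdan groups: a `2`-cochain which is almost a coboundary over finite quotients is
residually trivial.
-/

set_option autoImplicit false
open Finset

namespace Pool.Agent.FS84

section alg

variable {A : Type} [AddCommGroup A]

theorem alg18 (p q r u v w : A) :
    (p + q + -r) + -(u + v + -w) = (p + -u) + (q + -v) + -(r + -w) := by abel

theorem alg19 (p q r u v w : A) :
    (p + q + -r) + (u + v + -w) = (p + u) + (q + v) + -(r + w) := by abel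

theorem alg20 (p q : A) : q + (p + -q) = p := by abel

end alg

variable {G : Type} [Group G] {Y A : Type} [CommGroup A]

theorem resTriv_surj (τ : G →* Equiv.Perm Y) (hτ : Trans τ) {Y' : Type} (τ' : G →* Equiv.Perm Y')
    (π : Y' → Y) (hπ : ∀ g y, π (τ' g y) = τ g (π y)) (hne : Nonempty Y') :
    Function.Surjective π := by
  obtain ⟨y0⟩ := hne
  intro y
  obtain ⟨g, hg⟩ := hτ (π y0) y
  exact ⟨τ' g y0, by rw [hπ, hg]⟩

theorem resTriv_div (τ : G →* Equiv.Perm Y) (hτ : Trans τ) (a a' : G → G → Y → A)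
    (h : ResTriv τ a) (h' : ResTriv τ a') :
    ResTriv τ (fun g h y => a g h y * (a' g h y)⁻¹) := by
  obtain ⟨Y1, _, hne1, τ1, π1, c1, hπ1, hc1⟩ := h
  obtain ⟨Y2, _, hne2, τ2, π2, c2, hπ2, hc2⟩ := h'
  have hiff : ∀ g (p : Y1 × Y2), π1 ((Equiv.prodCongr (τ1 g) (τ2 g)) p).1 =
      π2 ((Equiv.prodCongr (τ1 g) (τ2 g)) p).2 ↔ π1 p.1 = π2 p.2 := by
    intro g p
    show π1 (τ1 g p.1) = π2 (τ2 g p.2) ↔ π1 p.1 = π2 p.2
    rw [hπ1, hπ2]
    exact (τ g).injective.eq_iff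
  let τ' : G →* Equiv.Perm {p : Y1 × Y2 // π1 p.1 = π2 p.2} :=
    { toFun := fun g => Equiv.Perm.subtypePerm (Equiv.prodCongr (τ1 g) (τ2 g)) (hiff g)
      map_one' := by
        ext p
        · simp
        · simp
      map_mul' := by
        intro g h
        apply Equiv.ext
        intro p
        apply Subtype.ext
        show (τ1 (g * h) p.1.1, τ2 (g * h) p.1.2) = (τ1 g (τ1 h p.1.1), τ2 g (τ2 h p.1.2))
        rw [map_mul, map_mul]
        rfl }
  have hτ1 : ∀ g p, (τ' g p).1.1 = τ1 g p.1.1 := fun _ _ => rfl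
  have hτ2 : ∀ g p, (τ' g p).1.2 = τ2 g p.1.2 := fun _ _ => rfl
  refine ⟨{p : Y1 × Y2 // π1 p.1 = π2 p.2}, inferInstance, ?_, τ', fun p => π1 p.1.1,
    fun g p => c1 g p.1.1 * (c2 g p.1.2)⁻¹, ?_, ?_⟩
  · obtain ⟨y2⟩ := hne2
    obtain ⟨y1, hy1⟩ := resTriv_surj τ hτ τ1 π1 hπ1 hne1 (π2 y2)
    exact ⟨⟨(y1, y2), hy1⟩⟩
  · intro g p
    show π1 (τ' g p).1.1 = _
    rw [hτ1, hπ1]
  · intro g h p
    show a g h (π1 p.1.1) * (a' g h (π1 p.1.1))⁻¹ = _
    rw [hc1]
    rw [p.2, hc2]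
    simp only [dc]
    rw [hτ1, hτ2]
    exact alg18 (A := Additive A) _ _ _ _ _ _

theorem resTriv_mul_dc (τ : G →* Equiv.Perm Y) (a : G → G → Y → A) (h : ResTriv τ a)
    (c : G → Y → A) : ResTriv τ (fun g h y => a g h y * dc τ c g h y) := by
  obtain ⟨Y1, hfin, hne1, τ1, π1, c1, hπ1, hc1⟩ := h
  refine ⟨Y1, hfin, hne1, τ1, π1, fun g y => c1 g y * c g (π1 y), hπ1, ?_⟩
  intro g h y
  show a g h (π1 y) * dc τ c g h (π1 y) = _
  rw [hc1]
  simp only [dc]
  rw [hπ1]
  exact alg19 (A := Additive A) _ _ _ _ _ _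

/-- THEOREM H, for cochains -/
theorem resTriv_of_qform [Countable G] (hG : HasNear G) (hst : FlexStable G) [Finite A]
    [Finite Y] (τ : G →* Equiv.Perm Y) (hτ : Trans τ) (a : G → G → Y → A) (hQ : QForm τ a) :
    ResTriv τ a := by
  classical
  have := Fintype.ofFinite Y
  obtain ⟨E, δ, hδ, hsm⟩ := small_cocycles hG hst A
  have hd := resTriv_dense hG hst τ hτ a hQ
  obtain ⟨a1, ha1, ha1E⟩ := hd E
  have hex : ∃ c : G → Y → A, ∀ g h y, (fun g h y => a g h y * (a1 g h y)⁻¹) g h y =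
      dc τ c g h y := by
    apply coc_compact
    intro E0
    obtain ⟨a2, ha2, ha2E⟩ := hd (E ∪ E0)
    obtain ⟨c, hc⟩ := hsm Y τ (fun g h y => a2 g h y * (a1 g h y)⁻¹) hτ
      (resTriv_div τ hτ a2 a1 ha2 ha1) (by
        intro g hg h hh
        have h1 : {y | a2 g h y * (a1 g h y)⁻¹ ≠ 1} = ∅ := by
          rw [Set.eq_empty_iff_forall_notMem]
          intro y hy
          apply hy
          rw [ha2E g (mem_union_left _ hg) h (mem_union_left _ hh) y, ha1E g hg h hh y,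
            mul_inv_cancel]
        rw [h1, Set.ncard_empty, Nat.cast_zero]
        positivity)
    refine ⟨c, ?_⟩
    intro g hg h hh y
    show a g h y * (a1 g h y)⁻¹ = _
    rw [← hc, ha2E g (mem_union_right _ hg) h (mem_union_right _ hh) y]
  obtain ⟨c, hc⟩ := hex
  have h1 : a = fun g h y => a1 g h y * dc τ c g h y := by
    funext g h y
    rw [← hc]
    exact (alg20 (A := Additive A) _ _).symm
  rw [h1]
  exact resTriv_mul_dc τ a1 ha1 c

end Pool.Agent.FS84
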