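import Pool.Agent.FS84.Fin

/-!
Almost isomorphic finite actions of a Kazhdan group have large isomorphic invariant parts;
no prescribed slack `s(n) = o(n)` suffices for a Kazhdan group.
-/

set_option autoImplicit false
open Filter Topology Finset

namespace Pool.Agent.FS84

open Pool.Agent.H51K

variable {G : Type} [Group G]

/-- the product action -/
def prodAct {X Y : Type} (ρ : G →* Equiv.Perm X) (τ : G →* Equiv.Perm Y) :
    G →* Equiv.Perm (X × Y) where
  toFun g := Equiv.prodCongr (ρ g) (τ g)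
  map_one' := by
    ext p
    · simp
    · simp
  map_mul' g h := by
    ext p
    · simp
    · simp

theorem prodAct_apply {X Y : Type} (ρ : G →* Equiv.Perm X) (τ : G →* Equiv.Perm Y) (g : G)
    (p : X × Y) : prodAct ρ τ g p = (ρ g p.1, τ g p.2) := rfl

/-- LEMMA 2 -/
theorem matching (hG : HasNear G) :
    ∃ (F : Finset G) (C : ℝ), 0 < C ∧ ∀ (X Y : Type) [Fintype X] [DecidableEq X]
      [Fintype Y] [DecidableEq Y] (ρ : G →* Equiv.Perm X) (τ : G →* Equiv.Perm Y)
      (A : Finset X) (ι : X → Y), Set.InjOn ι A → ∃ B : Finset (X × Y),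
        (∀ g x y, (ρ g x, τ g y) ∈ B ↔ (x, y) ∈ B) ∧
        (∀ x y y', (x, y) ∈ B → (x, y') ∈ B → y = y') ∧
        (∀ x x' y, (x, y) ∈ B → (x', y) ∈ B → x = x') ∧
        ((A.filter fun x => (x, ι x) ∉ B).card : ℝ) ≤
          C * ∑ a ∈ F, ((A.filter fun x => ρ a x ∉ A ∨ ι (ρ a x) ≠ τ a (ι x)).card : ℝ) := by
  classical
  obtain ⟨F, C, hC, h⟩ := hG
  refine ⟨F, 2 * C, by positivity, ?_⟩
  intro X Y _ _ _ _ ρ τ A ι hι
  set D : Finset (X × Y) := A.image (fun x => (x, ι x)) with hD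
  have hDm : ∀ x y, (x, y) ∈ D ↔ x ∈ A ∧ ι x = y := by
    intro x y
    simp only [hD, mem_image, Prod.mk.injEq]
    constructor
    · rintro ⟨z, hz, rfl, rfl⟩
      exact ⟨hz, rfl⟩
    · rintro ⟨hx, rfl⟩
      exact ⟨x, hx, rfl, rfl⟩
  obtain ⟨B, hB, hcard⟩ := h (X × Y) (prodAct ρ τ) D
  have hBm : ∀ g x y, (ρ g x, τ g y) ∈ B ↔ (x, y) ∈ B := fun g x y => hB g (x, y)
  have hle : ∀ a, ((D.filter fun p => prodAct ρ τ a p ∉ D).card : ℝ) ≤
      ((A.filter fun x => ρ a x ∉ A ∨ ι (ρ a x) ≠ τ a (ι x)).card : ℝ) := by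
    intro a
    have : (D.filter fun p => prodAct ρ τ a p ∉ D) ⊆
        (A.filter fun x => ρ a x ∉ A ∨ ι (ρ a x) ≠ τ a (ι x)).image (fun x => (x, ι x)) := by
      rintro ⟨x, y⟩ hp
      rw [mem_filter, hDm, prodAct_apply, hDm] at hp
      obtain ⟨⟨hx, rfl⟩, hn⟩ := hp
      rw [mem_image]
      refine ⟨x, ?_, rfl⟩
      rw [mem_filter]
      refine ⟨hx, ?_⟩
      by_contra hc
      push Not at hc
      exact hn hc
    exact_mod_cast (Finset.card_le_card this).trans Finset.card_image_le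
  set B' : Finset (X × Y) := B.filter (fun p => (∀ q ∈ B, q.1 = p.1 → q = p) ∧
    (∀ q ∈ B, q.2 = p.2 → q = p)) with hB'
  have hmem : ∀ x y, (x, y) ∈ B' ↔ (x, y) ∈ B ∧ (∀ y', (x, y') ∈ B → y' = y) ∧
      (∀ x', (x', y) ∈ B → x' = x) := by
    intro x y
    rw [hB', mem_filter]
    constructor
    · rintro ⟨h1, h2, h3⟩
      refine ⟨h1, ?_, ?_⟩
      · intro y' hy'
        exact congrArg Prod.snd (h2 (x, y') hy' rfl)
      · intro x' hx'
        exact congrArg Prod.fst (h3 (x', y) hx' rfl)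
    · rintro ⟨h1, h2, h3⟩
      refine ⟨h1, ?_, ?_⟩
      · rintro ⟨a, b⟩ hq hqa
        simp only at hqa
        subst hqa
        rw [h2 b hq]
      · rintro ⟨a, b⟩ hq hqb
        simp only at hqb
        subst hqb
        rw [h3 a hq]
  refine ⟨B', ?_, ?_, ?_, ?_⟩
  · have key : ∀ g x y, (x, y) ∈ B' → (ρ g x, τ g y) ∈ B' := by
      intro g x y hxy
      rw [hmem] at hxy ⊢
      refine ⟨(hBm g x y).2 hxy.1, ?_, ?_⟩
      · intro y' hy'
        have h1 : y' = τ g ((τ g).symm y') := by simp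
        rw [h1] at hy' ⊢
        rw [hBm] at hy'
        rw [hxy.2.1 _ hy']
      · intro x' hx'
        have h1 : x' = ρ g ((ρ g).symm x') := by simp
        rw [h1] at hx' ⊢
        rw [hBm] at hx'
        rw [hxy.2.2 _ hx']
    intro g x y
    constructor
    · intro hxy
      have := key g⁻¹ _ _ hxy
      simpa using this
    · exact key g x y
  · intro x y y' h1 h2
    rw [hmem] at h1 h2
    exact h2.2.1 y h1.1
  · intro x x' y h1 h2
    rw [hmem] at h1 h2
    exact h2.2.2 x h1.1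
  · have hsub : (A.filter fun x => (x, ι x) ∉ B').card ≤
        (D \ B).card + ((B \ D).card + (B \ D).card) := by
      have h1 : (A.filter fun x => (x, ι x) ∉ B') ⊆
          (D \ B).image Prod.fst ∪ ((B \ D).image Prod.fst ∪
            (A.filter fun x => ι x ∈ (B \ D).image Prod.snd)) := by
        intro x hx
        rw [mem_filter] at hx
        obtain ⟨hxA, hx⟩ := hx
        have hxD : (x, ι x) ∈ D := (hDm _ _).2 ⟨hxA, rfl⟩
        by_cases hxB : (x, ι x) ∈ B
        · rw [hmem] at hx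
          by_cases hrow : ∀ y', (x, y') ∈ B → y' = ι x
          · by_cases hcol : ∀ x', (x', ι x) ∈ B → x' = x
            · exact absurd ⟨hxB, hrow, hcol⟩ hx
            · push Not at hcol
              obtain ⟨x', hx', hne⟩ := hcol
              apply mem_union_right
              apply mem_union_right
              rw [mem_filter]
              refine ⟨hxA, ?_⟩
              rw [mem_image]
              refine ⟨(x', ι x), ?_, rfl⟩
              rw [Finset.mem_sdiff]
              refine ⟨hx', ?_⟩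
              intro hd
              rw [hDm] at hd
              exact hne (hι hd.1 hxA hd.2)
          · push Not at hrow
            obtain ⟨y', hy', hne⟩ := hrow
            apply mem_union_right
            apply mem_union_left
            rw [mem_image]
            refine ⟨(x, y'), ?_, rfl⟩
            rw [Finset.mem_sdiff]
            refine ⟨hy', ?_⟩
            intro hd
            rw [hDm] at hd
            exact hne hd.2.symm
        · apply mem_union_left
          rw [mem_image]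
          exact ⟨(x, ι x), Finset.mem_sdiff.2 ⟨hxD, hxB⟩, rfl⟩
      refine (Finset.card_le_card h1).trans ?_
      refine (Finset.card_union_le _ _).trans ?_
      refine Nat.add_le_add Finset.card_image_le ?_
      refine (Finset.card_union_le _ _).trans ?_
      refine Nat.add_le_add Finset.card_image_le ?_
      refine le_trans ?_ (Finset.card_image_le (s := B \ D) (f := Prod.snd))
      apply Finset.card_le_card_of_injOn ι
      · intro x hx
        exact (mem_filter.1 hx).2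
      · intro x hx x' hx' he
        exact hι (mem_filter.1 hx).1 (mem_filter.1 hx').1 he
    have h2 : ((A.filter fun x => (x, ι x) ∉ B').card : ℝ) ≤
        (D \ B).card + ((B \ D).card + (B \ D).card) := by exact_mod_cast hsub
    have h3 : ∑ a ∈ F, ((D.filter fun p => prodAct ρ τ a p ∉ D).card : ℝ) ≤
        ∑ a ∈ F, ((A.filter fun x => ρ a x ∉ A ∨ ι (ρ a x) ≠ τ a (ι x)).card : ℝ) :=
      Finset.sum_le_sum fun a _ => hle a
    have h4 : (0 : ℝ) ≤ (D \ B).card := by positivity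
    have h5 := mul_le_mul_of_nonneg_left h3 hC.le
    linarith

theorem sup_small (s : ℕ → ℕ) (hs : Tendsto (fun n => (s n : ℝ) / n) atTop (𝓝 0)) (ε : ℝ)
    (hε : 0 < ε) : ∀ᶠ N : ℕ in atTop, (((range (N + 1)).sup s : ℕ) : ℝ) + 1 ≤ ε * N := by
  have h1 : ∀ᶠ n : ℕ in atTop, (s n : ℝ) ≤ ε / 2 * n := by
    have h2 := (tendsto_order.1 hs).2 (ε / 2) (by positivity)
    filter_upwards [h2, eventually_gt_atTop 0] with n hn hn0
    have : (0 : ℝ) < n := by exact_mod_cast hn0
    rw [div_lt_iff₀ this] at hn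
    exact hn.le
  obtain ⟨K, hK⟩ := eventually_atTop.1 h1
  have h3 : Tendsto (fun N : ℕ => ε / 2 * (N : ℝ)) atTop atTop :=
    Tendsto.const_mul_atTop (by positivity) tendsto_natCast_atTop_atTop
  filter_upwards [h3.eventually_ge_atTop (((range (K + 1)).sup s : ℕ) : ℝ),
    h3.eventually_ge_atTop 1] with N hN hN1
  have h4 : (range (N + 1)).sup s ≤ ⌊ε / 2 * (N : ℝ)⌋₊ := by
    apply Finset.sup_le
    intro n hn
    apply Nat.le_floor
    have hnN : n ≤ N := Nat.lt_succ_iff.1 (Finset.mem_range.1 hn)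
    by_cases hnK : n ≤ K
    · have : s n ≤ (range (K + 1)).sup s :=
        Finset.le_sup (f := s) (Finset.mem_range.2 (Nat.lt_succ_of_le hnK))
      have h5 : (s n : ℝ) ≤ (((range (K + 1)).sup s : ℕ) : ℝ) := by exact_mod_cast this
      linarith
    · have h5 := hK n (by omega)
      have h6 : (n : ℝ) ≤ N := by exact_mod_cast hnN
      have h7 : ε / 2 * (n : ℝ) ≤ ε / 2 * N := mul_le_mul_of_nonneg_left h6 (by positivity)
      linarith
  have h5 : (((range (N + 1)).sup s : ℕ) : ℝ) ≤ ε / 2 * N := by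
    have h6 : (((range (N + 1)).sup s : ℕ) : ℝ) ≤ (⌊ε / 2 * (N : ℝ)⌋₊ : ℝ) := by
      exact_mod_cast h4
    exact h6.trans (Nat.floor_le (by positivity))
  linarith


theorem exists_trans (hidx : ∀ K : ℕ, ∃ Γ : Subgroup G, Γ.FiniteIndex ∧ K ≤ Γ.index) (K : ℕ) :
    ∃ N, K ≤ N ∧ ∃ ρ : G →* Equiv.Perm (Fin N), ∀ x y, ∃ g, ρ g x = y := by
  obtain ⟨Γ, hΓ, hK⟩ := hidx K
  have : Finite (G ⧸ Γ) := Subgroup.finite_quotient_of_finiteIndex
  have e : (G ⧸ Γ) ≃ Fin (Nat.card (G ⧸ Γ)) := Finite.equivFin (G ⧸ Γ)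
  refine ⟨Nat.card (G ⧸ Γ), hK, ((Equiv.permCongrHom e : _ ≃* _) : _ →* _).comp
    (MulAction.toPermHom G (G ⧸ Γ)), ?_⟩
  intro x y
  obtain ⟨g, hg⟩ := MulAction.exists_smul_eq G (e.symm x) (e.symm y)
  refine ⟨g, ?_⟩
  show e (g • e.symm x) = y
  rw [hg]
  simp

/-- `n` is the number of points left when a few points are removed from a transitive action -/
def Good (G : Type) [Group G] (s : ℕ → ℕ) (n : ℕ) : Prop :=
  ∃ (N : ℕ) (ρ : G →* Equiv.Perm (Fin N)), (∀ x y, ∃ g, ρ g x = y) ∧ n + s n < N ∧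
    N ≤ n + (range (N + 1)).sup s + 1

theorem frequently_good (hidx : ∀ K : ℕ, ∃ Γ : Subgroup G, Γ.FiniteIndex ∧ K ≤ Γ.index)
    (s : ℕ → ℕ) (hs : Tendsto (fun n => (s n : ℝ) / n) atTop (𝓝 0)) (K : ℕ) :
    ∃ n, K ≤ n ∧ Good G s n := by
  obtain ⟨L, hL⟩ := eventually_atTop.1 (sup_small s hs (1 / 2) (by norm_num))
  obtain ⟨N, hN, ρ, hρ⟩ := exists_trans hidx (max L (2 * K + 2))
  have h1 := hL N (le_trans (le_max_left _ _) hN)
  have h2 : 2 * K + 2 ≤ N := le_trans (le_max_right _ _) hN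
  have h3 : 2 * ((range (N + 1)).sup s + 1) ≤ N := by
    have : (2 : ℝ) * ((((range (N + 1)).sup s : ℕ) : ℝ) + 1) ≤ N := by linarith
    exact_mod_cast this
  refine ⟨N - ((range (N + 1)).sup s + 1), by omega, N, ρ, hρ, ?_, by omega⟩
  have h4 : s (N - ((range (N + 1)).sup s + 1)) ≤ (range (N + 1)).sup s :=
    Finset.le_sup (f := s) (Finset.mem_range.2 (by omega))
  omega

theorem build (G : Type) [Group G] (s : ℕ → ℕ) (n : ℕ) : ∃ F : G → Equiv.Perm (Fin n),
    (¬ Good G s n → ∀ g, F g = 1) ∧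
    (Good G s n → ∃ (N : ℕ) (h : n ≤ N) (ρ : G →* Equiv.Perm (Fin N)),
      (∀ x y, ∃ g, ρ g x = y) ∧ n + s n < N ∧ N ≤ n + (range (N + 1)).sup s + 1 ∧
      ∀ g (x : Fin n), (ρ g (Fin.castLE h x) : ℕ) < n → (F g x : ℕ) = ρ g (Fin.castLE h x)) := by
  by_cases hg : Good G s n
  · obtain ⟨N, ρ, hρ, h1, h2⟩ := hg
    have h : n ≤ N := by omega
    choose F hF using fun g => trunc h (ρ g)
    exact ⟨F, fun hn => absurd ⟨N, ρ, hρ, h1, h2⟩ hn, fun _ => ⟨N, h, ρ, hρ, h1, h2, hF⟩⟩
  · exact ⟨fun _ => 1, fun _ _ => rfl, fun h => absurd h hg⟩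

theorem card_high {n N : ℕ} (h : n ≤ N) (π : Equiv.Perm (Fin N)) :
    (univ.filter fun x : Fin n => n ≤ (π (Fin.castLE h x) : ℕ)).card ≤ N - n := by
  have h1 : (univ.filter fun y : Fin N => n ≤ (y : ℕ)).card = N - n := by
    have h2 : (univ.filter fun y : Fin N => n ≤ (y : ℕ)).card
        = ((univ.filter fun y : Fin N => n ≤ (y : ℕ)).map Fin.valEmbedding).card := by
      rw [Finset.card_map]
    rw [h2]
    have h3 : ((univ.filter fun y : Fin N => n ≤ (y : ℕ)).map Fin.valEmbedding)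
        = Finset.Ico n N := by
      ext y
      simp only [Finset.mem_map, mem_filter, mem_univ, true_and, Fin.valEmbedding_apply, mem_Ico]
      constructor
      · rintro ⟨z, hz, rfl⟩
        exact ⟨hz, z.2⟩
      · rintro ⟨h4, h5⟩
        exact ⟨⟨y, h5⟩, h4, rfl⟩
    rw [h3, Nat.card_Ico]
  rw [← h1]
  apply Finset.card_le_card_of_injOn (fun x => π (Fin.castLE h x))
  · intro x hx
    have := (Finset.mem_filter.1 hx).2
    simp only [coe_filter, mem_univ, true_and, Set.mem_ofPred_eq]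
    exact this
  · intro x _ y _ hxy
    exact Fin.castLE_injective h (π.injective hxy)

/-- the sizes: if `N ≤ n + sup + 1` and `n` is large then `N - n ≤ ε n` -/
theorem gap_small (s : ℕ → ℕ) (hs : Tendsto (fun n => (s n : ℝ) / n) atTop (𝓝 0)) (ε : ℝ)
    (hε : 0 < ε) : ∀ᶠ n : ℕ in atTop, ∀ N : ℕ, n ≤ N → N ≤ n + (range (N + 1)).sup s + 1 →
      (N : ℝ) - n ≤ ε * n := by
  have hδ : 0 < min (1 / 2) (ε / 2) := by positivity
  obtain ⟨K, hK⟩ := eventually_atTop.1 (sup_small s hs (min (1 / 2) (ε / 2)) hδ)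
  filter_upwards [eventually_ge_atTop K] with n hn N hnN hN
  have h1 := hK N (hn.trans hnN)
  have h2 : (N : ℝ) ≤ n + (((range (N + 1)).sup s : ℕ) : ℝ) + 1 := by exact_mod_cast hN
  have hN0 : (0 : ℝ) ≤ N := by positivity
  have h3 : min (1 / 2 : ℝ) (ε / 2) * N ≤ 1 / 2 * N :=
    mul_le_mul_of_nonneg_right (min_le_left _ _) hN0
  have h4 : min (1 / 2 : ℝ) (ε / 2) * N ≤ ε / 2 * N :=
    mul_le_mul_of_nonneg_right (min_le_right _ _) hN0
  have h5 : (N : ℝ) ≤ 2 * n := by linarith
  have h6 : ε / 2 * (N : ℝ) ≤ ε / 2 * (2 * n) := mul_le_mul_of_nonneg_left h5 (by positivity)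
  linarith

/-- `f` is close to actions on `m n ≥ n` points (`FlexStable G`: all almost-homomorphisms are) -/
def FlexClose (f : (n : ℕ) → G → Equiv.Perm (Fin n)) : Prop :=
  ∃ (m : ℕ → ℕ) (ρ : (n : ℕ) → G →* Equiv.Perm (Fin (m n))), (∀ n, n ≤ m n) ∧
    ∀ g, Tendsto (fun n => flex (f n g) (ρ n g)) atTop (𝓝 0)

/-- the almost-homomorphism is close to actions on slightly more points -/
theorem close_of_build (s : ℕ → ℕ) (hs : Tendsto (fun n => (s n : ℝ) / n) atTop (𝓝 0))
    (f : (n : ℕ) → G → Equiv.Perm (Fin n)) (hf1 : ∀ n, ¬ Good G s n → ∀ g, f n g = 1)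
    (hf2 : ∀ n, Good G s n → ∃ (N : ℕ) (h : n ≤ N) (ρ : G →* Equiv.Perm (Fin N)),
      (∀ x y, ∃ g, ρ g x = y) ∧ n + s n < N ∧ N ≤ n + (range (N + 1)).sup s + 1 ∧
      ∀ g (x : Fin n), (ρ g (Fin.castLE h x) : ℕ) < n → (f n g x : ℕ) = ρ g (Fin.castLE h x)) :
    FlexClose f := by
  classical
  have hex : ∀ n, ∃ (m : ℕ) (ρ : G →* Equiv.Perm (Fin m)) (h : n ≤ m),
      m ≤ n + (range (m + 1)).sup s + 1 ∧ ∀ g,
        (univ.filter fun x : Fin n => (f n g x : ℕ) ≠ ρ g (Fin.castLE h x)).card ≤ m - n := by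
    intro n
    by_cases hg : Good G s n
    · obtain ⟨N, h, ρ, -, -, h2, h3⟩ := hf2 n hg
      refine ⟨N, ρ, h, h2, ?_⟩
      intro g
      refine le_trans (Finset.card_le_card ?_) (card_high h (ρ g))
      intro x hx
      rw [mem_filter] at hx ⊢
      refine ⟨mem_univ _, ?_⟩
      by_contra hc
      exact hx.2 (h3 g x (not_le.1 hc))
    · refine ⟨n, 1, le_rfl, by omega, ?_⟩
      intro g
      rw [Nat.sub_self, Nat.le_zero, Finset.card_eq_zero, Finset.filter_eq_empty_iff]
      intro x _ hx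
      apply hx
      rw [hf1 n hg g]
      rfl
  choose m ρ hm hm2 hρ using hex
  refine ⟨m, ρ, hm, ?_⟩
  intro g
  rw [Metric.tendsto_atTop]
  intro ε hε
  obtain ⟨K, hK⟩ := eventually_atTop.1 (gap_small s hs (ε / 4) (by positivity))
  refine ⟨max K 1, ?_⟩
  intro n hn
  have hn0 : (0 : ℝ) < n := by
    have : 1 ≤ n := le_trans (le_max_right _ _) hn
    exact_mod_cast this
  have h1 := hK n (le_trans (le_max_left _ _) hn) (m n) (hm n) (hm2 n)
  have h0 : 0 ≤ flex (f n g) (ρ n g) := by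
    unfold flex
    positivity
  rw [Real.dist_eq, sub_zero, abs_of_nonneg h0, flex_eq _ _ (hm n), div_lt_iff₀ hn0]
  have h2 : ((univ.filter fun x : Fin n => (f n g x : ℕ) ≠ ρ n g (Fin.castLE (hm n) x)).card : ℝ) ≤
      (m n : ℝ) - n := by
    have h3 := hρ n g
    have h4 : ((univ.filter fun x : Fin n =>
        (f n g x : ℕ) ≠ ρ n g (Fin.castLE (hm n) x)).card : ℝ) ≤ ((m n - n : ℕ) : ℝ) := by
      exact_mod_cast h3
    rwa [Nat.cast_sub (hm n)] at h4
  have h5 : 0 < ε * (n : ℝ) := by positivity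
  linarith

/-- THEOREM A -/
theorem jump (hT : HasNear G)
    (hidx : ∀ K : ℕ, ∃ Γ : Subgroup G, Γ.FiniteIndex ∧ K ≤ Γ.index) :
    ∃ (F : Finset G) (c : ℝ), 0 < c ∧ ∀ s : ℕ → ℕ,
      Tendsto (fun n => (s n : ℝ) / n) atTop (𝓝 0) →
      ∃ f : (n : ℕ) → G → Equiv.Perm (Fin n), AlmostHom f ∧ FlexClose f ∧
        ∃ᶠ n : ℕ in atTop, ∀ M : ℕ, 1 ≤ M → M ≤ n + s n → ∀ τ : G →* Equiv.Perm (Fin M),
          ∃ a ∈ F, c ≤ flex (f n a) (τ a) := by
  classical
  obtain ⟨F, C, hC, hmatch⟩ := matching hT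
  -- a small constant
  set c : ℝ := 1 / (8 * (C * (F.card + 1) + 1)) with hc
  have hcard : (0 : ℝ) ≤ F.card := by positivity
  have hD : (0 : ℝ) < C * (F.card + 1) + 1 := by positivity
  have hc0 : 0 < c := by positivity
  refine ⟨insert 1 F, c, hc0, ?_⟩
  intro s hs
  choose f hf1 hf2 using build G s
  have halm : AlmostHom f := by
    intro g h
    rw [Metric.tendsto_atTop]
    intro ε hε
    obtain ⟨K, hK⟩ := eventually_atTop.1 (gap_small s hs (ε / 4) (by positivity))
    refine ⟨max K 1, ?_⟩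
    intro n hn
    have hnK : K ≤ n := le_trans (le_max_left _ _) hn
    have hn1 : 1 ≤ n := le_trans (le_max_right _ _) hn
    have hn0 : (0 : ℝ) < n := by exact_mod_cast hn1
    rw [Real.dist_eq, sub_zero, ham, abs_of_nonneg (by positivity)]
    by_cases hgood : Good G s n
    · obtain ⟨N, hle, ρ, -, h1, h2, h3⟩ := hf2 n hgood
      have h4 := hK n hnK N hle h2
      have hsub : (univ.filter fun x => (f n g * f n h) x ≠ f n (g * h) x) ⊆
          (univ.filter fun x : Fin n => n ≤ (ρ h (Fin.castLE hle x) : ℕ)) ∪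
          (univ.filter fun x : Fin n => n ≤ (ρ (g * h) (Fin.castLE hle x) : ℕ)) := by
        intro x hx
        rw [mem_filter] at hx
        rw [mem_union, mem_filter, mem_filter]
        by_contra hc
        push Not at hc
        obtain ⟨hc1, hc2⟩ := hc
        have hc1 := hc1 (mem_univ _)
        have hc2 := hc2 (mem_univ _)
        apply hx.2
        apply Fin.ext
        have h5 := h3 h x hc1
        have h6 : Fin.castLE hle (f n h x) = ρ h (Fin.castLE hle x) := Fin.ext h5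
        have h7 : (ρ g (Fin.castLE hle (f n h x)) : ℕ) = ρ (g * h) (Fin.castLE hle x) := by
          rw [h6, map_mul]
          rfl
        have h8 := h3 g (f n h x) (by rw [h7]; exact hc2)
        rw [Equiv.Perm.mul_apply, h8, h7, h3 (g * h) x hc2]
      have h5 : (((univ.filter fun x => (f n g * f n h) x ≠ f n (g * h) x).card : ℕ) : ℝ)
          ≤ 2 * (N - n) := by
        have h6 := (Finset.card_le_card hsub).trans (Finset.card_union_le _ _)
        have h7 := card_high hle (ρ h)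
        have h8 := card_high hle (ρ (g * h))
        have h9 : (univ.filter fun x => (f n g * f n h) x ≠ f n (g * h) x).card ≤
            2 * (N - n) := by omega
        have h10 : (((univ.filter fun x => (f n g * f n h) x ≠ f n (g * h) x).card : ℕ) : ℝ)
            ≤ ((2 * (N - n) : ℕ) : ℝ) := by exact_mod_cast h9
        rw [Nat.cast_mul, Nat.cast_sub hle] at h10
        exact_mod_cast h10
      rw [div_lt_iff₀ hn0]
      have : ε / 4 * (n : ℝ) < ε / 2 * n := by nlinarith
      nlinarith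
    · have h1 : (f n g * f n h) = f n (g * h) := by
        rw [hf1 n hgood g, hf1 n hgood h, hf1 n hgood (g * h), one_mul]
      rw [h1]
      simpa using hε
  refine ⟨f, halm, close_of_build s hs f hf1 hf2, ?_⟩
  rw [frequently_atTop]
  intro K0
  obtain ⟨K, hK⟩ := eventually_atTop.1 (gap_small s hs c hc0)
  obtain ⟨n, hn, hgood⟩ := frequently_good hidx s hs (max (max K K0) 1)
  refine ⟨n, le_trans (le_trans (le_max_right _ _) (le_max_left _ _)) hn, ?_⟩
  intro M hm1 hm2 τ
  by_contra hcon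
  push Not at hcon
  have hnK : K ≤ n := le_trans (le_trans (le_max_left _ _) (le_max_left _ _)) hn
  have hn1 : 1 ≤ n := le_trans (le_max_right _ _) hn
  have hn0 : (0 : ℝ) < n := by exact_mod_cast hn1
  obtain ⟨N, hle, ρ, htrans, h1, h2, h3⟩ := hf2 n hgood
  have h4 := hK n hnK N hle h2
  set q : ℕ := min n M with hq
  have hq1 : 1 ≤ q := le_min hn1 hm1
  have hqn : q ≤ n := min_le_left _ _
  have hqm : q ≤ M := min_le_right _ _
  have hqN : q ≤ N := hqn.trans hle
  have hq0 : (0 : ℝ) < q := by exact_mod_cast hq1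
  -- consequences of `flex < c`
  have hflex : ∀ a ∈ insert 1 F, (((univ.filter fun x : Fin q =>
      (f n a ⟨x, lt_of_lt_of_le x.2 hqn⟩ : ℕ) ≠ τ a ⟨x, lt_of_lt_of_le x.2 hqm⟩).card : ℕ) : ℝ)
      + |(n : ℝ) - M| < c * n := by
    intro a ha
    have h5 := hcon a ha
    rw [flex, div_lt_iff₀ hq0] at h5
    have h6 : c * (q : ℝ) ≤ c * n := mul_le_mul_of_nonneg_left (by exact_mod_cast hqn) hc0.le
    exact lt_of_lt_of_le h5 h6
  have hc8 : c ≤ 1 / 8 := by
    rw [hc]
    apply one_div_le_one_div_of_le (by norm_num)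
    nlinarith
  have hqhalf : (n : ℝ) / 2 ≤ q := by
    have h5 := hflex 1 (mem_insert_self _ _)
    have h6 : (0 : ℝ) ≤ (((univ.filter fun x : Fin q =>
      (f n 1 ⟨x, lt_of_lt_of_le x.2 hqn⟩ : ℕ) ≠ τ 1 ⟨x, lt_of_lt_of_le x.2 hqm⟩).card : ℕ) : ℝ) :=
      by positivity
    have h7 : (n : ℝ) - M ≤ c * n := by
      have := le_abs_self ((n : ℝ) - M)
      linarith
    have h8 : c * (n : ℝ) ≤ 1 / 8 * n := mul_le_mul_of_nonneg_right hc8 hn0.le
    rw [hq, Nat.cast_min]
    apply le_min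
    · linarith
    · linarith
  -- the partial isomorphism
  set A : Finset (Fin N) := univ.filter fun x => (x : ℕ) < q with hA
  have hm0 : 0 < M := hm1
  set ι : Fin N → Fin M := fun x => if hx : (x : ℕ) < M then ⟨x, hx⟩ else ⟨0, hm0⟩ with hι
  have hιx : ∀ x : Fin N, (x : ℕ) < q → (ι x : ℕ) = x := by
    intro x hx
    have : (x : ℕ) < M := lt_of_lt_of_le hx hqm
    simp only [hι, this, dite_true]
  have hinj : Set.InjOn ι A := by
    intro x hx y hy hxy
    have hx' : (x : ℕ) < q := (mem_filter.1 hx).2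
    have hy' : (y : ℕ) < q := (mem_filter.1 hy).2
    apply Fin.ext
    rw [← hιx x hx', ← hιx y hy', hxy]
  obtain ⟨B, hBinv, -, hBcol, hBcard⟩ := hmatch (Fin N) (Fin M) ρ τ A ι hinj
  have hAcard : A.card = q := by
    have : A.card = (A.map Fin.valEmbedding).card := by rw [Finset.card_map]
    rw [this]
    have h5 : A.map Fin.valEmbedding = Finset.range q := by
      ext y
      simp only [hA, Finset.mem_map, mem_filter, mem_univ, true_and, Fin.valEmbedding_apply, mem_range]
      constructor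
      · rintro ⟨z, hz, rfl⟩
        exact hz
      · intro h5
        exact ⟨⟨y, lt_of_lt_of_le h5 hqN⟩, h5, rfl⟩
    rw [h5, Finset.card_range]
  have hbad : ∀ a ∈ F, ((A.filter fun x => ρ a x ∉ A ∨ ι (ρ a x) ≠ τ a (ι x)).card : ℝ) ≤
      3 * c * n := by
    intro a ha
    have hsub : (A.filter fun x => ρ a x ∉ A ∨ ι (ρ a x) ≠ τ a (ι x)) ⊆
        ((univ.filter fun x : Fin q => (f n a ⟨x, lt_of_lt_of_le x.2 hqn⟩ : ℕ) ≠
          τ a ⟨x, lt_of_lt_of_le x.2 hqm⟩).image (Fin.castLE hqN)) ∪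
        ((univ.filter fun y : Fin N => q ≤ (y : ℕ)).image (ρ a).symm) := by
      intro x hx
      rw [mem_filter] at hx
      obtain ⟨hxA, hx⟩ := hx
      have hxq : (x : ℕ) < q := (mem_filter.1 hxA).2
      rw [mem_union]
      by_cases hy : (ρ a x : ℕ) < q
      · left
        rw [mem_image]
        refine ⟨⟨x, hxq⟩, ?_, Fin.ext rfl⟩
        rw [mem_filter]
        refine ⟨mem_univ _, ?_⟩
        have hyA : ρ a x ∈ A := by
          rw [hA, mem_filter]
          exact ⟨mem_univ _, hy⟩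
        have hx' : ι (ρ a x) ≠ τ a (ι x) := by
          rcases hx with hx | hx
          · exact absurd hyA hx
          · exact hx
        intro heq
        apply hx'
        apply Fin.ext
        rw [hιx _ hy]
        have e1 : (⟨x, lt_of_lt_of_le hxq hqm⟩ : Fin M) = ι x := Fin.ext (hιx x hxq).symm
        have e2 : Fin.castLE hle ⟨x, lt_of_lt_of_le hxq hqn⟩ = x := Fin.ext rfl
        have h5 := h3 a ⟨x, lt_of_lt_of_le hxq hqn⟩ (by rw [e2]; exact lt_of_lt_of_le hy hqn)
        rw [e2] at h5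
        simp only at heq
        rw [h5, e1] at heq
        exact heq
      · right
        rw [mem_image]
        refine ⟨ρ a x, ?_, by simp⟩
        rw [mem_filter]
        exact ⟨mem_univ _, not_lt.1 hy⟩
    have hN' : (univ.filter fun y : Fin N => q ≤ (y : ℕ)).card = N - q := by
      have h5 : (univ.filter fun y : Fin N => q ≤ (y : ℕ)) = univ \ A := by
        ext y
        simp only [hA, mem_filter, mem_univ, true_and, Finset.mem_sdiff, not_lt]
      rw [h5, Finset.card_sdiff_of_subset (Finset.subset_univ _), Finset.card_univ,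
        Fintype.card_fin, hAcard]
    have h5 := (Finset.card_le_card hsub).trans (Finset.card_union_le _ _)
    have h6 : (A.filter fun x => ρ a x ∉ A ∨ ι (ρ a x) ≠ τ a (ι x)).card ≤
        (univ.filter fun x : Fin q => (f n a ⟨x, lt_of_lt_of_le x.2 hqn⟩ : ℕ) ≠
          τ a ⟨x, lt_of_lt_of_le x.2 hqm⟩).card + (N - q) := by
      refine h5.trans ?_
      refine Nat.add_le_add Finset.card_image_le ?_
      rw [← hN']
      exact Finset.card_image_le
    have h7 : ((A.filter fun x => ρ a x ∉ A ∨ ι (ρ a x) ≠ τ a (ι x)).card : ℝ) ≤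
        (((univ.filter fun x : Fin q => (f n a ⟨x, lt_of_lt_of_le x.2 hqn⟩ : ℕ) ≠
          τ a ⟨x, lt_of_lt_of_le x.2 hqm⟩).card : ℕ) : ℝ) + (N - q) := by
      have h8 : ((A.filter fun x => ρ a x ∉ A ∨ ι (ρ a x) ≠ τ a (ι x)).card : ℝ) ≤
        (((univ.filter fun x : Fin q => (f n a ⟨x, lt_of_lt_of_le x.2 hqn⟩ : ℕ) ≠
          τ a ⟨x, lt_of_lt_of_le x.2 hqm⟩).card + (N - q) : ℕ) : ℝ) := by exact_mod_cast h6
      rw [Nat.cast_add, Nat.cast_sub hqN] at h8
      exact h8
    have h8 := hflex a (mem_insert_of_mem ha)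
    have h9 : (n : ℝ) - q ≤ |(n : ℝ) - M| := by
      rw [hq, Nat.cast_min]
      rcases le_total (n : ℝ) M with h10 | h10
      · rw [min_eq_left h10, sub_self]
        exact abs_nonneg _
      · rw [min_eq_right h10]
        exact le_abs_self _
    have h10 : |(n : ℝ) - M| ≤ c * n := by
      have : (0 : ℝ) ≤ (((univ.filter fun x : Fin q => (f n a ⟨x, lt_of_lt_of_le x.2 hqn⟩ : ℕ) ≠
          τ a ⟨x, lt_of_lt_of_le x.2 hqm⟩).card : ℕ) : ℝ) := by positivity
      linarith
    linarith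
  have hlt : ((A.filter fun x => (x, ι x) ∉ B).card : ℝ) < A.card := by
    have h5 : ∑ a ∈ F, ((A.filter fun x => ρ a x ∉ A ∨ ι (ρ a x) ≠ τ a (ι x)).card : ℝ) ≤
        F.card * (3 * c * n) := by
      have := Finset.sum_le_sum hbad
      rwa [Finset.sum_const, nsmul_eq_mul] at this
    have h6 := mul_le_mul_of_nonneg_left h5 hC.le
    have h7 : C * (F.card * (3 * c * n)) < n / 2 := by
      have h8 : c * (C * (F.card + 1) + 1) = 1 / 8 := by
        rw [hc]
        field_simp
      have h9 : C * (F.card : ℝ) * c ≤ 1 / 8 := by nlinarith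
      have h10 : C * (F.card * (3 * c * n)) = 3 * (C * (F.card : ℝ) * c) * n := by ring
      rw [h10]
      nlinarith
    rw [hAcard]
    linarith
  have hex : ∃ x ∈ A, (x, ι x) ∈ B := by
    by_contra hcon
    push Not at hcon
    rw [Finset.filter_true_of_mem hcon] at hlt
    exact lt_irrefl _ hlt
  obtain ⟨x0, -, hx0⟩ := hex
  have hall : ∀ x : Fin N, ∃ y : Fin M, (x, y) ∈ B := by
    intro x
    obtain ⟨g, hg⟩ := htrans x0 x
    refine ⟨τ g (ι x0), ?_⟩
    have := (hBinv g x0 (ι x0)).2 hx0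
    rwa [hg] at this
  choose φ hφ using hall
  have hφi : Function.Injective φ := by
    intro x x' h
    have h5 := hφ x
    have h6 := hφ x'
    rw [h] at h5
    exact hBcol _ _ _ h5 h6
  have h5 := Fintype.card_le_of_injective φ hφi
  rw [Fintype.card_fin, Fintype.card_fin] at h5
  omega

theorem sl_index (k : ℕ) (hk : 2 ≤ k) (K : ℕ) :
    ∃ Γ : Subgroup (Matrix.SpecialLinearGroup (Fin k) ℤ), Γ.FiniteIndex ∧ K ≤ Γ.index := by
  classical
  have : NeZero (K + 1) := ⟨Nat.succ_ne_zero K⟩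
  set f : Matrix.SpecialLinearGroup (Fin k) ℤ →* Matrix.SpecialLinearGroup (Fin k) (ZMod (K + 1)) :=
    Matrix.SpecialLinearGroup.map (Int.castRingHom (ZMod (K + 1))) with hf
  have hfin : Finite (Matrix.SpecialLinearGroup (Fin k) (ZMod (K + 1))) := by
    have : Finite (Matrix (Fin k) (Fin k) (ZMod (K + 1))) := inferInstance
    exact Subtype.finite
  refine ⟨f.ker, inferInstance, ?_⟩
  rw [Subgroup.index_ker]
  have hne : (⟨0, by omega⟩ : Fin k) ≠ ⟨1, by omega⟩ := by
    intro h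
    simp at h
  let g : Fin (K + 1) → f.range := fun t =>
    ⟨f ⟨Matrix.transvection ⟨0, by omega⟩ ⟨1, by omega⟩ (t : ℤ),
      Matrix.det_transvection_of_ne _ _ hne _⟩, ⟨_, rfl⟩⟩
  have hg : Function.Injective g := by
    intro t t' h
    have h1 := congrArg (fun x : f.range => (x : Matrix.SpecialLinearGroup (Fin k)
      (ZMod (K + 1))).1 ⟨0, by omega⟩ ⟨1, by omega⟩) h
    have e : ∀ t : Fin (K + 1), ((g t : Matrix.SpecialLinearGroup (Fin k)
        (ZMod (K + 1))).1 ⟨0, by omega⟩ ⟨1, by omega⟩) = ((t : ℕ) : ZMod (K + 1)) := by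
      intro t
      show (Int.castRingHom (ZMod (K + 1)))
        (Matrix.transvection (⟨0, by omega⟩ : Fin k) ⟨1, by omega⟩ (t : ℤ) ⟨0, by omega⟩
          ⟨1, by omega⟩) = _
      rw [Matrix.transvection, Matrix.add_apply, Matrix.one_apply_ne hne, Matrix.single_apply_same]
      simp
    rw [e t, e t'] at h1
    have h2 := (ZMod.natCast_eq_natCast_iff' _ _ _).1 h1
    rw [Nat.mod_eq_of_lt t.2, Nat.mod_eq_of_lt t'.2] at h2
    exact Fin.ext h2
  have : Finite f.range := inferInstance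
  have h1 := Nat.card_le_card_of_injective g hg
  rw [Nat.card_eq_fintype_card, Fintype.card_fin] at h1
  omega

end Pool.Agent.FS84
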