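import Pool.Agent.FS84.FinalN

/-!
Permutational wreath products over `SL_k(ℤ[1/p])` which are not sofic if `SL_k(ℤ)` is flexibly
stable.
-/

set_option autoImplicit false

namespace Pool.Agent.FS84

/-! ### Permutational wreath products -/

section Wr

variable (G X M : Type) [Group G] [MulAction G X] [AddCommGroup M]

/-- `G` permutes the coordinates of the finitely supported functions `X → M` -/
noncomputable def lampHom : G →* MulAut (Multiplicative (X →₀ M)) where
  toFun g := AddEquiv.toMultiplicative (Finsupp.domCongr (MulAction.toPerm g))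
  map_one' := by
    apply MulEquiv.ext
    intro f
    change Multiplicative.ofAdd (Finsupp.domCongr (MulAction.toPerm (1 : G))
      (Multiplicative.toAdd f)) = f
    apply Multiplicative.toAdd.injective
    change Finsupp.domCongr (MulAction.toPerm (1 : G)) (Multiplicative.toAdd f) =
      Multiplicative.toAdd f
    ext x
    rw [Finsupp.domCongr_apply, Finsupp.equivMapDomain_apply]
    congr 1
    change (1 : G)⁻¹ • x = x
    rw [inv_one, one_smul]
  map_mul' g h := by
    apply MulEquiv.ext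
    intro f
    apply Multiplicative.toAdd.injective
    change Finsupp.domCongr (MulAction.toPerm (g * h)) (Multiplicative.toAdd f) =
      Finsupp.domCongr (MulAction.toPerm g)
        (Finsupp.domCongr (MulAction.toPerm h) (Multiplicative.toAdd f))
    ext x
    rw [Finsupp.domCongr_apply, Finsupp.equivMapDomain_apply, Finsupp.domCongr_apply,
      Finsupp.equivMapDomain_apply, Finsupp.domCongr_apply, Finsupp.equivMapDomain_apply]
    congr 1
    change (g * h)⁻¹ • x = h⁻¹ • (g⁻¹ • x)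
    rw [mul_inv_rev, mul_smul]

/-- the restricted permutational wreath product of `M` and `G` over the `G`-set `X`: the
semidirect product of the group of the finitely supported functions `X → M` and `G` -/
abbrev Wr : Type := Multiplicative (X →₀ M) ⋊[lampHom G X M] G

end Wr

section

variable {G M : Type} [Group G] [AddCommGroup M] (B : Subgroup G)

theorem lampHom_single (X : Type) [MulAction G X] (g : G) (x : X) (m : M) :
    lampHom G X M g (Multiplicative.ofAdd (Finsupp.single x m)) =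
      Multiplicative.ofAdd (Finsupp.single (g • x) m) := by
  apply Multiplicative.toAdd.injective
  change Finsupp.domCongr (MulAction.toPerm g) (Finsupp.single x m) = Finsupp.single (g • x) m
  rw [Finsupp.domCongr_apply, Finsupp.equivMapDomain_single]
  rfl

/-- the value `m` at the coset `B` -/
noncomputable def lamp (m : M) : Wr G (G ⧸ B) M :=
  SemidirectProduct.inl (Multiplicative.ofAdd (Finsupp.single ((1 : G) : G ⧸ B) m))

theorem lamp_comm (m : M) {c : G} (hc : c ∈ B) :
    lamp B m * SemidirectProduct.inr c * (lamp B m)⁻¹ = SemidirectProduct.inr c := by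
  have h1 : SemidirectProduct.inr c * lamp B m = lamp B m * SemidirectProduct.inr c := by
    have h2 := SemidirectProduct.inl_aut (φ := lampHom G (G ⧸ B) M) c
      (Multiplicative.ofAdd (Finsupp.single ((1 : G) : G ⧸ B) m))
    rw [lampHom_single] at h2
    have h3 : c • ((1 : G) : G ⧸ B) = ((1 : G) : G ⧸ B) := by
      rw [MulAction.Quotient.smul_coe, smul_eq_mul, mul_one]
      exact (QuotientGroup.eq.2 (by simpa using hc)).symm
    rw [h3] at h2
    unfold lamp
    nth_rw 2 [h2]
    rw [mul_assoc, mul_assoc, ← map_mul, inv_mul_cancel, map_one, mul_one]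
  rw [← h1, mul_assoc, mul_inv_cancel, mul_one]

theorem lamp_ne {m : M} (hm : m ≠ 0) {a b : G} (ha : a ∉ B) (hb : b ∉ B) (hba : b * a ∉ B) :
    (lamp B m * SemidirectProduct.inr a * (lamp B m)⁻¹) * SemidirectProduct.inr b ≠
      SemidirectProduct.inr b * (lamp B m * SemidirectProduct.inr a * (lamp B m)⁻¹) := by
  intro h
  have h1 := congrArg (fun w : Wr G (G ⧸ B) M => Multiplicative.toAdd w.left) h
  simp only [lamp, SemidirectProduct.mul_left, SemidirectProduct.inv_left,
    SemidirectProduct.left_inl, SemidirectProduct.right_inl, SemidirectProduct.left_inr,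
    SemidirectProduct.right_inr, SemidirectProduct.mul_right, map_one, mul_one, one_mul,
    MulAut.one_apply, inv_one, map_inv, lampHom_single] at h1
  rw [map_mul (lampHom G (G ⧸ B) M b), map_inv (lampHom G (G ⧸ B) M b), lampHom_single,
    lampHom_single] at h1
  simp only [toAdd_mul, toAdd_inv, toAdd_ofAdd, ← sub_eq_add_neg] at h1
  have h2 := congrArg (fun f : (G ⧸ B) →₀ M => f ((1 : G) : G ⧸ B)) h1
  change (Finsupp.single ((1 : G) : G ⧸ B) m - Finsupp.single (a • ((1 : G) : G ⧸ B)) m)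
      ((1 : G) : G ⧸ B) = (Finsupp.single (b • ((1 : G) : G ⧸ B)) m -
        Finsupp.single (b • a • ((1 : G) : G ⧸ B)) m) ((1 : G) : G ⧸ B) at h2
  have hne : ∀ c : G, c ∉ B → c • ((1 : G) : G ⧸ B) ≠ ((1 : G) : G ⧸ B) := by
    intro c hc e
    rw [MulAction.Quotient.smul_coe, smul_eq_mul, mul_one] at e
    have e1 := QuotientGroup.eq.1 e
    rw [mul_one] at e1
    exact hc (by simpa using B.inv_mem e1)
  rw [smul_smul] at h2
  rw [Finsupp.sub_apply, Finsupp.sub_apply, Finsupp.single_eq_same,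
    Finsupp.single_eq_of_ne (hne a ha).symm, Finsupp.single_eq_of_ne (hne b hb).symm,
    Finsupp.single_eq_of_ne (hne (b * a) hba).symm, sub_zero, sub_zero] at h2
  exact hm h2

end

/-! ### The groups `SL_k(ℤ[1/p])` -/

/-- the ring `ℤ[1/p]` -/
abbrev ZI (p : ℕ) : Subring ℚ := Subring.closure {(p : ℚ)⁻¹}

/-- the inclusion of `SL_k(ℤ)` in `SL_k(ℤ[1/p])` -/
def slI (k p : ℕ) :
    Matrix.SpecialLinearGroup (Fin k) ℤ →* Matrix.SpecialLinearGroup (Fin k) (ZI p) :=
  Matrix.SpecialLinearGroup.map (Int.castRingHom (ZI p))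

/-- the inclusion of `SL_k(ℤ[1/p])` in `SL_k(ℚ)` -/
def slIQ (k p : ℕ) :
    Matrix.SpecialLinearGroup (Fin k) (ZI p) →* Matrix.SpecialLinearGroup (Fin k) ℚ :=
  Matrix.SpecialLinearGroup.map (ZI p).subtype

theorem slIQ_slI (k p : ℕ) (c : Matrix.SpecialLinearGroup (Fin k) ℤ) :
    slIQ k p (slI k p c) = slQ k c := by
  apply Subtype.ext
  ext i j
  change (((((c : Matrix (Fin k) (Fin k) ℤ) i j : ℤ) : ZI p) : ℚ)) =
    ((c : Matrix (Fin k) (Fin k) ℤ) i j : ℚ)
  simp

theorem slIQ_injective (k p : ℕ) : Function.Injective (slIQ k p) := by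
  intro c d h
  apply Subtype.ext
  ext i j
  exact congrArg (fun x : Matrix.SpecialLinearGroup (Fin k) ℚ =>
    (x : Matrix (Fin k) (Fin k) ℚ) i j) h

theorem dg_mem (n p : ℕ) (i : Fin (n + 3)) : dg n p i ∈ ZI p := by
  rcases dg_cases n p i with h | h | h <;> rw [h]
  · exact natCast_mem (ZI p) p
  · exact Subring.subset_closure rfl
  · exact one_mem _

/-- the matrix `diag (p, 1/p, 1, …, 1)` in `SL_(n+3)(ℤ[1/p])` -/
def gI (n p : ℕ) [NeZero p] : Matrix.SpecialLinearGroup (Fin (n + 3)) (ZI p) :=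
  ⟨Matrix.diagonal (fun i => ⟨dg n p i, dg_mem n p i⟩), by
    rw [Matrix.det_diagonal]
    apply Subtype.ext
    exact (map_prod (ZI p).subtype _ _).trans (dg_prod n p (NeZero.ne p))⟩

theorem slIQ_gI (n p : ℕ) [NeZero p] : slIQ (n + 3) p (gI n p) = gEl n p := by
  apply Subtype.ext
  ext i j
  change ((Matrix.diagonal (fun i => (⟨dg n p i, dg_mem n p i⟩ : ZI p)) i j : ZI p) : ℚ) =
    Matrix.diagonal (dg n p) i j
  by_cases h : i = j
  · subst h
    rw [Matrix.diagonal_apply_eq, Matrix.diagonal_apply_eq]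
  · rw [Matrix.diagonal_apply_ne _ h, Matrix.diagonal_apply_ne _ h]
    rfl

/-- `B = SL_k(ℤ) ∩ g SL_k(ℤ) g⁻¹` in `SL_k(ℤ[1/p])`, `g = diag (p, 1/p, 1, …, 1)`, `k = n + 3` -/
def comB (n p : ℕ) [NeZero p] : Subgroup (Matrix.SpecialLinearGroup (Fin (n + 3)) (ZI p)) :=
  (slI (n + 3) p).range ⊓ ((slI (n + 3) p).range.map (MulAut.conj (gI n p)).toMonoidHom)

/-- the wreath product of `M` and `G = SL_k(ℤ[1/p])` over the `G`-set `G / B`, `k = n + 3` -/
abbrev Wreath (n p : ℕ) [NeZero p] (M : Type) [AddCommGroup M] : Type :=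
  Wr (Matrix.SpecialLinearGroup (Fin (n + 3)) (ZI p))
    (Matrix.SpecialLinearGroup (Fin (n + 3)) (ZI p) ⧸ comB n p) M

/-- the wreath product is not sofic -/
theorem wreath_not_sofic (n p : ℕ) [NeZero p] (hp : 2 ≤ p)
    (hG : HasNear (Matrix.SpecialLinearGroup (Fin (n + 3)) ℤ))
    (hst : FlexStable (Matrix.SpecialLinearGroup (Fin (n + 3)) ℤ))
    (M : Type) [AddCommGroup M] [Nontrivial M] : ¬ Sofic (Wreath n p M) := by
  intro hs
  obtain ⟨m, hm⟩ := exists_ne (0 : M)
  obtain ⟨hfi, al, be, k1, k2, a, b, ha, hφa, hb, hφb, hab, h1a, h1b, h2b, h2a, hal, hbe⟩ :=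
    sl_data n p hp
  have hcount : Countable (Matrix.SpecialLinearGroup (Fin (n + 3)) ℤ) := by
    unfold Matrix.SpecialLinearGroup Matrix
    infer_instance
  -- the element `g (c) g⁻¹` of `SL_k(ℤ[1/p])` for `c` in `A`
  have hconj : ∀ c : conjA n p, gI n p * slI (n + 3) p (c : _) * (gI n p)⁻¹ =
      slI (n + 3) p (conjHom n p c) := by
    intro c
    apply slIQ_injective
    rw [map_mul, map_mul, map_inv, slIQ_slI, slIQ_slI, slIQ_gI]
    exact (conjIso_spec (slQ (n + 3)) (slQ_injective (n + 3)) (gEl n p) c).symm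
  have hB : ∀ c : conjA n p, slI (n + 3) p (conjHom n p c) ∈ comB n p := by
    intro c
    refine ⟨⟨_, rfl⟩, ?_⟩
    rw [← hconj c]
    exact ⟨slI (n + 3) p c, ⟨_, rfl⟩, rfl⟩
  obtain ⟨i₁, hi₁⟩ : ∃ i₁ : Matrix.SpecialLinearGroup (Fin (n + 3)) ℤ →* Wreath n p M,
      ∀ c, i₁ c = SemidirectProduct.inr (gI n p * slI (n + 3) p c * (gI n p)⁻¹) :=
    ⟨SemidirectProduct.inr.comp
      ((MulAut.conj (gI n p)).toMonoidHom.comp (slI (n + 3) p)), fun c => rfl⟩
  obtain ⟨i₂, hi₂⟩ : ∃ i₂ : Matrix.SpecialLinearGroup (Fin (n + 3)) ℤ →* Wreath n p M,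
      ∀ c, i₂ c = lamp (comB n p) m * SemidirectProduct.inr (slI (n + 3) p c) *
        (lamp (comB n p) m)⁻¹ :=
    ⟨(MulAut.conj (lamp (comB n p) m)).toMonoidHom.comp
      (SemidirectProduct.inr.comp (slI (n + 3) p)), fun c => rfl⟩
  have h1 := commute_of_sofic hG hst (conjA n p) (conjHom n p) hp hab h1a h1b h2b h2a a b ha hφa hb
    hφb hs i₁ i₂ (by
      intro c
      rw [hi₁, hi₂, hconj c, lamp_comm _ m (hB c)])
  rw [hi₁, hi₂] at h1
  have hb' : gI n p * slI (n + 3) p be * (gI n p)⁻¹ ∉ (slI (n + 3) p).range := by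
    rintro ⟨d, hd⟩
    apply hbe
    rw [mem_conjSub]
    refine ⟨d, ?_⟩
    rw [← slIQ_slI (n + 3) p d, hd, map_mul, map_mul, map_inv, slIQ_slI, slIQ_gI]
  refine lamp_ne (comB n p) hm ?_ ?_ ?_ h1
  · rintro ⟨_, y, ⟨d, rfl⟩, hy⟩
    apply hal
    rw [mem_conjSub]
    refine ⟨d, ?_⟩
    have h2 : gI n p * slI (n + 3) p d * (gI n p)⁻¹ = slI (n + 3) p al := hy
    rw [← slIQ_slI (n + 3) p al, ← h2, map_mul, map_mul, map_inv, slIQ_slI, slIQ_gI]
    group
  · intro h
    exact hb' h.1
  · intro h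
    apply hb'
    have h2 := (slI (n + 3) p).range.mul_mem h.1 ((slI (n + 3) p).range.inv_mem ⟨al, rfl⟩)
    rwa [mul_inv_cancel_right] at h2

end Pool.Agent.FS84
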